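import Mathlib
import Pool.Agent.H34.LK.Red2

set_option autoImplicit false
set_option linter.unusedSectionVars false

/-!
# LKU module ACut (difficulty 2): cuts in a minimal counterexample
-/

open scoped Classical

noncomputable section

namespace LKU

open Finset H34.LK Pool.Agent.LocalConn

variable {V : Type} [Fintype V]

/-- a cut between `x` and `y` in the subgraph induced on `s`, small on the side of `x` -/
def PCut (G : SimpleGraph V) (s : Finset V) (k : ℕ) (x y : V) (X T : Finset V) : Prop :=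
  X ⊆ s ∧ T ⊆ s ∧ x ∈ X ∧ y ∉ X ∧ y ∉ T ∧ T.card ≤ k ∧ ((X ∪ T).card : ℝ) ≤ 16 * k ∧
    ∀ u ∈ X, ∀ w ∈ s, G.Adj u w → w ∈ X ∪ T ∨ (u = x ∧ w = y)

theorem pair_cut {G : SimpleGraph V} {k : ℕ} (hG : LocalConnLe G k) {b : ℝ} (hb : 1 ≤ b * k)
    {s : Finset V}
    (IH : ∀ t : Finset V, t.card < s.card → (16 : ℝ) * k ≤ t.card →
      (e2 G t : ℝ) ≤ 2 * b * k * (t.card - k))
    (hs : 2 * b * k * (s.card - k) < (e2 G s : ℝ)) {x y : V} (hx : x ∈ s) (hy : y ∈ s)
    (hxy : x ≠ y) :
    (∃ X T : Finset V, PCut G s k x y X T) ∨ ∃ X T : Finset V, PCut G s k y x X T := by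
  obtain ⟨A, T, hAs, hTs, hxA, hyA, hxT, hyT, hAT, hcl, hTk, hTk'⟩ := exists_cut_in G hG hx hy hxy
  have hsplit := e2_split G hcl
  have hc1 : (A ∪ T).card + (s \ A).card = s.card + T.card := by
    rw [Finset.card_union_of_disjoint hAT]
    have := Finset.card_sdiff_add_card_eq_card hAs
    omega
  have hlt1 : (A ∪ T).card < s.card := by
    have : (A ∪ T) ⊂ s := by
      rw [Finset.ssubset_iff_of_subset (Finset.union_subset hAs hTs)]
      exact ⟨y, hy, fun h => (Finset.mem_union.1 h).elim hyA hyT⟩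
    exact Finset.card_lt_card this
  have hlt2 : (s \ A).card < s.card := by
    have : (s \ A) ⊂ s := by
      rw [Finset.ssubset_iff_of_subset Finset.sdiff_subset]
      exact ⟨x, hx, fun h => (Finset.mem_sdiff.1 h).2 hxA⟩
    exact Finset.card_lt_card this
  have hβ0 : 0 ≤ b * k := by linarith
  by_cases h1 : (16 : ℝ) * k ≤ (A ∪ T).card
  · by_cases h2 : (16 : ℝ) * k ≤ (s \ A).card
    · -- both sides are large: contradiction
      exfalso
      have i1 := IH _ hlt1 h1
      have i2 := IH _ hlt2 h2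
      have hc1' : ((A ∪ T).card : ℝ) + (s \ A).card = s.card + T.card := by exact_mod_cast hc1
      have hsplit' : (e2 G s : ℝ) ≤ e2 G (A ∪ T) + e2 G (s \ A) +
          (if G.Adj x y then 2 else 0) := by
        have : (e2 G s : ℝ) ≤ ((e2 G (A ∪ T) + e2 G (s \ A) +
          (if G.Adj x y then 2 else 0) : ℕ) : ℝ) := by exact_mod_cast hsplit
        push_cast at this
        exact this
      have hTk0 : (T.card : ℝ) ≤ k := by exact_mod_cast hTk
      have e : 2 * b * k * (((A ∪ T).card : ℝ) - k) + 2 * b * k * ((s \ A).card - k) =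
          2 * (b * k) * (s.card - k) + 2 * (b * k) * (T.card - k) := by
        have : ((s \ A).card : ℝ) = s.card + T.card - (A ∪ T).card := by linarith
        rw [this]; ring
      by_cases hadj : G.Adj x y
      · rw [if_pos hadj] at hsplit'
        have h3 : (T.card : ℝ) + 1 ≤ k := by exact_mod_cast hTk' hadj
        have h4 : 2 * (b * k) * (T.card - k) ≤ 2 * (b * k) * (-1) :=
          mul_le_mul_of_nonneg_left (by linarith) (by linarith)
        nlinarith
      · rw [if_neg hadj] at hsplit'
        have h4 : 2 * (b * k) * (T.card - k) ≤ 0 :=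
          mul_nonpos_of_nonneg_of_nonpos (by linarith) (by linarith)
        nlinarith
    · -- the side of `y` is small
      right
      push Not at h2
      refine ⟨s \ (A ∪ T), T, Finset.sdiff_subset, hTs, ?_, ?_, hxT, hTk, ?_, ?_⟩
      · rw [Finset.mem_sdiff, Finset.mem_union]
        exact ⟨hy, fun h => h.elim hyA hyT⟩
      · rw [Finset.mem_sdiff, Finset.mem_union]
        exact fun h => h.2 (Or.inl hxA)
      · have hsub : s \ (A ∪ T) ∪ T ⊆ s \ A := by
          intro v hv
          rw [Finset.mem_union, Finset.mem_sdiff, Finset.mem_union] at hv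
          rw [Finset.mem_sdiff]
          rcases hv with hv | hv
          · exact ⟨hv.1, fun h => hv.2 (Or.inl h)⟩
          · exact ⟨hTs hv, fun h => (Finset.disjoint_left.1 hAT h) hv⟩
        have h4 : ((s \ (A ∪ T) ∪ T).card : ℝ) ≤ (s \ A).card := by
          exact_mod_cast Finset.card_le_card hsub
        linarith
      · intro u hu w hw huw
        rw [Finset.mem_sdiff, Finset.mem_union, not_or] at hu
        by_cases hwA : w ∈ A
        · rcases hcl w hwA u hu.1 huw.symm with h | h | h
          · exact absurd h hu.2.1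
          · exact absurd h hu.2.2
          · exact Or.inr ⟨h.2, h.1⟩
        · left
          rw [Finset.mem_union, Finset.mem_sdiff, Finset.mem_union]
          by_cases hwT : w ∈ T
          · exact Or.inr hwT
          · exact Or.inl ⟨hw, fun h => h.elim hwA hwT⟩
  · -- the side of `x` is small
    left
    push Not at h1
    refine ⟨A, T, hAs, hTs, hxA, hyA, hyT, hTk, h1.le, ?_⟩
    intro u hu w hw huw
    rw [Finset.mem_union]
    rcases hcl u hu w hw huw with h | h | h
    · exact Or.inl (Or.inl h)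
    · exact Or.inl (Or.inr h)
    · exact Or.inr h

theorem ACut_nW {G : SimpleGraph V} {s S : Finset V} (hS : S ⊆ s) (v : V) :
    nW G v s = nW G v S + nW G v (s \ S) := by
  rw [nW, nW, nW, ← Finset.card_union_of_disjoint]
  · rw [← Finset.filter_union, Finset.union_sdiff_of_subset hS]
  · exact Finset.disjoint_filter_filter Finset.disjoint_sdiff

theorem ACut_comm {G : SimpleGraph V} (A B : Finset V) :
    ∑ v ∈ A, nW G v B = ∑ v ∈ B, nW G v A := by
  simp only [nW, Finset.card_filter]
  rw [Finset.sum_comm]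
  refine Finset.sum_congr rfl fun v _ => Finset.sum_congr rfl fun w _ => ?_
  simp only [G.adj_comm v w]

theorem e2_split_eq {G : SimpleGraph V} {s S : Finset V} (hS : S ⊆ s) :
    (e2 G s : ℝ) = e2 G (s \ S) + e2 G S + 2 * ∑ v ∈ S, (nW G v (s \ S) : ℝ) := by
  have h1 : e2 G s = e2 G (s \ S) + e2 G S + 2 * ∑ v ∈ S, nW G v (s \ S) := by
    rw [e2, e2, e2, ← Finset.sum_sdiff hS]
    have h2 : ∑ v ∈ s \ S, nW G v s =
        ∑ v ∈ s \ S, nW G v S + ∑ v ∈ s \ S, nW G v (s \ S) := by
      rw [← Finset.sum_add_distrib]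
      exact Finset.sum_congr rfl fun v _ => ACut_nW hS v
    have h3 : ∑ v ∈ S, nW G v s = ∑ v ∈ S, nW G v S + ∑ v ∈ S, nW G v (s \ S) := by
      rw [← Finset.sum_add_distrib]
      exact Finset.sum_congr rfl fun v _ => ACut_nW hS v
    have h4 := ACut_comm (G := G) (s \ S) S
    omega
  rw [h1]
  push_cast
  rfl

theorem remove_lt {G : SimpleGraph V} {k : ℕ} {b : ℝ} {s S : Finset V}
    (IH : ∀ t : Finset V, t.card < s.card → (16 : ℝ) * k ≤ t.card →
      (e2 G t : ℝ) ≤ 2 * b * k * (t.card - k))
    (hs : 2 * b * k * (s.card - k) < (e2 G s : ℝ)) (hS : S ⊆ s) (hne : S.Nonempty)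
    (hc : (16 : ℝ) * k + S.card ≤ s.card) :
    2 * b * k * S.card < (e2 G S : ℝ) + 2 * ∑ v ∈ S, (nW G v (s \ S) : ℝ) := by
  have h1 : (s \ S).card + S.card = s.card := Finset.card_sdiff_add_card_eq_card hS
  have h2 : 0 < S.card := Finset.card_pos.2 hne
  have h3 : ((s \ S).card : ℝ) + S.card = s.card := by exact_mod_cast h1
  have h4 := IH (s \ S) (by omega) (by linarith)
  have h5 := e2_split_eq (G := G) hS
  have h6 : ((s \ S).card : ℝ) = s.card - S.card := by linarith
  rw [h6] at h4
  have h7 : 2 * b * k * (s.card - S.card - k) = 2 * b * k * (s.card - k) - 2 * b * k * S.card := by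
    ring
  rw [h7] at h4
  linarith

end LKU
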