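import Pool.Agent.LKU.Defs2

set_option autoImplicit false
set_option linter.unusedSectionVars false

/-!
# LKU: elementary numerical facts and elementary lemmas
-/

open scoped Classical

noncomputable section

namespace LKU

open Finset

theorem sqrt3_lo : (1.7320508 : ℝ) < √3 := by
  apply Real.lt_sqrt_of_sq_lt; norm_num

theorem sqrt3_hi : √3 < (1.7320509 : ℝ) := by
  rw [Real.sqrt_lt' (by norm_num)]; norm_num

theorem sqrt3_sq : √3 * √3 = 3 := Real.mul_self_sqrt (by norm_num)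

theorem be_lo : (0.5358982 : ℝ) < be := by unfold be; linarith [sqrt3_hi]

theorem be_hi : be < (0.5358984 : ℝ) := by unfold be; linarith [sqrt3_lo]

theorem t2_lo : (0.0717964 : ℝ) < t2 := by unfold t2; linarith [sqrt3_hi]

theorem t2_hi : t2 < (0.0717968 : ℝ) := by unfold t2; linarith [sqrt3_lo]

theorem two_be : 2 * be = 1 + t2 := by unfold be t2; ring

theorem t2_pos : 0 < t2 := by linarith [t2_lo]

/-- `(1 + τ²)² = 16 τ²` -/
theorem t2_eq : (1 + t2) ^ 2 = 16 * t2 := by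
  unfold t2; nlinarith [sqrt3_sq]

variable {V : Type} [Fintype V]

theorem mem_nb {G : SimpleGraph V} {S : Finset V} {z v : V} : v ∈ nb G S z ↔ v ∈ S ∧ G.Adj z v := by
  simp [nb]

theorem nb_subset (G : SimpleGraph V) (S : Finset V) (z : V) : nb G S z ⊆ S := filter_subset _ _

theorem nb_mono (G : SimpleGraph V) {S T : Finset V} (h : S ⊆ T) (z : V) : nb G S z ⊆ nb G T z :=
  filter_subset_filter _ h

theorem dn_nonneg (G : SimpleGraph V) (S : Finset V) (z : V) : 0 ≤ dn G S z := by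
  unfold dn; positivity

theorem dn_mono (G : SimpleGraph V) {S T : Finset V} (h : S ⊆ T) (z : V) : dn G S z ≤ dn G T z := by
  unfold dn; exact_mod_cast card_le_card (nb_mono G h z)

theorem dn_le_card (G : SimpleGraph V) (S : Finset V) (z : V) : dn G S z ≤ S.card := by
  unfold dn; exact_mod_cast card_le_card (nb_subset G S z)

theorem dn_le_deg (G : SimpleGraph V) (S : Finset V) (z : V) : dn G S z ≤ deg G z :=
  dn_mono G (subset_univ S) z

theorem mem_bd {G : SimpleGraph V} {S : Finset V} {z : V} : z ∈ bd G S ↔ z ∉ S ∧ ∃ v ∈ S, G.Adj z v := by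
  simp [bd]

theorem mem_tb {G : SimpleGraph V} {h : ℝ} {S : Finset V} {z : V} :
    z ∈ tb G h S ↔ z ∉ S ∧ h ≤ dn G S z := by
  simp [tb]

theorem tb_subset_bd {G : SimpleGraph V} {h : ℝ} (hh : 0 < h) (S : Finset V) : tb G h S ⊆ bd G S := by
  intro z hz
  rw [mem_tb] at hz
  rw [mem_bd]
  refine ⟨hz.1, ?_⟩
  have h1 : 0 < dn G S z := lt_of_lt_of_le hh hz.2
  unfold dn at h1
  have h2 : 0 < (nb G S z).card := by exact_mod_cast h1
  obtain ⟨v, hv⟩ := card_pos.1 h2
  rw [mem_nb] at hv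
  exact ⟨v, hv.1, hv.2⟩

theorem mem_NN {G : SimpleGraph V} {e1 : ℝ} {C : Finset V} {z : V} :
    z ∈ NN G e1 C ↔ e1 * C.card ≤ dn G C z := by
  simp [NN]

theorem mem_tau {G : SimpleGraph V} {𝒞 : Finset (Finset V)} {e1 : ℝ} {x : V} {C : Finset V} :
    C ∈ tau G 𝒞 e1 x ↔ C ∈ 𝒞 ∧ e1 * C.card ≤ dn G C x := by
  simp [tau]

theorem mem_UU {𝒟 : Finset (Finset V)} {v : V} : v ∈ UU 𝒟 ↔ ∃ C ∈ 𝒟, v ∈ C := by
  simp [UU]

/-- double counting -/
theorem sum_dn_comm (G : SimpleGraph V) (S T : Finset V) :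
    ∑ z ∈ S, dn G T z = ∑ v ∈ T, dn G S v := by
  unfold dn nb
  have h : ∀ A B : Finset V, ∑ z ∈ A, ((B.filter fun v => G.Adj z v).card : ℝ) =
      ∑ z ∈ A, ∑ v ∈ B, if G.Adj z v then (1 : ℝ) else 0 := by
    intro A B
    refine sum_congr rfl fun z _ => ?_
    rw [card_filter]; push_cast; rfl
  rw [h, h, sum_comm]
  refine sum_congr rfl fun v _ => sum_congr rfl fun z _ => ?_
  simp [G.adj_comm]

theorem Cut.xx {G : SimpleGraph V} {k M : ℝ} {x y : V} {X : Finset V} (h : Cut G k M x y X) :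
    XX G k M X := by
  refine ⟨h.2.2.1, ?_⟩
  have h1 : (bd G X).card ≤ ((bd G X).erase y).card + 1 := by
    have := pred_card_le_card_erase (s := bd G X) (a := y)
    omega
  have h2 : ((bd G X).card : ℝ) ≤ ((bd G X).erase y).card + 1 := by exact_mod_cast h1
  linarith [h.2.2.2.1]

/-- the neighbours of a member of `X` lie in `X ∪ bd X` -/
theorem nb_subset_union {G : SimpleGraph V} {X : Finset V} {x : V} (hx : x ∈ X) :
    nb G univ x ⊆ X ∪ bd G X := by
  intro v hv
  rw [mem_nb] at hv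
  by_cases h : v ∈ X
  · exact mem_union_left _ h
  · exact mem_union_right _ (mem_bd.2 ⟨h, x, hx, hv.2.symm⟩)

theorem card_union_bd_le {G : SimpleGraph V} {k M : ℝ} {X : Finset V} (hk : 1 ≤ k)
    (h : XX G k M X) : ((X ∪ bd G X).card : ℝ) ≤ (M + 2) * k := by
  have h1 : ((X ∪ bd G X).card : ℝ) ≤ X.card + (bd G X).card := by exact_mod_cast card_union_le _ _
  have := h.1
  have := h.2
  linarith

theorem Guar.mono {e e' g φ l : ℝ} (h : Guar e g φ l) (he : e ≤ e') : Guar e' g φ l := by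
  rcases h with h | ⟨h1, h2⟩
  · left; linarith
  · right
    refine ⟨fun hg => by linarith [h1 hg], ?_⟩
    rcases h2 with h2 | h2
    · left; linarith
    · right; linarith

/-- sum of the sizes of disjoint sets -/
theorem sum_card_le {𝒟 : Finset (Finset V)} (hdj : ∀ C ∈ 𝒟, ∀ C' ∈ 𝒟, C ≠ C' → Disjoint C C')
    (S : Finset V) : ∑ C ∈ 𝒟, ((C ∩ S).card : ℝ) ≤ S.card := by
  have : ∑ C ∈ 𝒟, (C ∩ S).card ≤ S.card := by
    rw [← card_biUnion]
    · exact card_le_card (biUnion_subset.2 fun C _ => inter_subset_right)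
    · intro C hC C' hC' hne
      exact (hdj C hC C' hC' hne).mono inter_subset_left inter_subset_left
  exact_mod_cast this

theorem sum_card_univ_le {𝒟 : Finset (Finset V)} (hdj : ∀ C ∈ 𝒟, ∀ C' ∈ 𝒟, C ≠ C' → Disjoint C C') :
    ∑ C ∈ 𝒟, (C.card : ℝ) ≤ Fintype.card V := by
  have := sum_card_le hdj univ
  simpa using this

/-- the neighbours of `x` in disjoint sets -/
theorem sum_dn_le_deg {G : SimpleGraph V} {𝒟 : Finset (Finset V)}
    (hdj : ∀ C ∈ 𝒟, ∀ C' ∈ 𝒟, C ≠ C' → Disjoint C C') (x : V) :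
    ∑ C ∈ 𝒟, dn G C x ≤ deg G x := by
  have h := sum_card_le hdj (nb G univ x)
  refine le_trans (le_of_eq (sum_congr rfl fun C _ => ?_)) h
  unfold dn
  congr 2
  ext v
  simp [mem_nb]

end LKU
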