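import Pool.Agent.LKU.ACut
import Pool.Agent.LKU.Num

set_option autoImplicit false
set_option linter.unusedSectionVars false

/-!
# LKU module AGood (difficulty 3): a minimal counterexample contains a good graph

`s` is the minimal counterexample. Let `s' = {v ∈ s : ∃ y ∈ s, ∃ X T, PCut G s k v y X T}`. By `pair_cut` two different vertices of `s` cannot both be outside `s'`, so
`|s \ s'| ≤ 1`. Let `G' = G.comap Subtype.val` on `{v // v ∈ s'}`. `Good G' k 20 ε0`:
* `deg_ge`: for `v ∈ s'`: `remove_lt` with `S = {v}`: `2 b k < 2 nW v (s \ {v})`, so `v` has more than `b k` neighbours in `s`, and at least `b k - 1 ≥ be k` neighbours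
  in `s'` (`b = be + ε`, `1 ≤ ε k`).
* `deg_le`: `v ∈ X` for a `PCut v y X T`: its neighbours in `s` are in `X ∪ T ∪ {y}`: at most `16 k + 1 ≤ 20 k`.
* `cut`: for `x ≠ y` in `s'` take the `PCut` (say for `(x, y)`), `X' = {v : v.1 ∈ X}`: `x ∈ X'`, `y ∉ X'`, `|X'| ≤ 16 k`; `z ∈ bd G' X'`, `z ≠ y`: `z` is adjacent
  to some `v ∈ X`, `z ∉ X`, so `z ∈ T` (the exception `v = x, z = y` is excluded): at most `k` vertices; `v ∈ X'` adjacent to `y`: `y ∉ X ∪ T`, so `v = x`.
* `exp`: let `S' ⊆ {v // v ∈ s'}`, `|S'| ≤ 20 k`, `S` its image in `V`. If `S = ∅` both sides are trivial. Otherwise `remove_lt` (`40 k ≤ |s|`) and `hdense`: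
  `2 ∑_{v ∈ S} nW v (s \ S) > 2 b k |S| - k |S| - ε1 k^2`; `nW v (s \ S) ≤ nW v (s' \ S) + 1` and `dn G' S'ᶜ v = nW v (s' \ S)`; so
  `∑_{v ∈ S'} dn G' S'ᶜ v ≥ (b - 1/2) k |S| - ε1 k^2/2 - |S| ≥ (be - 1/2) k |S| - ε0 k^2` (`b = be + ε`, `1 ≤ ε k`, `ε1 ≤ ε0`).

`sum_deg_sub`: `e2 G s ≤ ∑_{v} deg G' v + 2 |s|`: `e2_split_eq` with `S = s \ s'` (at most one vertex).
-/

open scoped Classical

noncomputable section

namespace LKU

open Finset H34.LK Pool.Agent.LocalConn

variable {V : Type} [Fintype V]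

theorem AGood_mem_erase {α : Type} (d : DecidableEq α) (S : Finset α) (a b : α)
    (h : a ∈ S.erase b) : a ≠ b ∧ a ∈ S := Finset.mem_erase.1 h

theorem AGood_mem_compl {α : Type} (f : Fintype α) (d : DecidableEq α) (S : Finset α) (a : α) :
    a ∈ Sᶜ ↔ a ∉ S := Finset.mem_compl

theorem AGood_dn (G : SimpleGraph V) {s' : Finset V} (S : Finset {v // v ∈ s'})
    (v : {v // v ∈ s'}) :
    dn (G.comap (Subtype.val : {v // v ∈ s'} → V)) S v =
      (nW G v.1 (S.map (Function.Embedding.subtype _)) : ℝ) := by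
  unfold dn nb nW
  rw [Finset.filter_map, Finset.card_map]
  rfl

theorem AGood_map_univ (s' : Finset V) :
    (univ : Finset {v // v ∈ s'}).map (Function.Embedding.subtype _) = s' := by
  rw [Finset.univ_eq_attach, Finset.attach_map_val]

theorem AGood_map_compl {s' : Finset V} (S S'' : Finset {v // v ∈ s'})
    (hS : ∀ v, v ∈ S'' ↔ v ∉ S) :
    S''.map (Function.Embedding.subtype _) = s' \ S.map (Function.Embedding.subtype _) := by
  ext v
  simp only [Finset.mem_map, hS, Function.Embedding.coe_subtype, Finset.mem_sdiff]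
  constructor
  · rintro ⟨w, hw, rfl⟩
    refine ⟨w.2, ?_⟩
    rintro ⟨u, hu, huw⟩
    rw [Subtype.ext huw] at hu
    exact hw hu
  · rintro ⟨hv, h⟩
    exact ⟨⟨v, hv⟩, fun h1 => h ⟨⟨v, hv⟩, h1, rfl⟩, rfl⟩

theorem AGood_nW_add {G : SimpleGraph V} {A B : Finset V} {c : ℕ} (h : (A \ B).card ≤ c) (v : V) :
    (nW G v A : ℝ) ≤ nW G v B + c := by
  have h1 : nW G v A ≤ nW G v B + c := by
    unfold nW
    refine le_trans (Finset.card_le_card (t := (B.filter fun w => G.Adj v w) ∪ (A \ B)) ?_)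
      ((Finset.card_union_le _ _).trans (Nat.add_le_add_left h _))
    intro w hw
    rw [Finset.mem_filter] at hw
    rw [Finset.mem_union, Finset.mem_filter, Finset.mem_sdiff]
    by_cases hB : w ∈ B
    · exact Or.inl ⟨hB, hw.2⟩
    · exact Or.inr ⟨hw.1, hB⟩
  exact_mod_cast h1

theorem AGood_nW_mono {G : SimpleGraph V} {A B : Finset V} (h : A ⊆ B) (v : V) :
    (nW G v A : ℝ) ≤ nW G v B := by
  have h1 : nW G v A ≤ nW G v B := by
    unfold nW
    exact Finset.card_le_card (Finset.filter_subset_filter _ h)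
  exact_mod_cast h1

theorem AGood_nW_self (G : SimpleGraph V) (v : V) : nW G v {v} = 0 := by
  unfold nW
  rw [Finset.card_eq_zero, Finset.filter_eq_empty_iff]
  intro w hw
  rw [Finset.mem_singleton] at hw
  subst hw
  exact G.irrefl

theorem AGood_cut {G : SimpleGraph V} {k : ℕ} {s s' : Finset V} (hs' : s' ⊆ s)
    {x y : {v // v ∈ s'}} {X T : Finset V} (h : PCut G s k x.1 y.1 X T) :
    Cut (G.comap (Subtype.val : {v // v ∈ s'} → V)) k 20 x y
      (univ.filter fun v => v.1 ∈ X) := by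
  obtain ⟨hXs, hTs, hx, hyX, hyT, hTk, hXT, hcl⟩ := h
  refine ⟨?_, ?_, ?_, ?_, ?_⟩
  · rw [Finset.mem_filter]
    exact ⟨Finset.mem_univ _, hx⟩
  · rw [Finset.mem_filter]
    exact fun h => hyX h.2
  · have h1 : (univ.filter fun v : {v // v ∈ s'} => v.1 ∈ X).card ≤ (X ∪ T).card := by
      rw [← Finset.card_map (Function.Embedding.subtype _)]
      apply Finset.card_le_card
      intro v hv
      rw [Finset.mem_map] at hv
      obtain ⟨w, hw, rfl⟩ := hv
      exact Finset.mem_union_left _ (Finset.mem_filter.1 hw).2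
    have h2 : ((univ.filter fun v : {v // v ∈ s'} => v.1 ∈ X).card : ℝ) ≤ (X ∪ T).card := by
      exact_mod_cast h1
    have h3 : (0 : ℝ) ≤ k := Nat.cast_nonneg _
    linarith
  · have h3 : (T.card : ℝ) ≤ k := by exact_mod_cast hTk
    refine le_trans ?_ h3
    rw [Nat.cast_le, ← Finset.card_map (Function.Embedding.subtype _)]
    apply Finset.card_le_card
    intro v hv
    rw [Finset.mem_map] at hv
    obtain ⟨z, hz, rfl⟩ := hv
    obtain ⟨hzy, hz'⟩ := AGood_mem_erase _ _ _ _ hz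
    obtain ⟨hzX, w, hw, hzw⟩ := mem_bd.1 hz'
    have hwX : w.1 ∈ X := (Finset.mem_filter.1 hw).2
    have hzX' : z.1 ∉ X := fun h => hzX (Finset.mem_filter.2 ⟨Finset.mem_univ _, h⟩)
    have hadj : G.Adj w.1 z.1 := by
      have h2 : G.Adj z.1 w.1 := hzw
      exact h2.symm
    rcases hcl w.1 hwX z.1 (hs' z.2) hadj with h2 | h2
    · rcases Finset.mem_union.1 h2 with h3 | h3
      · exact absurd h3 hzX'
      · exact h3
    · exact absurd (Subtype.ext h2.2) hzy
  · intro v hv hyv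
    have hvX : v.1 ∈ X := (Finset.mem_filter.1 hv).2
    have hadj : G.Adj v.1 y.1 := by
      have h2 : G.Adj y.1 v.1 := hyv
      exact h2.symm
    rcases hcl v.1 hvX y.1 (hs' y.2) hadj with h2 | h2
    · rcases Finset.mem_union.1 h2 with h3 | h3
      · exact absurd h3 hyX
      · exact absurd h3 hyT
    · exact Subtype.ext h2.1

theorem good_sub {G : SimpleGraph V} {k : ℕ} (hG : LocalConnLe G k) {b ε ε0 ε1 : ℝ}
    (hk : 1 ≤ k) (hε : 0 < ε) (hb : b = be + ε) (hεk : 1 ≤ ε * k) (hbk : 1 ≤ b * k)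
    (hε1 : 0 < ε1) (hε10 : ε1 ≤ ε0) {s : Finset V}
    (hdense : ∀ t : Finset V, (t.card : ℝ) ≤ 20 * k → (e2 G t : ℝ) ≤ k * t.card + ε1 * k ^ 2)
    (IH : ∀ t : Finset V, t.card < s.card → (16 : ℝ) * k ≤ t.card →
      (e2 G t : ℝ) ≤ 2 * b * k * (t.card - k))
    (hs : 2 * b * k * (s.card - k) < (e2 G s : ℝ)) (hbig : (40 : ℝ) * k ≤ s.card) :
    ∃ s' : Finset V, s' ⊆ s ∧ (s \ s').card ≤ 1 ∧
      Good (G.comap (Subtype.val : {v // v ∈ s'} → V)) k 20 ε0 ∧
      (e2 G s : ℝ) ≤ ∑ v : {v // v ∈ s'}, deg (G.comap (Subtype.val : {v // v ∈ s'} → V)) v +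
        2 * s.card := by
  have hk1 : (1 : ℝ) ≤ k := by exact_mod_cast hk
  have hk0 : (0 : ℝ) ≤ k := by linarith
  set s' : Finset V := s.filter fun v => ∃ y ∈ s, ∃ X T, PCut G s k v y X T with hs'def
  have hs's : s' ⊆ s := Finset.filter_subset _ _
  have hone : (s \ s').card ≤ 1 := by
    rw [Finset.card_le_one]
    intro u hu w hw
    rw [Finset.mem_sdiff] at hu hw
    by_contra huw
    rcases pair_cut hG hbk IH hs hu.1 hw.1 huw with ⟨X, T, h⟩ | ⟨X, T, h⟩
    · exact hu.2 (Finset.mem_filter.2 ⟨hu.1, w, hw.1, X, T, h⟩)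
    · exact hw.2 (Finset.mem_filter.2 ⟨hw.1, u, hu.1, X, T, h⟩)
  have hdeg : ∀ v : {v // v ∈ s'}, deg (G.comap (Subtype.val : {v // v ∈ s'} → V)) v =
      (nW G v.1 s' : ℝ) := by
    intro v
    unfold deg
    rw [AGood_dn, AGood_map_univ]
  refine ⟨s', hs's, hone, ⟨hk1, ?_, ?_, ?_, ?_⟩, ?_⟩
  · intro v
    rw [hdeg]
    have hv := hs's v.2
    have h1 := remove_lt (S := {v.1}) IH hs (Finset.singleton_subset_iff.2 hv)
      (Finset.singleton_nonempty _) (by rw [Finset.card_singleton]; push_cast; linarith)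
    have h2 : e2 G {v.1} = 0 := by
      unfold e2
      rw [Finset.sum_singleton, AGood_nW_self]
    rw [h2, Finset.card_singleton, Finset.sum_singleton] at h1
    have h3 : (nW G v.1 (s \ {v.1}) : ℝ) ≤ nW G v.1 s := AGood_nW_mono Finset.sdiff_subset _
    have h4 : (nW G v.1 s : ℝ) ≤ nW G v.1 s' + (1 : ℕ) := AGood_nW_add hone _
    push_cast at h1 h4
    rw [hb] at h1
    linarith
  · intro v
    rw [hdeg]
    obtain ⟨y, hy, X, T, h⟩ := (Finset.mem_filter.1 v.2).2
    obtain ⟨hXs, hTs, hx, hyX, hyT, hTk, hXT, hcl⟩ := h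
    have h1 : nW G v.1 s' ≤ (insert y (X ∪ T)).card := by
      unfold nW
      apply Finset.card_le_card
      intro w hw
      rw [Finset.mem_filter] at hw
      rw [Finset.mem_insert]
      rcases hcl v.1 hx w (hs's hw.1) hw.2 with h2 | h2
      · exact Or.inr h2
      · exact Or.inl h2.2
    have h2 := h1.trans (Finset.card_insert_le _ _)
    have h3 : (nW G v.1 s' : ℝ) ≤ (X ∪ T).card + 1 := by exact_mod_cast h2
    linarith
  · intro x y hxy
    rcases pair_cut hG hbk IH hs (hs's x.2) (hs's y.2) (fun h => hxy (Subtype.ext h)) with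
      ⟨X, T, h⟩ | ⟨X, T, h⟩
    · exact Or.inl ⟨_, AGood_cut hs's h⟩
    · exact Or.inr ⟨_, AGood_cut hs's h⟩
  · intro S hS
    set S1 : Finset V := S.map (Function.Embedding.subtype _) with hS1
    have hS1s' : S1 ⊆ s' := by
      intro v hv
      rw [hS1, Finset.mem_map] at hv
      obtain ⟨w, -, rfl⟩ := hv
      exact w.2
    have hcard : S1.card = S.card := Finset.card_map _
    have hsum : ∀ S'' : Finset {v // v ∈ s'}, (∀ v, v ∈ S'' ↔ v ∉ S) →
        ∑ v ∈ S, dn (G.comap (Subtype.val : {v // v ∈ s'} → V)) S'' v =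
        ∑ v ∈ S1, (nW G v (s' \ S1) : ℝ) := by
      intro S'' hS''
      rw [hS1, Finset.sum_map]
      apply Finset.sum_congr rfl
      intro v _
      rw [AGood_dn, AGood_map_compl S S'' hS'']
      rfl
    refine le_trans ?_ (le_of_eq (hsum _ (fun v => AGood_mem_compl _ _ _ _)).symm)
    rw [← hcard]
    rw [← hcard] at hS
    rcases Finset.eq_empty_or_nonempty S1 with he | hne
    · rw [he]
      simp only [Finset.card_empty, Nat.cast_zero, mul_zero, Finset.sum_empty, zero_sub]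
      have : 0 ≤ ε0 * (k : ℝ) ^ 2 := mul_nonneg (by linarith) (by positivity)
      linarith
    · have h1 := remove_lt IH hs (hS1s'.trans hs's) hne (by linarith)
      have h2 := hdense S1 hS
      have h3 : ∑ v ∈ S1, (nW G v (s \ S1) : ℝ) ≤ ∑ v ∈ S1, ((nW G v (s' \ S1) : ℝ) + 1) := by
        apply Finset.sum_le_sum
        intro v _
        have h4 : ((s \ S1) \ (s' \ S1)).card ≤ 1 := by
          refine (Finset.card_le_card ?_).trans hone
          intro w hw
          simp only [Finset.mem_sdiff, not_and, not_not] at hw ⊢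
          exact ⟨hw.1.1, fun h => hw.1.2 (hw.2 h)⟩
        have h5 := AGood_nW_add (G := G) h4 v
        push_cast at h5
        exact h5
      rw [Finset.sum_add_distrib, Finset.sum_const, nsmul_eq_mul, mul_one] at h3
      have h6 : (0 : ℝ) ≤ S1.card := Nat.cast_nonneg _
      have h7 : 0 ≤ (ε * k - 1) * (S1.card : ℝ) := mul_nonneg (by linarith) h6
      have h8 : ε1 * (k : ℝ) ^ 2 ≤ ε0 * k ^ 2 := mul_le_mul_of_nonneg_right hε10 (by positivity)
      have h9 : 0 ≤ ε1 * (k : ℝ) ^ 2 := by positivity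
      rw [hb] at h1
      nlinarith
  · have h1 := e2_split_eq (G := G) (s := s) (S := s \ s') Finset.sdiff_subset
    rw [Finset.sdiff_sdiff_eq_self hs's] at h1
    have h2 : ∑ v : {v // v ∈ s'}, deg (G.comap (Subtype.val : {v // v ∈ s'} → V)) v =
        (e2 G s' : ℝ) := by
      unfold e2
      push_cast
      rw [← Finset.sum_coe_sort s' (fun v => (nW G v s' : ℝ))]
      exact Finset.sum_congr rfl (fun v _ => hdeg v)
    rw [h2, h1]
    have h9 : s \ s' = ∅ ∨ ∃ v, s \ s' = {v} := by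
      rcases Finset.eq_empty_or_nonempty (s \ s') with h3 | ⟨v, hv⟩
      · exact Or.inl h3
      · refine Or.inr ⟨v, ?_⟩
        rw [Finset.eq_singleton_iff_unique_mem]
        exact ⟨hv, fun w hw => Finset.card_le_one.1 hone w hw v hv⟩
    rcases h9 with h3 | ⟨v, h3⟩
    · rw [h3]
      unfold e2
      simp
    · rw [h3]
      have h4 : e2 G {v} = 0 := by
        unfold e2
        rw [Finset.sum_singleton, AGood_nW_self]
      rw [h4, Finset.sum_singleton]
      have h5 : (nW G v s' : ℝ) ≤ s'.card := by exact_mod_cast nW_le G v s'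
      have h6 : (s'.card : ℝ) ≤ s.card := by exact_mod_cast Finset.card_le_card hs's
      push_cast
      linarith

end LKU
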