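import Pool.Agent.LKU.Asm2

set_option autoImplicit false
set_option linter.unusedSectionVars false

/-!
# LKU: assembly, part 3: choice of the parameters
-/

open scoped Classical

noncomputable section

namespace LKU

open Finset

theorem good_bound (M ε : ℝ) (hM : 1 ≤ M) (hε : 0 < ε) :
    ∃ ε0 : ℝ, 0 < ε0 ∧ ∃ k0 : ℝ, ∀ k : ℝ, k0 ≤ k → ∀ (V : Type) [Fintype V]
      (G : SimpleGraph V), Good G k M ε0 →
      ∑ v, deg G v ≤ (2 * be + ε) * k * Fintype.card V := by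
  have hM0 : 0 < M := by linarith
  obtain ⟨eh, heh, g0, hg0, ε', hε', HI⟩ := hub_ineq (ε / 8) (by positivity)
  obtain ⟨e, he, hee, hee'⟩ : ∃ e : ℝ, 0 < e ∧ e ≤ eh ∧ (M + 9) * e ≤ ε / 8 := by
    refine ⟨min eh (ε / 8 / (M + 9)), lt_min heh (by positivity), min_le_left _ _, ?_⟩
    have h := min_le_right eh (ε / 8 / (M + 9))
    rw [le_div_iff₀ (by positivity)] at h
    linarith
  obtain ⟨es, hes, RG⟩ := region e g0 M he hg0 hM
  obtain ⟨εa, hεa, hεa1, hεa2, hεa3⟩ : ∃ εa : ℝ, 0 < εa ∧ εa ≤ 1 ∧ εa ≤ ε' ∧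
      10 * (M + 1) * εa ≤ ε / 8 := by
    refine ⟨min (min ε' 1) (ε / 8 / (10 * (M + 1))), ?_, ?_, ?_, ?_⟩
    · exact lt_min (lt_min hε' one_pos) (by positivity)
    · exact (min_le_left _ _).trans (min_le_right _ _)
    · exact (min_le_left _ _).trans (min_le_left _ _)
    · have h := min_le_right (min ε' 1) (ε / 8 / (10 * (M + 1)))
      rw [le_div_iff₀ (by positivity)] at h
      linarith
  obtain ⟨δ, hδ, hδ1, hδ2⟩ : ∃ δ : ℝ, 0 < δ ∧ δ ≤ εa / 8 ∧ δ ≤ es / 4 :=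
    ⟨min (εa / 8) (es / 4), lt_min (by positivity) (by positivity), min_le_left _ _,
      min_le_right _ _⟩
  obtain ⟨e1, he1, he1', CL⟩ := clusters M δ hM hδ
  obtain ⟨r, hr, hr1, hr2, hr3⟩ : ∃ r : ℝ, 0 < r ∧ r ≤ δ / 4 ∧ r * (16 * M) ≤ εa * e1 ^ 2 ∧
      4 * M * r ≤ e1 ^ 2 * es := by
    refine ⟨min (δ / 4) (min (εa * e1 ^ 2 / (16 * M)) (e1 ^ 2 * es / (4 * M))), ?_, ?_, ?_, ?_⟩
    · exact lt_min (by positivity) (lt_min (by positivity) (by positivity))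
    · exact min_le_left _ _
    · have h := (min_le_right (δ / 4) (min (εa * e1 ^ 2 / (16 * M))
        (e1 ^ 2 * es / (4 * M)))).trans (min_le_left _ _)
      rwa [le_div_iff₀ (by positivity)] at h
    · have h := (min_le_right (δ / 4) (min (εa * e1 ^ 2 / (16 * M))
        (e1 ^ 2 * es / (4 * M)))).trans (min_le_right _ _)
      rw [le_div_iff₀ (by positivity)] at h
      linarith
  obtain ⟨e9, he9, he9', he9''⟩ : ∃ e9 : ℝ, 0 < e9 ∧ e9 ≤ es ∧ 2 * e9 / e1 ≤ es / 4 := by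
    refine ⟨min es (e1 * es / 8), lt_min hes (by positivity), min_le_left _ _, ?_⟩
    rw [div_le_iff₀ he1]
    have h := min_le_right es (e1 * es / 8)
    linarith
  obtain ⟨ε2, hε2, hε2'⟩ : ∃ ε2 : ℝ, 0 < ε2 ∧ ε2 * (8 * M) ≤ εa * e1 := by
    refine ⟨εa * e1 / (8 * M), by positivity, ?_⟩
    rw [div_mul_cancel₀ _ (by positivity)]
  obtain ⟨c0, hc0, CL'⟩ := CL r hr
  obtain ⟨K, hK1, hK⟩ : ∃ K : ℝ, 1 ≤ K ∧ M / (e1 * c0) ≤ K :=
    ⟨max 1 (M / (e1 * c0)), le_max_left _ _, le_max_right _ _⟩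
  have hK0 : 0 < K := by linarith
  obtain ⟨s0, hs0, hs0g, hs0K⟩ : ∃ s0 : ℝ, 0 < s0 ∧ s0 ≤ g0 ∧ K * s0 ≤ g0 := by
    refine ⟨g0 / K, by positivity, ?_, ?_⟩
    · rw [div_le_iff₀ hK0]; nlinarith
    · rw [mul_div_cancel₀ _ hK0.ne']
  obtain ⟨η0, hη0, κ0, hκ0, RG'⟩ := RG e9 he9 he9' K hK1
  obtain ⟨η, hη, hη1, hη2, hη3⟩ : ∃ η : ℝ, 0 < η ∧ η ≤ η0 ∧ 4 * M * η ≤ e1 ^ 2 * es * c0 ∧
      (M + 2) * η ≤ s0 / 120 := by
    refine ⟨min η0 (min (e1 ^ 2 * es * c0 / (4 * M)) (s0 / 120 / (M + 2))), ?_, ?_, ?_, ?_⟩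
    · exact lt_min hη0 (lt_min (by positivity) (by positivity))
    · exact min_le_left _ _
    · have h := (min_le_right η0 (min (e1 ^ 2 * es * c0 / (4 * M))
        (s0 / 120 / (M + 2)))).trans (min_le_left _ _)
      rw [le_div_iff₀ (by positivity)] at h
      linarith
    · have h := (min_le_right η0 (min (e1 ^ 2 * es * c0 / (4 * M))
        (s0 / 120 / (M + 2)))).trans (min_le_right _ _)
      rw [le_div_iff₀ (by positivity)] at h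
      linarith
  obtain ⟨κ1, hκ1, hκ2, hκ3, hκ4⟩ : ∃ κ1 : ℝ, 0 < κ1 ∧ (K + 2) * κ1 ≤ κ0 ∧ κ1 ≤ εa * c0 ∧
      8 * κ1 * M ≤ εa * c0 * es := by
    refine ⟨min (κ0 / (K + 2)) (min (εa * c0) (εa * c0 * es / (8 * M))), ?_, ?_, ?_, ?_⟩
    · exact lt_min (by positivity) (lt_min (by positivity) (by positivity))
    · have h := min_le_left (κ0 / (K + 2)) (min (εa * c0) (εa * c0 * es / (8 * M)))
      rw [le_div_iff₀ (by positivity)] at h
      linarith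
    · exact (min_le_right _ _).trans (min_le_left _ _)
    · have h := (min_le_right (κ0 / (K + 2)) (min (εa * c0)
        (εa * c0 * es / (8 * M)))).trans (min_le_right _ _)
      rw [le_div_iff₀ (by positivity)] at h
      linarith
  obtain ⟨σ, e4, hσ, he4, hσe⟩ : ∃ σ e4 : ℝ, 0 < σ ∧ 0 < e4 ∧
      100 * K ^ 2 * (σ + e4 * M / e1) ≤ εa := by
    refine ⟨εa / (200 * K ^ 2), εa * e1 / (200 * K ^ 2 * M), by positivity, by positivity, ?_⟩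
    apply le_of_eq
    field_simp
    ring
  obtain ⟨ρ1, hρ1, HU⟩ := hulls M e1 c0 (εa / 8) η σ e4 hM he1 he1' hc0 (by positivity) hη hσ he4
  obtain ⟨ρ0, hρ0, hρa, hρb⟩ : ∃ ρ0 : ℝ, 0 < ρ0 ∧ ((M + 2) / (e1 * c0)) ^ 2 * ρ0 ≤ κ1 ∧
      (M * (M / (e1 * c0)) / η) ^ 2 * ρ0 ≤ κ1 := by
    have hA1 : 0 < ((M + 2) / (e1 * c0)) ^ 2 := by positivity
    have hA2 : 0 < (M * (M / (e1 * c0)) / η) ^ 2 := by positivity
    refine ⟨min (κ1 / ((M + 2) / (e1 * c0)) ^ 2) (κ1 / (M * (M / (e1 * c0)) / η) ^ 2), ?_, ?_, ?_⟩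
    · exact lt_min (by positivity) (by positivity)
    · have h := min_le_left (κ1 / ((M + 2) / (e1 * c0)) ^ 2)
        (κ1 / (M * (M / (e1 * c0)) / η) ^ 2)
      rw [le_div_iff₀ hA1] at h
      linarith
    · have h := min_le_right (κ1 / ((M + 2) / (e1 * c0)) ^ 2)
        (κ1 / (M * (M / (e1 * c0)) / η) ^ 2)
      rw [le_div_iff₀ hA2] at h
      linarith
  obtain ⟨k0, ZN⟩ := zones M e1 c0 (εa / 8) ρ0 ρ1 ε2 hM he1 he1' hc0 (by positivity) hρ0 hρ1 hε2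
  refine ⟨s0 / 120, by positivity, max k0 (max (4 / δ) (100 * K ^ 2 / εa)), ?_⟩
  intro k hk V _ G hG
  have hk1 : k0 ≤ k := (le_max_left _ _).trans hk
  have hk2 : 4 / δ ≤ k := (le_max_left _ _).trans ((le_max_right _ _).trans hk)
  have hk3 : 100 * K ^ 2 / εa ≤ k := (le_max_right _ _).trans ((le_max_right _ _).trans hk)
  have hk0 : 0 < k := by linarith [hG.one_le]
  obtain ⟨𝒞, Typ, hC, hTyp, hA0⟩ := CL' V G k hG.one_le hG.deg_le
  obtain ⟨Gd, Z, 𝒬, hZ⟩ := ZN k hk1 V G 𝒞 _ hG hC.disj hC.ne hC.size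
  obtain ⟨Gd', hGd', hGdc, XC, HG, HW, yp, hL⟩ := HU ρ0 ε2 k V G 𝒞 Gd Z 𝒬 hG.one_le hG.deg_le
    hC.disj hC.ne hC.size hZ
  refine finish (eB := ε / 8) (e := e) (g0 := g0) (s0 := s0) (K := K) (κ := κ0) (κ1 := κ1)
    (es := es) (e9 := e9) (εa := εa) (ε := ε) hM hG hC hTyp hA0 hZ hGd' hGdc hL he1 he1' hr hc0 hδ hη hσ he4 hε2 hεa hεa1
    hρ0 hes he9 hκ1 he hg0 hs0 hs0g (by positivity) hε hK1 hK hδ1 hε2' hr2 ?_ hσe ?_ le_rfl hr3 hη2
    ?_ ?_ hρa hρb hκ2 hκ3 hκ4 ?_ ?_ (by positivity) ?_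
  · have h : 2 / k ≤ δ / 2 := by
      rw [div_le_iff₀ hk0]
      rw [div_le_iff₀ hδ] at hk2
      linarith
    linarith
  · rw [div_le_iff₀ hεa] at hk3
    linarith
  · linarith
  · linarith
  · intro ι _ Hub hub A R φ g lam hReg
    exact RG' η κ0 hη hη1 hκ0 le_rfl k V ι G Hub hub A R φ g lam hReg
  · intro Z g φ l d hne hZK h1 h2 h3 h4 h5
    refine HI K s0 hs0 hs0g hs0K Z g φ l d hne hZK ?_ ?_ h3 h4 ?_
    · intro i hi
      have h := h1 i hi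
      have e1 : ∀ d1 : DecidableEq (Finset (Finset V)), ∑ j ∈ @Finset.erase _ d1 Z i, g j =
          ∑ j ∈ Z, g j - g i := fun d1 => Finset.sum_erase_eq_sub hi
      rw [e1] at h ⊢
      linarith
    · intro i hi; linarith [h2 i hi]
    · intro i hi hg
      exact ⟨(h5 i hi hg).1, (h5 i hi hg).2.mono hee⟩
  · linarith

end LKU
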