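import Pool.Agent.LKU.AGood
import Pool.Agent.LKU.Asm3
import Pool.Agent.H34.LK.Red3

set_option autoImplicit false
set_option linter.unusedSectionVars false

/-!
# LKU module AMain (difficulty 2): the main induction

Model: `H34.LK.main_induction`, `H34.LK.edges_le` (Pool/Agent/H34/LK/Red3.lean). Let `b = be + ε`, wlog `ε ≤ 1/100` (replace `ε` by `min ε (1/100)`).
`good_bound 20 ε` gives `ε0, k00`. `ε1 = min ε0 (1/100)`, `C = max 40 (4 b / ε) + 1`, `dense_finset C ε1` gives `k1`. Let `k ≥ max(k00, k1, 4/ε, ...)`.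
Claim: `e2 G s ≤ 2 b k (|s| - k)` for `|s| ≥ 16 k`, by strong induction on `|s|`. If `|s| ≤ C k`: `e2 ≤ k |s| + ε1 k^2 ≤ 2 b k (|s| - k)` because `2 b ≥ 1.0717`,
`2 b - 1 ≥ 0.0717`, `0.0717 * 16 = 1.147 ≥ 1.0918 + 0.01 ≥ ...`: precisely `(2b - 1) |s| ≥ (2 b + ε1) k` for `|s| ≥ 16 k` as `15 * 2b ≥ 16 + ε1` (`2 b ≥ 1.0717`).
If `|s| > C k` and the claim fails: `good_sub` (`hdense` from `dense_finset`, `C ≥ 20`), then `good_bound`: `∑ deg ≤ (2 be + ε) k |s'| ≤ (2 be + ε) k |s|`, so
`(2 be + 2 ε) k |s| - 2 b k^2 < (2 be + ε) k |s| + 2 |s|`, i.e. `ε k |s| < 2 b k^2 + 2 |s| ≤ 2 b k^2 + (ε/2) k |s|` (`4 ≤ ε k`), so `|s| < 4 b k/ε ≤ C k`: contradiction.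
Finally `e2 G univ = 2 |E|` (`e2_univ`), `n = |V|`: `n ≥ 16 k`: done. `k ≤ n < 16 k`: `2 |E| ≤ k n + ε1 k^2 ≤ (1 + ε1) k n ≤ 2 b k n`. `n < k`: `2|E| ≤ n^2 ≤ k n`.
(`edgeSet.ncard` = `edgeFinset.card`: `SimpleGraph.coe_edgeFinset`, `Set.ncard_coe_finset`.)
-/

open scoped Classical

noncomputable section

namespace LKU

open Finset H34.LK Pool.Agent.LocalConn

theorem AMain_main (e : ℝ) (he : 0 < e) (he1 : e ≤ 1 / 100) : ∃ k0 : ℕ, ∀ k : ℕ, k0 ≤ k →
    ∀ (V : Type) [Fintype V] (G : SimpleGraph V), LocalConnLe G k →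
      (G.edgeSet.ncard : ℝ) ≤ (be + e) * k * Fintype.card V := by
  obtain ⟨ε0, hε0, k00, hgb⟩ := good_bound 20 e (by norm_num) he
  obtain ⟨ε1, hε1, hε10, hε11⟩ : ∃ ε1 : ℝ, 0 < ε1 ∧ ε1 ≤ ε0 ∧ ε1 ≤ 1 / 100 :=
    ⟨min ε0 (1 / 100), lt_min hε0 (by norm_num), min_le_left _ _, min_le_right _ _⟩
  obtain ⟨b, hb⟩ : ∃ b : ℝ, b = be + e := ⟨_, rfl⟩
  have hb1 : (0.5358982 : ℝ) < b := by rw [hb]; linarith [be_lo]
  obtain ⟨C, hC40, hCb⟩ : ∃ C : ℝ, 40 ≤ C ∧ 4 * b / e ≤ C :=
    ⟨max 40 (4 * b / e), le_max_left _ _, le_max_right _ _⟩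
  obtain ⟨k1, hk1⟩ := dense_finset C ε1 hε1
  refine ⟨max k1 (max ⌈k00⌉₊ ⌈4 / e⌉₊), fun k hk V _ G hG => ?_⟩
  have hkk1 : k1 ≤ k := (le_max_left _ _).trans hk
  have hkk2 : k00 ≤ (k : ℝ) :=
    (Nat.le_ceil k00).trans (by exact_mod_cast (le_max_left _ _).trans ((le_max_right _ _).trans hk))
  have hkk3 : 4 / e ≤ (k : ℝ) :=
    (Nat.le_ceil (4 / e)).trans
      (by exact_mod_cast (le_max_right _ _).trans ((le_max_right _ _).trans hk))
  have hek : 4 ≤ e * (k : ℝ) := by
    rw [div_le_iff₀ he] at hkk3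
    linarith
  have hk400 : (400 : ℝ) ≤ k := by nlinarith
  have hk0 : (0 : ℝ) < k := by linarith
  have hkn : 1 ≤ k := by
    have : (1 : ℝ) ≤ k := by linarith
    exact_mod_cast this
  have hdense := hk1 k hkk1 V G hG
  have hbk : 1 ≤ b * (k : ℝ) := by nlinarith
  rw [← hb]
  have hmain : ∀ (m : ℕ) (s : Finset V), s.card = m → (16 : ℝ) * k ≤ s.card →
      (e2 G s : ℝ) ≤ 2 * b * k * (s.card - k) := by
    intro m
    induction m using Nat.strong_induction_on with
    | _ m ih =>
      intro s hsm hs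
      rcases le_or_gt (s.card : ℝ) (C * k) with hsmall | hlarge
      · have h1 := hdense s hsmall
        have h2 : 0 ≤ (2 * b - 1) * ((k : ℝ) * (s.card - 16 * k)) :=
          mul_nonneg (by linarith) (mul_nonneg hk0.le (by linarith))
        have h3 : 0 ≤ (30 * b - 16 - ε1) * ((k : ℝ) * k) :=
          mul_nonneg (by linarith) (by positivity)
        nlinarith
      · by_contra hcon
        push Not at hcon
        have IH : ∀ t : Finset V, t.card < s.card → (16 : ℝ) * k ≤ t.card →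
            (e2 G t : ℝ) ≤ 2 * b * k * (t.card - k) := by
          intro t ht ht2
          exact ih t.card (by omega) t rfl ht2
        have hd20 : ∀ t : Finset V, (t.card : ℝ) ≤ 20 * k →
            (e2 G t : ℝ) ≤ k * t.card + ε1 * k ^ 2 := by
          intro t ht
          apply hdense t
          nlinarith
        have hbig : (40 : ℝ) * k ≤ s.card := by nlinarith
        obtain ⟨s', hs's, -, hgood, he2⟩ := good_sub (ε := e) hG hkn he hb (by linarith) hbk hε1
          hε10 hd20 IH hcon hbig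
        have h1 := hgb k hkk2 _ _ hgood
        rw [Fintype.card_coe] at h1
        have h2 : (s'.card : ℝ) ≤ s.card := by exact_mod_cast Finset.card_le_card hs's
        have h3 : (2 * be + e) * k * s'.card ≤ (2 * be + e) * k * s.card := by
          apply mul_le_mul_of_nonneg_left h2
          have : 0 ≤ 2 * be + e := by linarith [be_lo]
          positivity
        have h4 : 4 * (s.card : ℝ) ≤ e * k * s.card :=
          mul_le_mul_of_nonneg_right hek (Nat.cast_nonneg _)
        have h5 : e * k * (s.card : ℝ) < 4 * b * k * k := by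
          have h6 : 2 * b * k * ((s.card : ℝ) - k) <
              (2 * be + e) * k * s.card + 2 * s.card := by linarith
          rw [hb] at h6 ⊢
          nlinarith
        have h6 : 4 * b * k ≤ e * (C * k) := by
          rw [div_le_iff₀ he] at hCb
          nlinarith
        have h7 : e * k * (C * k) < e * k * s.card :=
          mul_lt_mul_of_pos_left hlarge (by positivity)
        nlinarith
  have he2u : (e2 G univ : ℝ) = 2 * (G.edgeSet.ncard : ℝ) := by
    have h1 := e2_univ G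
    rw [Set.ncard_eq_toFinset_card' G.edgeSet]
    have h2 : G.edgeFinset.card = G.edgeSet.toFinset.card := rfl
    rw [h1, h2]
    push_cast
    rfl
  have hc : ((univ : Finset V).card : ℝ) = Fintype.card V := by rw [Finset.card_univ]
  have hn0 : (0 : ℝ) ≤ Fintype.card V := Nat.cast_nonneg _
  rcases le_or_gt ((16 : ℝ) * k) (Fintype.card V) with h | h
  · have h3 := hmain _ univ rfl (by rw [hc]; exact h)
    rw [he2u, hc] at h3
    have h4 : 0 ≤ b * (k : ℝ) * k := by
      have : 0 ≤ b := by linarith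
      positivity
    nlinarith
  · rcases le_or_gt (k : ℝ) (Fintype.card V) with h' | h'
    · have h3 := hdense univ (by rw [hc]; nlinarith)
      rw [he2u, hc] at h3
      have h4 : (k : ℝ) * k ≤ k * Fintype.card V := mul_le_mul_of_nonneg_left h' hk0.le
      have h5 : ε1 * ((k : ℝ) * k) ≤ 1 / 100 * (k * Fintype.card V) :=
        mul_le_mul hε11 h4 (by positivity) (by norm_num)
      have h6 : 0 ≤ (2 * b - 1 - 1 / 100) * ((k : ℝ) * Fintype.card V) :=
        mul_nonneg (by linarith) (by positivity)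
      nlinarith
    · have h4 : e2 G univ ≤ Fintype.card V * Fintype.card V := by
        rw [e2]
        calc ∑ v : V, nW G v univ ≤ ∑ v : V, Fintype.card V := by
              apply Finset.sum_le_sum
              intro v _
              have := nW_le G v univ
              rwa [Finset.card_univ] at this
          _ = Fintype.card V * Fintype.card V := by simp [Finset.card_univ]
      have h5 : (e2 G univ : ℝ) ≤ Fintype.card V * Fintype.card V := by exact_mod_cast h4
      rw [he2u] at h5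
      have h6 : (Fintype.card V : ℝ) * Fintype.card V ≤ k * Fintype.card V :=
        mul_le_mul_of_nonneg_right h'.le hn0
      have h7 : 0 ≤ (2 * b - 1) * ((k : ℝ) * Fintype.card V) :=
        mul_nonneg (by linarith) (by positivity)
      nlinarith

theorem edges_le_be (ε : ℝ) (hε : 0 < ε) : ∃ k0 : ℕ, ∀ k : ℕ, k0 ≤ k →
    ∀ (V : Type) [Fintype V] (G : SimpleGraph V), LocalConnLe G k →
      (G.edgeSet.ncard : ℝ) ≤ (be + ε) * k * Fintype.card V := by
  obtain ⟨k0, hk0⟩ := AMain_main (min ε (1 / 100)) (lt_min hε (by norm_num)) (min_le_right _ _)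
  refine ⟨k0, fun k hk V _ G hG => (hk0 k hk V G hG).trans ?_⟩
  have h1 : be + min ε (1 / 100) ≤ be + ε := by
    have := min_le_left ε (1 / 100)
    linarith
  have h2 : (0 : ℝ) ≤ k := Nat.cast_nonneg _
  have h3 : (0 : ℝ) ≤ Fintype.card V := Nat.cast_nonneg _
  exact mul_le_mul_of_nonneg_right (mul_le_mul_of_nonneg_right h1 h2) h3

end LKU
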