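import Pool.Agent.LKU.LamA

set_option autoImplicit false
set_option linter.unusedSectionVars false

/-!
# LKU module Account (difficulty 3)

Accounting. Write `q = 2 be = 1 + t2` (`two_be`), `n = |V|`, `c = cv C`, `ch = ch C`, `U = UU 𝒞`.
`∑_v deg v = ∑_v dhat v + ∑_{C ∈ JJ} jc C` (`sum_deg_eq`)
`= ∑_{v ∉ Hub ∪ U} dhat v + ∑_{C ∈ 𝒞} ch_C k |C| + ∑_{v ∈ Hub \ U} dhat v`
(clusters are disjoint and nonempty; `ch_C k |C| = ∑_{v ∈ C} dhat v + [C ∈ JJ] jc C` by definition; `JJ ⊆ 𝒞`).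
(1) `∑_{v ∈ Hub \ U} dhat v ≤ q k |Hub \ U| + ∑_{v ∈ Hub} max 0 (dhat v - q k)`.
(2) `v ∉ Hub ∪ U`: if `v ∈ Low` then `dhat v ≤ (1+ε') k`; otherwise `dhat v ≤ deg v ≤ M k` (`dhat_le` below), and there are
   at most `ε' n` vertices outside `Hub ∪ Low`. So the first sum is `≤ k |(Hub ∪ U)ᶜ| + ε' k n + M ε' k n`.
(3) `ch_C k |C| ≤ c_C k |C| + 2 δ k |C| + [ε' k |C| + M k |C ∩ Hub| + M k |C \ (Hub ∪ Low)|]`:
   if `C ∈ JJ` then `ch_C k |C| ≤ |NN C| |C| + δ |C| k ≤ (1 + 2δ) k |C|` (`sum_dhat_jc_le` and the definition of `JJ`); so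
   `ch_C ≤ 1 + 2δ`, hence `ch_C ≤ c_C + 2 δ` (recall `c_C = min 1 (max ch_C _)`).
   If `C ∉ JJ` then `ch_C k |C| = ∑_{v ∈ C} dhat v ≤ (1+ε') k |C| + M k |C ∩ Hub| + M k |C \ (Hub ∪ Low)|`; if `ch_C ≤ 1` then
   `ch_C ≤ c_C`, otherwise `c_C = 1`.
   Summing over the (disjoint) clusters: `∑_C ch_C k |C| ≤ ∑_C c_C k |C| + (2 δ + ε') k n + M k |Hub ∩ U| + M k ε' n`.
(4) `∑_C c_C k |C| = ∑_{v ∈ U} (1 - lam v) k ≤ ∑_{v ∈ U \ Hub} (1 - lam v) k + k |U ∩ Hub|` (`lam_of_mem`, `0 ≤ lam`).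
(5) The right side of the theorem is `q k n + ∑_Hub max - ∑_{v ∉ Hub} (t2 + lam v) k + 10 (M+1) ε' k n`
   `= q k |Hub| + ∑_Hub max + ∑_{v ∉ Hub} (1 - lam v) k + 10 (M+1) ε' k n`, with `lam v = 0` outside `U` (`lam_of_not_mem`).
Adding up: the errors are at most `(ε' + M ε' + 2 δ + ε' + M ε' + M ε') k n ≤ 10 (M+1) ε' k n` (`hHubC`, `δ ≤ ε'`), and
`k |U ∩ Hub| ≤ q k |U ∩ Hub|`.
-/

open scoped Classical

noncomputable section

namespace LKU

open Finset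

variable {V : Type} [Fintype V]

theorem Account_dhat_le (G : SimpleGraph V) (k e1 δ : ℝ) (𝒞 : Finset (Finset V)) (v : V) :
    dhat G k e1 δ 𝒞 v ≤ deg G v := by
  unfold dhat
  have : 0 ≤ ∑ C ∈ (tau G 𝒞 e1 v) ∩ (JJ G k e1 δ 𝒞), ((C.card : ℝ) - dn G C v) :=
    sum_nonneg fun C _ => sub_nonneg.2 (dn_le_card G C v)
  linarith

/-- the error allowed at the vertex `v` -/
def Account_err (k M δ ε' : ℝ) (Hub Low : Finset V) (v : V) : ℝ :=
  (2 * δ + ε') * k + (if v ∈ Hub then M * k else 0) + (if v ∉ Hub ∪ Low then M * k else 0)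

theorem Account_vertex {G : SimpleGraph V} {k M e1 δ ε' : ℝ} {𝒞 : Finset (Finset V)}
    (hk : 1 ≤ k) (hM : 1 ≤ M) (hδ : 0 < δ)
    (hδε : δ ≤ ε') (hdeg' : ∀ v, deg G v ≤ M * k)
    {Hub Low : Finset V}
    (hLow : ∀ v ∈ Low, dhat G k e1 δ 𝒞 v ≤ (1 + ε') * k) (v : V) :
    dhat G k e1 δ 𝒞 v ≤ k + Account_err k M δ ε' Hub Low v := by
  have h1 := Account_dhat_le G k e1 δ 𝒞 v
  have h2 := hdeg' v
  have hMk : 0 ≤ M * k := by positivity
  have hδk : 0 ≤ δ * k := by positivity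
  have hεk : 0 ≤ ε' * k := mul_nonneg (by linarith) (by linarith)
  unfold Account_err
  by_cases hH : v ∈ Hub
  · rw [if_pos hH]
    have : (0 : ℝ) ≤ if v ∉ Hub ∪ Low then M * k else 0 := by split_ifs <;> linarith
    nlinarith
  · by_cases hL : v ∈ Low
    · have h3 := hLow v hL
      rw [if_neg hH, if_neg (by simp [hL])]
      nlinarith
    · rw [if_neg hH, if_pos (by simp [hH, hL])]
      nlinarith

theorem Account_clus {G : SimpleGraph V} {k M e1 r c0 δ ε' : ℝ} {𝒞 : Finset (Finset V)}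
    (hC : Clus G k M e1 r c0 δ 𝒞) (hk : 1 ≤ k) (hM : 1 ≤ M) (hδ : 0 < δ)
    (hδε : δ ≤ ε') (hdeg' : ∀ v, deg G v ≤ M * k)
    {Hub Low : Finset V}
    (hLow : ∀ v ∈ Low, dhat G k e1 δ 𝒞 v ≤ (1 + ε') * k) {C : Finset V} (hCC : C ∈ 𝒞) :
    (∑ v ∈ C, dhat G k e1 δ 𝒞 v + if C ∈ JJ G k e1 δ 𝒞 then jc G e1 C else 0) ≤
      ∑ v ∈ C, ((1 - lam G k e1 δ 𝒞 v) * k + Account_err k M δ ε' Hub Low v) := by
  have hcard : (0 : ℝ) < C.card := by exact_mod_cast card_pos.2 (hC.ne C hCC)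
  have hk0 : 0 < k := by linarith
  have hck : 0 < C.card * k := mul_pos hcard hk0
  have hch : (∑ v ∈ C, dhat G k e1 δ 𝒞 v + if C ∈ JJ G k e1 δ 𝒞 then jc G e1 C else 0) =
      ch G k e1 δ 𝒞 C * (C.card * k) := by
    unfold ch
    rw [div_mul_cancel₀ _ hck.ne']
  have hsum : ∑ v ∈ C, (1 - lam G k e1 δ 𝒞 v) * k = cv G k e1 δ 𝒞 C * (C.card * k) := by
    rw [sum_congr rfl fun v hv => by
      rw [lam_of_mem hC.disj hCC hv]]
    rw [sum_const, nsmul_eq_mul]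
    ring
  have herr0 : ∀ v, (2 * δ + ε') * k ≤ Account_err k M δ ε' Hub Low v := by
    intro v
    unfold Account_err
    have hMk : 0 ≤ M * k := by positivity
    have e1 : (0 : ℝ) ≤ if v ∈ Hub then M * k else 0 := by split_ifs <;> linarith
    have e2 : (0 : ℝ) ≤ if v ∉ Hub ∪ Low then M * k else 0 := by split_ifs <;> linarith
    linarith
  have herr : (2 * δ + ε') * (C.card * k) ≤ ∑ v ∈ C, Account_err k M δ ε' Hub Low v := by
    calc (2 * δ + ε') * (C.card * k) = ∑ v ∈ C, (2 * δ + ε') * k := by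
          rw [sum_const, nsmul_eq_mul]; ring
      _ ≤ _ := sum_le_sum fun v _ => herr0 v
  rw [sum_add_distrib, hsum]
  have hcv : min 1 (ch G k e1 δ 𝒞 C) ≤ cv G k e1 δ 𝒞 C := by
    unfold cv
    exact min_le_min le_rfl (le_max_left _ _)
  by_cases hle : ch G k e1 δ 𝒞 C ≤ 1
  · rw [hch]
    rw [min_eq_right hle] at hcv
    have h1 := mul_le_mul_of_nonneg_right hcv hck.le
    have h2 : 0 ≤ (2 * δ + ε') * (C.card * k) := mul_nonneg (by linarith) hck.le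
    linarith
  · rw [not_le] at hle
    rw [min_eq_left hle.le] at hcv
    have h1 : C.card * k ≤ cv G k e1 δ 𝒞 C * (C.card * k) := by
      have := mul_le_mul_of_nonneg_right hcv hck.le
      linarith
    by_cases hJ : C ∈ JJ G k e1 δ 𝒞
    · rw [if_pos hJ]
      have h2 := sum_dhat_jc_le hC hCC
      have h3 : ((NN G e1 C).card : ℝ) ≤ (1 + δ) * k := (mem_filter.1 hJ).2
      have h4 : ((NN G e1 C).card : ℝ) * C.card ≤ (1 + δ) * k * C.card :=
        mul_le_mul_of_nonneg_right h3 hcard.le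
      have h5 : 0 ≤ ε' * (C.card * k) := mul_nonneg (by linarith) hck.le
      nlinarith
    · rw [if_neg hJ, add_zero]
      have h2 : ∑ v ∈ C, dhat G k e1 δ 𝒞 v ≤ ∑ v ∈ C, (k + Account_err k M δ ε' Hub Low v) :=
        sum_le_sum fun v _ => Account_vertex hk hM hδ hδε hdeg' hLow v
      rw [sum_add_distrib, sum_const, nsmul_eq_mul] at h2
      linarith

/-- PART G2. Accounting. -/
theorem accounting {G : SimpleGraph V} {k M e1 r c0 δ ε' : ℝ} {𝒞 : Finset (Finset V)}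
    (hC : Clus G k M e1 r c0 δ 𝒞) (hk : 1 ≤ k) (hM : 1 ≤ M) (he1 : 0 < e1) (hδ : 0 < δ)
    (hδε : δ ≤ ε') (hdeg : ∀ v, be * k ≤ deg G v) (hdeg' : ∀ v, deg G v ≤ M * k)
    {Hub Low : Finset V} (hHL : Disjoint Hub Low)
    (hE : ((univ \ (Hub ∪ Low)).card : ℝ) ≤ ε' * Fintype.card V)
    (hLow : ∀ v ∈ Low, dhat G k e1 δ 𝒞 v ≤ (1 + ε') * k)
    (hHubC : ((Hub ∩ UU 𝒞).card : ℝ) ≤ ε' * Fintype.card V) :
    ∑ v, deg G v ≤ 2 * be * k * Fintype.card V +
      ∑ v ∈ Hub, max 0 (dhat G k e1 δ 𝒞 v - 2 * be * k) -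
      t2 * k * ∑ v ∈ univ \ Hub, (1 + lam G k e1 δ 𝒞 v / t2) +
      10 * (M + 1) * ε' * k * Fintype.card V := by
  have hk0 : 0 < k := by linarith
  have hε : 0 < ε' := by linarith
  obtain ⟨D, hD⟩ : ∃ D : V → ℝ, D = dhat G k e1 δ 𝒞 := ⟨_, rfl⟩
  obtain ⟨L, hL⟩ : ∃ L : V → ℝ, L = lam G k e1 δ 𝒞 := ⟨_, rfl⟩
  obtain ⟨er, her⟩ : ∃ er : V → ℝ, er = Account_err k M δ ε' Hub Low := ⟨_, rfl⟩
  obtain ⟨m, hm⟩ : ∃ m : V → ℝ, m = fun v => max 0 (D v - 2 * be * k) := ⟨_, rfl⟩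
  have hbe : 1 ≤ 2 * be := by linarith [be_lo]
  -- split of the sum
  have hJsub : JJ G k e1 δ 𝒞 ⊆ 𝒞 := filter_subset _ _
  have s1 : ∑ C ∈ JJ G k e1 δ 𝒞, jc G e1 C =
      ∑ C ∈ 𝒞, if C ∈ JJ G k e1 δ 𝒞 then jc G e1 C else 0 := by
    rw [← sum_filter]
    refine sum_congr ?_ fun _ _ => rfl
    ext C
    simp only [mem_filter]
    exact ⟨fun h => ⟨hJsub h, h⟩, fun h => h.2⟩
  have s2 : ∀ F : V → ℝ, ∑ v ∈ UU 𝒞, F v = ∑ C ∈ 𝒞, ∑ v ∈ C, F v := by
    intro F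
    unfold UU
    rw [sum_biUnion]
    · rfl
    · intro C hC1 C' hC2 hne
      exact hC.disj C hC1 C' hC2 hne
  have s3 : ∀ F : V → ℝ, ∑ v, F v = ∑ v ∈ UU 𝒞, F v + ∑ v ∈ univ \ UU 𝒞, F v := by
    intro F
    rw [add_comm, sum_sdiff (subset_univ _)]
  have s4 : ∑ v, deg G v = ∑ v ∈ univ \ UU 𝒞, D v +
      ∑ C ∈ 𝒞, (∑ v ∈ C, D v + if C ∈ JJ G k e1 δ 𝒞 then jc G e1 C else 0) := by
    rw [sum_deg_eq (k := k) (e1 := e1) (δ := δ) (𝒞 := 𝒞), ← hD, s1, s3 D, s2 D,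
      sum_add_distrib]
    ring
  have s5 : ∑ C ∈ 𝒞, (∑ v ∈ C, D v + if C ∈ JJ G k e1 δ 𝒞 then jc G e1 C else 0) ≤
      ∑ v ∈ UU 𝒞, ((1 - L v) * k + er v) := by
    rw [s2]
    refine sum_le_sum fun C hCC => ?_
    rw [hD, hL, her]
    exact Account_clus hC hk hM hδ hδε hdeg' hLow hCC
  -- the pointwise bound
  obtain ⟨P, hP⟩ : ∃ P : V → ℝ, P = fun v =>
      (if v ∈ Hub then 2 * be * k + m v else (1 - L v) * k) + 3 * ε' * k +
      (if v ∈ Hub ∩ UU 𝒞 then M * k else 0) + (if v ∈ univ \ (Hub ∪ Low) then M * k else 0) :=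
    ⟨_, rfl⟩
  have hMk : 0 ≤ M * k := by positivity
  have hεk : 0 ≤ ε' * k := by positivity
  have hδk : δ * k ≤ ε' * k := mul_le_mul_of_nonneg_right hδε hk0.le
  have hm0 : ∀ v, 0 ≤ m v := fun v => by rw [hm]; exact le_max_left _ _
  have hLn : ∀ v, 0 ≤ L v := fun v => by rw [hL]; exact lam_nonneg hC v
  have p1 : ∀ v ∈ UU 𝒞, (1 - L v) * k + er v ≤ P v := by
    intro v hv
    rw [her, hP]
    unfold Account_err
    simp only
    have e1 : (if v ∉ Hub ∪ Low then M * k else 0) =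
        if v ∈ univ \ (Hub ∪ Low) then M * k else 0 := by simp
    rw [e1]
    by_cases hH : v ∈ Hub
    · rw [if_pos hH, if_pos hH, if_pos (mem_inter.2 ⟨hH, hv⟩)]
      have g1 : (1 - L v) * k ≤ 2 * be * k :=
        mul_le_mul_of_nonneg_right (by linarith [hLn v]) hk0.le
      have g2 := hm0 v
      nlinarith
    · rw [if_neg hH, if_neg hH, if_neg (fun h => hH (mem_inter.1 h).1)]
      nlinarith
  have p2 : ∀ v ∈ univ \ UU 𝒞, D v ≤ P v := by
    intro v hv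
    have hv' : v ∉ UU 𝒞 := (mem_sdiff.1 hv).2
    rw [hP]
    simp only
    have e2 : (0 : ℝ) ≤ if v ∈ univ \ (Hub ∪ Low) then M * k else 0 := by
      split_ifs <;> linarith
    by_cases hH : v ∈ Hub
    · rw [if_pos hH, if_neg (fun h => hv' (mem_inter.1 h).2)]
      have g2 : D v - 2 * be * k ≤ m v := by rw [hm]; exact le_max_right _ _
      nlinarith
    · rw [if_neg hH, if_neg (fun h => hH (mem_inter.1 h).1)]
      have g3 : L v = 0 := by rw [hL]; exact lam_of_not_mem hv'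
      have g4 := Account_vertex (Hub := Hub) hk hM hδ hδε hdeg' hLow v
      rw [← hD] at g4
      unfold Account_err at g4
      have e1 : (if v ∉ Hub ∪ Low then M * k else 0) =
          if v ∈ univ \ (Hub ∪ Low) then M * k else 0 := by simp
      rw [e1, if_neg hH] at g4
      rw [g3]
      nlinarith
  have p3 : ∑ v, deg G v ≤ ∑ v, P v := by
    rw [s4, s3 P]
    have := sum_le_sum p1
    have := sum_le_sum p2
    linarith
  -- the sum of P
  have p4 : ∑ v, P v = (2 * be * k * Hub.card + ∑ v ∈ Hub, m v +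
      ∑ v ∈ univ \ Hub, (1 - L v) * k) + 3 * ε' * k * Fintype.card V +
      M * k * (Hub ∩ UU 𝒞).card + M * k * (univ \ (Hub ∪ Low)).card := by
    rw [hP]
    simp only [sum_add_distrib]
    congr 1
    · congr 1
      · congr 1
        · rw [sum_ite]
          have f1 : univ.filter (fun v => v ∈ Hub) = Hub := by ext v; simp
          have f2 : univ.filter (fun v => v ∉ Hub) = univ \ Hub := by ext v; simp
          rw [f1, f2, sum_add_distrib, sum_const, nsmul_eq_mul]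
          ring
        · rw [sum_const, nsmul_eq_mul, card_univ]
          ring
      · rw [← sum_filter, sum_const, nsmul_eq_mul]
        have f1 : univ.filter (fun v => v ∈ Hub ∩ UU 𝒞) = Hub ∩ UU 𝒞 := by ext v; simp
        rw [f1]
        ring
    · rw [← sum_filter, sum_const, nsmul_eq_mul]
      have f1 : univ.filter (fun v => v ∈ univ \ (Hub ∪ Low)) = univ \ (Hub ∪ Low) := by
        ext v; simp
      rw [f1]
      ring
  have p5 : (Hub.card : ℝ) + (univ \ Hub).card = Fintype.card V := by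
    have := card_sdiff_add_card_eq_card (subset_univ Hub)
    rw [card_univ] at this
    have h2 : (((univ \ Hub).card + Hub.card : ℕ) : ℝ) = Fintype.card V := by rw [this]
    push_cast at h2
    linarith
  have ht0 : t2 ≠ 0 := t2_pos.ne'
  have p6 : t2 * k * ∑ v ∈ univ \ Hub, (1 + L v / t2) =
      2 * be * k * (univ \ Hub).card - ∑ v ∈ univ \ Hub, (1 - L v) * k := by
    rw [mul_sum]
    have : ∀ v ∈ univ \ Hub, t2 * k * (1 + L v / t2) = 2 * be * k - (1 - L v) * k := by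
      intro v _
      rw [two_be]
      field_simp
      ring
    rw [sum_congr rfl this, sum_sub_distrib, sum_const, nsmul_eq_mul]
    ring
  have hn : (0 : ℝ) ≤ Fintype.card V := by positivity
  have q1 : M * k * (Hub ∩ UU 𝒞).card ≤ M * k * (ε' * Fintype.card V) :=
    mul_le_mul_of_nonneg_left hHubC hMk
  have q2 : M * k * (univ \ (Hub ∪ Low)).card ≤ M * k * (ε' * Fintype.card V) :=
    mul_le_mul_of_nonneg_left hE hMk
  have q3 : 0 ≤ ε' * k * Fintype.card V := mul_nonneg hεk hn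
  have q4 : 0 ≤ M * (ε' * k * Fintype.card V) := mul_nonneg (by linarith) q3
  rw [← hL, p6]
  have q5 : ∑ v ∈ Hub, max 0 (dhat G k e1 δ 𝒞 v - 2 * be * k) = ∑ v ∈ Hub, m v := by
    rw [hm, hD]
  rw [q5]
  have q6 : 2 * be * k * Fintype.card V = 2 * be * k * Hub.card +
      2 * be * k * (univ \ Hub).card := by
    rw [← p5]; ring
  rw [q6]
  calc ∑ v, deg G v ≤ ∑ v, P v := p3
    _ ≤ _ := by
      rw [p4]
      nlinarith

end LKU
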