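import Pool.Agent.LKU.CZon

set_option autoImplicit false
set_option linter.unusedSectionVars false

/-!
# LKU module CLev (difficulty 2): a level at which most vertices are stable

For each `x` the natural number `c_a(x) = |ZZ (ρs a) (tau x)|` is nonincreasing in `a` (`ZZ_mono_card`) and `c_0(x) ≤ |tau x| ≤ K` (`ZZ_card_le`); whenever
`ZZ (ρs a) ≠ ZZ (ρs (a+1))` it drops by at least one (`ZZ_eq_of_card`). So at most `K` of the `a < A` are unstable for `x`. Hence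
`∑_{a < A} #{x unstable at a} ≤ K |V|` and some `a < A` has at most `K |V| / A` unstable vertices.
-/

open scoped Classical

noncomputable section

namespace LKU

open Finset

variable {V : Type} [Fintype V]

theorem CLev_drop {G : SimpleGraph V} {k e1 : ℝ} {τ : Finset (Finset V)} (hk : 0 ≤ k)
    (ρs : ℕ → ℝ) (hρ : Antitone ρs) (n : ℕ) :
    ((range n).filter fun a => ZZ G k e1 (ρs a) τ ≠ ZZ G k e1 (ρs (a + 1)) τ).card +
      (ZZ G k e1 (ρs n) τ).card ≤ (ZZ G k e1 (ρs 0) τ).card := by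
  induction n with
  | zero => simp
  | succ n ih =>
    rw [range_add_one, filter_insert]
    have hle : (ZZ G k e1 (ρs (n + 1)) τ).card ≤ (ZZ G k e1 (ρs n) τ).card :=
      ZZ_mono_card hk (hρ (Nat.le_succ n))
    split_ifs with h
    · have hlt : (ZZ G k e1 (ρs (n + 1)) τ).card < (ZZ G k e1 (ρs n) τ).card := by
        rcases lt_or_eq_of_le hle with h1 | h1
        · exact h1
        · exact absurd (ZZ_eq_of_card hk (hρ (Nat.le_succ n)) h1).symm h
      have := card_insert_le n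
        ((range n).filter fun a => ZZ G k e1 (ρs a) τ ≠ ZZ G k e1 (ρs (a + 1)) τ)
      omega
    · omega

theorem exists_level {G : SimpleGraph V} {k e1 K : ℝ} {𝒞 : Finset (Finset V)} (hk : 0 ≤ k)
    (hK : ∀ x, ((tau G 𝒞 e1 x).card : ℝ) ≤ K) (ρs : ℕ → ℝ) (hρ : Antitone ρs) {A : ℕ}
    (hA : 0 < A) :
    ∃ a < A, ((univ.filter fun x => ZZ G k e1 (ρs a) (tau G 𝒞 e1 x) ≠
      ZZ G k e1 (ρs (a + 1)) (tau G 𝒞 e1 x)).card : ℝ) ≤ K / A * Fintype.card V := by
  have hx : ∀ x : V, (((range A).filter fun a => ZZ G k e1 (ρs a) (tau G 𝒞 e1 x) ≠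
      ZZ G k e1 (ρs (a + 1)) (tau G 𝒞 e1 x)).card : ℝ) ≤ K := by
    intro x
    have h1 := CLev_drop (G := G) (e1 := e1) (τ := tau G 𝒞 e1 x) hk ρs hρ A
    have h2 : (ZZ G k e1 (ρs 0) (tau G 𝒞 e1 x)).card ≤ (tau G 𝒞 e1 x).card := ZZ_card_le
    have h3 : ((range A).filter fun a => ZZ G k e1 (ρs a) (tau G 𝒞 e1 x) ≠
      ZZ G k e1 (ρs (a + 1)) (tau G 𝒞 e1 x)).card ≤ (tau G 𝒞 e1 x).card := by omega
    exact le_trans (by exact_mod_cast h3) (hK x)
  have hsum : ∑ a ∈ range A, ((univ.filter fun x => ZZ G k e1 (ρs a) (tau G 𝒞 e1 x) ≠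
      ZZ G k e1 (ρs (a + 1)) (tau G 𝒞 e1 x)).card : ℝ) =
      ∑ x : V, (((range A).filter fun a => ZZ G k e1 (ρs a) (tau G 𝒞 e1 x) ≠
      ZZ G k e1 (ρs (a + 1)) (tau G 𝒞 e1 x)).card : ℝ) := by
    have h := sum_card_bipartiteAbove_eq_sum_card_bipartiteBelow (s := range A)
      (t := (univ : Finset V)) (fun a x => ZZ G k e1 (ρs a) (tau G 𝒞 e1 x) ≠
      ZZ G k e1 (ρs (a + 1)) (tau G 𝒞 e1 x))
    unfold bipartiteAbove bipartiteBelow at h
    exact_mod_cast h
  have hAr : (0 : ℝ) < A := by exact_mod_cast hA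
  by_contra hcon
  push Not at hcon
  have hlt : ∑ a ∈ range A, K / A * (Fintype.card V : ℝ) <
      ∑ a ∈ range A, ((univ.filter fun x => ZZ G k e1 (ρs a) (tau G 𝒞 e1 x) ≠
      ZZ G k e1 (ρs (a + 1)) (tau G 𝒞 e1 x)).card : ℝ) :=
    sum_lt_sum_of_nonempty ⟨0, mem_range.2 hA⟩ fun a ha => hcon a (mem_range.1 ha)
  rw [hsum] at hlt
  have hle : ∑ x : V, (((range A).filter fun a => ZZ G k e1 (ρs a) (tau G 𝒞 e1 x) ≠
      ZZ G k e1 (ρs (a + 1)) (tau G 𝒞 e1 x)).card : ℝ) ≤ ∑ _x : V, K :=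
    sum_le_sum fun x _ => hx x
  rw [sum_const, card_univ, nsmul_eq_mul] at hle
  rw [sum_const, card_range, nsmul_eq_mul] at hlt
  have : (A : ℝ) * (K / A * Fintype.card V) = Fintype.card V * K := by
    field_simp
  rw [this] at hlt
  linarith

end LKU
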