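import Pool.Agent.LKU.CKey
import Pool.Agent.LKU.CLev

set_option autoImplicit false
set_option linter.unusedSectionVars false

/-!
# LKU module CMain (difficulty 3): zones and classes (assembly of part C)
-/

open scoped Classical

noncomputable section

namespace LKU

open Finset

theorem CMain_core {M e1 c0 δ ρ0 ρ1 ε2 ρ ρ2 k ε0 : ℝ} (hM : 1 ≤ M) (he1 : 0 < e1)
    (hc0 : 0 < c0) (hδ : 0 < δ) (hρ : 0 < ρ) (hρ0 : ρ ≤ ρ0)
    (hρ2 : ρ2 ≤ ρ1 * (c0 * δ / (4 * ((lB M e1 c0 ε2 ρ : ℝ) + 1)))) (hρ1 : 0 < ρ1)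
    (hε2 : 0 < ε2) (hk1 : 1 ≤ k) (hk2 : 8 / δ ≤ k)
    (hk3 : 4 * (lB M e1 c0 ε2 ρ : ℝ) / (c0 * δ) ≤ k)
    {V : Type} [Fintype V] {G : SimpleGraph V} {𝒞 : Finset (Finset V)} (hG : Good G k M ε0)
    (hdj : ∀ C ∈ 𝒞, ∀ C' ∈ 𝒞, C ≠ C' → Disjoint C C') (hne : ∀ C ∈ 𝒞, C.Nonempty)
    (hsz : ∀ C ∈ 𝒞, c0 * k ≤ C.card)
    (hlev : ((univ.filter fun x => ZZ G k e1 ρ (tau G 𝒞 e1 x) ≠
      ZZ G k e1 ρ2 (tau G 𝒞 e1 x)).card : ℝ) ≤ δ / 4 * Fintype.card V) :
    ∃ (Gd : Finset V) (Z : V → Finset (Finset (Finset V)))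
        (𝒬 : Finset (Finset (Finset V) × Finset V)), Zon G k M e1 c0 δ ρ0 ρ1 ε2 𝒞 Gd Z 𝒬 := by
  have hk0 : 0 < k := lt_of_lt_of_le one_pos hk1
  set L : ℝ := (lB M e1 c0 ε2 ρ : ℝ) with hL
  have hL0 : 0 ≤ L := by rw [hL]; positivity
  set ρp : ℝ := c0 * δ / (4 * (L + 1)) with hρp
  have hρp0 : 0 < ρp := by rw [hρp]; positivity
  set S : Finset V := univ.filter fun x => ZZ G k e1 ρ (tau G 𝒞 e1 x) =
      ZZ G k e1 ρ2 (tau G 𝒞 e1 x) with hS
  set KK := keys G k e1 ρ ε2 𝒞 S with hKK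
  set Q := cls G k e1 ρ ε2 𝒞 S with hQ
  set Big := KK.filter fun κ => ρp * k ≤ ((Q κ).card : ℝ) with hBig
  set 𝒬 : Finset (Finset (Finset V) × Finset V) := Big.image (fun κ => (κ.1, Q κ)) with h𝒬
  set Z : V → Finset (Finset (Finset V)) := fun x => ZZ G k e1 ρ (tau G 𝒞 e1 x) with hZ
  set Gd : Finset V := univ.filter fun x => x ∈ S ∧
    (∀ D ∈ Z x, ρp * k ≤ ((Q (key G ε2 x D)).card : ℝ) ∧
      ∃ y ∈ Q (key G ε2 x D), ∃ X, Cut G k M x y X) ∧ ∃ y, ∃ X, Cut G k M x y X with hGd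
  have memS : ∀ x, x ∈ S ↔ ZZ G k e1 ρ (tau G 𝒞 e1 x) = ZZ G k e1 ρ2 (tau G 𝒞 e1 x) := by
    intro x
    rw [hS, Finset.mem_filter]
    exact ⟨fun h => h.2, fun h => ⟨mem_univ _, h⟩⟩
  have memGd : ∀ x, x ∈ Gd ↔ (x ∈ S ∧
    (∀ D ∈ Z x, ρp * k ≤ ((Q (key G ε2 x D)).card : ℝ) ∧
      ∃ y ∈ Q (key G ε2 x D), ∃ X, Cut G k M x y X) ∧ ∃ y, ∃ X, Cut G k M x y X) := by
    intro x
    rw [hGd, Finset.mem_filter]
    exact ⟨fun h => h.2, fun h => ⟨mem_univ _, h⟩⟩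
  have memQ : ∀ κ y, y ∈ Q κ ↔ y ∈ S ∧ κ.1 ∈ Z y ∧ key G ε2 y κ.1 = κ := by
    intro κ y
    rw [hQ, cls, Finset.mem_filter]
  have memKK : ∀ x ∈ S, ∀ D ∈ Z x, key G ε2 x D ∈ KK := by
    intro x hx D hD
    rw [hKK, keys, Finset.mem_biUnion]
    exact ⟨x, hx, Finset.mem_image_of_mem _ hD⟩
  have memτ : ∀ x C, C ∈ tau G 𝒞 e1 x → C ∈ 𝒞 ∧ x ∈ NN G e1 C := by
    intro x C h
    rw [mem_tau] at h
    exact ⟨h.1, mem_NN.2 h.2⟩
  have hdeg := hG.deg_le
  -- the number of keys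
  have hKcard : (KK.card : ℝ) * (c0 * k) ≤ L * Fintype.card V := by
    have h1 : (KK.card : ℝ) ≤ (𝒞.card : ℝ) * L := by
      have := card_keys_le (ε2 := ε2) hk1 hM he1 hc0 hρ hε2 hdeg hdj hne hsz S
      rw [hL]
      exact_mod_cast this
    have h2 : (𝒞.card : ℝ) * (c0 * k) ≤ Fintype.card V := by
      have h3 := sum_card_univ_le hdj
      have h4 : ∑ C ∈ 𝒞, (c0 * k) ≤ ∑ C ∈ 𝒞, (C.card : ℝ) := Finset.sum_le_sum hsz
      rw [Finset.sum_const, nsmul_eq_mul] at h4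
      exact h4.trans h3
    have hck : 0 ≤ c0 * k := by positivity
    calc (KK.card : ℝ) * (c0 * k) ≤ (𝒞.card : ℝ) * L * (c0 * k) :=
          mul_le_mul_of_nonneg_right h1 hck
      _ = L * ((𝒞.card : ℝ) * (c0 * k)) := by ring
      _ ≤ L * Fintype.card V := mul_le_mul_of_nonneg_left h2 hL0
  have hn0 : (0 : ℝ) ≤ Fintype.card V := by positivity
  have hK1 : (KK.card : ℝ) * (ρp * k) ≤ δ / 4 * Fintype.card V := by
    have h1 : (KK.card : ℝ) * (ρp * k) = (KK.card : ℝ) * (c0 * k) * (δ / (4 * (L + 1))) := by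
      rw [hρp]
      field_simp
    have h2 : 0 ≤ δ / (4 * (L + 1)) := by positivity
    have h3 : L * (δ / (4 * (L + 1))) ≤ δ / 4 := by
      rw [mul_div_assoc', div_le_div_iff₀ (by positivity) (by norm_num)]
      nlinarith
    rw [h1]
    calc (KK.card : ℝ) * (c0 * k) * (δ / (4 * (L + 1))) ≤
          L * Fintype.card V * (δ / (4 * (L + 1))) := mul_le_mul_of_nonneg_right hKcard h2
      _ = L * (δ / (4 * (L + 1))) * Fintype.card V := by ring
      _ ≤ δ / 4 * Fintype.card V := mul_le_mul_of_nonneg_right h3 hn0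
  have hK2 : (KK.card : ℝ) ≤ δ / 4 * Fintype.card V := by
    have h1 : 4 * L ≤ k * (c0 * δ) := by
      rwa [div_le_iff₀ (by positivity)] at hk3
    have h2 : (KK.card : ℝ) * (c0 * k) ≤ δ / 4 * Fintype.card V * (c0 * k) := by
      refine hKcard.trans ?_
      have h3 : L ≤ δ / 4 * (c0 * k) := by nlinarith
      calc L * Fintype.card V ≤ δ / 4 * (c0 * k) * Fintype.card V :=
            mul_le_mul_of_nonneg_right h3 hn0
        _ = δ / 4 * Fintype.card V * (c0 * k) := by ring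
    exact le_of_mul_le_mul_right h2 (by positivity)
  have hV : Nonempty V → (1 : ℝ) ≤ δ / 4 * Fintype.card V := by
    rintro ⟨v⟩
    have h1 := hG.deg_ge v
    have h2 : deg G v ≤ Fintype.card V := by
      have := dn_le_card G univ v
      rwa [Finset.card_univ] at this
    have h3 := be_lo
    have h4 : 4 / δ ≤ (Fintype.card V : ℝ) := by
      have h5 : 8 / δ = 2 * (4 / δ) := by ring
      rw [h5] at hk2
      have h6 : (1 / 2 : ℝ) * k ≤ be * k := mul_le_mul_of_nonneg_right (by linarith) hk0.le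
      linarith
    rw [div_le_iff₀ hδ] at h4
    linarith
  have few : ((univ \ Gd).card : ℝ) ≤ δ * Fintype.card V := by
    rcases isEmpty_or_nonempty V with hE | hE
    · have h1 : (univ \ Gd : Finset V) = ∅ := Finset.eq_empty_of_isEmpty _
      rw [h1, Finset.card_empty, Nat.cast_zero]
      positivity
    have h1V := hV hE
    set U1 : Finset V := univ.filter fun x => ZZ G k e1 ρ (tau G 𝒞 e1 x) ≠
      ZZ G k e1 ρ2 (tau G 𝒞 e1 x) with hU1
    set U2 : Finset V := (KK.filter fun κ => ¬ ρp * k ≤ ((Q κ).card : ℝ)).biUnion Q with hU2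
    set U3 : Finset V := KK.biUnion fun κ => (Q κ).filter fun y =>
      ¬ ∃ y' ∈ Q κ, ∃ X, Cut G k M y y' X with hU3
    set U4 : Finset V := (univ : Finset V).filter fun y =>
      ¬ ∃ y' ∈ (univ : Finset V), ∃ X, Cut G k M y y' X with hU4
    have hsub : univ \ Gd ⊆ U1 ∪ (U2 ∪ (U3 ∪ U4)) := by
      intro x hx
      rw [Finset.mem_sdiff, memGd] at hx
      have hx2 := hx.2
      by_cases hxS : x ∈ S
      · by_cases hx4 : ∃ y, ∃ X, Cut G k M x y X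
        · have hx5 : ¬ ∀ D ∈ Z x, ρp * k ≤ ((Q (key G ε2 x D)).card : ℝ) ∧
              ∃ y ∈ Q (key G ε2 x D), ∃ X, Cut G k M x y X := fun h => hx2 ⟨hxS, h, hx4⟩
          push Not at hx5
          obtain ⟨D, hD, hD2⟩ := hx5
          have hxQ : x ∈ Q (key G ε2 x D) := mem_cls hxS hD
          have hκ := memKK x hxS D hD
          by_cases hbig : ρp * k ≤ ((Q (key G ε2 x D)).card : ℝ)
          · have h6 := hD2 hbig
            refine Finset.mem_union_right _ (Finset.mem_union_right _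
              (Finset.mem_union_left _ ?_))
            rw [hU3, Finset.mem_biUnion]
            refine ⟨_, hκ, Finset.mem_filter.2 ⟨hxQ, ?_⟩⟩
            rintro ⟨y', hy', X, hX⟩
            exact h6 y' hy' X hX
          · refine Finset.mem_union_right _ (Finset.mem_union_left _ ?_)
            rw [hU2, Finset.mem_biUnion]
            exact ⟨_, Finset.mem_filter.2 ⟨hκ, hbig⟩, hxQ⟩
        · refine Finset.mem_union_right _ (Finset.mem_union_right _
            (Finset.mem_union_right _ ?_))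
          rw [hU4, Finset.mem_filter]
          refine ⟨mem_univ _, ?_⟩
          rintro ⟨y, -, X, hX⟩
          exact hx4 ⟨y, X, hX⟩
      · refine Finset.mem_union_left _ ?_
        rw [hU1, Finset.mem_filter]
        exact ⟨mem_univ _, fun h => hxS ((memS x).2 h)⟩
    have hc2 : (U2.card : ℝ) ≤ δ / 4 * Fintype.card V := by
      have h1 : (U2.card : ℝ) ≤
          ∑ κ ∈ KK.filter fun κ => ¬ ρp * k ≤ ((Q κ).card : ℝ), ((Q κ).card : ℝ) := by
        exact_mod_cast Finset.card_biUnion_le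
      have h2 : ∑ κ ∈ KK.filter fun κ => ¬ ρp * k ≤ ((Q κ).card : ℝ), ((Q κ).card : ℝ) ≤
          ∑ κ ∈ KK.filter fun κ => ¬ ρp * k ≤ ((Q κ).card : ℝ), ρp * k := by
        refine Finset.sum_le_sum fun κ hκ => ?_
        exact (not_le.1 (Finset.mem_filter.1 hκ).2).le
      rw [Finset.sum_const, nsmul_eq_mul] at h2
      have h3 : ((KK.filter fun κ => ¬ ρp * k ≤ ((Q κ).card : ℝ)).card : ℝ) ≤ KK.card := by
        exact_mod_cast Finset.card_filter_le _ _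
      have h4 : ((KK.filter fun κ => ¬ ρp * k ≤ ((Q κ).card : ℝ)).card : ℝ) * (ρp * k) ≤
          KK.card * (ρp * k) := mul_le_mul_of_nonneg_right h3 (by positivity)
      linarith
    have hc3 : (U3.card : ℝ) ≤ δ / 4 * Fintype.card V := by
      refine le_trans ?_ hK2
      have h1 : U3.card ≤ ∑ κ ∈ KK, ((Q κ).filter fun y =>
        ¬ ∃ y' ∈ Q κ, ∃ X, Cut G k M y y' X).card := Finset.card_biUnion_le
      have h2 : ∑ κ ∈ KK, ((Q κ).filter fun y =>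
        ¬ ∃ y' ∈ Q κ, ∃ X, Cut G k M y y' X).card ≤ ∑ κ ∈ KK, 1 :=
        Finset.sum_le_sum fun κ _ => partner hG (Q κ)
      rw [Finset.sum_const, smul_eq_mul, mul_one] at h2
      exact_mod_cast h1.trans h2
    have hc4 : (U4.card : ℝ) ≤ δ / 4 * Fintype.card V := by
      have h1 : U4.card ≤ 1 := partner hG univ
      have h2 : (U4.card : ℝ) ≤ 1 := by exact_mod_cast h1
      linarith
    have hu : ((univ \ Gd).card : ℝ) ≤ U1.card + (U2.card + (U3.card + U4.card)) := by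
      have h1 : (univ \ Gd).card ≤ U1.card + (U2.card + (U3.card + U4.card)) := by
        refine (Finset.card_le_card hsub).trans ((Finset.card_union_le _ _).trans ?_)
        refine Nat.add_le_add_left ((Finset.card_union_le _ _).trans ?_) _
        exact Nat.add_le_add_left (Finset.card_union_le _ _) _
      exact_mod_cast h1
    linarith
  refine ⟨Gd, Z, 𝒬, few, ?_, ?_, ?_, ?_, ?_, ?_, ?_, ?_, ?_, ?_, ?_⟩
  · -- ne
    intro x _ D hD
    exact ZZ_ne hD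
  · -- sub
    intro x _ D hD
    exact ZZ_sub hD
  · -- dj
    intro x _ D hD D' hD' hDD
    exact ZZ_dj hD hD' hDD
  · -- cov
    intro x _ C hC
    exact ZZ_cov hC
  · -- sep
    intro C hC C' hC'
    rcases Finset.eq_empty_or_nonempty (Gd.filter fun x =>
      ∃ D ∈ Z x, C ∈ D ∧ C' ∈ tau G 𝒞 e1 x ∧ C' ∉ D) with h0 | ⟨x, hx⟩
    · rw [h0, Finset.card_empty, Nat.cast_zero]
      have : 0 < ρ0 := lt_of_lt_of_le hρ hρ0
      positivity
    · obtain ⟨-, D, hD, h1, h2, h3⟩ := Finset.mem_filter.1 hx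
      have h4 := ZZ_sep hD h1 h2 h3
      rw [Lk, not_le] at h4
      have h5 : ((Gd.filter fun x =>
        ∃ D ∈ Z x, C ∈ D ∧ C' ∈ tau G 𝒞 e1 x ∧ C' ∉ D).card : ℝ) ≤
          ((NN G e1 C ∩ NN G e1 C').card : ℝ) := by
        have h6 : (Gd.filter fun x =>
          ∃ D ∈ Z x, C ∈ D ∧ C' ∈ tau G 𝒞 e1 x ∧ C' ∉ D) ⊆ NN G e1 C ∩ NN G e1 C' := by
          intro y hy
          obtain ⟨-, D', hD', g1, g2, -⟩ := Finset.mem_filter.1 hy
          rw [Finset.mem_inter]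
          exact ⟨(memτ y C (ZZ_sub hD' g1)).2, (memτ y C' g2).2⟩
        exact_mod_cast Finset.card_le_card h6
      have h7 : ρ * k ≤ ρ0 * k := mul_le_mul_of_nonneg_right hρ0 hk0.le
      linarith
  · -- qsub
    intro p hp y hy
    rw [h𝒬, Finset.mem_image] at hp
    obtain ⟨κ, -, rfl⟩ := hp
    exact ZZ_sub ((memQ κ y).1 hy).2.1
  · -- qden
    intro p hp y hy y' hy' C hC
    rw [h𝒬, Finset.mem_image] at hp
    obtain ⟨κ, -, rfl⟩ := hp
    have h1 : C ∈ tau G 𝒞 e1 y := ZZ_sub ((memQ κ y).1 hy).2.1 hC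
    exact cls_den hε2 hy hy' hC (hne C (memτ y C h1).1)
  · -- qrare
    intro p hp C' hC' hCp
    rw [h𝒬, Finset.mem_image] at hp
    obtain ⟨κ, hκ, rfl⟩ := hp
    have hbig : ρp * k ≤ ((Q κ).card : ℝ) := (Finset.mem_filter.1 hκ).2
    change ((((Q κ).filter fun y => C' ∈ tau G 𝒞 e1 y).card : ℕ) : ℝ) ≤ ρ1 * ((Q κ).card : ℝ)
    rcases Finset.eq_empty_or_nonempty ((Q κ).filter fun y => C' ∈ tau G 𝒞 e1 y)
      with h0 | ⟨y0, hy0⟩
    · rw [h0, Finset.card_empty, Nat.cast_zero]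
      positivity
    · obtain ⟨hy1, hy2⟩ := Finset.mem_filter.1 hy0
      obtain ⟨hyS, hyD, -⟩ := (memQ κ y0).1 hy1
      obtain ⟨C, hC⟩ := ZZ_ne hyD
      have hyD2 : κ.1 ∈ ZZ G k e1 ρ2 (tau G 𝒞 e1 y0) := by
        rw [← (memS y0).1 hyS]
        exact hyD
      have h4 := ZZ_sep hyD2 hC hy2 hCp
      rw [Lk, not_le] at h4
      have h5 : ((((Q κ).filter fun y => C' ∈ tau G 𝒞 e1 y).card : ℕ) : ℝ) ≤
          ((NN G e1 C ∩ NN G e1 C').card : ℝ) := by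
        have h6 : ((Q κ).filter fun y => C' ∈ tau G 𝒞 e1 y) ⊆ NN G e1 C ∩ NN G e1 C' := by
          intro y hy
          obtain ⟨g1, g2⟩ := Finset.mem_filter.1 hy
          rw [Finset.mem_inter]
          exact ⟨(memτ y C (ZZ_sub ((memQ κ y).1 g1).2.1 hC)).2, (memτ y C' g2).2⟩
        exact_mod_cast Finset.card_le_card h6
      have h7 : ρ2 * k ≤ ρ1 * ρp * k := mul_le_mul_of_nonneg_right hρ2 hk0.le
      have h8 : ρ1 * (ρp * k) ≤ ρ1 * ((Q κ).card : ℝ) := mul_le_mul_of_nonneg_left hbig hρ1.le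
      linarith
  · -- qsum
    have h1 : ∑ p ∈ 𝒬, (p.2.card : ℝ) ≤ ∑ κ ∈ Big, ((Q κ).card : ℝ) := by
      rw [h𝒬]
      exact Finset.sum_image_le_of_nonneg (f := fun p : Finset (Finset V) × Finset V =>
        (p.2.card : ℝ)) (fun _ _ => by positivity)
    have h2 : ∑ κ ∈ Big, ((Q κ).card : ℝ) ≤ ∑ κ ∈ KK, ((Q κ).card : ℝ) :=
      Finset.sum_le_sum_of_subset_of_nonneg (Finset.filter_subset _ _)
        (fun _ _ _ => by positivity)
    exact h1.trans (h2.trans (sum_cls_le hk1 he1 hc0 hdeg hdj hsz S))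
  · -- qx
    intro x hx D hD
    obtain ⟨hxS, hx1, -⟩ := (memGd x).1 hx
    obtain ⟨h1, h2⟩ := hx1 D hD
    refine ⟨Q (key G ε2 x D), ?_, mem_cls hxS hD, h2⟩
    rw [h𝒬, Finset.mem_image]
    exact ⟨key G ε2 x D, Finset.mem_filter.2 ⟨memKK x hxS D hD, h1⟩, rfl⟩
  · -- qe
    intro x hx _
    exact ((memGd x).1 hx).2.2

/-- the levels -/
def CMain_seq (ρ0 ρ1 c0 δ : ℝ) (L : ℝ → ℝ) : ℕ → ℝ
  | 0 => ρ0
  | a + 1 => min (CMain_seq ρ0 ρ1 c0 δ L a)
      (ρ1 * (c0 * δ / (4 * (L (CMain_seq ρ0 ρ1 c0 δ L a) + 1))))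

/-- PART C. Zones and classes. -/
theorem zones (M e1 c0 δ ρ0 ρ1 ε2 : ℝ) (hM : 1 ≤ M) (he1 : 0 < e1) (he1' : e1 ≤ 1)
    (hc0 : 0 < c0) (hδ : 0 < δ) (hρ0 : 0 < ρ0) (hρ1 : 0 < ρ1) (hε2 : 0 < ε2) :
    ∃ k0 : ℝ, ∀ k : ℝ, k0 ≤ k → ∀ (V : Type) [Fintype V] (G : SimpleGraph V)
      (𝒞 : Finset (Finset V)) (ε0 : ℝ), Good G k M ε0 →
      (∀ C ∈ 𝒞, ∀ C' ∈ 𝒞, C ≠ C' → Disjoint C C') → (∀ C ∈ 𝒞, C.Nonempty) →
      (∀ C ∈ 𝒞, c0 * k ≤ C.card) →
      ∃ (Gd : Finset V) (Z : V → Finset (Finset (Finset V)))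
        (𝒬 : Finset (Finset (Finset V) × Finset V)), Zon G k M e1 c0 δ ρ0 ρ1 ε2 𝒞 Gd Z 𝒬 := by
  set L : ℝ → ℝ := fun ρ => (lB M e1 c0 ε2 ρ : ℝ) with hL
  have hL0 : ∀ ρ, 0 ≤ L ρ := fun ρ => by rw [hL]; positivity
  set ρs := CMain_seq ρ0 ρ1 c0 δ L with hρs
  have hpos : ∀ a, 0 < ρs a := by
    intro a
    induction a with
    | zero => exact hρ0
    | succ a ih =>
      have h1 := hL0 (ρs a)
      exact lt_min ih (by positivity)
  have hanti : Antitone ρs := antitone_nat_of_succ_le fun a => min_le_left _ _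
  set K : ℝ := M / (e1 * c0) with hK
  have hK0 : 0 ≤ K := by rw [hK]; positivity
  set A : ℕ := ⌈4 * K / δ⌉₊ + 1 with hA
  have hA0 : 0 < A := Nat.succ_pos _
  have hAK : K / A ≤ δ / 4 := by
    have h1 : 4 * K / δ ≤ (A : ℝ) := by
      have h2 := Nat.le_ceil (4 * K / δ)
      rw [hA]
      push_cast
      linarith
    have hA' : (0 : ℝ) < A := by exact_mod_cast hA0
    rw [div_le_iff₀ hδ] at h1
    rw [div_le_iff₀ hA']
    linarith
  refine ⟨1 + 8 / δ + ∑ a ∈ Finset.range A, 4 * L (ρs a) / (c0 * δ), ?_⟩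
  intro k hk V _ G 𝒞 ε0 hG hdj hne hsz
  have hsum0 : 0 ≤ ∑ a ∈ Finset.range A, 4 * L (ρs a) / (c0 * δ) :=
    Finset.sum_nonneg fun a _ => by
      have := hL0 (ρs a)
      positivity
  have h8 : 0 < 8 / δ := by positivity
  have hk1 : 1 ≤ k := by linarith
  obtain ⟨a, ha, hlev⟩ := exists_level (G := G) (e1 := e1) (𝒞 := 𝒞) (by linarith : 0 ≤ k)
    (fun x => card_tau_le hk1 he1 hc0 hG.deg_le hdj hsz x) ρs hanti hA0
  have hka : 4 * L (ρs a) / (c0 * δ) ≤ k := by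
    have h1 : 4 * L (ρs a) / (c0 * δ) ≤ ∑ a ∈ Finset.range A, 4 * L (ρs a) / (c0 * δ) :=
      Finset.single_le_sum (f := fun a => 4 * L (ρs a) / (c0 * δ))
        (fun b _ => by
          have := hL0 (ρs b)
          positivity) (Finset.mem_range.2 ha)
    linarith
  refine CMain_core (ρ := ρs a) (ρ2 := ρs (a + 1)) hM he1 hc0 hδ (hpos a) ?_ ?_ hρ1 hε2 hk1
    (by linarith) hka hG hdj hne hsz ?_
  · exact hanti (Nat.zero_le a)
  · exact min_le_right _ _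
  · refine hlev.trans ?_
    exact mul_le_mul_of_nonneg_right hAK (by positivity)

end LKU
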