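import Pool.Agent.LKU.Num

set_option autoImplicit false
set_option linter.unusedSectionVars false

/-!
# LKU module CardTau (difficulty 1)

`card_tau_le`: for `C` in `tau x` we have `dn C x ≥ e1 |C| ≥ e1 c0 k`; the clusters are disjoint, so (`sum_dn_le_deg`
applied to the family `tau x`) `|tau x| * e1 c0 k ≤ ∑_{C ∈ tau x} dn C x ≤ deg x ≤ M k`.

`sum_card_tau_le`: `∑_{C ∈ tau x} |C| ≤ ∑_{C ∈ tau x} dn C x / e1 ≤ M k / e1`.

`card_NN_le`: `|NN C| * e1 |C| ≤ ∑_{z ∈ NN C} dn C z ≤ ∑_z dn C z = ∑_{v ∈ C} deg v ≤ M k |C|` (`sum_dn_comm`).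
-/

open scoped Classical

noncomputable section

namespace LKU

open Finset

variable {V : Type} [Fintype V]

/-- the number of clusters touched by a vertex -/
theorem card_tau_le {G : SimpleGraph V} {k M e1 c0 : ℝ} {𝒞 : Finset (Finset V)}
    (hk : 1 ≤ k) (he1 : 0 < e1) (hc0 : 0 < c0) (hdeg : ∀ v, deg G v ≤ M * k)
    (hdj : ∀ C ∈ 𝒞, ∀ C' ∈ 𝒞, C ≠ C' → Disjoint C C') (hsz : ∀ C ∈ 𝒞, c0 * k ≤ C.card) (x : V) :
    ((tau G 𝒞 e1 x).card : ℝ) ≤ M / (e1 * c0) := by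
  have hdj' : ∀ C ∈ tau G 𝒞 e1 x, ∀ C' ∈ tau G 𝒞 e1 x, C ≠ C' → Disjoint C C' :=
    fun C hC C' hC' h => hdj C (mem_tau.1 hC).1 C' (mem_tau.1 hC').1 h
  have h1 := sum_dn_le_deg (G := G) hdj' x
  have h2 : ∑ C ∈ tau G 𝒞 e1 x, e1 * (c0 * k) ≤ ∑ C ∈ tau G 𝒞 e1 x, dn G C x := by
    refine sum_le_sum fun C hC => ?_
    obtain ⟨hC1, hC2⟩ := mem_tau.1 hC
    exact le_trans (mul_le_mul_of_nonneg_left (hsz C hC1) he1.le) hC2
  rw [sum_const, nsmul_eq_mul] at h2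
  have h3 : ((tau G 𝒞 e1 x).card : ℝ) * (e1 * c0) * k ≤ M * k := by
    calc ((tau G 𝒞 e1 x).card : ℝ) * (e1 * c0) * k
        = ((tau G 𝒞 e1 x).card : ℝ) * (e1 * (c0 * k)) := by ring
      _ ≤ ∑ C ∈ tau G 𝒞 e1 x, dn G C x := h2
      _ ≤ deg G x := h1
      _ ≤ M * k := hdeg x
  have h4 : ((tau G 𝒞 e1 x).card : ℝ) * (e1 * c0) ≤ M :=
    le_of_mul_le_mul_right h3 (by linarith)
  rw [le_div_iff₀ (mul_pos he1 hc0)]
  exact h4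

/-- the total size of the clusters touched by a vertex -/
theorem sum_card_tau_le {G : SimpleGraph V} {k M e1 : ℝ} {𝒞 : Finset (Finset V)}
    (he1 : 0 < e1) (hdeg : ∀ v, deg G v ≤ M * k)
    (hdj : ∀ C ∈ 𝒞, ∀ C' ∈ 𝒞, C ≠ C' → Disjoint C C') (x : V) :
    ∑ C ∈ tau G 𝒞 e1 x, (C.card : ℝ) ≤ M * k / e1 := by
  have hdj' : ∀ C ∈ tau G 𝒞 e1 x, ∀ C' ∈ tau G 𝒞 e1 x, C ≠ C' → Disjoint C C' :=
    fun C hC C' hC' h => hdj C (mem_tau.1 hC).1 C' (mem_tau.1 hC').1 h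
  have h1 := sum_dn_le_deg (G := G) hdj' x
  have h2 : ∑ C ∈ tau G 𝒞 e1 x, e1 * (C.card : ℝ) ≤ ∑ C ∈ tau G 𝒞 e1 x, dn G C x :=
    sum_le_sum fun C hC => (mem_tau.1 hC).2
  rw [← mul_sum] at h2
  rw [le_div_iff₀ he1]
  calc (∑ C ∈ tau G 𝒞 e1 x, (C.card : ℝ)) * e1
      = e1 * ∑ C ∈ tau G 𝒞 e1 x, (C.card : ℝ) := mul_comm _ _
    _ ≤ _ := h2
    _ ≤ _ := h1
    _ ≤ _ := hdeg x

/-- the number of vertices touching a cluster -/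
theorem card_NN_le {G : SimpleGraph V} {k M e1 : ℝ} (he1 : 0 < e1)
    (hdeg : ∀ v, deg G v ≤ M * k) {C : Finset V} (hC : C.Nonempty) :
    ((NN G e1 C).card : ℝ) ≤ M * k / e1 := by
  have hpos : (0 : ℝ) < C.card := by exact_mod_cast hC.card_pos
  have h1 : ∑ z ∈ NN G e1 C, e1 * (C.card : ℝ) ≤ ∑ z ∈ NN G e1 C, dn G C z :=
    sum_le_sum fun z hz => mem_NN.1 hz
  rw [sum_const, nsmul_eq_mul] at h1
  have h2 : ∑ z ∈ NN G e1 C, dn G C z ≤ ∑ z, dn G C z :=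
    sum_le_sum_of_subset_of_nonneg (subset_univ _) fun z _ _ => dn_nonneg G C z
  have h3 : ∑ z, dn G C z = ∑ v ∈ C, deg G v := sum_dn_comm G univ C
  have h4 : ∑ v ∈ C, deg G v ≤ ∑ _v ∈ C, M * k := sum_le_sum fun v _ => hdeg v
  rw [sum_const, nsmul_eq_mul] at h4
  have h5 : ((NN G e1 C).card : ℝ) * e1 * C.card ≤ M * k * C.card := by
    calc ((NN G e1 C).card : ℝ) * e1 * C.card = ((NN G e1 C).card : ℝ) * (e1 * C.card) := by ring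
      _ ≤ _ := h1
      _ ≤ _ := h2
      _ = _ := h3
      _ ≤ (C.card : ℝ) * (M * k) := h4
      _ = _ := by ring
  rw [le_div_iff₀ he1]
  exact le_of_mul_le_mul_right h5 hpos

end LKU
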