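import Pool.Agent.LKU.DHull

set_option autoImplicit false
set_option linter.unusedSectionVars false

/-!
# LKU part D: application of the hull lemma to the zones
-/

open scoped Classical

noncomputable section

namespace LKU

open Finset

theorem DMain_card_zones {V : Type} {T : Finset (Finset V)} {Z : Finset (Finset (Finset V))}
    (ne : ∀ D ∈ Z, D.Nonempty) (sub : ∀ D ∈ Z, D ⊆ T)
    (dj : ∀ D ∈ Z, ∀ D' ∈ Z, D ≠ D' → Disjoint D D') : Z.card ≤ T.card := by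
  have h1 : Z.card ≤ (Z.biUnion id).card := by
    have h := card_biUnion (s := Z) (t := id) (fun D hD D' hD' hne => dj D hD D' hD' hne)
    rw [h]
    calc Z.card = ∑ D ∈ Z, 1 := by simp
      _ ≤ ∑ D ∈ Z, (id D).card := sum_le_sum fun D hD => card_pos.2 (ne D hD)
  exact h1.trans (card_le_card (biUnion_subset.2 sub))

/-- PART D. Hulls. -/
theorem hulls (M e1 c0 δ η σ e4 : ℝ) (hM : 1 ≤ M) (he1 : 0 < e1) (_he1' : e1 ≤ 1)
    (hc0 : 0 < c0) (hδ : 0 < δ) (hη : 0 < η) (hσ : 0 < σ) (he4 : 0 < e4) :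
    ∃ ρ1 : ℝ, 0 < ρ1 ∧ ∀ (ρ0 ε2 k : ℝ) (V : Type) [Fintype V] (G : SimpleGraph V)
      (𝒞 : Finset (Finset V)) (Gd : Finset V) (Z : V → Finset (Finset (Finset V)))
      (𝒬 : Finset (Finset (Finset V) × Finset V)), 1 ≤ k → (∀ v, deg G v ≤ M * k) →
      (∀ C ∈ 𝒞, ∀ C' ∈ 𝒞, C ≠ C' → Disjoint C C') → (∀ C ∈ 𝒞, C.Nonempty) →
      (∀ C ∈ 𝒞, c0 * k ≤ C.card) → Zon G k M e1 c0 δ ρ0 ρ1 ε2 𝒞 Gd Z 𝒬 →
      ∃ Gd' ⊆ Gd, ((Gd \ Gd').card : ℝ) ≤ δ * Fintype.card V ∧
        ∃ (XC HG HW : V → Finset (Finset V) → Finset V) (yp : V → Finset (Finset V) → V),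
          ∀ x ∈ Gd', Loc G k M e1 η σ e4 ε2 𝒞 x (Z x) (XC x) (HG x) (HW x) (yp x) := by
  have hM0 : 0 < M := by linarith
  set K := M / (e1 * c0) with hK
  have hK0 : 0 < K := by rw [hK]; positivity
  set σ' := δ / (2 * K) with hσ'
  have hσ'0 : 0 < σ' := by rw [hσ']; positivity
  obtain ⟨w0, hw0, hull⟩ := DHull_main M (K * M) (M / e1) η σ σ' hM (by positivity)
    (by positivity) hη hσ hσ'0
  set KG := w0 / (e4 * c0) with hKG
  have hKG0 : 0 ≤ KG := by rw [hKG]; positivity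
  refine ⟨σ' / (KG + 1), by positivity, ?_⟩
  intro ρ0 ε2 k V _ G 𝒞 Gd Z 𝒬 hk hdeg hdj hne hsz hZ
  have hk0 : 0 < k := by linarith
  -- choose the cuts
  have hqx : ∀ (x : V) (D : Finset (Finset V)), ∃ (Q : Finset V) (y : V) (X : Finset V),
      x ∈ Gd → D ∈ Z x → (D, Q) ∈ 𝒬 ∧ x ∈ Q ∧ y ∈ Q ∧ Cut G k M x y X := by
    intro x D
    by_cases h : x ∈ Gd ∧ D ∈ Z x
    · obtain ⟨Q, h1, h2, y, h3, X, h4⟩ := hZ.qx x h.1 D h.2
      exact ⟨Q, y, X, fun _ _ => ⟨h1, h2, h3, h4⟩⟩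
    · exact ⟨∅, x, ∅, fun h1 h2 => absurd ⟨h1, h2⟩ h⟩
  choose Qc yp XC hc using hqx
  set S : V → Finset V := fun y => if y ∈ Gd then (Z y).biUnion (XC y) else ∅ with hS
  have htauK : ∀ x, ((tau G 𝒞 e1 x).card : ℝ) ≤ K := card_tau_le hk he1 hc0 hdeg hdj hsz
  have hScard : ∀ y, ((S y).card : ℝ) ≤ K * M * k := by
    intro y
    by_cases hy : y ∈ Gd
    · have h1 : S y = (Z y).biUnion (XC y) := by rw [hS]; simp [hy]
      have h2 : ((Z y).card : ℝ) ≤ K := by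
        refine le_trans ?_ (htauK y)
        exact_mod_cast DMain_card_zones (hZ.ne y hy) (hZ.sub y hy) (hZ.dj y hy)
      rw [h1]
      calc (((Z y).biUnion (XC y)).card : ℝ) ≤ ∑ D ∈ Z y, ((XC y D).card : ℝ) := by
            exact_mod_cast card_biUnion_le
        _ ≤ ∑ D ∈ Z y, M * k := sum_le_sum fun D hD => (hc y D hy hD).2.2.2.2.2.1
        _ = (Z y).card * (M * k) := by rw [sum_const, nsmul_eq_mul]
        _ ≤ K * (M * k) := mul_le_mul_of_nonneg_right h2 (by positivity)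
        _ = K * M * k := by ring
    · have h1 : S y = ∅ := by rw [hS]; simp [hy]
      rw [h1, card_empty, Nat.cast_zero]
      positivity
  -- hull for each class
  have hcl : ∀ p : Finset (Finset V) × Finset V, ∃ H W : Finset V, p ∈ 𝒬 → p.2.Nonempty →
      (H ⊆ W ∧ tb G (η * k) H ⊆ W ∧ UU p.1 ⊆ W ∧ (W.card : ℝ) ≤ w0 * k ∧
      ((p.2.filter fun x => σ * k < (((S x ∩ W) \ H).card : ℝ) ∨
        σ * k < ((W.filter fun z => η * k ≤ dn G (S x \ H) z).card : ℝ)).card : ℝ) ≤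
        σ' * p.2.card) := by
    intro p
    by_cases h : p ∈ 𝒬 ∧ p.2.Nonempty
    · obtain ⟨y, hy⟩ := h.2
      have hU : ((UU p.1).card : ℝ) ≤ M / e1 * k := by
        calc ((UU p.1).card : ℝ) ≤ ∑ C ∈ p.1, (C.card : ℝ) := by
              have : (UU p.1).card ≤ ∑ C ∈ p.1, C.card := card_biUnion_le
              exact_mod_cast this
          _ ≤ ∑ C ∈ tau G 𝒞 e1 y, (C.card : ℝ) :=
              sum_le_sum_of_subset_of_nonneg (hZ.qsub p h.1 y hy) (fun C _ _ => by positivity)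
          _ ≤ M * k / e1 := sum_card_tau_le he1 hdeg hdj y
          _ = M / e1 * k := by ring
      obtain ⟨H, W, h'⟩ := hull V V G k hk hdeg p.2 h.2 S (fun x _ => hScard x) (UU p.1) hU
      exact ⟨H, W, fun _ _ => h'⟩
    · exact ⟨∅, ∅, fun h1 h2 => absurd ⟨h1, h2⟩ h⟩
  choose Hp Wp hHW using hcl
  set B : Finset (Finset V) × Finset V → Finset V := fun p =>
    (p.2.filter fun x => σ * k < (((S x ∩ Wp p) \ Hp p).card : ℝ) ∨
        σ * k < (((Wp p).filter fun z => η * k ≤ dn G (S x \ Hp p) z).card : ℝ)) ∪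
    (p.2.filter fun y => ∃ C ∈ 𝒞, C ∉ p.1 ∧ C ∈ tau G 𝒞 e1 y ∧
      e4 * C.card < ((C ∩ Wp p).card : ℝ)) with hBdef
  have hB : ∀ p ∈ 𝒬, ((B p).card : ℝ) ≤ 2 * σ' * p.2.card := by
    intro p hp
    rcases p.2.eq_empty_or_nonempty with hpe | hpn
    · have : B p = ∅ := by
        rw [hBdef]; simp [hpe]
      rw [this, hpe]; simp
    obtain ⟨h1, h2, h3, h4, h5⟩ := hHW p hp hpn
    set C' := 𝒞.filter (fun C => C ∉ p.1 ∧ e4 * C.card < ((C ∩ Wp p).card : ℝ)) with hC'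
    have hC'card : (C'.card : ℝ) ≤ KG := by
      have h6 : (C'.card : ℝ) * (e4 * (c0 * k)) ≤ w0 * k := by
        calc (C'.card : ℝ) * (e4 * (c0 * k)) = ∑ C ∈ C', e4 * (c0 * k) := by
              rw [sum_const, nsmul_eq_mul]
          _ ≤ ∑ C ∈ C', ((C ∩ Wp p).card : ℝ) := by
              apply sum_le_sum
              intro C hC
              have h7 := (mem_filter.1 hC)
              have h8 := hsz C h7.1
              have h9 := h7.2.2
              have h10 : e4 * (c0 * k) ≤ e4 * C.card := mul_le_mul_of_nonneg_left h8 he4.le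
              linarith
          _ ≤ (Wp p).card := by
              apply sum_card_le
              intro C hC D hD
              exact hdj C (mem_filter.1 hC).1 D (mem_filter.1 hD).1
          _ ≤ w0 * k := h4
      rw [hKG, le_div_iff₀ (by positivity)]
      have h7 : (C'.card : ℝ) * (e4 * c0) * k ≤ w0 * k := by linarith
      exact le_of_mul_le_mul_right h7 hk0
    have hsec : ((p.2.filter fun y => ∃ C ∈ 𝒞, C ∉ p.1 ∧ C ∈ tau G 𝒞 e1 y ∧
        e4 * C.card < ((C ∩ Wp p).card : ℝ)).card : ℝ) ≤ σ' * p.2.card := by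
      have hsub : (p.2.filter fun y => ∃ C ∈ 𝒞, C ∉ p.1 ∧ C ∈ tau G 𝒞 e1 y ∧
          e4 * C.card < ((C ∩ Wp p).card : ℝ)) ⊆
          C'.biUnion fun C => p.2.filter fun y => C ∈ tau G 𝒞 e1 y := by
        intro y hy
        obtain ⟨hy1, C, hC1, hC2, hC3, hC4⟩ := mem_filter.1 hy
        exact mem_biUnion.2 ⟨C, mem_filter.2 ⟨hC1, hC2, hC4⟩, mem_filter.2 ⟨hy1, hC3⟩⟩
      calc ((p.2.filter fun y => ∃ C ∈ 𝒞, C ∉ p.1 ∧ C ∈ tau G 𝒞 e1 y ∧
          e4 * C.card < ((C ∩ Wp p).card : ℝ)).card : ℝ)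
          ≤ ((C'.biUnion fun C => p.2.filter fun y => C ∈ tau G 𝒞 e1 y).card : ℝ) := by
            exact_mod_cast card_le_card hsub
        _ ≤ ∑ C ∈ C', ((p.2.filter fun y => C ∈ tau G 𝒞 e1 y).card : ℝ) := by
            exact_mod_cast card_biUnion_le
        _ ≤ ∑ C ∈ C', σ' / (KG + 1) * p.2.card := by
            apply sum_le_sum
            intro C hC
            have h7 := (mem_filter.1 hC)
            exact hZ.qrare p hp C h7.1 h7.2.1
        _ = C'.card * (σ' / (KG + 1) * p.2.card) := by rw [sum_const, nsmul_eq_mul]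
        _ ≤ (KG + 1) * (σ' / (KG + 1) * p.2.card) :=
            mul_le_mul_of_nonneg_right (by linarith) (by positivity)
        _ = σ' * p.2.card := by field_simp
    have h6 : ((B p).card : ℝ) ≤ ((p.2.filter fun x =>
        σ * k < (((S x ∩ Wp p) \ Hp p).card : ℝ) ∨
        σ * k < (((Wp p).filter fun z => η * k ≤ dn G (S x \ Hp p) z).card : ℝ)).card : ℝ) +
        ((p.2.filter fun y => ∃ C ∈ 𝒞, C ∉ p.1 ∧ C ∈ tau G 𝒞 e1 y ∧
        e4 * C.card < ((C ∩ Wp p).card : ℝ)).card : ℝ) := by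
      exact_mod_cast card_union_le _ _
    linarith
  refine ⟨Gd \ 𝒬.biUnion B, sdiff_subset, ?_, XC, fun x D => Hp (D, Qc x D),
    fun x D => Wp (D, Qc x D), yp, ?_⟩
  · have hsub : Gd \ (Gd \ 𝒬.biUnion B) ⊆ 𝒬.biUnion B := by
      intro v hv
      rw [mem_sdiff, mem_sdiff] at hv
      by_contra hcon
      exact hv.2 ⟨hv.1, hcon⟩
    calc ((Gd \ (Gd \ 𝒬.biUnion B)).card : ℝ) ≤ ((𝒬.biUnion B).card : ℝ) := by
          exact_mod_cast card_le_card hsub
      _ ≤ ∑ p ∈ 𝒬, ((B p).card : ℝ) := by exact_mod_cast card_biUnion_le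
      _ ≤ ∑ p ∈ 𝒬, 2 * σ' * p.2.card := sum_le_sum hB
      _ = 2 * σ' * ∑ p ∈ 𝒬, (p.2.card : ℝ) := by rw [mul_sum]
      _ ≤ 2 * σ' * (K * Fintype.card V) := by
          apply mul_le_mul_of_nonneg_left _ (by positivity)
          exact hZ.qsum
      _ = δ * Fintype.card V := by rw [hσ']; field_simp
  · intro x hx
    rw [mem_sdiff] at hx
    obtain ⟨hxG, hxB⟩ := hx
    have hSx : S x = (Z x).biUnion (XC x) := by rw [hS]; simp [hxG]
    have hnB : ∀ D ∈ Z x, x ∉ B (D, Qc x D) := by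
      intro D hD hcon
      exact hxB (mem_biUnion.2 ⟨(D, Qc x D), (hc x D hxG hD).1, hcon⟩)
    have hHWx : ∀ D ∈ Z x, _ := fun D hD =>
      hHW (D, Qc x D) (hc x D hxG hD).1 ⟨x, (hc x D hxG hD).2.1⟩
    constructor
    · exact hZ.ne x hxG
    · exact hZ.sub x hxG
    · exact hZ.dj x hxG
    · exact hZ.cov x hxG
    · intro D hD
      exact (hc x D hxG hD).2.2.2
    · intro D hD C hC
      obtain ⟨h1, h2, h3, -⟩ := hc x D hxG hD
      refine ⟨(mem_tau.1 (hZ.qsub _ h1 _ h3 hC)).2, hZ.qden _ h1 x h2 _ h3 C hC⟩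
    · intro D hD
      exact (hHWx D hD).1
    · intro D hD
      exact (hHWx D hD).2.1
    · intro D hD
      exact (hHWx D hD).2.2.1
    · intro D hD
      by_contra hcon
      apply hnB D hD
      rw [hBdef]
      apply mem_union_left
      rw [mem_filter, hSx]
      exact ⟨(hc x D hxG hD).2.1, Or.inl (not_le.1 hcon)⟩
    · intro D hD
      by_contra hcon
      apply hnB D hD
      rw [hBdef]
      apply mem_union_left
      rw [mem_filter, hSx]
      exact ⟨(hc x D hxG hD).2.1, Or.inr (not_le.1 hcon)⟩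
    · intro D hD C hC hCD
      by_contra hcon
      apply hnB D hD
      rw [hBdef]
      apply mem_union_right
      rw [mem_filter]
      exact ⟨(hc x D hxG hD).2.1, C, (mem_tau.1 hC).1, hCD, hC, not_le.1 hcon⟩

end LKU
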