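import Pool.Agent.LKU.FDefs

set_option autoImplicit false
set_option linter.unusedSectionVars false

/-!
# LKU module FAux (difficulty 2)

`dhat_eq`: `dhat x = |A0| + ∑_{C ∈ tau x} aC C`. Proof: `deg x = |nb G univ x| = |A0| + ∑_{C ∈ tau x} dn C x` (the clusters are disjoint),
and `aC C = dn C x - [C ∈ JJ] (|C| - dn C x)`, `JJ ⊆ 𝒞`.
`dhat_zones`: if moreover the zones `Z` partition `tau x` then `dhat x = |A0| + ∑_{D ∈ Z} ∑_{C ∈ D} aC C`.
`sum_aC_le`: for `D ⊆ tau x`: `∑_{C ∈ D} aC C ≤ ∑_{C ∈ D} dn C x = |nb G (UU D) x|` (`2 dn - |C| ≤ dn`).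
`exists_ord`: there is a map to `ℕ` which is injective on a given finset (e.g. through `Finset.equivFin`).
`card_Z_le`: nonempty disjoint subsets of `tau x`: `|Z| ≤ |tau x|` (the same statement is proved in `Asm.lean` as `card_zones_le`; copy it if you like).
`A0_UU`: `A0` and `nb G (UU D) x` are disjoint for `D ⊆ tau x`.
-/

open scoped Classical

noncomputable section

namespace LKU

open Finset

variable {V : Type} [Fintype V]

theorem faux_card_UU {G : SimpleGraph V} {D : Finset (Finset V)}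
    (hdj : ∀ C ∈ D, ∀ C' ∈ D, C ≠ C' → Disjoint C C') (x : V) :
    ((nb G (UU D) x).card : ℝ) = ∑ C ∈ D, dn G C x := by
  have h1 : nb G (UU D) x = D.biUnion fun C => nb G C x := by
    ext v
    simp only [mem_nb, mem_UU, mem_biUnion]
    constructor
    · rintro ⟨⟨C, hC, hv⟩, ha⟩; exact ⟨C, hC, hv, ha⟩
    · rintro ⟨C, hC, hv, ha⟩; exact ⟨⟨C, hC, hv⟩, ha⟩
  rw [h1, card_biUnion]
  · unfold dn; push_cast; rfl
  · intro C hC C' hC' hne
    exact (hdj C hC C' hC' hne).mono (nb_subset _ _ _) (nb_subset _ _ _)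

theorem dhat_eq {G : SimpleGraph V} {k e1 δ : ℝ} {𝒞 : Finset (Finset V)}
    (hdj : ∀ C ∈ 𝒞, ∀ C' ∈ 𝒞, C ≠ C' → Disjoint C C') (x : V) :
    dhat G k e1 δ 𝒞 x = (A0 G 𝒞 e1 x).card + ∑ C ∈ tau G 𝒞 e1 x, aC G k e1 δ 𝒞 x C := by
  have hdj' : ∀ C ∈ tau G 𝒞 e1 x, ∀ C' ∈ tau G 𝒞 e1 x, C ≠ C' → Disjoint C C' :=
    fun C hC C' hC' hne => hdj C (mem_tau.1 hC).1 C' (mem_tau.1 hC').1 hne
  have h1 := faux_card_UU (G := G) hdj' x
  have h2 : deg G x = (A0 G 𝒞 e1 x).card + ((nb G (UU (tau G 𝒞 e1 x)) x).card : ℝ) := by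
    unfold deg dn A0
    have h3 : nb G univ x ∩ UU (tau G 𝒞 e1 x) = nb G (UU (tau G 𝒞 e1 x)) x := by
      ext v
      simp only [mem_inter, mem_nb, mem_univ, true_and]
      tauto
    have h4 := card_sdiff_add_card_inter (nb G univ x) (UU (tau G 𝒞 e1 x))
    rw [h3] at h4
    exact_mod_cast h4.symm
  have h5 : ∑ C ∈ tau G 𝒞 e1 x, aC G k e1 δ 𝒞 x C = ∑ C ∈ tau G 𝒞 e1 x, dn G C x -
      ∑ C ∈ (tau G 𝒞 e1 x) ∩ (JJ G k e1 δ 𝒞), ((C.card : ℝ) - dn G C x) := by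
    rw [← sum_ite_mem, ← sum_sub_distrib]
    refine sum_congr rfl fun C _ => ?_
    unfold aC
    split_ifs <;> ring
  unfold dhat
  rw [h2, h5, h1]
  ring

theorem dhat_zones {G : SimpleGraph V} {k M e1 δ η σ e4 ε2 : ℝ} {𝒞 : Finset (Finset V)} {x : V}
    {Z : Finset (Finset (Finset V))} {XC HG HW : Finset (Finset V) → Finset V}
    {yp : Finset (Finset V) → V} (hL : Loc G k M e1 η σ e4 ε2 𝒞 x Z XC HG HW yp)
    (hdj : ∀ C ∈ 𝒞, ∀ C' ∈ 𝒞, C ≠ C' → Disjoint C C') :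
    dhat G k e1 δ 𝒞 x = (A0 G 𝒞 e1 x).card + ∑ D ∈ Z, ∑ C ∈ D, aC G k e1 δ 𝒞 x C := by
  rw [dhat_eq hdj x]
  have h1 : tau G 𝒞 e1 x = Z.biUnion id := by
    ext C
    simp only [mem_biUnion, id_eq]
    constructor
    · intro h; exact hL.cov C h
    · rintro ⟨D, hD, hC⟩; exact hL.sub D hD hC
  have h2 : ∑ C ∈ Z.biUnion id, aC G k e1 δ 𝒞 x C = ∑ D ∈ Z, ∑ C ∈ id D, aC G k e1 δ 𝒞 x C := by
    apply sum_biUnion
    intro D hD D' hD' hne
    exact hL.dj D hD D' hD' hne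
  rw [h1, h2]
  rfl

theorem sum_aC_le {G : SimpleGraph V} {k e1 δ : ℝ} {𝒞 : Finset (Finset V)}
    (hdj : ∀ C ∈ 𝒞, ∀ C' ∈ 𝒞, C ≠ C' → Disjoint C C') {x : V} {D : Finset (Finset V)}
    (hD : D ⊆ tau G 𝒞 e1 x) :
    ∑ C ∈ D, aC G k e1 δ 𝒞 x C ≤ ((nb G (UU D) x).card : ℝ) := by
  rw [faux_card_UU (fun C hC C' hC' hne => hdj C (mem_tau.1 (hD hC)).1 C' (mem_tau.1 (hD hC')).1 hne)]
  refine sum_le_sum fun C _ => ?_
  unfold aC
  have := dn_le_card G C x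
  split_ifs
  · linarith
  · exact le_rfl

theorem exists_ord {α : Type} (Z : Finset α) : ∃ o : α → ℕ, Set.InjOn o Z := by
  refine ⟨fun a => if h : a ∈ Z then (Z.equivFin ⟨a, h⟩ : ℕ) else 0, ?_⟩
  intro a ha b hb hab
  rw [mem_coe] at ha hb
  simp only [ha, hb, dif_pos] at hab
  have h1 := Z.equivFin.injective (Fin.ext hab)
  exact congrArg Subtype.val h1

theorem card_Z_le {G : SimpleGraph V} {k M e1 η σ e4 ε2 : ℝ} {𝒞 : Finset (Finset V)} {x : V}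
    {Z : Finset (Finset (Finset V))} {XC HG HW : Finset (Finset V) → Finset V}
    {yp : Finset (Finset V) → V} (hL : Loc G k M e1 η σ e4 ε2 𝒞 x Z XC HG HW yp) :
    Z.card ≤ (tau G 𝒞 e1 x).card := by
  have h1 : Z.card ≤ (Z.biUnion id).card := by
    have h := card_biUnion (s := Z) (t := id) (fun D hD D' hD' hne => hL.dj D hD D' hD' hne)
    rw [h]
    calc Z.card = ∑ D ∈ Z, 1 := by simp
      _ ≤ ∑ D ∈ Z, (id D).card := sum_le_sum fun D hD => card_pos.2 (hL.ne D hD)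
  exact h1.trans (card_le_card (biUnion_subset.2 hL.sub))

theorem A0_UU {G : SimpleGraph V} {e1 : ℝ} {𝒞 : Finset (Finset V)} {x : V}
    {D : Finset (Finset V)} (hD : D ⊆ tau G 𝒞 e1 x) :
    Disjoint (A0 G 𝒞 e1 x) (nb G (UU D) x) := by
  rw [disjoint_left]
  intro v hv hv'
  rw [A0, mem_sdiff] at hv
  rw [mem_nb, mem_UU] at hv'
  obtain ⟨⟨C, hC, hvC⟩, -⟩ := hv'
  exact hv.2 (mem_UU.2 ⟨C, hD hC, hvC⟩)

end LKU
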