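import Pool.Agent.LKU.FKey
import Pool.Agent.LKU.FAux

set_option autoImplicit false
set_option linter.unusedSectionVars false

/-!
# LKU module FOne (difficulty 2)

At most one zone. Case `Z = {D}` (`Finset.card_le_one`, `card_eq_one`): `dhat_zones` and `key_ineq` for `i = D` (`Z.erase D = ∅`) give
`dhat x = |A0| + ∑_{C ∈ D} aC C ≤ (1 + ε'/2) k`.
Case `Z = ∅`: `tau x = ∅` (`Loc.cov`), so `dhat x = |A0|` (`dhat_eq`). Let `X` be a cut for `x, y`: `X ∈ XX` (`Cut.xx`), `x ∈ X`, so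
`|A0 ∩ X| ≤ δ k` and `A0 \ X ⊆ nb G univ x \ X ⊆ bd G X` has at most `k + 1` elements. So `dhat x ≤ δ k + k + 1 ≤ (1 + ε') k`
(`c1`; `c6` with `K ≥ 1` gives `100 ≤ ε' k`).
-/

open scoped Classical

noncomputable section

namespace LKU

open Finset

variable {V : Type} [Fintype V]

/-- PART F, at most one zone. -/
theorem struct_one {G : SimpleGraph V} {k M e1 r c0 δ η σ e4 ε2 ε' K : ℝ}
    {𝒞 : Finset (Finset V)} {x : V} {Z : Finset (Finset (Finset V))}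
    {XC HG HW : Finset (Finset V) → Finset V} {yp : Finset (Finset V) → V}
    (hC : Clus G k M e1 r c0 δ 𝒞) (hL : Loc G k M e1 η σ e4 ε2 𝒞 x Z XC HG HW yp)
    (hdeg : ∀ v, deg G v ≤ M * k) (hA0 : ∀ X, XX G k M X → x ∈ X → ((A0 G 𝒞 e1 x ∩ X).card : ℝ) ≤ δ * k)
    (hk : 1 ≤ k) (hM : 1 ≤ M) (he1 : 0 < e1) (he1' : e1 ≤ 1) (hr : 0 < r) (hη : 0 < η)
    (hσ : 0 < σ) (he4 : 0 < e4) (hε2 : 0 < ε2) (hδ : 0 < δ) (hε' : 0 < ε') (hε1 : ε' ≤ 1)
    (hK : ((tau G 𝒞 e1 x).card : ℝ) ≤ K) (hK1 : 1 ≤ K)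
    (c1 : δ ≤ ε' / 8) (c2 : ε2 * (8 * M) ≤ ε' * e1) (c3 : r * (16 * M) ≤ ε' * e1 ^ 2)
    (c4 : 2 * r + 2 / k ≤ δ) (c5 : 100 * K ^ 2 * (σ + e4 * M / e1) ≤ ε') (c6 : 100 * K ^ 2 ≤ ε' * k)
    (h1 : Z.card ≤ 1) (h0 : Z = ∅ → ∃ y X, Cut G k M x y X) :
    dhat G k e1 δ 𝒞 x ≤ (1 + ε') * k := by
  have hk0 : 0 < k := by linarith
  have hK2 : (1 : ℝ) ≤ K ^ 2 := by nlinarith
  rcases Finset.card_le_one_iff_subset_singleton.1 h1 with ⟨D, hD⟩
  rcases Finset.subset_singleton_iff.1 hD with hZ | hZ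
  · obtain ⟨y, X, hX⟩ := h0 hZ
    have htau : tau G 𝒞 e1 x = ∅ := by
      rw [eq_empty_iff_forall_notMem]
      intro C hC'
      obtain ⟨E, hE, -⟩ := hL.cov C hC'
      rw [hZ] at hE
      exact absurd hE (notMem_empty _)
    rw [dhat_eq hC.disj x, htau, sum_empty, add_zero]
    have h2 := hA0 X hX.xx hX.1
    have h3 : A0 G 𝒞 e1 x \ X ⊆ bd G X := by
      intro v hv
      rw [mem_sdiff] at hv
      have h4 := nb_subset_union hX.1 (mem_sdiff.1 hv.1).1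
      rcases mem_union.1 h4 with h5 | h5
      · exact absurd h5 hv.2
      · exact h5
    have h4 : ((A0 G 𝒞 e1 x \ X).card : ℝ) ≤ k + 1 := by
      refine le_trans ?_ hX.xx.2
      exact_mod_cast card_le_card h3
    have h5 : ((A0 G 𝒞 e1 x).card : ℝ) = (A0 G 𝒞 e1 x \ X).card + (A0 G 𝒞 e1 x ∩ X).card := by
      exact_mod_cast (card_sdiff_add_card_inter (A0 G 𝒞 e1 x) X).symm
    rw [h5]
    nlinarith
  · have hDZ : D ∈ Z := by rw [hZ]; exact mem_singleton_self _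
    obtain ⟨o, ho⟩ := exists_ord Z
    have hZK : (Z.card : ℝ) ≤ K := by
      refine le_trans ?_ hK1
      exact_mod_cast h1
    have h2 := key_ineq hC hL hdeg hA0 hk hM he1 he1' hr hη hσ he4 hε2 hδ hε' hε1 hK hK1 hZK c1 c2
      c3 c4 c5 c6 o ho hDZ
    have h3 : Z.erase D = ∅ := by rw [hZ]; simp
    rw [h3, sum_empty, add_zero] at h2
    rw [dhat_zones hL hC.disj, hZ, sum_singleton]
    nlinarith

end LKU
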