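import Pool.Agent.LKU.FKey
import Pool.Agent.LKU.FAux

set_option autoImplicit false
set_option linter.unusedSectionVars false

/-!
# LKU module FTwo (difficulty 3)

Structure inequalities for a vertex with at least two zones. Proof. `|Z| ≤ K` (`card_Z_le`). Let `o` be as in `exists_ord`. Write
`ψ j i = |DD i j \ A0| / k`, `a_j = (∑_{C ∈ j} aC C) / k`. For `j ∈ Z` choose `m j ∈ Z.erase j` with `ψ j (m j)` minimal (`Z.erase j` is nonempty
as `2 ≤ |Z|`). `R j = RR XC HG Z o (m j) j`, `ψ_j = ψ j (m j)`, `φ j = |DD (m j) j| / k`, `g j = a_j - ψ_j`.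
* `R j ⊆ XC (m j)`: definition of `RR`. `tb (η k) (R j) ⊆ DD (m j) j`.
* `g j k ≤ |A_j| - |DD (m j) j \ A0| ≤ |A_j| - |A_j \ R j| = |A_j ∩ R j|`, `A_j = nb G (UU j) x` (`sum_aC_le`; `A_j \ R j ⊆ DD (m j) j \ A0` by `A0_UU`).
* (1) for `i ∈ Z`: `dhat x / k = |A0|/k + a_i + ∑_{j ≠ i} (g j + ψ_j)` (`dhat_zones`), `ψ_j ≤ ψ j i` for `j ≠ i` (minimality, `i ∈ Z.erase j`), so by
  `key_ineq` for `i`: `dhat x / k ≤ 1 + ε'/2 + ∑_{j ≠ i} g j`.
* (2) `g i + ∑_j φ j`: `φ j = ψ_j + |DD (m j) j ∩ A0| / k`; `∑_j |DD (m j) j ∩ A0| ≤ |A0| + K^2 3 s k` (`card_union_ge` with `DD_DD`,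
  `s = σ + e4 M/e1`), so `g i + ∑_j φ j ≤ a_i + ∑_{j ≠ i} ψ_j + |A0|/k + 3 K^2 s ≤ 1 + ε'/2 + 3 K^2 s ≤ 1 + ε'` (`key_ineq`, `c5`).
-/

open scoped Classical

noncomputable section

namespace LKU

open Finset

variable {V : Type} [Fintype V]

/-- PART F. Structure inequalities for a vertex with at least two zones. -/
theorem struct_two {G : SimpleGraph V} {k M e1 r c0 δ η σ e4 ε2 ε' K : ℝ}
    {𝒞 : Finset (Finset V)} {x : V} {Z : Finset (Finset (Finset V))}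
    {XC HG HW : Finset (Finset V) → Finset V} {yp : Finset (Finset V) → V}
    (hC : Clus G k M e1 r c0 δ 𝒞) (hL : Loc G k M e1 η σ e4 ε2 𝒞 x Z XC HG HW yp)
    (hdeg : ∀ v, deg G v ≤ M * k) (hA0 : ∀ X, XX G k M X → x ∈ X → ((A0 G 𝒞 e1 x ∩ X).card : ℝ) ≤ δ * k)
    (hk : 1 ≤ k) (hM : 1 ≤ M) (he1 : 0 < e1) (he1' : e1 ≤ 1) (hr : 0 < r) (hη : 0 < η)
    (hσ : 0 < σ) (he4 : 0 < e4) (hε2 : 0 < ε2) (hδ : 0 < δ) (hε' : 0 < ε') (hε1 : ε' ≤ 1)
    (hK : ((tau G 𝒞 e1 x).card : ℝ) ≤ K) (hK1 : 1 ≤ K)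
    (c1 : δ ≤ ε' / 8) (c2 : ε2 * (8 * M) ≤ ε' * e1) (c3 : r * (16 * M) ≤ ε' * e1 ^ 2)
    (c4 : 2 * r + 2 / k ≤ δ) (c5 : 100 * K ^ 2 * (σ + e4 * M / e1) ≤ ε') (c6 : 100 * K ^ 2 ≤ ε' * k)
    (h2 : 2 ≤ Z.card) :
    ∃ (R : Finset (Finset V) → Finset V) (φ g : Finset (Finset V) → ℝ),
      (∀ D ∈ Z, ∃ D' ∈ Z, R D ⊆ XC D') ∧
      (∀ D ∈ Z, ((tb G (η * k) (R D)).card : ℝ) ≤ φ D * k) ∧
      (∀ D ∈ Z, g D * k ≤ ((nb G (UU D) x ∩ R D).card : ℝ)) ∧
      (∀ D ∈ Z, dhat G k e1 δ 𝒞 x ≤ (1 + ε') * k + (∑ D' ∈ Z.erase D, g D') * k) ∧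
      (∀ D ∈ Z, g D + ∑ D' ∈ Z, φ D' ≤ 1 + ε') := by
  have hk0 : 0 < k := by linarith
  have hM0 : 0 < M := by linarith
  have hZK : (Z.card : ℝ) ≤ K := le_trans (by exact_mod_cast card_Z_le hL) hK
  obtain ⟨o, ho⟩ := exists_ord Z
  set A := A0 G 𝒞 e1 x with hA
  set F : Finset (Finset V) → Finset (Finset V) → Finset V :=
    fun i j => DD G (η * k) x XC HG Z o i j with hF
  have hm : ∀ j ∈ Z, ∃ m ∈ Z.erase j, ∀ i ∈ Z.erase j, (F m j \ A).card ≤ (F i j \ A).card := by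
    intro j hj
    have hne : (Z.erase j).Nonempty := by
      rw [← card_pos, card_erase_of_mem hj]; omega
    exact exists_min_image (Z.erase j) (fun i => (F i j \ A).card) hne
  choose! m hm1 hm2 using hm
  have hkey : ∀ i ∈ Z, ∑ C ∈ i, aC G k e1 δ 𝒞 x C + A.card +
      ∑ j ∈ Z.erase i, ((F i j \ A).card : ℝ) ≤ (1 + ε' / 2) * k := fun i hi =>
    key_ineq hC hL hdeg hA0 hk hM he1 he1' hr hη hσ he4 hε2 hδ hε' hε1 hK hK1 hZK
      c1 c2 c3 c4 c5 c6 o ho hi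
  have hmin : ∀ i ∈ Z, ∀ j ∈ Z.erase i, ((F (m j) j \ A).card : ℝ) ≤ (F i j \ A).card := by
    intro i hi j hj
    have hj' := mem_erase.1 hj
    have := hm2 j hj'.2 i (mem_erase.2 ⟨hj'.1.symm, hi⟩)
    exact_mod_cast this
  have hgk : ∀ j, ((∑ C ∈ j, aC G k e1 δ 𝒞 x C) / k - ((F (m j) j \ A).card : ℝ) / k) * k =
      ∑ C ∈ j, aC G k e1 δ 𝒞 x C - (F (m j) j \ A).card := by
    intro j; field_simp
  refine ⟨fun j => RR XC HG Z o (m j) j, fun j => ((F (m j) j).card : ℝ) / k,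
    fun j => (∑ C ∈ j, aC G k e1 δ 𝒞 x C) / k - ((F (m j) j \ A).card : ℝ) / k,
    ?_, ?_, ?_, ?_, ?_⟩
  · intro D hD
    refine ⟨m D, (mem_erase.1 (hm1 D hD)).2, ?_⟩
    intro v hv
    exact (mem_inter.1 (mem_sdiff.1 hv).1).1
  · intro D hD
    have e1 : ((F (m D) D).card : ℝ) / k * k = (F (m D) D).card := by field_simp
    rw [e1]
    exact_mod_cast card_le_card (show tb G (η * k) (RR XC HG Z o (m D) D) ⊆ F (m D) D from
      subset_union_left)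
  · intro D hD
    show ((∑ C ∈ D, aC G k e1 δ 𝒞 x C) / k - ((F (m D) D \ A).card : ℝ) / k) * k ≤ _
    rw [hgk D]
    have h1 := sum_aC_le (k := k) (δ := δ) hC.disj (hL.sub D hD)
    have h2 : nb G (UU D) x \ RR XC HG Z o (m D) D ⊆ F (m D) D \ A := by
      intro v hv
      rw [mem_sdiff]
      refine ⟨mem_union_right _ hv, fun hvA => ?_⟩
      exact disjoint_left.1 (A0_UU (hL.sub D hD)) hvA (mem_sdiff.1 hv).1
    have h3 : ((nb G (UU D) x \ RR XC HG Z o (m D) D).card : ℝ) ≤ (F (m D) D \ A).card := by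
      exact_mod_cast card_le_card h2
    have h4 : ((nb G (UU D) x).card : ℝ) = (nb G (UU D) x ∩ RR XC HG Z o (m D) D).card +
        (nb G (UU D) x \ RR XC HG Z o (m D) D).card := by
      have := card_inter_add_card_sdiff (nb G (UU D) x) (RR XC HG Z o (m D) D)
      exact_mod_cast this.symm
    linarith
  · intro D hD
    rw [sum_mul, dhat_zones hL hC.disj, ← add_sum_erase Z _ hD]
    have h1 := hkey D hD
    have h2 : ∑ j ∈ Z.erase D, ∑ C ∈ j, aC G k e1 δ 𝒞 x C ≤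
        ∑ j ∈ Z.erase D, ((∑ C ∈ j, aC G k e1 δ 𝒞 x C) / k -
          ((F (m j) j \ A).card : ℝ) / k) * k +
        ∑ j ∈ Z.erase D, ((F D j \ A).card : ℝ) := by
      rw [← sum_add_distrib]
      apply sum_le_sum
      intro j hj
      rw [hgk j]
      have := hmin D hD j hj
      linarith
    have h3 : 0 ≤ ε' * k := mul_nonneg hε'.le hk0.le
    linarith
  · intro D hD
    show (∑ C ∈ D, aC G k e1 δ 𝒞 x C) / k - ((F (m D) D \ A).card : ℝ) / k +
      ∑ j ∈ Z, ((F (m j) j).card : ℝ) / k ≤ 1 + ε'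
    have hs0 : 0 ≤ σ + e4 * M / e1 := by positivity
    have h1 := hkey D hD
    have h2 : ∀ j, ((F (m j) j).card : ℝ) = (F (m j) j \ A).card + (F (m j) j ∩ A).card := by
      intro j
      have := card_inter_add_card_sdiff (F (m j) j) A
      have h3 : ((F (m j) j ∩ A).card : ℝ) + (F (m j) j \ A).card = (F (m j) j).card := by
        exact_mod_cast this
      linarith
    have h3 : ∑ j ∈ Z, ((F (m j) j ∩ A).card : ℝ) ≤ A.card +
        (Z.card : ℝ) ^ 2 * (3 * ((σ + e4 * M / e1) * k)) := by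
      have h4 := card_union_ge Z (fun j => F (m j) j ∩ A) (3 * ((σ + e4 * M / e1) * k))
        (by positivity) (by
          intro j hj l hl hjl
          have h5 := DD_DD hL hC.disj hdeg hk hM he1 hη hσ he4 o ho
            (mem_erase.1 (hm1 j hj)).2 (mem_erase.1 (hm1 l hl)).2 hj hl hjl
          refine le_trans ?_ h5
          exact_mod_cast card_le_card (inter_subset_inter inter_subset_left inter_subset_left))
      have h6 : ((Z.biUnion fun j => F (m j) j ∩ A).card : ℝ) ≤ A.card := by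
        exact_mod_cast card_le_card (biUnion_subset.2 fun j _ => inter_subset_right)
      linarith
    have h4 : (Z.card : ℝ) ^ 2 ≤ K ^ 2 := pow_le_pow_left₀ (by positivity) hZK 2
    have h5 : (Z.card : ℝ) ^ 2 * (3 * ((σ + e4 * M / e1) * k)) ≤ ε' / 2 * k := by
      have h6 : (Z.card : ℝ) ^ 2 * (3 * ((σ + e4 * M / e1) * k)) ≤
          K ^ 2 * (3 * ((σ + e4 * M / e1) * k)) :=
        mul_le_mul_of_nonneg_right h4 (by positivity)
      have h7 : 50 * K ^ 2 * (σ + e4 * M / e1) * k ≤ ε' / 2 * k :=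
        mul_le_mul_of_nonneg_right (by linarith) hk0.le
      have h8 : 0 ≤ K ^ 2 * (σ + e4 * M / e1) * k := by positivity
      linarith
    have h6 : ∑ j ∈ Z, ((F (m j) j \ A).card : ℝ) ≤ (F (m D) D \ A).card +
        ∑ j ∈ Z.erase D, ((F D j \ A).card : ℝ) := by
      rw [← add_sum_erase Z _ hD]
      have := sum_le_sum (hmin D hD)
      linarith
    have h7 : ∑ j ∈ Z, ((F (m j) j).card : ℝ) = ∑ j ∈ Z, ((F (m j) j \ A).card : ℝ) +
        ∑ j ∈ Z, ((F (m j) j ∩ A).card : ℝ) := by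
      rw [← sum_add_distrib]
      exact sum_congr rfl fun j _ => h2 j
    have h8 : (∑ C ∈ D, aC G k e1 δ 𝒞 x C - ((F (m D) D \ A).card : ℝ) +
        ∑ j ∈ Z, ((F (m j) j).card : ℝ)) / k ≤ 1 + ε' := by
      rw [div_le_iff₀ hk0, h7]
      linarith
    rw [← sum_div]
    refine le_trans (le_of_eq ?_) h8
    ring

end LKU
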