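import Pool.Agent.LKU.LamA
import Pool.Agent.LKU.CardTau

set_option autoImplicit false
set_option linter.unusedSectionVars false

/-!
# LKU module Geom (difficulty 3)

The geometry condition of the region lemma. Proof. Put `e13 = es * e1 / (2 M)`. `∑_{C ∈ tau x} |C| ≤ M k / e1` (`sum_card_tau_le`).
Let `T' = {C ∈ tau x : e13 |C| ≤ |C ∩ U|}`. As `U ⊆ A ⊆ UU (tau x)`, and
`∑_{C ∈ tau x \ T'} |C ∩ U| ≤ e13 M k / e1 = es k / 2`, we get `∑_{C ∈ T'} |C ∩ U| ≥ |U| - es k / 2 ≥ es k / 2 > 0`; `T'` is not empty.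
Let `C ∈ T'` minimize `1 - cv C` and `l = 1 - cv C`; `0 ≤ l ≤ 1 - be` (`cv_le_one`, `be_le_cv`).
`∑_{v ∈ U} lam v ≥ ∑_{C' ∈ T'} |C' ∩ U| (1 - cv C') ≥ l (|U| - es k / 2) ≥ l (|U| - es k)` (`lam_of_mem`, `lam_nonneg`).
Now `(1 - l - φ - es) k ≤ |R \ P|`: put `C' = C ∩ U`, so `|C'| ≥ e13 |C|`. By `hC.reg C` all `z ∈ NN C` but at most `r k` satisfy
`|dn C' z - (dn C z/|C|) |C'|| < r |C|`; for these `dn C' z > e1 |C'| - r |C|`. Since `r ≤ e1 e13 / 2` (`c1`):
`dn C' z ≥ e1 |C'| / 2` (as `r |C| ≤ e1 e13 |C| / 2 ≤ e1 |C'| / 2`) `≥ e1 e13 |C| / 2 ≥ e1 e13 c0 k / 2 ≥ η k` (`c2`).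
`C' ⊆ U ⊆ R`, so `dn R z ≥ η k`: `z ∈ R` or `z ∈ tb (η k) R`. The number of such `z ∈ P`: by double counting
`∑_{z ∈ P} dn C' z = ∑_{v ∈ C'} dn P v ≤ |C'| e9 k` (`hdr`), so there are at most `2 e9 k / e1` of them. Hence
`|NN C| ≤ |R \ P| + φ k + r k + 2 e9 k / e1`. Finally `(1 - l) k = cv C * k ≤ |NN C| + δ k` (`cv_mul_le`), and `c3`.
(The hypothesis `hUP` and `hdeg'` may be partly superfluous.)
-/

open scoped Classical

noncomputable section

namespace LKU

open Finset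

variable {V : Type} [Fintype V]

/-- PART G3. The geometry condition of the region lemma. -/
theorem geometry {G : SimpleGraph V} {k M e1 r c0 δ η es e9 φ : ℝ} {𝒞 : Finset (Finset V)}
    (hC : Clus G k M e1 r c0 δ 𝒞) (hk : 1 ≤ k) (hM : 1 ≤ M) (he1 : 0 < e1) (he1' : e1 ≤ 1)
    (hr : 0 < r) (hc0 : 0 < c0) (hδ : 0 < δ) (hη : 0 < η) (hes : 0 < es) (he9 : 0 < e9)
    (hdeg : ∀ v, be * k ≤ deg G v) (hdeg' : ∀ v, deg G v ≤ M * k)
    (c1 : 4 * M * r ≤ e1 ^ 2 * es) (c2 : 4 * M * η ≤ e1 ^ 2 * es * c0)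
    (c3 : r + 2 * e9 / e1 + δ ≤ es)
    {x : V} {A R P U : Finset V} (hA : A ⊆ nb G (UU (tau G 𝒞 e1 x)) x)
    (htb : ((tb G (η * k) R).card : ℝ) ≤ φ * k) (hU : U ⊆ A ∩ R) (hUP : Disjoint U P)
    (hUc : es * k ≤ U.card) (hdr : ∀ v ∈ U, dn G P v ≤ e9 * k) :
    ∃ l : ℝ, 0 ≤ l ∧ l ≤ 1 - be ∧ (1 - l - φ - es) * k ≤ ((R \ P).card : ℝ) ∧
      l * (U.card - es * k) ≤ ∑ v ∈ U, lam G k e1 δ 𝒞 v := by
  have hM0 : 0 < M := by linarith
  have hk0 : 0 < k := by linarith
  set e13 := es * e1 / (2 * M) with he13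
  have he130 : 0 < e13 := by rw [he13]; positivity
  set τ := tau G 𝒞 e1 x with hτ
  have hτC : ∀ C ∈ τ, C ∈ 𝒞 := fun C hC => (mem_tau.1 hC).1
  have hdj : ∀ C ∈ τ, ∀ C' ∈ τ, C ≠ C' → Disjoint C C' :=
    fun C h1 C' h2 h3 => hC.disj C (hτC C h1) C' (hτC C' h2) h3
  set T' := τ.filter (fun C => e13 * C.card ≤ ((C ∩ U).card : ℝ)) with hT'
  have hUsub : U ⊆ UU τ := fun v hv => (mem_nb.1 (hA (mem_inter.1 (hU hv)).1)).1
  have hUeq : τ.biUnion (fun C => C ∩ U) = U := by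
    ext v
    simp only [mem_biUnion, mem_inter]
    constructor
    · rintro ⟨C, _, _, h⟩; exact h
    · intro hv
      obtain ⟨C, hC1, hC2⟩ := mem_UU.1 (hUsub hv)
      exact ⟨C, hC1, hC2, hv⟩
  have hpd : Set.PairwiseDisjoint (τ : Set (Finset V)) (fun C => C ∩ U) := by
    intro C h1 C' h2 h3
    exact (hdj C h1 C' h2 h3).mono inter_subset_left inter_subset_left
  have hsplit : ∀ f : V → ℝ, ∑ v ∈ U, f v = ∑ C ∈ τ, ∑ v ∈ C ∩ U, f v := by
    intro f
    rw [← sum_biUnion hpd, hUeq]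
  have hUcard : (U.card : ℝ) = ∑ C ∈ τ, ((C ∩ U).card : ℝ) := by
    have := hsplit (fun _ => 1)
    simpa using this
  -- small clusters
  have hsumτ := sum_card_tau_le he1 hdeg' hC.disj x
  rw [← hτ] at hsumτ
  have hsm : ∑ C ∈ τ.filter (fun C => ¬ e13 * C.card ≤ ((C ∩ U).card : ℝ)),
      ((C ∩ U).card : ℝ) ≤ es * k / 2 := by
    calc ∑ C ∈ τ.filter (fun C => ¬ e13 * C.card ≤ ((C ∩ U).card : ℝ)), ((C ∩ U).card : ℝ)
        ≤ ∑ C ∈ τ.filter (fun C => ¬ e13 * C.card ≤ ((C ∩ U).card : ℝ)), e13 * C.card := by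
          apply sum_le_sum
          intro C h1
          exact (not_le.1 (mem_filter.1 h1).2).le
      _ ≤ ∑ C ∈ τ, e13 * C.card := by
          apply sum_le_sum_of_subset_of_nonneg (filter_subset _ _)
          intro C _ _
          positivity
      _ = e13 * ∑ C ∈ τ, (C.card : ℝ) := by rw [mul_sum]
      _ ≤ e13 * (M * k / e1) := mul_le_mul_of_nonneg_left hsumτ he130.le
      _ = es * k / 2 := by rw [he13]; field_simp
  have hT'sum : U.card - es * k / 2 ≤ ∑ C ∈ T', ((C ∩ U).card : ℝ) := by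
    have h1 := sum_filter_add_sum_filter_not τ (fun C => e13 * C.card ≤ ((C ∩ U).card : ℝ))
      (fun C => ((C ∩ U).card : ℝ))
    rw [← hUcard] at h1
    rw [hT']
    linarith
  have hesk : 0 < es * k := mul_pos hes hk0
  have hT'ne : T'.Nonempty := by
    rw [nonempty_iff_ne_empty]
    intro h0
    rw [h0, sum_empty] at hT'sum
    linarith
  obtain ⟨C0, hC0, hmin⟩ := exists_min_image T' (fun C => 1 - cv G k e1 δ 𝒞 C) hT'ne
  have hC0τ : C0 ∈ τ := (mem_filter.1 hC0).1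
  have hC0C : C0 ∈ 𝒞 := hτC C0 hC0τ
  have hC0c := (mem_filter.1 hC0).2
  have hC0ne := hC.ne C0 hC0C
  have hC0pos : (0 : ℝ) < C0.card := by exact_mod_cast hC0ne.card_pos
  have hl0 : 0 ≤ 1 - cv G k e1 δ 𝒞 C0 := by linarith [cv_le_one G k e1 δ 𝒞 C0]
  refine ⟨1 - cv G k e1 δ 𝒞 C0, hl0, ?_, ?_, ?_⟩
  · linarith [be_le_cv (e1 := e1) (δ := δ) (𝒞 := 𝒞) hk hdeg hC0ne]
  · -- the size of R \ P
    set C' := C0 ∩ U with hC'
    have hC'pos : (0 : ℝ) < C'.card := lt_of_lt_of_le (mul_pos he130 hC0pos) hC0c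
    have hreg := hC.reg C0 hC0C C' inter_subset_left
    set Bad := univ.filter fun z =>
      r * C0.card ≤ |dn G C' z - dn G C0 z / C0.card * C'.card| with hBad
    set P' := P.filter (fun z => e1 * C'.card / 2 ≤ dn G C' z) with hP'
    have hr1 : r ≤ e1 * e13 / 2 := by
      have : r * (4 * M) ≤ e1 ^ 2 * es := by linarith
      rw [← le_div_iff₀ (by positivity)] at this
      refine this.trans (le_of_eq ?_)
      rw [he13]; field_simp; ring
    have hη1 : η ≤ e1 * e13 / 2 * c0 := by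
      have : η * (4 * M) ≤ e1 ^ 2 * es * c0 := by linarith
      rw [← le_div_iff₀ (by positivity)] at this
      refine this.trans (le_of_eq ?_)
      rw [he13]; field_simp; ring
    have hsize := hC.size C0 hC0C
    have hgood : ∀ z ∈ NN G e1 C0, z ∉ Bad → e1 * C'.card / 2 ≤ dn G C' z ∧
        η * k ≤ dn G C' z := by
      intro z hz hzB
      rw [mem_NN] at hz
      have h1 : |dn G C' z - dn G C0 z / C0.card * C'.card| < r * C0.card := by
        by_contra hcon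
        exact hzB (mem_filter.2 ⟨mem_univ _, not_lt.1 hcon⟩)
      have h2 := (abs_lt.1 h1).1
      have h3 : e1 ≤ dn G C0 z / C0.card := by rwa [le_div_iff₀ hC0pos]
      have h4 := mul_le_mul_of_nonneg_right h3 hC'pos.le
      have h5 : r * C0.card ≤ e1 * e13 / 2 * C0.card :=
        mul_le_mul_of_nonneg_right hr1 hC0pos.le
      have h6 : e1 / 2 * (e13 * C0.card) ≤ e1 / 2 * C'.card :=
        mul_le_mul_of_nonneg_left hC0c (by positivity)
      have h7 : e1 * C'.card / 2 ≤ dn G C' z := by linarith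
      have h8 : η * k ≤ e1 * e13 / 2 * c0 * k := mul_le_mul_of_nonneg_right hη1 hk0.le
      have h9 : e1 * e13 / 2 * (c0 * k) ≤ e1 * e13 / 2 * C0.card :=
        mul_le_mul_of_nonneg_left hsize (by positivity)
      exact ⟨h7, by linarith⟩
    have hsub : NN G e1 C0 ⊆ ((R \ P) ∪ tb G (η * k) R) ∪ (Bad ∪ P') := by
      intro z hz
      by_cases hzB : z ∈ Bad
      · exact mem_union_right _ (mem_union_left _ hzB)
      · obtain ⟨h1, h2⟩ := hgood z hz hzB
        by_cases hzP : z ∈ P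
        · exact mem_union_right _ (mem_union_right _ (mem_filter.2 ⟨hzP, h1⟩))
        · apply mem_union_left
          by_cases hzR : z ∈ R
          · exact mem_union_left _ (mem_sdiff.2 ⟨hzR, hzP⟩)
          · apply mem_union_right
            rw [mem_tb]
            refine ⟨hzR, h2.trans (dn_mono G ?_ z)⟩
            intro v hv
            exact (mem_inter.1 (hU (mem_inter.1 hv).2)).2
    have hP'card : (P'.card : ℝ) ≤ 2 * e9 / e1 * k := by
      have h1 : (P'.card : ℝ) * (e1 * C'.card / 2) ≤ C'.card * (e9 * k) := by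
        calc (P'.card : ℝ) * (e1 * C'.card / 2) = ∑ z ∈ P', (e1 * C'.card / 2) := by
              rw [sum_const, nsmul_eq_mul]
          _ ≤ ∑ z ∈ P', dn G C' z := sum_le_sum fun z hz => (mem_filter.1 hz).2
          _ ≤ ∑ z ∈ P, dn G C' z :=
              sum_le_sum_of_subset_of_nonneg (filter_subset _ _) (fun z _ _ => dn_nonneg G C' z)
          _ = ∑ v ∈ C', dn G P v := sum_dn_comm G P C'
          _ ≤ ∑ v ∈ C', e9 * k := sum_le_sum fun v hv => hdr v (mem_inter.1 hv).2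
          _ = C'.card * (e9 * k) := by rw [sum_const, nsmul_eq_mul]
      have h2 : (P'.card : ℝ) * (e1 / 2) ≤ e9 * k := by
        have : (P'.card : ℝ) * (e1 / 2) * C'.card ≤ e9 * k * C'.card := by linarith
        exact le_of_mul_le_mul_right this hC'pos
      have h3 : 2 * e9 / e1 * k = (e9 * k) / (e1 / 2) := by field_simp
      rw [h3, le_div_iff₀ (by positivity)]
      exact h2
    have hcard : ((NN G e1 C0).card : ℝ) ≤ ((R \ P).card + (tb G (η * k) R).card) +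
        (Bad.card + P'.card) := by
      have h1 := card_le_card hsub
      have h2 := card_union_le ((R \ P) ∪ tb G (η * k) R) (Bad ∪ P')
      have h3 := card_union_le (R \ P) (tb G (η * k) R)
      have h4 := card_union_le Bad P'
      have h5 : (NN G e1 C0).card ≤ ((R \ P).card + (tb G (η * k) R).card) +
        (Bad.card + P'.card) := by omega
      exact_mod_cast h5
    have hcv := cv_mul_le hC hk hδ hC0C
    have hc3 : (r + 2 * e9 / e1 + δ) * k ≤ es * k := mul_le_mul_of_nonneg_right c3 hk0.le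
    have hreg' : (Bad.card : ℝ) ≤ r * k := hreg
    linarith
  · -- the supply
    have hlam : ∑ C ∈ T', (1 - cv G k e1 δ 𝒞 C) * ((C ∩ U).card : ℝ) ≤
        ∑ v ∈ U, lam G k e1 δ 𝒞 v := by
      rw [hsplit]
      calc ∑ C ∈ T', (1 - cv G k e1 δ 𝒞 C) * ((C ∩ U).card : ℝ)
          = ∑ C ∈ T', ∑ v ∈ C ∩ U, lam G k e1 δ 𝒞 v := by
            apply sum_congr rfl
            intro C h1
            have hCC : C ∈ 𝒞 := hτC C (mem_filter.1 h1).1
            rw [sum_congr rfl (g := fun _ => 1 - cv G k e1 δ 𝒞 C)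
              (fun v hv => lam_of_mem hC.disj hCC (mem_inter.1 hv).1), sum_const, nsmul_eq_mul]
            ring
        _ ≤ ∑ C ∈ τ, ∑ v ∈ C ∩ U, lam G k e1 δ 𝒞 v := by
            apply sum_le_sum_of_subset_of_nonneg (filter_subset _ _)
            intro C _ _
            exact sum_nonneg fun v _ => lam_nonneg hC v
    have h2 : (1 - cv G k e1 δ 𝒞 C0) * ∑ C ∈ T', ((C ∩ U).card : ℝ) ≤
        ∑ C ∈ T', (1 - cv G k e1 δ 𝒞 C) * ((C ∩ U).card : ℝ) := by
      rw [mul_sum]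
      apply sum_le_sum
      intro C h1
      exact mul_le_mul_of_nonneg_right (hmin C h1) (by positivity)
    have h3 : (1 - cv G k e1 δ 𝒞 C0) * (U.card - es * k) ≤
        (1 - cv G k e1 δ 𝒞 C0) * ∑ C ∈ T', ((C ∩ U).card : ℝ) :=
      mul_le_mul_of_nonneg_left (by linarith) hl0
    linarith

end LKU
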