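import Pool.Agent.LKU.HBase

set_option autoImplicit false
set_option linter.unusedSectionVars false

/-!
# LKU module HChain (difficulty 3): the chain of states

`exists_closure`: `hN`: every valid list has length at most `N`. For a valid `L` and `0 ≤ ℓ ≤ 60` there is a list `N'` of steps of level `ℓ` with `N' ++ L` valid and
closed at level `ℓ`: choose `N'` (all levels `ℓ`, `N' ++ L` valid) of maximal length; if `Afd (N' ++ L) i ℓ` then `(i, ℓ) :: N'` is longer.

`exists_chain`: iterate: `Ls 0 = []`, `Ls (a+1)` = closure of `Ls a` at level `lev a = 60 - a * (60 / A)` (`0 ≤ lev a ≤ 60` for `a ≤ A`).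

`chain_suffix`: `Ls a <:+ Ls b` for `a ≤ b ≤ A`. `chain_level`: all steps in `Ls a`, `1 ≤ a ≤ A`, have levels `≥ lev (a-1)`, and the steps in `Ls b` which are new
with respect to `Ls a` have levels `≤ lev a`.

`chain_zone`: for every zone `j` there is `a ≤ A` with `lv (Ls A) j = lev a` and `j` not touched in `Ls a`: if `j` is not touched in `Ls A` take `a = A`
(`lv_untouched`, `lev A = 0`). Otherwise let `a + 1` be the least index with `Tch (Ls (a+1)) j` (`Ls 0 = []` touches nothing). The steps of `Ls A` touching `j` are not in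
`Ls a`, so they have levels `≤ lev a`, and a step of `Ls (a+1)` touching `j` has level `lev a`; use `lv_eq`.
(Levels: write `Ls b = N_{b-1} ++ ... ++ N_a ++ Ls a`, the steps in `N_c` have level `lev c`, `lev` is decreasing.)
-/

open scoped Classical

noncomputable section

namespace LKU

open Finset

variable {V ι : Type} [Fintype V] (D : HD V ι)

theorem exists_closure {N : ℕ} (hN : ∀ L, D.Valid L → L.length ≤ N) {L : List (ι × ℝ)}
    (hL : D.Valid L) {ℓ : ℝ} (h0 : 0 ≤ ℓ) (h1 : ℓ ≤ 60) :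
    ∃ N' : List (ι × ℝ), (∀ p ∈ N', p.2 = ℓ) ∧ D.Valid (N' ++ L) ∧ D.Closed (N' ++ L) ℓ := by
  have key : ∀ m : ℕ, ∀ N' : List (ι × ℝ), (∀ p ∈ N', p.2 = ℓ) → D.Valid (N' ++ L) →
      N ≤ N'.length + m → ∃ N' : List (ι × ℝ), (∀ p ∈ N', p.2 = ℓ) ∧ D.Valid (N' ++ L) ∧
        D.Closed (N' ++ L) ℓ := by
    intro m
    induction m with
    | zero =>
      intro N' h2 h3 h4
      refine ⟨N', h2, h3, fun i hi => ?_⟩
      have h5 : D.Valid ((i, ℓ) :: (N' ++ L)) := ⟨h3, h0, h1, hi⟩
      have h6 := hN _ h5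
      rw [List.length_cons, List.length_append] at h6
      omega
    | succ m ih =>
      intro N' h2 h3 h4
      by_cases hc : D.Closed (N' ++ L) ℓ
      · exact ⟨N', h2, h3, hc⟩
      · rw [HD.Closed] at hc
        push Not at hc
        obtain ⟨i, hi⟩ := hc
        apply ih ((i, ℓ) :: N')
        · intro p hp
          rw [List.mem_cons] at hp
          rcases hp with rfl | hp
          · rfl
          · exact h2 p hp
        · exact ⟨h3, h0, h1, hi⟩
        · rw [List.length_cons]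
          omega
  exact key N [] (by simp) (by simpa using hL) (by simp)

/-- the levels -/
def lev (A : ℕ) (a : ℕ) : ℝ := 60 - a * (60 / A)

/-- a chain of states -/
structure Chain (D : HD V ι) (A : ℕ) (Ls : ℕ → List (ι × ℝ)) : Prop where
  zero : Ls 0 = []
  step : ∀ a < A, ∃ N' : List (ι × ℝ), (∀ p ∈ N', p.2 = lev A a) ∧ Ls (a + 1) = N' ++ Ls a
  valid : ∀ a ≤ A, D.Valid (Ls a)
  closed : ∀ a < A, D.Closed (Ls (a + 1)) (lev A a)

theorem HChain_lev_nonneg {A a : ℕ} (hA : 0 < A) (ha : a ≤ A) : 0 ≤ lev A a := by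
  have h1 : (0 : ℝ) < A := by exact_mod_cast hA
  have h2 : (a : ℝ) ≤ A := by exact_mod_cast ha
  have h3 : (a : ℝ) * (60 / A) ≤ A * (60 / A) :=
    mul_le_mul_of_nonneg_right h2 (by positivity)
  have h4 : (A : ℝ) * (60 / A) = 60 := by field_simp
  rw [lev]
  linarith

theorem HChain_lev_le (A a : ℕ) : lev A a ≤ 60 := by
  have h1 : (0 : ℝ) ≤ a * (60 / A) := by positivity
  rw [lev]
  linarith

theorem HChain_lev_succ (A a : ℕ) : lev A (a + 1) ≤ lev A a := by
  have h1 : (0 : ℝ) ≤ 60 / A := by positivity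
  rw [lev, lev]
  push_cast
  linarith

theorem HChain_lev_last {A : ℕ} (hA : 0 < A) : lev A A = 0 := by
  have h1 : (0 : ℝ) < A := by exact_mod_cast hA
  have h4 : (A : ℝ) * (60 / A) = 60 := by field_simp
  rw [lev, h4]
  norm_num

theorem exists_chain {N : ℕ} (hN : ∀ L, D.Valid L → L.length ≤ N) {A : ℕ} (hA : 0 < A) :
    ∃ Ls : ℕ → List (ι × ℝ), Chain D A Ls := by
  have hstep : ∀ (a : ℕ) (L : {L // D.Valid L}), ∃ L' : {L // D.Valid L},
      a < A → (∃ N' : List (ι × ℝ), (∀ p ∈ N', p.2 = lev A a) ∧ L'.1 = N' ++ L.1) ∧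
        D.Closed L'.1 (lev A a) := by
    intro a L
    by_cases ha : a < A
    · obtain ⟨N', h1, h2, h3⟩ := exists_closure D hN L.2
        (HChain_lev_nonneg hA ha.le) (HChain_lev_le A a)
      exact ⟨⟨N' ++ L.1, h2⟩, fun _ => ⟨⟨N', h1, rfl⟩, h3⟩⟩
    · exact ⟨L, fun h => absurd h ha⟩
  choose f hf using hstep
  let F : ℕ → {L // D.Valid L} := fun n => Nat.rec ⟨[], trivial⟩ (fun a L => f a L) n
  have hF : ∀ a, F (a + 1) = f a (F a) := fun a => rfl
  refine ⟨fun a => (F a).1, rfl, fun a ha => ?_, fun a _ => (F a).2, fun a ha => ?_⟩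
  · obtain ⟨N', h1, h2⟩ := (hf a (F a) ha).1
    exact ⟨N', h1, by rw [hF]; exact h2⟩
  · have := (hf a (F a) ha).2
    rw [hF]
    exact this

theorem chain_suffix {D : HD V ι} {A : ℕ} {Ls : ℕ → List (ι × ℝ)} (h : Chain D A Ls) {a b : ℕ}
    (hab : a ≤ b) (hb : b ≤ A) : Ls a <:+ Ls b := by
  induction b, hab using Nat.le_induction with
  | base => exact List.suffix_refl _
  | succ b _ ih =>
    obtain ⟨N', -, h2⟩ := h.step b (by omega)
    rw [h2]
    exact (ih (by omega)).trans (List.suffix_append N' (Ls b))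

theorem chain_level {D : HD V ι} {A : ℕ} {Ls : ℕ → List (ι × ℝ)} (h : Chain D A Ls) {a : ℕ}
    (ha : a < A) {p : ι × ℝ} (hp : p ∈ Ls (a + 1)) : lev A a ≤ p.2 := by
  induction a with
  | zero =>
    obtain ⟨N', h1, h2⟩ := h.step 0 ha
    rw [h2, h.zero, List.append_nil] at hp
    exact (h1 p hp).ge
  | succ a ih =>
    obtain ⟨N', h1, h2⟩ := h.step (a + 1) ha
    rw [h2, List.mem_append] at hp
    rcases hp with hp | hp
    · exact (h1 p hp).ge
    · exact (HChain_lev_succ A a).trans (ih (by omega) hp)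

theorem HChain_lev_anti (A : ℕ) {a b : ℕ} (hab : a ≤ b) : lev A b ≤ lev A a := by
  induction b, hab using Nat.le_induction with
  | base => exact le_rfl
  | succ b _ ih => exact (HChain_lev_succ A b).trans ih

theorem HChain_new {D : HD V ι} {A : ℕ} {Ls : ℕ → List (ι × ℝ)} (h : Chain D A Ls) {a b : ℕ}
    (hab : a ≤ b) (hb : b ≤ A) {p : ι × ℝ} (hp : p ∈ Ls b) : p ∈ Ls a ∨ p.2 ≤ lev A a := by
  induction b, hab using Nat.le_induction with
  | base => exact Or.inl hp
  | succ b hab ih =>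
    obtain ⟨N', h1, h2⟩ := h.step b (by omega)
    rw [h2, List.mem_append] at hp
    rcases hp with hp | hp
    · right
      rw [h1 p hp]
      exact HChain_lev_anti A hab
    · exact ih (by omega) hp

theorem chain_zone {D : HD V ι} {A : ℕ} {Ls : ℕ → List (ι × ℝ)} (h : Chain D A Ls) (hA : 0 < A)
    (j : ι) : ∃ a ≤ A, D.lv (Ls A) j = lev A a ∧ ¬ D.Tch (Ls a) j := by
  by_cases hj : D.Tch (Ls A) j
  · have hex : ∃ a, a ≤ A ∧ D.Tch (Ls a) j := ⟨A, le_rfl, hj⟩
    obtain ⟨h1, h2⟩ := Nat.find_spec hex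
    have h3 : Nat.find hex ≠ 0 := by
      intro h0
      rw [h0, h.zero] at h2
      obtain ⟨p, hp, -⟩ := h2
      simp at hp
    obtain ⟨a, ha⟩ := Nat.exists_eq_succ_of_ne_zero h3
    rw [ha] at h1 h2
    have h4 : ¬ D.Tch (Ls a) j := by
      intro h5
      exact Nat.find_min hex (m := a) (by omega) ⟨by omega, h5⟩
    have haA : a < A := by omega
    refine ⟨a, haA.le, ?_, h4⟩
    apply lv_eq D (HChain_lev_nonneg hA haA.le)
    · intro p hp hpt
      rcases HChain_new h haA.le le_rfl hp with hp' | hp'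
      · exact absurd ⟨p, hp', hpt⟩ h4
      · exact hp'
    · obtain ⟨p, hp, hpt⟩ := h2
      refine ⟨p, (chain_suffix h h1 le_rfl).subset hp, hpt, ?_⟩
      obtain ⟨N', h5, h6⟩ := h.step a haA
      rw [Nat.succ_eq_add_one, h6, List.mem_append] at hp
      rcases hp with hp | hp
      · exact h5 p hp
      · exact absurd ⟨p, hp, hpt⟩ h4
  · exact ⟨A, le_rfl, by rw [lv_untouched D hj, HChain_lev_last hA], hj⟩

end LKU
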