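import Pool.Agent.LKU.Num

set_option autoImplicit false
set_option linter.unusedSectionVars false

/-!
# LKU module HNum (difficulty 3): pure real lemmas for the guarantee (everything in units of `k`)

`num_A`. `ℓ1 ≤ 1/φ - 1 - e' ≤ 59`, and `φ ℓ1 ≤ 1 - φ - φ e' ≤ 1 - φ - e'/60`.
First `u1 < t2`: otherwise `u1 ≥ es` and `h7` gives `l`: `w1 + y1 ≥ 1 - l - φ - es + l (u1 - es)/t2 ≥ 1 - φ - es - l es/t2 ≥ 1 - φ - 15 es` (`l ≤ 1 - be ≤ 1`, `1/t2 ≤ 14`),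
but `w1 + y1 < φ ℓ1 ≤ 1 - φ - e'/60`: contradiction as `15 es ≤ e'/60`.
So `f1 ≥ g - t2 - 4 es` (by `h3`).
Case `u < es`: `f ≥ g - 4 es`; `h1` gives `g - es + ℓ (g - 4 es) + (ℓ1 - ℓ)(g - t2 - 4 es) < φ ℓ`, i.e. `g + (g - t2) ℓ1 + t2 ℓ - es - 4 es ℓ1 < φ ℓ`.
Case `u ≥ es`: `h5` gives `l`; let `m = max g (1 - l - φ)`; `w ≥ m - es`, `y ≥ l (u - es)/t2 ≥ l u/t2 - 14 es`, so by `h1`
`E(u) := m + l u/t2 + ℓ (g - u) + (ℓ1 - ℓ)(g - t2) < φ ℓ + 15 es + 3 es ℓ + 4 es ℓ1 ≤ φ ℓ + 435 es`.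
`E(t2) = m + l + ℓ1 (g - t2) ≥ 1 - φ ≥ φ ℓ1 + e'/60 ≥ φ ℓ + 435 es` (`435 es ≤ e'/60`). `E` is affine in `u` and `0 ≤ u ≤ u1 < t2`, so
`E(0) < φ ℓ + 435 es` (otherwise `E(u) = (1 - u/t2) E(0) + (u/t2) E(t2) ≥ φ ℓ + 435 es`), and `E(0) = m + ℓ g + (ℓ1-ℓ)(g-t2) ≥ g + t2 ℓ + (g - t2) ℓ1`.

`num_B`. `φ ℓ2 ≤ be - φ - φ e' ≤ be - φ - e'/60`. If `u2 ≥ es`: `w2 ≥ 1 - l - φ - es ≥ be - φ - es`, but `w2 ≤ w2 + y2 < φ ℓ2`, contradiction (`es < e'/60`).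
So `u2 < es`, `f1 ≥ g - 5 es`, and `g - es + ℓ2 (g - 5 es) ≤ w + y + ℓ2 f1 < φ ℓ`, `ℓ2 ≤ 59`.

`guar_first`: `1/φ - 1 - e ≤ l` is the first alternative of `Guar`.
`guar_second`: `a := e/(8M)`. `A`-part: `(g-t2)(1/φ-1) ≤ (g - t2)(ℓ1 + 2a) ≤ (g-t2) ℓ1 + 2 M a`, `(φ-t2) ℓ ≤ (φ-t2) l + a` (`ℓ ≤ l + a`, and `φ ≤ 1`; if `φ < t2` then
`(φ - t2) ℓ ≤ 0 < g - 435 es`: contradiction with `hA`). Total error `435 es + 2 M a + a ≤ e`.
`B`-part: either `be/φ - 1 - a < ℓ`, then `l ≥ ℓ - a > be/φ - 1 - 2a`; or the hypothesis gives `ℓ2` with `be/φ - 1 - a < ℓ2 + a` and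
`g + ℓ2 g - 301 es ≤ φ ℓ`: multiply by `φ`: `φ^2 ℓ ≥ φ g (be/φ - 2a) - 301 es = be g - 2 a φ g - 301 es`, `φ^2 l ≥ φ^2 ℓ - a`.

`lev_pick`: choose `b - 1` = the least index `c` with `lev A c ≤ t` (it exists, `c = a - 1` works; `c ≥ 1` because `lev A 0 = 60 > t`, and `lev A (c-1) = lev A c + 60/A > t`).
-/

open scoped Classical

noncomputable section

namespace LKU

theorem num_A {φ g ℓ ℓ1 u u1 w w1 y y1 f f1 es e' : ℝ} (hes : 0 < es) (hes1 : es ≤ t2)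
    (he' : 30000 * es ≤ e') (hφ : 1 / 60 ≤ φ) (hℓ : 0 ≤ ℓ) (hℓ1 : ℓ ≤ ℓ1)
    (hℓ2 : ℓ1 ≤ 1 / φ - 1 - e') (hg : t2 ≤ g)
    (h1 : w + y + (ℓ * f + (ℓ1 - ℓ) * f1) < φ * ℓ) (h2 : g - u - 3 * es ≤ f)
    (h3 : g - u1 - 4 * es ≤ f1) (h4 : g - es ≤ w)
    (h5 : es ≤ u → ∃ l : ℝ, 0 ≤ l ∧ l ≤ 1 - be ∧ 1 - l - φ - es ≤ w ∧ l * (u - es) ≤ t2 * y)
    (h6 : w1 + y1 < φ * ℓ1)
    (h7 : es ≤ u1 → ∃ l : ℝ, 0 ≤ l ∧ l ≤ 1 - be ∧ 1 - l - φ - es ≤ w1 ∧ l * (u1 - es) ≤ t2 * y1)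
    (hu : u ≤ u1) (hu0 : 0 ≤ u) (hy : 0 ≤ y) (hy1 : 0 ≤ y1) :
    g + (g - t2) * ℓ1 - 435 * es ≤ (φ - t2) * ℓ := by
  have ht := t2_pos
  have htlo := t2_lo
  have hthi := t2_hi
  have hblo := be_lo
  have hφ0 : 0 < φ := by linarith
  have he0 : 0 < e' := by linarith
  have hinv : 1 / φ ≤ 60 := by
    rw [div_le_iff₀ hφ0]; linarith
  have hℓ59 : ℓ1 ≤ 59 := by linarith
  have hφℓ1 : φ * ℓ1 ≤ 1 - φ - e' / 60 := by
    have h := mul_le_mul_of_nonneg_left hℓ2 hφ0.le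
    have h' : φ * (1 / φ - 1 - e') = 1 - φ - φ * e' := by
      field_simp
    have h'' : 1 / 60 * e' ≤ φ * e' := mul_le_mul_of_nonneg_right hφ he0.le
    linarith
  have hφℓ : φ * ℓ ≤ φ * ℓ1 := mul_le_mul_of_nonneg_left hℓ1 hφ0.le
  have hu1 : u1 < t2 := by
    by_contra hcon
    push Not at hcon
    obtain ⟨l, hl0, hl1, hw, hly⟩ := h7 (le_trans hes1 hcon)
    have e1 : l * (t2 - es) ≤ t2 * y1 := by
      refine le_trans (mul_le_mul_of_nonneg_left (by linarith) hl0) hly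
    have e2 : t2 * (1 - l - φ - es) ≤ t2 * w1 := mul_le_mul_of_nonneg_left hw ht.le
    have e3 : t2 * (w1 + y1) < t2 * (1 - φ - e' / 60) :=
      mul_lt_mul_of_pos_left (by linarith) ht
    have e4 : l * es ≤ 1 * es := mul_le_mul_of_nonneg_right (by linarith) hes.le
    have e5 : t2 * (500 * es) ≤ t2 * (e' / 60) := mul_le_mul_of_nonneg_left (by linarith) ht.le
    have e6 : 0.0717964 * es ≤ t2 * es := mul_le_mul_of_nonneg_right htlo.le hes.le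
    nlinarith
  have hf1 : g - t2 - 4 * es ≤ f1 := by linarith
  have hd : 0 ≤ ℓ1 - ℓ := by linarith
  have a1 : (ℓ1 - ℓ) * (g - t2 - 4 * es) ≤ (ℓ1 - ℓ) * f1 := mul_le_mul_of_nonneg_left hf1 hd
  have a3 : es * ℓ1 ≤ es * 59 := mul_le_mul_of_nonneg_left hℓ59 hes.le
  rcases lt_or_ge u es with hlt | hge
  · have a2 : ℓ * (g - 4 * es) ≤ ℓ * f := mul_le_mul_of_nonneg_left (by linarith) hℓ
    nlinarith
  · obtain ⟨l, hl0, hl1, hw, hly⟩ := h5 hge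
    have a2 : ℓ * (g - u - 3 * es) ≤ ℓ * f := mul_le_mul_of_nonneg_left h2 hℓ
    set m := max g (1 - l - φ) with hm
    have hm1 : g ≤ m := le_max_left _ _
    have hm2 : 1 - l - φ ≤ m := le_max_right _ _
    have hwm : m - es ≤ w := by
      rw [hm]
      rcases max_cases g (1 - l - φ) with h | h
      · rw [h.1]; linarith
      · rw [h.1]; linarith
    set E0 := m + ℓ * g + (ℓ1 - ℓ) * (g - t2) with hE0
    have key : t2 * (m + ℓ * (g - u) + (ℓ1 - ℓ) * (g - t2)) + l * u =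
        (t2 - u) * E0 + u * (m + l + ℓ1 * (g - t2)) := by
      rw [hE0]; ring
    have hEt : φ * ℓ + 500 * es ≤ m + l + ℓ1 * (g - t2) := by
      have : 0 ≤ ℓ1 * (g - t2) := mul_nonneg (by linarith) (by linarith)
      linarith
    have hEu : t2 * (m + ℓ * (g - u) + (ℓ1 - ℓ) * (g - t2)) + l * u <
        t2 * (φ * ℓ + 244 * es) := by
      have b1 : m - es + y + (ℓ * (g - u - 3 * es) + (ℓ1 - ℓ) * (g - t2 - 4 * es)) < φ * ℓ := by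
        linarith
      have b2 : t2 * (m - es + y + (ℓ * (g - u - 3 * es) + (ℓ1 - ℓ) * (g - t2 - 4 * es))) <
          t2 * (φ * ℓ) := mul_lt_mul_of_pos_left b1 ht
      have b3 : es * ℓ ≤ es * 59 := mul_le_mul_of_nonneg_left (by linarith) hes.le
      have b4 : 0 ≤ es * ℓ := mul_nonneg hes.le hℓ
      have b5 : t2 * (es * ℓ1) ≤ t2 * (es * 59) := mul_le_mul_of_nonneg_left a3 ht.le
      have b6 : 0 ≤ t2 * (es * ℓ) := mul_nonneg ht.le b4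
      have b7 : l * es ≤ 0.4641018 * es := mul_le_mul_of_nonneg_right (by linarith) hes.le
      have b8 : 0.0717964 * es ≤ t2 * es := mul_le_mul_of_nonneg_right htlo.le hes.le
      nlinarith
    have hE : E0 < φ * ℓ + 435 * es := by
      by_contra hcon
      push Not at hcon
      have c1 : (t2 - u) * (φ * ℓ + 435 * es) ≤ (t2 - u) * E0 :=
        mul_le_mul_of_nonneg_left hcon (by linarith)
      have c2 : u * (φ * ℓ + 435 * es) ≤ u * (m + l + ℓ1 * (g - t2)) :=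
        mul_le_mul_of_nonneg_left (by linarith) hu0
      have c3 : 0 < t2 * es := mul_pos ht hes
      nlinarith
    rw [hE0] at hE
    nlinarith

theorem num_B {φ g ℓ ℓ2 u2 w w2 y y2 f1 es e' : ℝ} (hes : 0 < es)
    (he' : 30000 * es ≤ e') (hφ : 1 / 60 ≤ φ) (hℓ2 : 0 ≤ ℓ2) (hℓ3 : ℓ2 ≤ be / φ - 1 - e')
    (h1 : w + y + ℓ2 * f1 < φ * ℓ) (h3 : g - u2 - 4 * es ≤ f1) (h4 : g - es ≤ w)
    (h6 : w2 + y2 < φ * ℓ2)
    (h7 : es ≤ u2 → ∃ l : ℝ, 0 ≤ l ∧ l ≤ 1 - be ∧ 1 - l - φ - es ≤ w2)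
    (hy : 0 ≤ y) (hy2 : 0 ≤ y2) : g + ℓ2 * g - 301 * es ≤ φ * ℓ := by
  have hbhi := be_hi
  have hblo := be_lo
  have hφ0 : 0 < φ := by linarith
  have he0 : 0 < e' := by linarith
  have hinv : be / φ ≤ 60 * be := by
    rw [div_le_iff₀ hφ0]
    nlinarith
  have hℓ59 : ℓ2 ≤ 59 := by linarith
  have hφℓ2 : φ * ℓ2 ≤ be - φ - e' / 60 := by
    have h := mul_le_mul_of_nonneg_left hℓ3 hφ0.le
    have h' : φ * (be / φ - 1 - e') = be - φ - φ * e' := by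
      field_simp
    have h'' : 1 / 60 * e' ≤ φ * e' := mul_le_mul_of_nonneg_right hφ he0.le
    linarith
  have hu2 : u2 < es := by
    by_contra hcon
    push Not at hcon
    obtain ⟨l, hl0, hl1, hw⟩ := h7 hcon
    linarith
  have hf : g - 5 * es ≤ f1 := by linarith
  have a1 : ℓ2 * (g - 5 * es) ≤ ℓ2 * f1 := mul_le_mul_of_nonneg_left hf hℓ2
  have a3 : es * ℓ2 ≤ es * 59 := mul_le_mul_of_nonneg_left hℓ59 hes.le
  nlinarith

theorem guar_second {M e φ g ℓ l es : ℝ} (hM : 1 ≤ M) (he : 0 < e) (hes : 0 < es)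
    (hes1 : es ≤ 1 / 10000) (hes2 : 30000 * es ≤ e / (8 * M)) (hφ : 1 / 60 ≤ φ) (hφ1 : φ ≤ 1)
    (hg : 0 ≤ g) (hgM : g ≤ M) (hl : 0 ≤ l) (hℓ0 : 0 ≤ ℓ) (hℓ : ℓ ≤ l + e / (8 * M))
    (hA : t2 ≤ g → ∃ ℓ1 : ℝ, 0 ≤ ℓ1 ∧ 1 / φ - 1 - e / (8 * M) < ℓ1 + e / (8 * M) ∧
      g + (g - t2) * ℓ1 - 435 * es ≤ (φ - t2) * ℓ)
    (hB : be / φ - 1 - e / (8 * M) < ℓ ∨ ∃ ℓ2 : ℝ, 0 ≤ ℓ2 ∧
      be / φ - 1 - e / (8 * M) < ℓ2 + e / (8 * M) ∧ g + ℓ2 * g - 301 * es ≤ φ * ℓ) :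
    Guar e g φ l := by
  have ht := t2_pos
  have htlo := t2_lo
  have hblo := be_lo
  have hφ0 : 0 < φ := by linarith
  obtain ⟨a, ha⟩ : ∃ a, a = e / (8 * M) := ⟨_, rfl⟩
  rw [← ha] at hes2 hℓ hA hB
  have ha0 : 0 < a := by rw [ha]; positivity
  have hMa : M * a = e / 8 := by
    rw [ha]
    field_simp
  have hale : a ≤ e / 8 := by
    rw [← hMa]
    nlinarith
  right
  constructor
  · intro hg2
    obtain ⟨ℓ1, hℓ1, h1, h2⟩ := hA hg2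
    have a1 : (g - t2) * (1 / φ - 1) ≤ (g - t2) * (ℓ1 + 2 * a) :=
      mul_le_mul_of_nonneg_left (by linarith) (by linarith)
    have a2 : (g - t2) * (2 * a) ≤ M * (2 * a) :=
      mul_le_mul_of_nonneg_right (by linarith) (by linarith)
    have a3 : (φ - t2) * ℓ ≤ (φ - t2) * l + a := by
      rcases le_or_gt t2 φ with h | h
      · have b1 : (φ - t2) * ℓ ≤ (φ - t2) * (l + a) :=
          mul_le_mul_of_nonneg_left hℓ (by linarith)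
        have b2 : (φ - t2) * a ≤ 1 * a := mul_le_mul_of_nonneg_right (by linarith) ha0.le
        linarith
      · exfalso
        have b1 : (φ - t2) * ℓ ≤ 0 := mul_nonpos_of_nonpos_of_nonneg (by linarith) hℓ0
        have b2 : 0 ≤ (g - t2) * ℓ1 := mul_nonneg (by linarith) hℓ1
        linarith
    linarith
  · rcases hB with h | ⟨ℓ2, hℓ2, h1, h2⟩
    · left
      linarith
    · right
      have b0 : φ * (be / φ) = be := by field_simp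
      have b1 : φ * g * (be / φ - 1 - 2 * a) ≤ φ * g * ℓ2 :=
        mul_le_mul_of_nonneg_left (by linarith) (by positivity)
      have b2 : φ * g * (be / φ - 1 - 2 * a) = g * (φ * (be / φ)) - φ * g - 2 * (a * (φ * g)) := by
        ring
      rw [b0] at b2
      have b3 : φ * g ≤ 1 * M := mul_le_mul hφ1 hgM hg (by norm_num)
      have b4 : a * (φ * g) ≤ a * (1 * M) := mul_le_mul_of_nonneg_left b3 ha0.le
      have b5 : φ * (g + ℓ2 * g - 301 * es) ≤ φ * (φ * ℓ) := mul_le_mul_of_nonneg_left h2 hφ0.le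
      have b6 : φ * es ≤ 1 * es := mul_le_mul_of_nonneg_right hφ1 hes.le
      have b7 : φ ^ 2 * ℓ ≤ φ ^ 2 * (l + a) := mul_le_mul_of_nonneg_left hℓ (by positivity)
      have b8 : φ ^ 2 * a ≤ 1 * a := mul_le_mul_of_nonneg_right (by nlinarith) ha0.le
      nlinarith

end LKU
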