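import Pool.Agent.LKU.HFacts
import Pool.Agent.LKU.HChain
import Pool.Agent.LKU.HNum

set_option autoImplicit false
set_option linter.unusedSectionVars false

/-!
# LKU module HGuar (difficulty 3): the guarantee for a zone

Let `D = mkHD ..`, `Lf = Ls A`, `a0 := e/(8M)`. By `chain_zone` there is `a ≤ A` with `lv Lf i = lev A a =: l` and `i` not touched in `Ls a`.
If `φ i > 1`: `1/φ - 1 ≤ 0 ≤ l`, first alternative. If `a = 0` then `l = 60 ≥ 1/φ - 1` (`φ ≥ 1/60`).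
Let `a ≥ 1`, `L = Ls a`, `ℓ = lev A (a-1) = l + 60/A ≤ l + a0`. `L` is closed at `ℓ`, all its steps have level `≥ ℓ` (`chain_level`).
If `ℓ > 1/φ - 1 - a0` then `l ≥ ℓ - a0 > 1/φ - 1 - 2 a0 ≥ 1/φ - 1 - e`. Assume `ℓ ≤ 1/φ - 1 - a0`.
For `t < 60` with `ℓ ≤ t` there is `b` with `1 ≤ b ≤ a`, `lev A (b-1) ≤ t < lev A (b-1) + 60/A` (`lev_pick`); `L1 = Ls b` is a suffix of `L`, zone `i` is not touched in it
(`Tch_mono`), it is closed at `ℓ1 = lev A (b-1) ≥ ℓ`, its steps have levels `≥ ℓ1`. Apply `state_facts` to `L` and to `L1`, divide by `k`: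
`u = |Un L|/k`, `w = |R i \ PP L|/k`, `y = (∑_{Un L} lam)/(t2 k)`, `f = |A i ∩ R i ∩ Fr L|/k`, `f1 = |(A i ∩ R i ∩ Fr L1) \ PP L|/k`, similarly `u1, w1, y1` for `L1`;
`f1 ≥ |A i ∩ R i ∩ Fr L1|/k - es ≥ g - u1 - 4 es` (`fr_count`, `A_PP_small`, `e9 ≤ es`, fact (4) for `L1`), `u ≤ u1` (`Un_mono`), `res_bound`,
`f1 ≤ f` (`fr_sub`), so also `ℓ f + (ℓ1 - ℓ) f1 ≥ ℓ1 f1`.
* with `t = 1/φ - 1 - a0` (`< 60`): `num_A` (`e' = a0`) gives `hA` of `guar_second`;
* if `ℓ ≤ be/φ - 1 - a0`: with `t = be/φ - 1 - a0`: `num_B` gives the second alternative of `hB`.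
`g i ≤ M`: `g i k ≤ |A i ∩ R i| ≤ deg (hub i) ≤ M k`. Conclude with `guar_second`.
-/

open scoped Classical

noncomputable section

namespace LKU

open Finset

variable {V ι : Type} [Fintype V] [Fintype ι]

theorem lev_pick {A a : ℕ} (ha : 1 ≤ a) (haA : a ≤ A) {t : ℝ} (h1 : lev A (a - 1) ≤ t) (h2 : t < 60) :
    ∃ b, 1 ≤ b ∧ b ≤ a ∧ lev A (b - 1) ≤ t ∧ t < lev A (b - 1) + 60 / A := by
  classical
  have hex : ∃ c, lev A c ≤ t := ⟨a - 1, h1⟩
  have hc := Nat.find_spec hex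
  have hca : Nat.find hex ≤ a - 1 := Nat.find_min' hex h1
  have hmin := fun m (hm : m < Nat.find hex) => Nat.find_min hex hm
  generalize Nat.find hex = c at *
  have hc1 : 1 ≤ c := by
    by_contra h
    have : c = 0 := by omega
    subst this
    unfold lev at hc
    simp at hc
    linarith
  refine ⟨c + 1, by omega, by omega, ?_, ?_⟩
  · simpa using hc
  · have h3 := hmin (c - 1) (by omega)
    rw [not_le] at h3
    have h4 : lev A (c - 1) = lev A c + 60 / A := by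
      unfold lev
      rw [Nat.cast_sub hc1]
      push_cast
      ring
    rw [Nat.add_sub_cancel]
    linarith

theorem lev_anti {A b a : ℕ} (h : b ≤ a) : lev A a ≤ lev A b := by
  unfold lev
  have h1 : (b : ℝ) ≤ a := by exact_mod_cast h
  have h2 : (0 : ℝ) ≤ 60 / A := by positivity
  nlinarith [mul_le_mul_of_nonneg_right h1 h2]

theorem hg_norm {G : SimpleGraph V} {k M K g0 es e9 η κ : ℝ} {Hub : Finset V} {hub : ι → V}
    {A R : ι → Finset V} {φ g : ι → ℝ} {lam : V → ℝ}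
    (h : Reg G k M K g0 es e9 η κ Hub hub A R φ g lam) (h9 : 0 < e9) (h9' : e9 ≤ es)
    {Lf L : List (ι × ℝ)} (hs : L <:+ Lf) {i : ι}
    (hT : ¬ (mkHD G k η e9 Hub A R φ lam).Tch L i)
    (hB1 : (mkHD G k η e9 Hub A R φ lam).Ps Lf i ≤ e9 * k)
    (hB2 : dn G ((mkHD G k η e9 Hub A R φ lam).Dr Lf) (hub i) ≤ es * k) {ℓ : ℝ}
    (hcl : (mkHD G k η e9 Hub A R φ lam).Closed L ℓ) {u w y q f : ℝ}
    (hu : u * k = (((mkHD G k η e9 Hub A R φ lam).Un
      ((mkHD G k η e9 Hub A R φ lam).Dr Lf) L i).card : ℝ))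
    (hw : w * k = ((R i \ (mkHD G k η e9 Hub A R φ lam).PP L).card : ℝ))
    (hy : t2 * y * k = ∑ v ∈ (mkHD G k η e9 Hub A R φ lam).Un
      ((mkHD G k η e9 Hub A R φ lam).Dr Lf) L i, lam v)
    (hq : q * k ≤ ∑ v ∈ R i, (mkHD G k η e9 Hub A R φ lam).rho L v)
    (hf : f * k = ((A i ∩ R i ∩ (mkHD G k η e9 Hub A R φ lam).Fr L).card : ℝ)) :
    w + y + q < φ i * ℓ ∧ g i - es ≤ w ∧ g i - 3 * es ≤ f + u ∧
      (es ≤ u → ∃ l : ℝ, 0 ≤ l ∧ l ≤ 1 - be ∧ 1 - l - φ i - es ≤ w ∧ l * (u - es) ≤ t2 * y) ∧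
      0 ≤ u ∧ 0 ≤ y ∧ 0 ≤ w := by
  have hk0 : 0 < k := lt_of_lt_of_le one_pos h.one_le
  obtain ⟨f1, f2, f3, f4, f5⟩ := state_facts h h9 h9' hs hT hB1 hB2 hcl
  rw [← hu] at f4 f5
  rw [← hw] at f2 f3 f5
  rw [← hy] at f2 f5
  rw [← hf] at f4
  have hyy : t2 * y * k / t2 = y * k := by
    have := t2_pos
    field_simp
  rw [hyy] at f2
  refine ⟨?_, ?_, ?_, ?_, ?_, ?_, ?_⟩
  · refine lt_of_mul_lt_mul_right (a := k) ?_ hk0.le
    linarith
  · exact le_of_mul_le_mul_right f3 hk0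
  · refine le_of_mul_le_mul_right (a := k) ?_ hk0
    linarith
  · intro hes
    obtain ⟨l, h1, h2, h3, h4⟩ := f5 (mul_le_mul_of_nonneg_right hes hk0.le)
    refine ⟨l, h1, h2, le_of_mul_le_mul_right h3 hk0, ?_⟩
    refine le_of_mul_le_mul_right (a := k) ?_ hk0
    linarith
  · refine le_of_mul_le_mul_right (a := k) ?_ hk0
    rw [hu, zero_mul]
    positivity
  · have h1 : 0 ≤ t2 * y * k := by
      rw [hy]
      exact sum_nonneg fun v _ => h.lam0 v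
    have h2 : 0 < t2 * k := mul_pos t2_pos hk0
    by_contra hneg
    have h3 : y < 0 := not_le.1 hneg
    have h4 : t2 * k * y < 0 := mul_neg_of_pos_of_neg h2 h3
    linarith [show t2 * k * y = t2 * y * k by ring]
  · refine le_of_mul_le_mul_right (a := k) ?_ hk0
    rw [hw, zero_mul]
    positivity

/-- the two states `Ls b`, `Ls a`, `b ≤ a`, in units of `k` -/
theorem hg_two {G : SimpleGraph V} {k M K g0 es e9 η κ : ℝ} {Hub : Finset V} {hub : ι → V}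
    {A R : ι → Finset V} {φ g : ι → ℝ} {lam : V → ℝ}
    (h : Reg G k M K g0 es e9 η κ Hub hub A R φ g lam) (h9 : 0 < e9)
    (h9' : e9 ≤ es) {N : ℕ}
    {Ls : ℕ → List (ι × ℝ)} (hc : Chain (mkHD G k η e9 Hub A R φ lam) N Ls) {i : ι}
    (hB1 : (mkHD G k η e9 Hub A R φ lam).Ps (Ls N) i ≤ e9 * k)
    (hB2 : dn G ((mkHD G k η e9 Hub A R φ lam).Dr (Ls N)) (hub i) ≤ es * k) {a b : ℕ}
    (hb : 1 ≤ b) (hba : b ≤ a) (haN : a ≤ N)
    (hT : ¬ (mkHD G k η e9 Hub A R φ lam).Tch (Ls a) i) :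
    ∃ u u1 w w1 y y1 f f1 : ℝ,
      w + y + (lev N (a - 1) * f + (lev N (b - 1) - lev N (a - 1)) * f1) < φ i * lev N (a - 1) ∧
      g i - u - 3 * es ≤ f ∧ g i - u1 - 4 * es ≤ f1 ∧ g i - es ≤ w ∧
      (es ≤ u → ∃ l : ℝ, 0 ≤ l ∧ l ≤ 1 - be ∧ 1 - l - φ i - es ≤ w ∧ l * (u - es) ≤ t2 * y) ∧
      w1 + y1 < φ i * lev N (b - 1) ∧
      (es ≤ u1 → ∃ l : ℝ, 0 ≤ l ∧ l ≤ 1 - be ∧ 1 - l - φ i - es ≤ w1 ∧
        l * (u1 - es) ≤ t2 * y1) ∧
      u ≤ u1 ∧ 0 ≤ u ∧ 0 ≤ y ∧ 0 ≤ y1 ∧ f1 ≤ f := by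
  have hk0 : 0 < k := lt_of_lt_of_le one_pos h.one_le
  have hk1 : k ≠ 0 := hk0.ne'
  have ht2 : t2 ≠ 0 := t2_pos.ne'
  have hsa := chain_suffix hc haN le_rfl
  have hsb := chain_suffix hc (hba.trans haN) le_rfl
  have hsab := chain_suffix hc hba haN
  have hTb : ¬ (mkHD G k η e9 Hub A R φ lam).Tch (Ls b) i := fun hh =>
    hT (Tch_mono _ hsab hh)
  have ea : a - 1 + 1 = a := by omega
  have eb : b - 1 + 1 = b := by omega
  have hca := hc.closed (a - 1) (by omega)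
  have hcb := hc.closed (b - 1) (by omega)
  have hla : ∀ p ∈ Ls a, lev N (a - 1) ≤ p.2 := by
    intro p hp
    refine chain_level hc (a := a - 1) (by omega) ?_
    rw [ea]; exact hp
  have hlb : ∀ p ∈ Ls b, lev N (b - 1) ≤ p.2 := by
    intro p hp
    refine chain_level hc (a := b - 1) (by omega) ?_
    rw [eb]; exact hp
  rw [ea] at hca
  rw [eb] at hcb
  have hl01 : lev N (a - 1) ≤ lev N (b - 1) := lev_anti (by omega)
  have hl0 : 0 ≤ lev N (a - 1) := by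
    have h1 : lev N N ≤ lev N (a - 1) := lev_anti (by omega)
    have h2 : lev N N = 0 := by
      unfold lev
      have : (N : ℝ) ≠ 0 := by
        have : 0 < N := by omega
        positivity
      field_simp
      ring
    linarith
  have hres := res_bound (mkHD G k η e9 Hub A R φ lam) hsab hl0 hl01 hla hlb i
  have hcnt := fr_count (mkHD G k η e9 Hub A R φ lam) (Ls b) (Ls a) i
  have hfs := fr_sub (mkHD G k η e9 Hub A R φ lam) hsab i
  have hAP := A_PP_small hsa hT hB1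
  have hUm := Un_mono (mkHD G k η e9 Hub A R φ lam)
    ((mkHD G k η e9 Hub A R φ lam).Dr (Ls N)) hsab i
  change lev N (a - 1) * ((A i ∩ R i ∩ (mkHD G k η e9 Hub A R φ lam).Fr (Ls a)).card : ℝ) +
    (lev N (b - 1) - lev N (a - 1)) * (((A i ∩ R i ∩ (mkHD G k η e9 Hub A R φ lam).Fr (Ls b)) \
      (mkHD G k η e9 Hub A R φ lam).PP (Ls a)).card : ℝ) ≤
      ∑ v ∈ R i, (mkHD G k η e9 Hub A R φ lam).rho (Ls a) v at hres
  change ((A i ∩ R i ∩ (mkHD G k η e9 Hub A R φ lam).Fr (Ls b)).card : ℝ) -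
    ((A i ∩ (mkHD G k η e9 Hub A R φ lam).PP (Ls a)).card : ℝ) ≤
      (((A i ∩ R i ∩ (mkHD G k η e9 Hub A R φ lam).Fr (Ls b)) \
        (mkHD G k η e9 Hub A R φ lam).PP (Ls a)).card : ℝ) at hcnt
  change (A i ∩ R i ∩ (mkHD G k η e9 Hub A R φ lam).Fr (Ls b)) \
    (mkHD G k η e9 Hub A R φ lam).PP (Ls a) ⊆
      A i ∩ R i ∩ (mkHD G k η e9 Hub A R φ lam).Fr (Ls a) at hfs
  have hUc : (((mkHD G k η e9 Hub A R φ lam).Un
      ((mkHD G k η e9 Hub A R φ lam).Dr (Ls N)) (Ls a) i).card : ℝ) ≤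
      ((mkHD G k η e9 Hub A R φ lam).Un
      ((mkHD G k η e9 Hub A R φ lam).Dr (Ls N)) (Ls b) i).card := by
    exact_mod_cast card_le_card hUm
  have hfc : (((A i ∩ R i ∩ (mkHD G k η e9 Hub A R φ lam).Fr (Ls b)) \
    (mkHD G k η e9 Hub A R φ lam).PP (Ls a)).card : ℝ) ≤
      ((A i ∩ R i ∩ (mkHD G k η e9 Hub A R φ lam).Fr (Ls a)).card : ℝ) := by
    exact_mod_cast card_le_card hfs
  have hrho : 0 ≤ ∑ v ∈ R i, (mkHD G k η e9 Hub A R φ lam).rho (Ls b) v :=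
    sum_nonneg fun v _ => rho_nonneg _ (fun p hp => hl0.trans (hl01.trans (hlb p hp))) v
  have hna := hg_norm h h9 h9' hsa hT hB1 hB2 hca
    (u := (((mkHD G k η e9 Hub A R φ lam).Un
      ((mkHD G k η e9 Hub A R φ lam).Dr (Ls N)) (Ls a) i).card : ℝ) / k)
    (w := ((R i \ (mkHD G k η e9 Hub A R φ lam).PP (Ls a)).card : ℝ) / k)
    (y := (∑ v ∈ (mkHD G k η e9 Hub A R φ lam).Un
      ((mkHD G k η e9 Hub A R φ lam).Dr (Ls N)) (Ls a) i, lam v) / (t2 * k))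
    (q := lev N (a - 1) * (((A i ∩ R i ∩
        (mkHD G k η e9 Hub A R φ lam).Fr (Ls a)).card : ℝ) / k) +
      (lev N (b - 1) - lev N (a - 1)) * ((((A i ∩ R i ∩
        (mkHD G k η e9 Hub A R φ lam).Fr (Ls b)) \
          (mkHD G k η e9 Hub A R φ lam).PP (Ls a)).card : ℝ) / k))
    (f := ((A i ∩ R i ∩ (mkHD G k η e9 Hub A R φ lam).Fr (Ls a)).card : ℝ) / k)
    (by field_simp) (by field_simp) (by field_simp) (by
      refine le_trans (le_of_eq ?_) hres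
      field_simp) (by field_simp)
  have hnb := hg_norm h h9 h9' hsb hTb hB1 hB2 hcb
    (u := (((mkHD G k η e9 Hub A R φ lam).Un
      ((mkHD G k η e9 Hub A R φ lam).Dr (Ls N)) (Ls b) i).card : ℝ) / k)
    (w := ((R i \ (mkHD G k η e9 Hub A R φ lam).PP (Ls b)).card : ℝ) / k)
    (y := (∑ v ∈ (mkHD G k η e9 Hub A R φ lam).Un
      ((mkHD G k η e9 Hub A R φ lam).Dr (Ls N)) (Ls b) i, lam v) / (t2 * k))
    (q := 0)
    (f := ((A i ∩ R i ∩ (mkHD G k η e9 Hub A R φ lam).Fr (Ls b)).card : ℝ) / k)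
    (by field_simp) (by field_simp) (by field_simp) (by rw [zero_mul]; exact hrho)
    (by field_simp)
  obtain ⟨a1, a2, a3, a4, a5, a6, a7⟩ := hna
  obtain ⟨b1, b2, b3, b4, b5, b6, b7⟩ := hnb
  have hek : e9 * k ≤ es * k := mul_le_mul_of_nonneg_right h9' hk0.le
  refine ⟨_, _, _, _, _, _, _, ((((A i ∩ R i ∩
        (mkHD G k η e9 Hub A R φ lam).Fr (Ls b)) \
          (mkHD G k η e9 Hub A R φ lam).PP (Ls a)).card : ℝ) / k), a1, by linarith, ?_, a2, a4,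
          by linarith, b4, ?_, a5, a6, b6, ?_⟩
  · have h1 : ((A i ∩ R i ∩ (mkHD G k η e9 Hub A R φ lam).Fr (Ls b)).card : ℝ) / k - es ≤
        ((((A i ∩ R i ∩ (mkHD G k η e9 Hub A R φ lam).Fr (Ls b)) \
          (mkHD G k η e9 Hub A R φ lam).PP (Ls a)).card : ℝ) / k) := by
      rw [sub_le_iff_le_add, div_le_iff₀ hk0, add_mul, div_mul_cancel₀ _ hk1]
      linarith
    linarith
  · exact div_le_div_of_nonneg_right hUc hk0.le
  · exact div_le_div_of_nonneg_right hfc hk0.le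

theorem chain_guar {G : SimpleGraph V} {k M K g0 es e9 η κ e : ℝ} {Hub : Finset V} {hub : ι → V}
    {A R : ι → Finset V} {φ g : ι → ℝ} {lam : V → ℝ}
    (h : Reg G k M K g0 es e9 η κ Hub hub A R φ g lam) (hM : 1 ≤ M) (he : 0 < e) (hg0 : 0 < g0)
    (hes : 0 < es) (hes1 : es ≤ 1 / 10000) (hes2 : 30000 * es ≤ e / (8 * M)) (h9 : 0 < e9)
    (h9' : e9 ≤ es) {N : ℕ} (hN : 0 < N) (hN1 : (60 : ℝ) / N ≤ e / (8 * M))
    {Ls : ℕ → List (ι × ℝ)} (hc : Chain (mkHD G k η e9 Hub A R φ lam) N Ls) {i : ι}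
    (hB1 : (mkHD G k η e9 Hub A R φ lam).Ps (Ls N) i ≤ e9 * k)
    (hB2 : dn G ((mkHD G k η e9 Hub A R φ lam).Dr (Ls N)) (hub i) ≤ es * k) :
    Guar e (g i) (φ i) ((mkHD G k η e9 Hub A R φ lam).lv (Ls N) i) := by
  have hk0 : 0 < k := lt_of_lt_of_le one_pos h.one_le
  obtain ⟨a, haN, hlv, hT⟩ := chain_zone hc hN i
  rw [hlv]
  have hM0 : 0 < M := by linarith
  have hφ := h.φge i
  have hφ0 : 0 < φ i := lt_of_lt_of_le (by norm_num) hφ
  have hφ60 : 1 / φ i ≤ 60 := by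
    rw [div_le_iff₀ hφ0]
    linarith
  have ha0 : 0 < e / (8 * M) := by positivity
  have ha0e : 2 * (e / (8 * M)) ≤ e := by
    have : e / (8 * M) ≤ e / 8 := by
      apply div_le_div_of_nonneg_left he.le (by norm_num)
      linarith
    linarith
  have hlevN : lev N N = 0 := by
    unfold lev
    have : (N : ℝ) ≠ 0 := by positivity
    field_simp
    ring
  have hl0 : 0 ≤ lev N a := by
    have := lev_anti (A := N) haN
    linarith
  by_cases hφ1 : 1 < φ i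
  · left
    have : 1 / φ i ≤ 1 := by
      rw [div_le_one hφ0]
      exact hφ1.le
    linarith
  rw [not_lt] at hφ1
  rcases Nat.eq_zero_or_pos a with rfl | ha
  · left
    unfold lev
    push_cast
    linarith
  have hstep : lev N (a - 1) = lev N a + 60 / N := by
    unfold lev
    rw [Nat.cast_sub ha]
    push_cast
    ring
  have h60 : (0 : ℝ) < 60 / N := by positivity
  by_cases hcase : 1 / φ i - 1 - e / (8 * M) < lev N (a - 1)
  · left
    linarith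
  rw [not_lt] at hcase
  have hgM : g i ≤ M := by
    have h1 := h.AR i
    have h2 : ((A i ∩ R i).card : ℝ) ≤ deg G (hub i) := by
      unfold deg dn
      exact_mod_cast card_le_card (inter_subset_left.trans (h.Asub i))
    have h3 := h.deg_le (hub i)
    exact le_of_mul_le_mul_right (h1.trans (h2.trans h3)) hk0
  have hg : 0 ≤ g i := hg0.le.trans (h.gge i)
  have hest2 : es ≤ t2 := by linarith [t2_lo]
  refine guar_second (ℓ := lev N (a - 1)) hM he hes hes1 hes2 hφ hφ1 hg hgM hl0 (by linarith)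
    (by linarith) ?_ ?_
  · intro hgt
    obtain ⟨b, hb1, hba, hb2, hb3⟩ := lev_pick ha haN hcase (by linarith)
    obtain ⟨u, u1, w, w1, y, y1, f, f1, c1, c2, c3, c4, c5, c6, c7, c8, c9, c10, c11, c12⟩ :=
      hg_two h h9 h9' hc hB1 hB2 hb1 hba haN hT
    refine ⟨lev N (b - 1), ?_, by linarith, ?_⟩
    · have := lev_anti (A := N) (show b - 1 ≤ a - 1 by omega)
      linarith
    · exact num_A hes hest2 hes2 hφ (by linarith) (lev_anti (by omega)) hb2 hgt c1 c2 c3 c4 c5 c6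
        c7 c8 c9 c10 c11
  · by_cases hcase2 : be / φ i - 1 - e / (8 * M) < lev N (a - 1)
    · left; exact hcase2
    right
    rw [not_lt] at hcase2
    have hbe : be / φ i ≤ 1 / φ i := by
      apply div_le_div_of_nonneg_right _ hφ0.le
      linarith [be_hi]
    obtain ⟨b, hb1, hba, hb2, hb3⟩ := lev_pick ha haN hcase2 (by linarith)
    obtain ⟨u, u1, w, w1, y, y1, f, f1, c1, c2, c3, c4, c5, c6, c7, c8, c9, c10, c11, c12⟩ :=
      hg_two h h9 h9' hc hB1 hB2 hb1 hba haN hT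
    have hlab := lev_anti (A := N) (show b - 1 ≤ a - 1 by omega)
    have hla0 : 0 ≤ lev N (a - 1) := by linarith
    refine ⟨lev N (b - 1), by linarith, by linarith, ?_⟩
    refine num_B (u2 := u1) (w := w) (w2 := w1) (y := y) (y2 := y1) (f1 := f1) hes hes2 hφ
      (by linarith) hb2 ?_ c3 c4 c6 ?_ c10 c11
    · have : lev N (a - 1) * f1 ≤ lev N (a - 1) * f := mul_le_mul_of_nonneg_left c12 hla0
      linarith
    · intro hu
      obtain ⟨l, l1, l2, l3, _⟩ := c7 hu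
      exact ⟨l, l1, l2, l3⟩

end LKU
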