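import Pool.Agent.LKU.HStep
import Pool.Agent.LKU.HGuar

set_option autoImplicit false
set_option linter.unusedSectionVars false

/-!
# LKU module HRegion (difficulty 2): the region lemma (assembly)

Choose `es = min (g0/2) (min (1/10000) (e/(240000 M)))`, `N` with `60/N ≤ e/(8M)`, `κ0 = e g0/120`, and
`η0 = e g0 e9 / (2 (M+2) (K + M/es))`.
Given `Reg`: `D = mkHD ..`. `valid_length`: every valid list has `|L| ≤ 2 |V|/(g0 k)` (`|PP L| ≤ |V|`), so there is a bound in `ℕ` and `exists_chain` applies: `Ls`, `Lf = Ls N`,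
`m := |Lf| ≤ 2 |V| /(g0 k)`. `l i = lv Lf i`, `P = PP Lf`, `Bad = {hub i : Ps Lf i > e9 k} ∪ {x : dn G (Dr Lf) x > es k}`.
* `l i ≥ 0` (`lv_nonneg`). `∑ l ≤ sup P + 60 κ k m ≤ sup P + 120 κ/g0 |V| ≤ sup P + e |V|` (`valid_account`, `rho_nonneg`).
* `|Bad| ≤ m K (M+2) η k/e9 + (M/es) m (M+2) η k/e9 ≤ 2 (M+2) η (K + M/es)/(g0 e9) |V| ≤ e |V|` (`card_BadZ_le`, `card_BadD_le`, `card_Dr_le`).
* `|P ∩ Hub| ≤ κ k m ≤ 2 κ/g0 |V| ≤ e |V|` (`PP_Hub`).
* `Guar`: `chain_guar`.
-/

open scoped Classical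

noncomputable section

namespace LKU

open Finset

/-- PART H. The region lemma. -/
theorem region (e g0 M : ℝ) (he : 0 < e) (hg0 : 0 < g0) (hM : 1 ≤ M) :
    ∃ es : ℝ, 0 < es ∧ ∀ e9 : ℝ, 0 < e9 → e9 ≤ es → ∀ K : ℝ, 1 ≤ K →
      ∃ η0 : ℝ, 0 < η0 ∧ ∃ κ0 : ℝ, 0 < κ0 ∧ ∀ η κ : ℝ, 0 < η → η ≤ η0 → 0 < κ → κ ≤ κ0 →
        ∀ (k : ℝ) (V ι : Type) [Fintype V] [Fintype ι] (G : SimpleGraph V) (Hub : Finset V)
          (hub : ι → V) (A R : ι → Finset V) (φ g : ι → ℝ) (lam : V → ℝ),
          Reg G k M K g0 es e9 η κ Hub hub A R φ g lam →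
          ∃ (l : ι → ℝ) (P Bad : Finset V), (∀ i, 0 ≤ l i) ∧
            ∑ i, l i ≤ ∑ v ∈ P, (1 + lam v / t2) + e * Fintype.card V ∧
            (Bad.card : ℝ) ≤ e * Fintype.card V ∧
            ((P ∩ Hub).card : ℝ) ≤ e * Fintype.card V ∧
            ∀ i, hub i ∉ Bad → Guar e (g i) (φ i) (l i) := by
  have hM0 : 0 < M := by linarith
  have hes : 0 < min (g0 / 2) (min (1 / 10000) (e / (240000 * M))) :=
    lt_min (by positivity) (lt_min (by norm_num) (by positivity))
  refine ⟨min (g0 / 2) (min (1 / 10000) (e / (240000 * M))), hes, ?_⟩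
  set es := min (g0 / 2) (min (1 / 10000) (e / (240000 * M))) with hes_def
  have hes0 : es ≤ g0 / 2 := min_le_left _ _
  have hes1 : es ≤ 1 / 10000 := le_trans (min_le_right _ _) (min_le_left _ _)
  have hes2' : es ≤ e / (240000 * M) := le_trans (min_le_right _ _) (min_le_right _ _)
  clear_value es
  have hes2 : 30000 * es ≤ e / (8 * M) := by
    have h1 : 30000 * (e / (240000 * M)) = e / (8 * M) := by
      field_simp; norm_num
    linarith
  intro e9 h9 h9' K hK
  have hD : 0 < K + M / es := by positivity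
  refine ⟨e * g0 * e9 / (2 * (M + 2) * (K + M / es)), by positivity, e * g0 / 120, by positivity, ?_⟩
  intro η κ hη hη0 hκ hκ0 k V ι _ _ G Hub hub A R φ g lam h
  obtain ⟨N, hN⟩ := exists_nat_ge (480 * M / e)
  have hNpos : (0 : ℝ) < N := lt_of_lt_of_le (by positivity) hN
  have hN0 : 0 < N := by exact_mod_cast hNpos
  have hN1 : (60 : ℝ) / N ≤ e / (8 * M) := by
    rw [div_le_div_iff₀ hNpos (by positivity)]
    rw [div_le_iff₀ he] at hN
    nlinarith
  have hk : 1 ≤ k := h.one_le
  have hk0 : 0 < k := by linarith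
  -- lengths
  have hlen : ∀ L : List (ι × ℝ), (mkHD G k η e9 Hub A R φ lam).Valid L →
      L.length * (g0 / 2 * k) ≤ (Fintype.card V : ℝ) := by
    intro L hL
    refine le_trans (valid_length h (by linarith) hL) ?_
    exact_mod_cast card_le_univ _
  have hbd : ∀ L : List (ι × ℝ), (mkHD G k η e9 Hub A R φ lam).Valid L →
      L.length ≤ ⌈(Fintype.card V : ℝ) / (g0 / 2 * k)⌉₊ := by
    intro L hL
    have h1 : (L.length : ℝ) ≤ (Fintype.card V : ℝ) / (g0 / 2 * k) := by
      rw [le_div_iff₀ (by positivity)]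
      exact hlen L hL
    have h2 := le_trans h1 (Nat.le_ceil _)
    exact_mod_cast h2
  obtain ⟨Ls, hc⟩ := exists_chain (mkHD G k η e9 Hub A R φ lam) hbd hN0
  have hv : (mkHD G k η e9 Hub A R φ lam).Valid (Ls N) := hc.valid N le_rfl
  have hlv : ∀ p ∈ Ls N, 0 ≤ p.2 := fun p hp => (Valid_level _ hv hp).1
  have hF : (0 : ℝ) ≤ Fintype.card V := by positivity
  have hm0 : (0 : ℝ) ≤ (Ls N).length := by positivity
  have hm : ((Ls N).length : ℝ) * k ≤ 2 * Fintype.card V / g0 := by
    have h1 := hlen _ hv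
    rw [le_div_iff₀ hg0]
    nlinarith
  refine ⟨fun i => (mkHD G k η e9 Hub A R φ lam).lv (Ls N) i,
    (mkHD G k η e9 Hub A R φ lam).PP (Ls N),
    ((univ.filter fun i => e9 * k < (mkHD G k η e9 Hub A R φ lam).Ps (Ls N) i).image hub) ∪
      (univ.filter fun x => es * k < dn G ((mkHD G k η e9 Hub A R φ lam).Dr (Ls N)) x),
    fun i => lv_nonneg _ hlv i, ?_, ?_, ?_, ?_⟩
  · have h1 := valid_account h hκ hη hv
    have h2 : 0 ≤ ∑ v, (mkHD G k η e9 Hub A R φ lam).rho (Ls N) v :=
      sum_nonneg fun v _ => rho_nonneg _ hlv v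
    have h3 : 60 * κ * k * (Ls N).length ≤ e * Fintype.card V := by
      have h4 : 60 * κ * k * (Ls N).length = 60 * κ * ((Ls N).length * k) := by ring
      have h5 : 60 * κ * ((Ls N).length * k) ≤ 60 * (e * g0 / 120) * (2 * Fintype.card V / g0) := by
        apply mul_le_mul _ hm (by positivity) (by positivity)
        linarith
      have h6 : 60 * (e * g0 / 120) * (2 * Fintype.card V / g0) = e * Fintype.card V := by
        field_simp; norm_num
      linarith
    have h7 : (mkHD G k η e9 Hub A R φ lam).sup ((mkHD G k η e9 Hub A R φ lam).PP (Ls N)) =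
      ∑ v ∈ (mkHD G k η e9 Hub A R φ lam).PP (Ls N), (1 + lam v / t2) := rfl
    linarith
  · have h1 := card_BadZ_le h hη h9 hM hK (Ls N)
    have h2 := card_BadD_le hk h.deg_le hes ((mkHD G k η e9 Hub A R φ lam).Dr (Ls N))
    have h3 := card_Dr_le h hη h9 hM (Ls N)
    have h4 : ((((univ.filter fun i => e9 * k < (mkHD G k η e9 Hub A R φ lam).Ps (Ls N) i).image
        hub) ∪ (univ.filter fun x => es * k <
          dn G ((mkHD G k η e9 Hub A R φ lam).Dr (Ls N)) x)).card : ℝ) ≤
        (((univ.filter fun i => e9 * k < (mkHD G k η e9 Hub A R φ lam).Ps (Ls N) i).image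
          hub).card : ℝ) + ((univ.filter fun x => es * k <
          dn G ((mkHD G k η e9 Hub A R φ lam).Dr (Ls N)) x).card : ℝ) := by
      exact_mod_cast card_union_le _ _
    have h5 : M / es * (((mkHD G k η e9 Hub A R φ lam).Dr (Ls N)).card : ℝ) ≤
        M / es * ((Ls N).length * ((M + 2) * η * k / e9)) :=
      mul_le_mul_of_nonneg_left h3 (by positivity)
    have h6 : (Ls N).length * (K * (M + 2) * η * k / e9) +
        M / es * ((Ls N).length * ((M + 2) * η * k / e9)) =
        ((Ls N).length * k) * ((M + 2) * (K + M / es) / e9 * η) := by ring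
    have h7 : ((Ls N).length * k) * ((M + 2) * (K + M / es) / e9 * η) ≤
        (2 * Fintype.card V / g0) * ((M + 2) * (K + M / es) / e9 *
          (e * g0 * e9 / (2 * (M + 2) * (K + M / es)))) := by
      apply mul_le_mul hm _ (by positivity) (by positivity)
      exact mul_le_mul_of_nonneg_left hη0 (by positivity)
    have h8 : (2 * Fintype.card V / g0) * ((M + 2) * (K + M / es) / e9 *
          (e * g0 * e9 / (2 * (M + 2) * (K + M / es)))) = e * Fintype.card V := by
      have hD' : K + M / es ≠ 0 := hD.ne'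
      generalize K + M / es = W at *
      field_simp
    linarith
  · have h1 := PP_Hub h (Ls N)
    have h4 : κ * k * (Ls N).length = κ * ((Ls N).length * k) := by ring
    have h5 : κ * ((Ls N).length * k) ≤ (e * g0 / 120) * (2 * Fintype.card V / g0) :=
      mul_le_mul hκ0 hm (by positivity) (by positivity)
    have h6 : (e * g0 / 120) * (2 * Fintype.card V / g0) = e * Fintype.card V / 60 := by
      field_simp; ring
    have h7 : 0 ≤ e * Fintype.card V := by positivity
    linarith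
  · intro i hi
    rw [mem_union, not_or] at hi
    obtain ⟨hi1, hi2⟩ := hi
    refine chain_guar h hM he hg0 hes hes1 hes2 h9 h9' hN0 hN1 hc ?_ ?_
    · by_contra hcon
      rw [not_le] at hcon
      exact hi1 (mem_image.2 ⟨i, by simpa using hcon, rfl⟩)
    · by_contra hcon
      rw [not_le] at hcon
      exact hi2 (by simpa using hcon)

end LKU
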