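import Pool.Agent.LKU.NumC

set_option autoImplicit false
set_option linter.unusedSectionVars false

/-!
# LKU module HubIneq (difficulty 2)

The inequality for a hub. Write `t = t2`, `2 be = 1 + t`. Choose `ε' = min (1/1000) (eB/...)`, `g0 = min (1/2000) (eB/...)`, `e = min (1/100) (eB/...)`
as needed below (all error terms are `≤ eB`).
Proof. Let `i0 ∈ Z` maximize `g`. Let `S = {i ∈ Z : g0 ≤ g i}`.
(0) The indices `i ∈ Z` with `s0 ≤ g i < g0`: by hypothesis `φ i ≥ 1/60`. If there is one then `g i0 ≥ 0` so `∑ φ ≤ 1 + ε'`, so there are at most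
`61` of them; the indices with `g i < s0` contribute at most `K s0 ≤ g0` to a sum of `g`'s (sum over a subset, replace `g` by `max g 0`...). So for
every `i`: `∑_{j ∈ Z \ {i}} g j ≤ ∑_{j ∈ S \ {i}} g j + 62 g0`.
(1) `S = ∅`: `d ≤ 1 + ε' + 62 g0 ≤ 1 + t + eB`.
(2) `S ≠ ∅`: then `g := g i0 ≥ g0 > 0`, `i0 ∈ S`, and `φ i0 ≥ 1/60`, so `g ≤ 1 + ε' - 1/60 ≤ 1 - 1/61`, and `∑_Z φ ≤ 1 + ε' - g`; `|S| ≤ 61`.
`num_guar` for `j ∈ S` (note `g j ≤ g < 1`): `l j ≥ g j / t - φ j s(g j) - 4000 e ≥ g j / t - φ j s(g) - 4000 e` with `s(g) = (1+g/t)/(1-g)`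
(`sfun_mono`). Sum: `∑_S l ≥ ∑_S g/t - s(g) (1 + ε' - g) - 61 * 4000 e = ∑_{S \ i0} g j / t + g/t - (1 + g/t) - ε' s(g) - 244000 e`
`= ∑_{S \ i0} g j / t - 1 - ε' s(g) - 244000 e`, and `s(g) ≤ (1 + 1/t) * 61 ≤ 1000`.
So `d ≤ 1 + ε' + 62 g0 + ∑_{S \ i0} g j ≤ 1 + ε' + 62 g0 + t ∑_S l + t + t (1000 ε' + 244000 e)`.
-/

open scoped Classical

noncomputable section

namespace LKU

open Finset

/-- PART I. The inequality for a hub. -/
theorem hub_ineq (eB : ℝ) (heB : 0 < eB) :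
    ∃ e : ℝ, 0 < e ∧ ∃ g0 : ℝ, 0 < g0 ∧ ∃ ε' : ℝ, 0 < ε' ∧ ∀ (K s0 : ℝ), 0 < s0 → s0 ≤ g0 →
      K * s0 ≤ g0 → ∀ {ι : Type} (Z : Finset ι) (g φ l : ι → ℝ) (d : ℝ), Z.Nonempty →
      (Z.card : ℝ) ≤ K →
      (∀ i ∈ Z, d ≤ 1 + ε' + ∑ j ∈ Z.erase i, g j) → (∀ i ∈ Z, g i + ∑ j ∈ Z, φ j ≤ 1 + ε') →
      (∀ i ∈ Z, 0 ≤ φ i) → (∀ i ∈ Z, s0 ≤ g i → 1 / 60 ≤ φ i) →
      (∀ i ∈ Z, g0 ≤ g i → 0 ≤ l i ∧ Guar e (g i) (φ i) (l i)) →
      d ≤ 2 * be + t2 * ∑ i ∈ Z.filter (fun i => g0 ≤ g i), l i + eB := by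
  have ht : 0 < t2 := t2_pos
  have ht2 : t2 ≤ 0.0718 := by linarith [t2_hi]
  have ht1 : 0.07179 ≤ t2 := by linarith [t2_lo]
  refine ⟨min 0.01 (eB / 100000), lt_min (by norm_num) (by positivity),
    min (1 / 2000) (eB / 200), lt_min (by norm_num) (by positivity),
    min (1 / 1000) (eB / 400), lt_min (by norm_num) (by positivity), ?_⟩
  set e := min (0.01 : ℝ) (eB / 100000) with he
  set g0 := min (1 / 2000 : ℝ) (eB / 200) with hg0
  set ε' := min (1 / 1000 : ℝ) (eB / 400) with hε'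
  have he0 : 0 < e := lt_min (by norm_num) (by positivity)
  have hg00 : 0 < g0 := lt_min (by norm_num) (by positivity)
  have hε0 : 0 < ε' := lt_min (by norm_num) (by positivity)
  have he1 : e ≤ 0.01 := min_le_left _ _
  have he2 : e ≤ eB / 100000 := min_le_right _ _
  have hg01 : g0 ≤ 1 / 2000 := min_le_left _ _
  have hg02 : g0 ≤ eB / 200 := min_le_right _ _
  have hε1 : ε' ≤ 1 / 1000 := min_le_left _ _
  have hε2 : ε' ≤ eB / 400 := min_le_right _ _
  intro K s0 hs0 hs0g hKs ι Z g φ l d hZ hK h1 h2 hφ hφ2 hG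
  obtain ⟨i0, hi0, hmax⟩ := Finset.exists_max_image Z g hZ
  set S := Z.filter (fun i => g0 ≤ g i) with hS
  set A := Z.filter (fun i => s0 ≤ g i) with hA
  have hSA : S ⊆ A := by
    intro j hj
    have hj' := mem_filter.1 hj
    exact mem_filter.2 ⟨hj'.1, hs0g.trans hj'.2⟩
  -- the number of relevant zones
  have hAcard : (A.card : ℝ) ≤ 61 := by
    rcases A.eq_empty_or_nonempty with hA0 | ⟨i, hi⟩
    · rw [hA0]; norm_num
    · have hi' := mem_filter.1 hi
      have h3 := h2 i hi'.1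
      have h4 : ∑ j ∈ A, (1 / 60 : ℝ) ≤ ∑ j ∈ A, φ j := by
        apply sum_le_sum
        intro j hj
        have hj' := mem_filter.1 hj
        exact hφ2 j hj'.1 hj'.2
      have h5 : ∑ j ∈ A, φ j ≤ ∑ j ∈ Z, φ j :=
        sum_le_sum_of_subset_of_nonneg (filter_subset _ _) (fun j hj _ => hφ j hj)
      rw [sum_const, nsmul_eq_mul] at h4
      have h6 := hi'.2
      linarith
  -- sums
  have hsum : ∑ j ∈ Z.erase i0, g j ≤ ∑ j ∈ S.erase i0, g j + 62 * g0 := by
    have hpt : ∀ j ∈ Z.erase i0, g j ≤ (if g0 ≤ g j then g j else 0) +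
        (if s0 ≤ g j then g0 else 0) + s0 := by
      intro j _
      by_cases ha : g0 ≤ g j
      · rw [if_pos ha, if_pos (hs0g.trans ha)]; linarith
      · by_cases hb : s0 ≤ g j
        · rw [if_neg ha, if_pos hb]; push Not at ha; linarith
        · rw [if_neg ha, if_neg hb]; push Not at hb; linarith
    have h3 := sum_le_sum hpt
    rw [sum_add_distrib, sum_add_distrib, ← sum_filter, ← sum_filter, sum_const, sum_const,
      nsmul_eq_mul, nsmul_eq_mul] at h3
    have e1 : (Z.erase i0).filter (fun j => g0 ≤ g j) = S.erase i0 := by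
      rw [hS]; ext j; simp only [mem_filter, mem_erase]; tauto
    rw [e1] at h3
    have h4 : (((Z.erase i0).filter (fun j => s0 ≤ g j)).card : ℝ) * g0 ≤ 61 * g0 := by
      apply mul_le_mul_of_nonneg_right _ hg00.le
      refine le_trans ?_ hAcard
      exact_mod_cast card_le_card (filter_subset_filter _ (erase_subset _ _))
    have h5 : (((Z.erase i0).card : ℝ)) * s0 ≤ g0 := by
      refine le_trans ?_ hKs
      apply mul_le_mul_of_nonneg_right _ hs0.le
      refine le_trans ?_ hK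
      exact_mod_cast card_le_card (erase_subset _ _)
    linarith
  have hd := h1 i0 hi0
  have hbe := two_be
  by_cases hgi : g0 ≤ g i0
  · have hiS : i0 ∈ S := mem_filter.2 ⟨hi0, hgi⟩
    have hφi := hφ2 i0 hi0 (hs0g.trans hgi)
    have hsum2 := h2 i0 hi0
    have hφsum : φ i0 ≤ ∑ j ∈ Z, φ j := single_le_sum hφ hi0
    have hgi1 : 1 / 65 ≤ 1 - g i0 := by linarith
    have hgi0 : 0 ≤ g i0 / t2 := div_nonneg (by linarith) ht.le
    set s := (1 + g i0 / t2) / (1 - g i0) with hs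
    have hs00 : 0 ≤ s := by
      rw [hs]; exact div_nonneg (by linarith) (by linarith)
    have hts : t2 * s ≤ 70 := by
      have e1 : t2 * s = (t2 + g i0) / (1 - g i0) := by
        rw [hs]; field_simp
      rw [e1, div_le_iff₀ (by linarith)]
      nlinarith
    have hMj : ∀ j ∈ S, g j / t2 - s * φ j - 4000 * e ≤ l j := by
      intro j hj
      have hjJ := (mem_filter.1 hj).1
      have hgj := (mem_filter.1 hj).2
      have hle := hmax j hjJ
      have h3 := sfun_mono (g := g j) (g' := g i0) (by linarith) hle (by linarith)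
      have h4 := mul_le_mul_of_nonneg_left h3 (hφ j hjJ)
      obtain ⟨hl, hgu⟩ := hG j hjJ hgj
      have h5 := num_guar (g := g j) (φ := φ j) (l := l j) (e := e) (by linarith) (by linarith)
        (hφ2 j hjJ (hs0g.trans hgj)) hl he0 he1 hgu
      rw [← hs] at h4
      linarith
    have h5 := sum_le_sum hMj
    rw [sum_sub_distrib, sum_sub_distrib, ← sum_div, ← mul_sum, sum_const, nsmul_eq_mul] at h5
    have h6 : ∑ j ∈ S, φ j ≤ 1 + ε' - g i0 := by
      have : ∑ j ∈ S, φ j ≤ ∑ j ∈ Z, φ j :=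
        sum_le_sum_of_subset_of_nonneg (filter_subset _ _) (fun j hj _ => hφ j hj)
      linarith
    have h7 := mul_le_mul_of_nonneg_left h6 hs00
    have h8 : s * (1 - g i0) = 1 + g i0 / t2 := by
      rw [hs]; field_simp [(by linarith : (1 - g i0) ≠ 0)]
    have h9 : ∑ j ∈ S, g j = g i0 + ∑ j ∈ S.erase i0, g j := (add_sum_erase S g hiS).symm
    have hScard : (S.card : ℝ) ≤ 61 := by
      refine le_trans ?_ hAcard
      exact_mod_cast card_le_card hSA
    have h5' : (∑ j ∈ S, g j) / t2 - s * ∑ j ∈ S, φ j - 61 * (4000 * e) ≤ ∑ j ∈ S, l j := by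
      have : (S.card : ℝ) * (4000 * e) ≤ 61 * (4000 * e) :=
        mul_le_mul_of_nonneg_right hScard (by linarith)
      linarith
    have h10 := mul_le_mul_of_nonneg_left h5' ht.le
    have h11 : t2 * ((∑ j ∈ S, g j) / t2) = ∑ j ∈ S, g j := by field_simp
    have h12 : t2 * (s * ∑ j ∈ S, φ j) ≤ t2 * (s * (1 + ε' - g i0)) :=
      mul_le_mul_of_nonneg_left h7 ht.le
    have h13 : t2 * (s * (1 + ε' - g i0)) = t2 + g i0 + t2 * s * ε' := by
      have h131 : s * (1 + ε' - g i0) = s * (1 - g i0) + s * ε' := by ring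
      rw [h131, h8]; field_simp
    have h14 : t2 * s * ε' ≤ 70 * ε' := mul_le_mul_of_nonneg_right hts hε0.le
    have h15 : t2 * (61 * (4000 * e)) ≤ 0.0718 * (61 * (4000 * e)) :=
      mul_le_mul_of_nonneg_right ht2 (by linarith)
    rw [mul_sub, mul_sub, h11] at h10
    linarith
  · have hP0 : S = ∅ := by
      rw [hS, filter_eq_empty_iff]
      intro j hj hgj
      exact hgi (hgj.trans (hmax j hj))
    rw [hP0]
    rw [hP0] at hsum
    simp only [erase_empty, sum_empty, mul_zero] at hsum ⊢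
    linarith

end LKU
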