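import Pool.Agent.LKU.Num

set_option autoImplicit false
set_option linter.unusedSectionVars false

/-!
# LKU module LamA (difficulty 2)

Basic facts on `cv` and `lam`.

* `cv_le_one`: `min_le_left`.
* `be_le_cv`: `av C = (∑_{v ∈ C} deg v)/(|C| k) ≥ be` as `deg v ≥ be k` for all `v` and `|C| > 0`; `be ≤ 1`.
* `lam_of_mem`: the clusters are disjoint, so `𝒞.filter (v ∈ ·) = {C}`. `lam_of_not_mem`: the filter is empty.
* `lam_nonneg`, `lam_le`: case distinction `v ∈ UU 𝒞` or not.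
* `sum_dhat_jc_le`: `dhat v ≤ deg v` (as `dn G C v ≤ |C|`), so
  `∑_{v ∈ C} dhat v + jc C ≤ ∑_{v ∈ C} deg v + ∑_{z ∈ NN C} (|C| - dn C z) = ∑_z dn C z + ∑_{z ∈ NN C} (|C| - dn C z)`
  `= |NN C| |C| + ∑_{z ∉ NN C} dn C z ≤ |NN C| |C| + δ |C| k` (`hC.thin`: the `z ∉ NN C` are those with `dn C z < e1 |C|`).
* `cv_mul_le`: (a) `av C * k |C| = ∑_{v ∈ C} deg v = ∑_z dn C z ≤ |NN C| |C| + δ |C| k`, so `av C * k ≤ |NN C| + δ k`;
  (b) if `C ∈ JJ` then by `sum_dhat_jc_le` `ch C * k ≤ |NN C| + δ k`; hence `cv C * k ≤ max ... ≤ |NN C| + δ k`;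
  if `C ∉ JJ` then `|NN C| > (1+δ) k` and `cv C * k ≤ k`.
* `sum_dhat_add`: `∑_v deg v = ∑_v dhat v + ∑_{C ∈ JJ} jc C`: exchange the sums over `v` and `C ∈ tau v ∩ JJ` (`C ∈ tau v` iff
  `C ∈ 𝒞` and `v ∈ NN C`; `JJ ⊆ 𝒞`).
-/

open scoped Classical

noncomputable section

namespace LKU

open Finset

variable {V : Type} [Fintype V]

theorem cv_le_one (G : SimpleGraph V) (k e1 δ : ℝ) (𝒞 : Finset (Finset V)) (C : Finset V) :
    cv G k e1 δ 𝒞 C ≤ 1 := min_le_left _ _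

theorem be_le_cv {G : SimpleGraph V} {k e1 δ : ℝ} {𝒞 : Finset (Finset V)} {C : Finset V}
    (hk : 1 ≤ k) (hdeg : ∀ v, be * k ≤ deg G v) (hC : C.Nonempty) : be ≤ cv G k e1 δ 𝒞 C := by
  have hk0 : 0 < k := by linarith
  have hc : (0 : ℝ) < C.card := by exact_mod_cast hC.card_pos
  have hb1 : be ≤ 1 := by linarith [be_hi]
  have hav : be ≤ av G k C := by
    unfold av
    rw [le_div_iff₀ (by positivity)]
    calc be * (C.card * k) = ∑ v ∈ C, be * k := by rw [sum_const, nsmul_eq_mul]; ring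
      _ ≤ ∑ v ∈ C, deg G v := sum_le_sum fun v _ => hdeg v
  exact le_min hb1 (le_max_of_le_right (le_min hb1 hav))

theorem lam_of_mem {G : SimpleGraph V} {k e1 δ : ℝ} {𝒞 : Finset (Finset V)}
    (hdj : ∀ C ∈ 𝒞, ∀ C' ∈ 𝒞, C ≠ C' → Disjoint C C') {C : Finset V} (hC : C ∈ 𝒞) {v : V}
    (hv : v ∈ C) : lam G k e1 δ 𝒞 v = 1 - cv G k e1 δ 𝒞 C := by
  have h1 : 𝒞.filter (fun C => v ∈ C) = {C} := by
    ext C'
    rw [mem_filter, mem_singleton]
    constructor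
    · rintro ⟨h1, h2⟩
      by_contra hne
      exact disjoint_left.1 (hdj C' h1 C hC hne) h2 hv
    · rintro rfl
      exact ⟨hC, hv⟩
  unfold lam
  rw [h1, sum_singleton]

theorem lam_of_not_mem {G : SimpleGraph V} {k e1 δ : ℝ} {𝒞 : Finset (Finset V)} {v : V}
    (hv : v ∉ UU 𝒞) : lam G k e1 δ 𝒞 v = 0 := by
  have h1 : 𝒞.filter (fun C => v ∈ C) = ∅ := by
    rw [filter_eq_empty_iff]
    intro C hC hvC
    exact hv (mem_UU.2 ⟨C, hC, hvC⟩)
  unfold lam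
  rw [h1, sum_empty]

/-- PART G1. Properties of the supply. -/
theorem lam_nonneg {G : SimpleGraph V} {k M e1 r c0 δ : ℝ} {𝒞 : Finset (Finset V)}
    (hC : Clus G k M e1 r c0 δ 𝒞) (v : V) : 0 ≤ lam G k e1 δ 𝒞 v := by
  unfold lam
  exact sum_nonneg fun C _ => by linarith [cv_le_one G k e1 δ 𝒞 C]

theorem lam_le {G : SimpleGraph V} {k M e1 r c0 δ : ℝ} {𝒞 : Finset (Finset V)}
    (hC : Clus G k M e1 r c0 δ 𝒞) (hk : 1 ≤ k) (hdeg : ∀ v, be * k ≤ deg G v) (v : V) :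
    lam G k e1 δ 𝒞 v ≤ 1 - be := by
  by_cases hv : v ∈ UU 𝒞
  · obtain ⟨C, hC1, hC2⟩ := mem_UU.1 hv
    rw [lam_of_mem hC.disj hC1 hC2]
    linarith [be_le_cv (e1 := e1) (δ := δ) (𝒞 := 𝒞) hk hdeg (hC.ne C hC1)]
  · rw [lam_of_not_mem hv]
    linarith [be_hi]

theorem LamA_dhat_le (G : SimpleGraph V) (k e1 δ : ℝ) (𝒞 : Finset (Finset V)) (x : V) :
    dhat G k e1 δ 𝒞 x ≤ deg G x := by
  unfold dhat
  have : 0 ≤ ∑ C ∈ (tau G 𝒞 e1 x) ∩ (JJ G k e1 δ 𝒞), ((C.card : ℝ) - dn G C x) :=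
    sum_nonneg fun C _ => by linarith [dn_le_card G C x]
  linarith

theorem LamA_sum_deg {G : SimpleGraph V} {k M e1 r c0 δ : ℝ} {𝒞 : Finset (Finset V)}
    (hC : Clus G k M e1 r c0 δ 𝒞) {C : Finset V} (hCC : C ∈ 𝒞) :
    ∑ v ∈ C, deg G v ≤ ∑ z ∈ NN G e1 C, dn G C z + δ * C.card * k := by
  have h1 : ∑ v ∈ C, deg G v = ∑ z, dn G C z := by
    unfold deg
    rw [← sum_dn_comm]
  have h2 := sum_filter_add_sum_filter_not univ (fun z => e1 * C.card ≤ dn G C z)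
    (fun z => dn G C z)
  have h3 := hC.thin C hCC
  have h4 : univ.filter (fun z => ¬ e1 * C.card ≤ dn G C z) =
      univ.filter (fun z => dn G C z < e1 * C.card) := by
    ext z; simp
  rw [h4] at h2
  rw [h1, ← h2]
  unfold NN
  linarith

theorem sum_dhat_jc_le {G : SimpleGraph V} {k M e1 r c0 δ : ℝ} {𝒞 : Finset (Finset V)}
    (hC : Clus G k M e1 r c0 δ 𝒞) {C : Finset V} (hCC : C ∈ 𝒞) :
    ∑ v ∈ C, dhat G k e1 δ 𝒞 v + jc G e1 C ≤ (NN G e1 C).card * C.card + δ * C.card * k := by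
  have h1 : ∑ v ∈ C, dhat G k e1 δ 𝒞 v ≤ ∑ v ∈ C, deg G v :=
    sum_le_sum fun v _ => LamA_dhat_le G k e1 δ 𝒞 v
  have h2 := LamA_sum_deg hC hCC
  unfold jc
  rw [sum_sub_distrib, sum_const, nsmul_eq_mul]
  linarith

theorem cv_mul_le {G : SimpleGraph V} {k M e1 r c0 δ : ℝ} {𝒞 : Finset (Finset V)}
    (hC : Clus G k M e1 r c0 δ 𝒞) (hk : 1 ≤ k) (hδ : 0 < δ) {C : Finset V} (hCC : C ∈ 𝒞) :
    cv G k e1 δ 𝒞 C * k ≤ (NN G e1 C).card + δ * k := by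
  have hk0 : 0 < k := by linarith
  have hc : (0 : ℝ) < C.card := by exact_mod_cast (hC.ne C hCC).card_pos
  have hc1 : cv G k e1 δ 𝒞 C ≤ 1 := cv_le_one G k e1 δ 𝒞 C
  by_cases hJ : C ∈ JJ G k e1 δ 𝒞
  · have h1 := sum_dhat_jc_le hC hCC
    have h2 : ch G k e1 δ 𝒞 C * k ≤ (NN G e1 C).card + δ * k := by
      unfold ch
      rw [if_pos hJ]
      have e1' : (∑ v ∈ C, dhat G k e1 δ 𝒞 v + jc G e1 C) / (C.card * k) * k =
          (∑ v ∈ C, dhat G k e1 δ 𝒞 v + jc G e1 C) / C.card := by field_simp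
      rw [e1', div_le_iff₀ hc]
      linarith
    have h3 : av G k C * k ≤ (NN G e1 C).card + δ * k := by
      have h4 := LamA_sum_deg hC hCC
      have h5 : ∑ z ∈ NN G e1 C, dn G C z ≤ (NN G e1 C).card * C.card := by
        calc ∑ z ∈ NN G e1 C, dn G C z ≤ ∑ z ∈ NN G e1 C, (C.card : ℝ) :=
              sum_le_sum fun z _ => dn_le_card G C z
          _ = (NN G e1 C).card * C.card := by rw [sum_const, nsmul_eq_mul]
      unfold av
      have e1' : (∑ v ∈ C, deg G v) / (C.card * k) * k = (∑ v ∈ C, deg G v) / C.card := by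
        field_simp
      rw [e1', div_le_iff₀ hc]
      linarith
    have h6 : cv G k e1 δ 𝒞 C ≤ max (ch G k e1 δ 𝒞 C) (min 1 (av G k C)) := min_le_right _ _
    have h7 : min 1 (av G k C) ≤ av G k C := min_le_right _ _
    rcases le_total (ch G k e1 δ 𝒞 C) (min 1 (av G k C)) with h8 | h8
    · rw [max_eq_right h8] at h6
      have h9 := mul_le_mul_of_nonneg_right (h6.trans h7) hk0.le
      linarith
    · rw [max_eq_left h8] at h6
      have h9 := mul_le_mul_of_nonneg_right h6 hk0.le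
      linarith
  · have h1 : (1 + δ) * k < (NN G e1 C).card := by
      by_contra hcon
      exact hJ (mem_filter.2 ⟨hCC, not_lt.1 hcon⟩)
    have h2 := mul_le_mul_of_nonneg_right hc1 hk0.le
    have h3 : 0 < δ * k := mul_pos hδ hk0
    linarith

theorem sum_deg_eq {G : SimpleGraph V} {k e1 δ : ℝ} {𝒞 : Finset (Finset V)} :
    ∑ v, deg G v = ∑ v, dhat G k e1 δ 𝒞 v + ∑ C ∈ JJ G k e1 δ 𝒞, jc G e1 C := by
  have h1 : ∑ v, ∑ C ∈ (tau G 𝒞 e1 v) ∩ (JJ G k e1 δ 𝒞), ((C.card : ℝ) - dn G C v) =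
      ∑ C ∈ JJ G k e1 δ 𝒞, jc G e1 C := by
    have h2 : ∀ v, ∑ C ∈ (tau G 𝒞 e1 v) ∩ (JJ G k e1 δ 𝒞), ((C.card : ℝ) - dn G C v) =
        ∑ C ∈ JJ G k e1 δ 𝒞, if e1 * C.card ≤ dn G C v then ((C.card : ℝ) - dn G C v) else 0 := by
      intro v
      rw [← sum_filter]
      apply sum_congr _ (fun _ _ => rfl)
      ext C
      simp only [mem_inter, mem_tau, mem_filter, JJ]
      tauto
    simp_rw [h2]
    rw [sum_comm]
    apply sum_congr rfl
    intro C _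
    rw [← sum_filter]
    rfl
  unfold dhat
  rw [sum_sub_distrib, h1]
  ring

end LKU
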