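import Pool.Agent.LKU.Num

set_option autoImplicit false
set_option linter.unusedSectionVars false

/-!
# LKU module Rare1 (difficulty 2)

Few hubs in small closed sets. Proof. Let `S = X ∪ bd G X`, `|S| ≤ (M+2) k` (`card_union_bd_le`). Let
`𝒟 = {C ∈ 𝒞 : e1 |C| ≤ |C ∩ S|}`. The clusters are disjoint of size `≥ c0 k`, so `|𝒟| e1 c0 k ≤ ∑_{C ∈ 𝒟} |C ∩ S| ≤ |S|`
(`sum_card_le`), i.e. `|𝒟| ≤ N := (M+2)/(e1 c0)`. For `x ∈ X` all neighbours of `x` lie in `S` (`nb_subset_union`), hence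
`tau x ⊆ 𝒟`. If `x ∈ Gd` has two different zones `D ≠ D'` then choose `C ∈ D`, `C' ∈ D'` (`Zon.ne`); `C, C' ∈ tau x ⊆ 𝒟`
(`Zon.sub`), and `C' ∉ D` (`Zon.dj`). So `x` is counted by `Zon.sep C C'`. Summing over all pairs of `𝒟 × 𝒟`:
the number is `≤ N^2 ρ0 k ≤ κ k` (use `card_biUnion_le`).
-/

open scoped Classical

noncomputable section

namespace LKU

open Finset

variable {V : Type} [Fintype V]

/-- counting pairs of clusters -/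
theorem rare_pairs {G : SimpleGraph V} {k M e1 c0 δ ρ0 ρ1 ε2 : ℝ} {𝒞 : Finset (Finset V)}
    {Gd : Finset V} {Z : V → Finset (Finset (Finset V))}
    {𝒬 : Finset (Finset (Finset V) × Finset V)} (hZ : Zon G k M e1 c0 δ ρ0 ρ1 ε2 𝒞 Gd Z 𝒬)
    (hk : 1 ≤ k) (hρ0 : 0 < ρ0) {𝒟 : Finset (Finset V)} (h𝒟 : 𝒟 ⊆ 𝒞) {N κ : ℝ}
    (hN : (𝒟.card : ℝ) ≤ N) (hκ : N ^ 2 * ρ0 ≤ κ) {W : Finset V}
    (hW : ∀ x ∈ W, x ∈ Gd ∧ ∃ D ∈ Z x, ∃ D' ∈ Z x, D ≠ D' ∧ (∃ C ∈ D, C ∈ 𝒟) ∧ ∃ C' ∈ D', C' ∈ 𝒟) :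
    (W.card : ℝ) ≤ κ * k := by
  have hk0 : 0 < k := by linarith
  have h1 : W ⊆ (𝒟 ×ˢ 𝒟).biUnion fun p => Gd.filter fun x =>
      ∃ D ∈ Z x, p.1 ∈ D ∧ p.2 ∈ tau G 𝒞 e1 x ∧ p.2 ∉ D := by
    intro x hx
    obtain ⟨hxG, D, hD, D', hD', hne, ⟨C, hC, hC2⟩, C', hC', hC2'⟩ := hW x hx
    rw [mem_biUnion]
    refine ⟨(C, C'), mem_product.2 ⟨hC2, hC2'⟩, mem_filter.2 ⟨hxG, D, hD, hC,
      hZ.sub x hxG D' hD' hC', ?_⟩⟩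
    intro h
    exact (disjoint_left.1 (hZ.dj x hxG D hD D' hD' hne)) h hC'
  have h2 : (W.card : ℝ) ≤ ∑ p ∈ 𝒟 ×ˢ 𝒟, ρ0 * k := by
    have h0 : (W.card : ℝ) ≤ ∑ p ∈ 𝒟 ×ˢ 𝒟, ((Gd.filter fun x =>
        ∃ D ∈ Z x, p.1 ∈ D ∧ p.2 ∈ tau G 𝒞 e1 x ∧ p.2 ∉ D).card : ℝ) := by
      exact_mod_cast (card_le_card h1).trans card_biUnion_le
    refine le_trans h0 (sum_le_sum fun p hp => ?_)
    rw [mem_product] at hp
    exact hZ.sep _ (h𝒟 hp.1) _ (h𝒟 hp.2)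
  rw [sum_const, card_product, nsmul_eq_mul] at h2
  push_cast at h2
  have h3 : (𝒟.card : ℝ) * 𝒟.card ≤ N ^ 2 := by
    rw [sq]
    exact mul_le_mul hN hN (by positivity) (le_trans (by positivity) hN)
  calc (W.card : ℝ) ≤ (𝒟.card : ℝ) * 𝒟.card * (ρ0 * k) := h2
    _ ≤ N ^ 2 * (ρ0 * k) := mul_le_mul_of_nonneg_right h3 (by positivity)
    _ = N ^ 2 * ρ0 * k := by ring
    _ ≤ κ * k := mul_le_mul_of_nonneg_right hκ hk0.le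

/-- the number of disjoint sets with large intersections -/
theorem rare_count {𝒞 : Finset (Finset V)}
    (hdj : ∀ C ∈ 𝒞, ∀ C' ∈ 𝒞, C ≠ C' → Disjoint C C') {𝒟 : Finset (Finset V)} (h𝒟 : 𝒟 ⊆ 𝒞)
    {S : Finset V} {a b N : ℝ} (ha : 0 < a) (h : ∀ C ∈ 𝒟, a ≤ ((C ∩ S).card : ℝ))
    (hS : (S.card : ℝ) ≤ b) (hN : b ≤ N * a) : (𝒟.card : ℝ) ≤ N := by
  have h1 : ∑ C ∈ 𝒟, a ≤ ∑ C ∈ 𝒟, ((C ∩ S).card : ℝ) := sum_le_sum h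
  have h2 := sum_card_le (fun C hC C' hC' hne => hdj C (h𝒟 hC) C' (h𝒟 hC') hne) S
  rw [sum_const, nsmul_eq_mul] at h1
  have h3 : (𝒟.card : ℝ) * a ≤ N * a := by linarith
  exact le_of_mul_le_mul_right h3 ha

/-- PART E1. Few hubs in small closed sets. -/
theorem rare1 {G : SimpleGraph V} {k M e1 c0 δ ρ0 ρ1 ε2 κ : ℝ} {𝒞 : Finset (Finset V)}
    {Gd : Finset V} {Z : V → Finset (Finset (Finset V))}
    {𝒬 : Finset (Finset (Finset V) × Finset V)} (hZ : Zon G k M e1 c0 δ ρ0 ρ1 ε2 𝒞 Gd Z 𝒬)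
    (hk : 1 ≤ k) (hM : 1 ≤ M) (he1 : 0 < e1) (hc0 : 0 < c0) (hρ0 : 0 < ρ0)
    (hdj : ∀ C ∈ 𝒞, ∀ C' ∈ 𝒞, C ≠ C' → Disjoint C C') (hsz : ∀ C ∈ 𝒞, c0 * k ≤ C.card)
    (hκ : ((M + 2) / (e1 * c0)) ^ 2 * ρ0 ≤ κ) {X : Finset V} (hX : XX G k M X) :
    ((X.filter fun x => x ∈ Gd ∧ 2 ≤ (Z x).card).card : ℝ) ≤ κ * k := by
  have hk0 : 0 < k := by linarith
  have hB := card_union_bd_le hk hX
  set S := X ∪ bd G X with hS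
  have h𝒟 : (𝒞.filter fun C => e1 * C.card ≤ ((C ∩ S).card : ℝ)) ⊆ 𝒞 := filter_subset _ _
  refine rare_pairs hZ hk hρ0 h𝒟 (N := (M + 2) / (e1 * c0)) ?_ hκ ?_
  · refine rare_count hdj h𝒟 (a := e1 * c0 * k) (by positivity) ?_ hB ?_
    · intro C hC
      rw [mem_filter] at hC
      have h1 := mul_le_mul_of_nonneg_left (hsz C hC.1) he1.le
      linarith [hC.2]
    · rw [div_mul_eq_mul_div, le_div_iff₀ (by positivity)]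
      nlinarith
  · intro x hx
    rw [mem_filter] at hx
    obtain ⟨hxX, hxG, hx2⟩ := hx
    obtain ⟨D, hD, D', hD', hne⟩ := one_lt_card.1 (lt_of_lt_of_le one_lt_two hx2)
    have key : ∀ C ∈ tau G 𝒞 e1 x, C ∈ 𝒞.filter fun C => e1 * C.card ≤ ((C ∩ S).card : ℝ) := by
      intro C hC
      rw [mem_tau] at hC
      rw [mem_filter]
      refine ⟨hC.1, hC.2.trans ?_⟩
      unfold dn
      have : nb G C x ⊆ C ∩ S := by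
        intro v hv
        refine mem_inter.2 ⟨(mem_nb.1 hv).1, nb_subset_union hxX ?_⟩
        exact mem_nb.2 ⟨mem_univ _, (mem_nb.1 hv).2⟩
      exact_mod_cast card_le_card this
    obtain ⟨C, hC⟩ := hZ.ne x hxG D hD
    obtain ⟨C', hC'⟩ := hZ.ne x hxG D' hD'
    exact ⟨hxG, D, hD, D', hD', hne, ⟨C, hC, key C (hZ.sub x hxG D hD hC)⟩,
      C', hC', key C' (hZ.sub x hxG D' hD' hC')⟩

end LKU
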