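import Pool.Agent.LKU.CardTau
import Pool.Agent.LKU.Rare1

set_option autoImplicit false
set_option linter.unusedSectionVars false

/-!
# LKU module Rare2 (difficulty 2)

Few vertices touch a small closed set in two zones. Proof. Let `K = M/(e1 c0)`; `|tau x| ≤ K` (`card_tau_le`).
Let `𝒟 = {C ∈ 𝒞 : η k / K ≤ |C ∩ X|}`; by `sum_card_le`, `|𝒟| ≤ M K / η =: N` (as `|X| ≤ M k`).
If `η k ≤ |nb G (UU D) x ∩ X|` with `D ⊆ tau x` then `nb G (UU D) x ∩ X ⊆ ⋃_{C ∈ D} (C ∩ X)` and `|D| ≤ K`, so some `C ∈ D` has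
`|C ∩ X| ≥ η k / K`, i.e. `C ∈ 𝒟` (`D` is not empty as `η k > 0`). So a vertex `x` of the set has `D ≠ D' ∈ Z x`, `C ∈ D ∩ 𝒟`,
`C' ∈ D' ∩ 𝒟`; `C' ∈ tau x`, `C' ∉ D` by disjointness (`Zon.dj`). So it is counted by `Zon.sep C C'`. Total `≤ N^2 ρ0 k ≤ κ k`.
-/

open scoped Classical

noncomputable section

namespace LKU

open Finset

variable {V : Type} [Fintype V]

/-- PART E2. Few vertices touch a small closed set in two zones. -/
theorem rare2 {G : SimpleGraph V} {k M e1 c0 δ ρ0 ρ1 ε2 κ η : ℝ} {𝒞 : Finset (Finset V)}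
    {Gd : Finset V} {Z : V → Finset (Finset (Finset V))}
    {𝒬 : Finset (Finset (Finset V) × Finset V)} (hZ : Zon G k M e1 c0 δ ρ0 ρ1 ε2 𝒞 Gd Z 𝒬)
    (hk : 1 ≤ k) (hM : 1 ≤ M) (he1 : 0 < e1) (hc0 : 0 < c0) (hρ0 : 0 < ρ0) (hη : 0 < η)
    (hdeg : ∀ v, deg G v ≤ M * k)
    (hdj : ∀ C ∈ 𝒞, ∀ C' ∈ 𝒞, C ≠ C' → Disjoint C C') (hsz : ∀ C ∈ 𝒞, c0 * k ≤ C.card)
    (hκ : (M * (M / (e1 * c0)) / η) ^ 2 * ρ0 ≤ κ) {X : Finset V} (hX : XX G k M X) :
    ((Gd.filter fun x => ∃ D ∈ Z x, ∃ D' ∈ Z x, D ≠ D' ∧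
      η * k ≤ ((nb G (UU D) x ∩ X).card : ℝ) ∧
      η * k ≤ ((nb G (UU D') x ∩ X).card : ℝ)).card : ℝ) ≤ κ * k := by
  have hk0 : 0 < k := by linarith
  have hM0 : 0 < M := by linarith
  set K := M / (e1 * c0) with hK
  have hK0 : 0 < K := by positivity
  have h𝒟 : (𝒞.filter fun C => η * k / K ≤ ((C ∩ X).card : ℝ)) ⊆ 𝒞 := filter_subset _ _
  refine rare_pairs hZ hk hρ0 h𝒟 (N := M * K / η) ?_ hκ ?_
  · refine rare_count hdj h𝒟 (a := η * k / K) (by positivity) ?_ hX.1 ?_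
    · intro C hC
      exact (mem_filter.1 hC).2
    · apply le_of_eq
      field_simp
  · intro x hx
    rw [mem_filter] at hx
    obtain ⟨hxG, D, hD, D', hD', hne, h1, h2⟩ := hx
    have key : ∀ E ∈ Z x, η * k ≤ ((nb G (UU E) x ∩ X).card : ℝ) →
        ∃ C ∈ E, C ∈ 𝒞.filter fun C => η * k / K ≤ ((C ∩ X).card : ℝ) := by
      intro E hE h
      by_contra hno
      have hlt : ∀ C ∈ E, ((C ∩ X).card : ℝ) < η * k / K := by
        intro C hC
        by_contra h3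
        refine hno ⟨C, hC, mem_filter.2 ⟨?_, not_lt.1 h3⟩⟩
        exact (mem_tau.1 (hZ.sub x hxG E hE hC)).1
      have h4 : ((nb G (UU E) x ∩ X).card : ℝ) ≤ ∑ C ∈ E, ((C ∩ X).card : ℝ) := by
        have : nb G (UU E) x ∩ X ⊆ E.biUnion fun C => C ∩ X := by
          intro v hv
          rw [mem_inter, mem_nb, mem_UU] at hv
          obtain ⟨⟨⟨C, hC, hvC⟩, _⟩, hvX⟩ := hv
          exact mem_biUnion.2 ⟨C, hC, mem_inter.2 ⟨hvC, hvX⟩⟩
        exact_mod_cast (card_le_card this).trans card_biUnion_le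
      have h5 := sum_lt_sum_of_nonempty (hZ.ne x hxG E hE) hlt
      rw [sum_const, nsmul_eq_mul] at h5
      have h6 : (E.card : ℝ) ≤ K := by
        refine le_trans ?_ (card_tau_le hk he1 hc0 hdeg hdj hsz x)
        exact_mod_cast card_le_card (hZ.sub x hxG E hE)
      have h7 : (E.card : ℝ) * (η * k / K) ≤ K * (η * k / K) :=
        mul_le_mul_of_nonneg_right h6 (by positivity)
      have h8 : K * (η * k / K) = η * k := by field_simp
      linarith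
    exact ⟨hxG, D, hD, D', hD', hne, key D hD h1, key D' hD' h2⟩

end LKU
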