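import Pool.Agent.LKU.Num

set_option autoImplicit false
set_option linter.unusedSectionVars false

/-!
# LKU module Thick (difficulty 2)

Thick boundaries are not small. Proof. `|R| ≤ |X| ≤ M k`, so `hG.exp R` gives
`(be - 1/2) k |R| - ε0 k^2 ≤ ∑_{v ∈ R} dn G Rᶜ v = ∑_{z ∈ Rᶜ} dn G R z` (`sum_dn_comm`).
A `z ∈ Rᶜ` with `dn G R z > 0` lies in `bd G R ⊆ X ∪ bd G X` (because `R ⊆ X`), a set of size `≤ (M+2) k` (`card_union_bd_le`).
Those with `dn G R z < η k` contribute together at most `(M+2) η k^2`; the others are the members of `tb G (η k) R`, each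
contributes at most `|R|` (`dn_le_card`). So `|tb| |R| ≥ (be - 1/2) k |R| - (ε0 + (M+2) η) k^2 ≥ (be - 1/2) k |R| - (s0/60) k^2`
and `s0 k^2 ≤ k |R|` (`hR0`), so `|tb| |R| ≥ (be - 1/2 - 1/60) k |R| ≥ (1/60) k |R|` (`be_lo`: `be - 1/2 ≥ 0.0358`), and `|R| > 0`.
-/

open scoped Classical

noncomputable section

namespace LKU

open Finset

variable {V : Type} [Fintype V]

theorem thick_sum {G : SimpleGraph V} {k M η : ℝ} (hk : 1 ≤ k) (hη : 0 < η)
    {X R : Finset V} (hX : XX G k M X) (hR : R ⊆ X) :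
    ∑ z ∈ Rᶜ, dn G R z ≤ ((tb G (η * k) R).card : ℝ) * R.card + (M + 2) * k * (η * k) := by
  have hB := card_union_bd_le hk hX
  have hηk : 0 < η * k := by positivity
  have h1 : ∀ z ∈ Rᶜ, dn G R z ≤ (if z ∈ tb G (η * k) R then (R.card : ℝ) else 0) +
      (if z ∈ X ∪ bd G X then η * k else 0) := by
    intro z hz
    have hz' : z ∉ R := by simpa using hz
    by_cases hT : z ∈ tb G (η * k) R
    · rw [if_pos hT]
      have h2 := dn_le_card G R z
      have h3 : (0 : ℝ) ≤ if z ∈ X ∪ bd G X then η * k else 0 := by split_ifs <;> linarith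
      linarith
    · rw [if_neg hT, zero_add]
      have h2 : dn G R z < η * k := by
        by_contra h
        exact hT (mem_tb.2 ⟨hz', not_lt.1 h⟩)
      by_cases hzB : z ∈ X ∪ bd G X
      · rw [if_pos hzB]; exact h2.le
      · rw [if_neg hzB]
        have h3 : nb G R z = ∅ := by
          rw [Finset.eq_empty_iff_forall_notMem]
          intro v hv
          rw [mem_nb] at hv
          apply hzB
          by_cases hzX : z ∈ X
          · exact mem_union_left _ hzX
          · exact mem_union_right _ (mem_bd.2 ⟨hzX, v, hR hv.1, hv.2⟩)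
        unfold dn
        rw [h3]
        simp
  refine le_trans (sum_le_sum h1) ?_
  rw [sum_add_distrib]
  have h4 : ∑ z ∈ Rᶜ, (if z ∈ tb G (η * k) R then (R.card : ℝ) else 0) ≤
      ((tb G (η * k) R).card : ℝ) * R.card := by
    rw [← sum_filter, sum_const, nsmul_eq_mul]
    refine mul_le_mul_of_nonneg_right ?_ (by positivity)
    exact_mod_cast card_le_card (fun z hz => (mem_filter.1 hz).2)
  have h5 : ∑ z ∈ Rᶜ, (if z ∈ X ∪ bd G X then η * k else 0) ≤ (M + 2) * k * (η * k) := by
    rw [← sum_filter, sum_const, nsmul_eq_mul]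
    refine mul_le_mul_of_nonneg_right (le_trans ?_ hB) hηk.le
    exact_mod_cast card_le_card (fun z hz => (mem_filter.1 hz).2)
  linarith

/-- Thick boundaries are not small. -/
theorem thick_lower {G : SimpleGraph V} {k M ε0 η s0 : ℝ} (hG : Good G k M ε0) (hM : 1 ≤ M)
    (hη : 0 < η) (hs0 : 0 < s0) (hε0 : 0 < ε0) (c : ε0 + (M + 2) * η ≤ s0 / 60)
    {X R : Finset V} (hX : XX G k M X) (hR : R ⊆ X) (hR0 : s0 * k ≤ R.card) :
    1 / 60 * k ≤ ((tb G (η * k) R).card : ℝ) := by
  have hk : 1 ≤ k := hG.one_le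
  have hk0 : 0 < k := by linarith
  have hRX : (R.card : ℝ) ≤ X.card := by exact_mod_cast card_le_card hR
  have h1 := hG.exp R (hRX.trans hX.1)
  rw [sum_dn_comm] at h1
  have h2 := thick_sum hk hη hX hR
  have hR1 : 0 < (R.card : ℝ) := lt_of_lt_of_le (by positivity) hR0
  have hb := be_lo
  have h3 : (ε0 + (M + 2) * η) * k ^ 2 ≤ s0 / 60 * k ^ 2 :=
    mul_le_mul_of_nonneg_right c (by positivity)
  have h4 : s0 * k * k ≤ R.card * k := mul_le_mul_of_nonneg_right hR0 hk0.le
  have h5 : (0.0358982 : ℝ) * (k * R.card) ≤ (be - 1 / 2) * (k * R.card) :=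
    mul_le_mul_of_nonneg_right (by linarith) (by positivity)
  have h6 : 1 / 60 * k * R.card ≤ ((tb G (η * k) R).card : ℝ) * R.card := by
    have : 0 < k * (R.card : ℝ) := by positivity
    nlinarith
  exact le_of_mul_le_mul_right h6 hR1

end LKU
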