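import Pool.Agent.LKU.B2
import Pool.Agent.LKU.CMain
import Pool.Agent.LKU.DMain
import Pool.Agent.LKU.CardTau
import Pool.Agent.LKU.Rare1
import Pool.Agent.LKU.Rare2
import Pool.Agent.LKU.FTwo
import Pool.Agent.LKU.FOne
import Pool.Agent.LKU.Thick
import Pool.Agent.LKU.LamA
import Pool.Agent.LKU.Account
import Pool.Agent.LKU.Geom
import Pool.Agent.LKU.HRegion
import Pool.Agent.LKU.HubIneq

set_option autoImplicit false

/-!
# LKU: the main intermediate statements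
-/

open scoped Classical

noncomputable section

namespace LKU

open Finset

/-- PART B. Clusters. -/
theorem clusters (M δ : ℝ) (hM : 1 ≤ M) (hδ : 0 < δ) :
    ∃ e1 : ℝ, 0 < e1 ∧ e1 ≤ 1 ∧ ∀ r : ℝ, 0 < r → ∃ c0 : ℝ, 0 < c0 ∧
      ∀ (V : Type) [Fintype V] (G : SimpleGraph V) (k : ℝ), 1 ≤ k → (∀ v, deg G v ≤ M * k) →
        ∃ (𝒞 : Finset (Finset V)) (Typ : Finset V), Clus G k M e1 r c0 δ 𝒞 ∧
          ((univ \ Typ).card : ℝ) ≤ δ * Fintype.card V ∧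
          ∀ x ∈ Typ, ∀ X, XX G k M X → x ∈ X → ((A0 G 𝒞 e1 x ∩ X).card : ℝ) ≤ δ * k :=
  clusters' M δ hM hδ

end LKU
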