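import Pool.Agent.LKU.Num
import Pool.Agent.LKU.Top

set_option autoImplicit false
set_option linter.unusedSectionVars false

/-!
# LKU: assembly, part 1
-/

open scoped Classical

noncomputable section

namespace LKU

open Finset

variable {V : Type} [Fintype V]

theorem dhat_le_deg (G : SimpleGraph V) (k e1 δ : ℝ) (𝒞 : Finset (Finset V)) (x : V) :
    dhat G k e1 δ 𝒞 x ≤ deg G x := by
  unfold dhat
  have : 0 ≤ ∑ C ∈ (tau G 𝒞 e1 x) ∩ (JJ G k e1 δ 𝒞), ((C.card : ℝ) - dn G C x) :=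
    sum_nonneg fun C _ => by linarith [dn_le_card G C x]
  linarith

theorem card_zones_le {T : Finset (Finset V)} {Z : Finset (Finset (Finset V))}
    (ne : ∀ D ∈ Z, D.Nonempty) (sub : ∀ D ∈ Z, D ⊆ T)
    (dj : ∀ D ∈ Z, ∀ D' ∈ Z, D ≠ D' → Disjoint D D') : Z.card ≤ T.card := by
  have h1 : Z.card ≤ (Z.biUnion id).card := by
    have h := card_biUnion (s := Z) (t := id) (fun D hD D' hD' hne => dj D hD D' hD' hne)
    rw [h]
    calc Z.card = ∑ D ∈ Z, 1 := by simp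
      _ ≤ ∑ D ∈ Z, (id D).card := sum_le_sum fun D hD => card_pos.2 (ne D hD)
  exact h1.trans (card_le_card (biUnion_subset.2 sub))

/-- the number of clusters -/
theorem card_clus_le {k c0 : ℝ} {𝒞 : Finset (Finset V)}
    (hdj : ∀ C ∈ 𝒞, ∀ C' ∈ 𝒞, C ≠ C' → Disjoint C C') (hsz : ∀ C ∈ 𝒞, c0 * k ≤ C.card) :
    (𝒞.card : ℝ) * (c0 * k) ≤ Fintype.card V := by
  refine le_trans ?_ (sum_card_univ_le hdj)
  rw [← nsmul_eq_mul, ← sum_const]
  exact sum_le_sum fun C hC => hsz C hC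

/-- few hubs lie in clusters -/
theorem hub_in_clus {G : SimpleGraph V} {k M e1 r c0 δ κ : ℝ} {𝒞 : Finset (Finset V)}
    (hC : Clus G k M e1 r c0 δ 𝒞) (hk : 1 ≤ k) (hc0 : 0 < c0) (hκ : 0 < κ) {H : Finset V}
    (h : ∀ X, XX G k M X → ((X ∩ H).card : ℝ) ≤ κ * k) :
    ((H ∩ UU 𝒞).card : ℝ) ≤ κ / c0 * Fintype.card V := by
  have h1 : ((H ∩ UU 𝒞).card : ℝ) ≤ ∑ C ∈ 𝒞, ((H ∩ C).card : ℝ) := by
    have : H ∩ UU 𝒞 = 𝒞.biUnion fun C => H ∩ C := by
      ext v; simp only [mem_inter, mem_UU, mem_biUnion]; tauto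
    rw [this]
    exact_mod_cast card_biUnion_le
  have h2 : ∑ C ∈ 𝒞, ((H ∩ C).card : ℝ) ≤ ∑ C ∈ 𝒞, κ * k := by
    refine sum_le_sum fun C hC' => ?_
    obtain ⟨X, hX, hCX⟩ := hC.inX C hC'
    refine le_trans ?_ (h X hX)
    exact_mod_cast card_le_card (fun v hv => by
      rw [mem_inter] at hv ⊢; exact ⟨hCX hv.2, hv.1⟩)
  have h3 := card_clus_le hC.disj hC.size
  rw [sum_const, nsmul_eq_mul] at h2
  have hk0 : 0 < k := by linarith
  have h4 : (𝒞.card : ℝ) * k ≤ Fintype.card V / c0 := by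
    rw [le_div_iff₀ hc0]; linarith
  calc ((H ∩ UU 𝒞).card : ℝ) ≤ 𝒞.card * (κ * k) := h1.trans h2
    _ = κ * (𝒞.card * k) := by ring
    _ ≤ κ * (Fintype.card V / c0) := by
      exact mul_le_mul_of_nonneg_left h4 hκ.le
    _ = κ / c0 * Fintype.card V := by ring

/-- few vertices have many neighbours in a small set -/
theorem few_nb {G : SimpleGraph V} {k M a b : ℝ} (hk : 1 ≤ k) (ha : 0 < a)
    (hdeg : ∀ v, deg G v ≤ M * k) (S T : Finset V) (hS : (S.card : ℝ) * M ≤ a * b) :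
    ((T.filter fun x => a * k < dn G S x).card : ℝ) ≤ b := by
  have hk0 : 0 < k := by linarith
  have h1 : ((T.filter fun x => a * k < dn G S x).card : ℝ) * (a * k) ≤ ∑ x, dn G S x := by
    calc ((T.filter fun x => a * k < dn G S x).card : ℝ) * (a * k)
        = ∑ x ∈ T.filter (fun x => a * k < dn G S x), a * k := by rw [sum_const, nsmul_eq_mul]
      _ ≤ ∑ x ∈ T.filter (fun x => a * k < dn G S x), dn G S x :=
          sum_le_sum fun x hx => (mem_filter.1 hx).2.le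
      _ ≤ ∑ x, dn G S x := sum_le_sum_of_subset_of_nonneg (subset_univ _)
          fun x _ _ => dn_nonneg G S x
  rw [sum_dn_comm] at h1
  have h2 : ∑ v ∈ S, dn G univ v ≤ S.card * (M * k) := by
    rw [← nsmul_eq_mul, ← sum_const]
    exact sum_le_sum fun v _ => hdeg v
  have h3 : ((T.filter fun x => a * k < dn G S x).card : ℝ) * (a * k) ≤ b * (a * k) := by
    have : (S.card : ℝ) * (M * k) ≤ a * b * k := by nlinarith
    linarith
  exact le_of_mul_le_mul_right h3 (by positivity)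

/-- the multiplicity condition of the region lemma -/
theorem mult_aux {ι : Type} [Fintype ι] {k K κ : ℝ} {hub : ι → V} {Hub T R T3 : Finset V}
    {S : Finset ι} (hK : 0 ≤ K)
    (h1 : ∀ j ∈ S, hub j ∈ T ∩ Hub ∪ R ∩ Hub) (h2 : ((R ∩ Hub).card : ℝ) ≤ κ * k)
    (h3 : (T3.card : ℝ) ≤ κ * k) (h4 : ∀ x, ((S.filter fun j => hub j = x).card : ℝ) ≤ K)
    (h5 : ∀ x, x ∉ T3 → ((S.filter fun j => hub j = x).card : ℝ) ≤ 1) :
    (S.card : ℝ) ≤ ((T ∩ Hub).card : ℝ) + (K + 2) * κ * k := by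
  have e1 : (S.card : ℝ) = ∑ x ∈ T ∩ Hub ∪ R ∩ Hub, ((S.filter fun j => hub j = x).card : ℝ) := by
    exact_mod_cast card_eq_sum_card_fiberwise (f := hub) h1
  rw [e1]
  have e2 : ∑ x ∈ T ∩ Hub ∪ R ∩ Hub, ((S.filter fun j => hub j = x).card : ℝ) ≤
      ∑ x ∈ T ∩ Hub ∪ R ∩ Hub, (1 + if x ∈ T3 then K else 0) := by
    refine sum_le_sum fun x _ => ?_
    split_ifs with hx
    · linarith [h4 x]
    · linarith [h5 x hx]
  refine e2.trans ?_
  rw [sum_add_distrib]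
  have e3 : ∑ x ∈ T ∩ Hub ∪ R ∩ Hub, (1 : ℝ) ≤ (T ∩ Hub).card + (R ∩ Hub).card := by
    simp only [sum_const, nsmul_eq_mul, mul_one]
    exact_mod_cast card_union_le _ _
  have e4 : ∑ x ∈ T ∩ Hub ∪ R ∩ Hub, (if x ∈ T3 then K else 0) ≤ T3.card * K := by
    rw [← sum_filter, sum_const, nsmul_eq_mul]
    refine mul_le_mul_of_nonneg_right ?_ hK
    exact_mod_cast card_le_card fun x hx => (mem_filter.1 hx).2
  have e5 : T3.card * K ≤ κ * k * K := mul_le_mul_of_nonneg_right h3 hK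
  have e6 : 0 ≤ κ * k := le_trans (by positivity) h3
  nlinarith

end LKU
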