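import Pool.Agent.LKU.Asm

set_option autoImplicit false
set_option linter.unusedSectionVars false

/-!
# LKU: assembly, part 2: the inequality for one graph
-/

open scoped Classical

noncomputable section

namespace LKU

open Finset

variable {V : Type} [Fintype V]

/-- The whole argument for one graph, given the outputs of the parts. -/
theorem finish {G : SimpleGraph V} {M ε k ε0 e1 r c0 δ δ' η σ e4 ε2 εa K ρ0 ρ1 es e9 κ1 κ e g0 s0 eB : ℝ}
    {𝒞 : Finset (Finset V)} {Typ Gd Gd' : Finset V} {Z : V → Finset (Finset (Finset V))}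
    {𝒬 : Finset (Finset (Finset V) × Finset V)}
    {XC HG HW : V → Finset (Finset V) → Finset V} {yp : V → Finset (Finset V) → V}
    (hM : 1 ≤ M) (hG : Good G k M ε0) (hC : Clus G k M e1 r c0 δ 𝒞)
    (hTyp : ((univ \ Typ).card : ℝ) ≤ δ * Fintype.card V)
    (hA0 : ∀ x ∈ Typ, ∀ X, XX G k M X → x ∈ X → ((A0 G 𝒞 e1 x ∩ X).card : ℝ) ≤ δ * k)
    (hZ : Zon G k M e1 c0 δ' ρ0 ρ1 ε2 𝒞 Gd Z 𝒬) (hGd' : Gd' ⊆ Gd)
    (hGd'c : ((Gd \ Gd').card : ℝ) ≤ δ' * Fintype.card V)
    (hL : ∀ x ∈ Gd', Loc G k M e1 η σ e4 ε2 𝒞 x (Z x) (XC x) (HG x) (HW x) (yp x))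
    (he1 : 0 < e1) (he1' : e1 ≤ 1) (hr : 0 < r) (hc0 : 0 < c0) (hδ : 0 < δ) (hη : 0 < η)
    (hσ : 0 < σ) (he4 : 0 < e4) (hε2 : 0 < ε2) (hεa : 0 < εa) (hεa1 : εa ≤ 1)
    (hρ0 : 0 < ρ0) (hes : 0 < es) (he9 : 0 < e9) (hκ1 : 0 < κ1) (he : 0 < e) (hg0 : 0 < g0)
    (hs0 : 0 < s0) (hs0g : s0 ≤ g0) (hε0 : 0 < ε0) (hε : 0 < ε)
    (hK1 : 1 ≤ K) (hK : M / (e1 * c0) ≤ K)
    (a1 : δ ≤ εa / 8) (a2 : ε2 * (8 * M) ≤ εa * e1) (a3 : r * (16 * M) ≤ εa * e1 ^ 2)
    (a4 : 2 * r + 2 / k ≤ δ) (a5 : 100 * K ^ 2 * (σ + e4 * M / e1) ≤ εa)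
    (a6 : 100 * K ^ 2 ≤ εa * k) (a7 : δ' ≤ εa / 8)
    (b1 : 4 * M * r ≤ e1 ^ 2 * es) (b2 : 4 * M * η ≤ e1 ^ 2 * es * c0)
    (b3 : r + 2 * e9 / e1 + δ ≤ es)
    (d1 : ε0 + (M + 2) * η ≤ s0 / 60)
    (f1 : ((M + 2) / (e1 * c0)) ^ 2 * ρ0 ≤ κ1)
    (f2 : (M * (M / (e1 * c0)) / η) ^ 2 * ρ0 ≤ κ1) (f3 : (K + 2) * κ1 ≤ κ)
    (f4 : κ1 ≤ εa * c0) (f5 : 8 * κ1 * M ≤ εa * c0 * es)
    (RG : ∀ (ι : Type) [Fintype ι] (Hub : Finset V)
          (hub : ι → V) (A R : ι → Finset V) (φ g : ι → ℝ) (lam : V → ℝ),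
          Reg G k M K g0 es e9 η κ Hub hub A R φ g lam →
          ∃ (l : ι → ℝ) (P Bad : Finset V), (∀ i, 0 ≤ l i) ∧
            ∑ i, l i ≤ ∑ v ∈ P, (1 + lam v / t2) + e * Fintype.card V ∧
            (Bad.card : ℝ) ≤ e * Fintype.card V ∧
            ((P ∩ Hub).card : ℝ) ≤ e * Fintype.card V ∧
            ∀ i, hub i ∉ Bad → Guar e (g i) (φ i) (l i))
    (HI : ∀ (Z : Finset (Finset (Finset V))) (g φ l : Finset (Finset V) → ℝ) (d : ℝ), Z.Nonempty →
      (Z.card : ℝ) ≤ K →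
      (∀ i ∈ Z, d ≤ 1 + εa + ∑ j ∈ Z.erase i, g j) → (∀ i ∈ Z, g i + ∑ j ∈ Z, φ j ≤ 1 + εa) →
      (∀ i ∈ Z, 0 ≤ φ i) → (∀ i ∈ Z, s0 ≤ g i → 1 / 60 ≤ φ i) →
      (∀ i ∈ Z, g0 ≤ g i → 0 ≤ l i ∧ Guar e (g i) (φ i) (l i)) →
      d ≤ 2 * be + t2 * ∑ i ∈ Z.filter (fun i => g0 ≤ g i), l i + eB)
    (heB : 0 < eB)
    (final : 10 * (M + 1) * εa + eB + (M + 9) * e ≤ ε) :
    ∑ v, deg G v ≤ (2 * be + ε) * k * Fintype.card V := by
  have hk : 1 ≤ k := hG.one_le
  have hk0 : 0 < k := by linarith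
  have hdeg := hG.deg_le
  have hdeg' := hG.deg_ge
  have hV0 : (0 : ℝ) ≤ Fintype.card V := by positivity
  have ht2 := t2_pos
  -- number of touched clusters
  have hτ : ∀ x, ((tau G 𝒞 e1 x).card : ℝ) ≤ K := fun x =>
    (card_tau_le hk he1 hc0 hdeg hC.disj hC.size x).trans hK
  have hZc : ∀ x ∈ Gd, ((Z x).card : ℝ) ≤ K := fun x hx => by
    have := card_zones_le (hZ.ne x hx) (hZ.sub x hx) (hZ.dj x hx)
    have h2 : ((Z x).card : ℝ) ≤ (tau G 𝒞 e1 x).card := by exact_mod_cast this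
    exact h2.trans (hτ x)
  -- hubs
  set Hb : Finset V := Gd.filter fun x => 2 ≤ (Z x).card with hHb
  set Hub2 : Finset V := (Gd' ∩ Typ).filter fun x => 2 ≤ (Z x).card with hHub2
  set Low : Finset V := (Gd' ∩ Typ).filter fun x => (Z x).card ≤ 1 with hLow
  set Hub : Finset V := Hub2.filter fun x => ¬ es * k < dn G (Hb ∩ UU 𝒞) x with hHub
  have hHubHb : Hub ⊆ Hb := by
    intro x hx
    rw [hHub, mem_filter, hHub2, mem_filter, mem_inter] at hx
    rw [hHb, mem_filter]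
    exact ⟨hGd' hx.1.1.1, hx.1.2⟩
  have hXH : ∀ X, XX G k M X → ((X ∩ Hb).card : ℝ) ≤ κ1 * k := by
    intro X hX
    have h := rare1 hZ hk hM he1 hc0 hρ0 hC.disj hC.size f1 hX
    refine le_trans ?_ h
    exact_mod_cast card_le_card fun x hx => by
      rw [mem_inter, hHb, mem_filter] at hx
      rw [mem_filter]
      exact ⟨hx.1, hx.2⟩
  have hXHub : ∀ X, XX G k M X → ∀ R, R ⊆ X → ((R ∩ Hub).card : ℝ) ≤ κ1 * k := by
    intro X hX R hR
    refine le_trans ?_ (hXH X hX)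
    exact_mod_cast card_le_card (inter_subset_inter hR hHubHb)
  have hHbC : ((Hb ∩ UU 𝒞).card : ℝ) ≤ κ1 / c0 * Fintype.card V :=
    hub_in_clus hC hk hc0 hκ1 hXH
  have hf4 : κ1 / c0 ≤ εa := by rw [div_le_iff₀ hc0]; exact f4
  -- the exceptional hubs
  have hHubx : ((Hub2.filter fun x => es * k < dn G (Hb ∩ UU 𝒞) x).card : ℝ) ≤
      εa / 8 * Fintype.card V := by
    refine few_nb hk hes hdeg _ _ ?_
    have h1 : κ1 / c0 * M ≤ es * (εa / 8) := by
      rw [div_mul_eq_mul_div, div_le_iff₀ hc0]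
      linarith
    calc ((Hb ∩ UU 𝒞).card : ℝ) * M ≤ κ1 / c0 * Fintype.card V * M :=
          mul_le_mul_of_nonneg_right hHbC (by linarith)
      _ = κ1 / c0 * M * Fintype.card V := by ring
      _ ≤ es * (εa / 8) * Fintype.card V := mul_le_mul_of_nonneg_right h1 hV0
      _ = es * (εa / 8 * Fintype.card V) := by ring
  have hExc : ((univ \ (Hub ∪ Low)).card : ℝ) ≤ εa * Fintype.card V := by
    have hsub : univ \ (Hub ∪ Low) ⊆ (univ \ Typ) ∪ (univ \ Gd) ∪ (Gd \ Gd') ∪
        (Hub2.filter fun x => es * k < dn G (Hb ∩ UU 𝒞) x) := by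
      intro x hx
      rw [mem_sdiff, mem_union, not_or] at hx
      obtain ⟨-, hx1, hx2⟩ := hx
      simp only [mem_union, mem_sdiff, mem_univ, true_and, mem_filter]
      by_cases h1 : x ∈ Typ
      · by_cases h2 : x ∈ Gd
        · by_cases h3 : x ∈ Gd'
          · right
            have h4 : 2 ≤ (Z x).card := by
              by_contra h5
              apply hx2
              rw [hLow, mem_filter, mem_inter]
              exact ⟨⟨h3, h1⟩, by omega⟩
            have h6 : x ∈ Hub2 := by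
              rw [hHub2, mem_filter, mem_inter]; exact ⟨⟨h3, h1⟩, h4⟩
            refine ⟨h6, ?_⟩
            by_contra h7
            apply hx1
            rw [hHub, mem_filter]
            exact ⟨h6, h7⟩
          · left; right; exact ⟨h2, h3⟩
        · left; left; right; exact h2
      · left; left; left; exact h1
    have h1 : ((univ \ (Hub ∪ Low)).card : ℝ) ≤ ((univ \ Typ).card : ℝ) + (univ \ Gd).card +
        (Gd \ Gd').card + (Hub2.filter fun x => es * k < dn G (Hb ∩ UU 𝒞) x).card := by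
      have := card_le_card hsub
      have h2 := card_union_le ((univ \ Typ) ∪ (univ \ Gd) ∪ (Gd \ Gd'))
        (Hub2.filter fun x => es * k < dn G (Hb ∩ UU 𝒞) x)
      have h3 := card_union_le ((univ \ Typ) ∪ (univ \ Gd)) (Gd \ Gd')
      have h4 := card_union_le (univ \ Typ) (univ \ Gd)
      exact_mod_cast (by omega : (univ \ (Hub ∪ Low)).card ≤ (univ \ Typ).card + (univ \ Gd).card +
        (Gd \ Gd').card + (Hub2.filter fun x => es * k < dn G (Hb ∩ UU 𝒞) x).card)
    have h2 := hZ.few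
    have h3 : δ * Fintype.card V ≤ εa / 8 * Fintype.card V := mul_le_mul_of_nonneg_right a1 hV0
    have h4 : δ' * Fintype.card V ≤ εa / 8 * Fintype.card V := mul_le_mul_of_nonneg_right a7 hV0
    have h5 : εa / 8 * (Fintype.card V : ℝ) ≤ εa / 4 * Fintype.card V :=
      mul_le_mul_of_nonneg_right (by linarith) hV0
    linarith
  -- low vertices
  have hLowd : ∀ v ∈ Low, dhat G k e1 δ 𝒞 v ≤ (1 + εa) * k := by
    intro v hv
    rw [hLow, mem_filter, mem_inter] at hv
    refine struct_one hC (hL v hv.1.1) hdeg (hA0 v hv.1.2) hk hM he1 he1' hr hη hσ he4 hε2 hδ hεa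
      hεa1 (hτ v) hK1 a1 a2 a3 a4 a5 a6 hv.2 (fun h => hZ.qe v (hGd' hv.1.1) h)
  have hdisj : Disjoint Hub Low := by
    rw [disjoint_left]
    intro x hx hx'
    rw [hHub, mem_filter, hHub2, mem_filter] at hx
    rw [hLow, mem_filter] at hx'
    omega
  have hHubC : ((Hub ∩ UU 𝒞).card : ℝ) ≤ εa * Fintype.card V := by
    have h1 : ((Hub ∩ UU 𝒞).card : ℝ) ≤ (Hb ∩ UU 𝒞).card := by
      exact_mod_cast card_le_card (inter_subset_inter hHubHb (Subset.refl _))
    exact h1.trans (hHbC.trans (mul_le_mul_of_nonneg_right hf4 hV0))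
  have hacc := accounting hC hk hM he1 hδ (by linarith : δ ≤ εa) hdeg' hdeg hdisj hExc hLowd hHubC
  -- structure at hubs
  have hst : ∀ x ∈ Hub, ∃ (R : Finset (Finset V) → Finset V) (φ g : Finset (Finset V) → ℝ),
      (∀ D ∈ Z x, ∃ D' ∈ Z x, R D ⊆ XC x D') ∧
      (∀ D ∈ Z x, ((tb G (η * k) (R D)).card : ℝ) ≤ φ D * k) ∧
      (∀ D ∈ Z x, g D * k ≤ ((nb G (UU D) x ∩ R D).card : ℝ)) ∧
      (∀ D ∈ Z x, dhat G k e1 δ 𝒞 x ≤ (1 + εa) * k + (∑ D' ∈ (Z x).erase D, g D') * k) ∧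
      (∀ D ∈ Z x, g D + ∑ D' ∈ Z x, φ D' ≤ 1 + εa) := by
    intro x hx
    rw [hHub, mem_filter, hHub2, mem_filter, mem_inter] at hx
    exact struct_two hC (hL x hx.1.1.1) hdeg (hA0 x hx.1.1.2) hk hM he1 he1' hr hη hσ he4 hε2 hδ
      hεa hεa1 (hτ x) hK1 a1 a2 a3 a4 a5 a6 hx.1.2
  choose! R φ g s1 s2 s3 s4 s5 using hst
  have hHGd : ∀ x ∈ Hub, x ∈ Gd' := by
    intro x hx
    rw [hHub, mem_filter, hHub2, mem_filter, mem_inter] at hx
    exact hx.1.1.1
  have hH2 : ∀ x ∈ Hub, 2 ≤ (Z x).card := by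
    intro x hx
    rw [hHub, mem_filter, hHub2, mem_filter, mem_inter] at hx
    exact hx.1.2
  -- every region is contained in a small closed set
  have hRX : ∀ x ∈ Hub, ∀ D ∈ Z x, ∃ X, XX G k M X ∧ R x D ⊆ X := by
    intro x hx D hD
    obtain ⟨D', hD', hsub⟩ := s1 x hx D hD
    exact ⟨_, ((hL x (hHGd x hx)).cut D' hD').xx, hsub⟩
  have hφ60 : ∀ x ∈ Hub, ∀ D ∈ Z x, s0 ≤ g x D → 1 / 60 ≤ φ x D := by
    intro x hx D hD hgD
    obtain ⟨X, hX, hRX'⟩ := hRX x hx D hD
    have h1 : s0 * k ≤ (R x D).card := by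
      have h2 := s3 x hx D hD
      have h3 : ((nb G (UU D) x ∩ R x D).card : ℝ) ≤ (R x D).card := by
        exact_mod_cast card_le_card inter_subset_right
      have h4 : s0 * k ≤ g x D * k := mul_le_mul_of_nonneg_right hgD hk0.le
      linarith
    have h5 := thick_lower hG hM hη hs0 hε0 d1 hX hRX' h1
    have h6 := h5.trans (s2 x hx D hD)
    exact le_of_mul_le_mul_right h6 hk0
  -- the zones
  let ι : Type := {p : V × Finset (Finset V) // p.1 ∈ Hub ∧ p.2 ∈ Z p.1 ∧ g0 ≤ g p.1 p.2}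
  have hUUsub : ∀ x ∈ Hub, ∀ D ∈ Z x, UU D ⊆ UU (tau G 𝒞 e1 x) := by
    intro x hx D hD v hv
    rw [mem_UU] at hv ⊢
    obtain ⟨C, hC1, hC2⟩ := hv
    exact ⟨C, (hL x (hHGd x hx)).sub D hD hC1, hC2⟩
  have htauC : ∀ x, UU (tau G 𝒞 e1 x) ⊆ UU 𝒞 := by
    intro x v hv
    rw [mem_UU] at hv ⊢
    obtain ⟨C, hC1, hC2⟩ := hv
    exact ⟨C, (mem_tau.1 hC1).1, hC2⟩
  have hReg : Reg G k M K g0 es e9 η κ Hub (fun i : ι => i.1.1)
      (fun i => nb G (UU i.1.2) i.1.1) (fun i => R i.1.1 i.1.2) (fun i => φ i.1.1 i.1.2)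
      (fun i => g i.1.1 i.1.2) (lam G k e1 δ 𝒞) := by
    refine ⟨hk, hdeg, fun i => i.2.1, fun i => nb_mono G (subset_univ _) _, ?_, ?_, ?_, ?_, ?_,
      fun i => i.2.2.2, ?_, ?_, ?_, ?_, ?_, ?_⟩
    · -- perHub
      intro x
      by_cases hx : x ∈ Hub
      · refine le_trans ?_ (hZc x (hGd' (hHGd x hx)))
        have : (univ.filter fun i : ι => i.1.1 = x).card ≤ (Z x).card := by
          refine card_le_card_of_injOn (fun i => i.1.2) ?_ ?_
          · intro i hi
            simp only [coe_filter, mem_univ, true_and, Set.mem_setOf_eq] at hi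
            have := i.2.2.1
            rw [hi] at this
            exact this
          · intro i hi j hj hij
            simp only [coe_filter, mem_univ, true_and, Set.mem_setOf_eq] at hi hj
            apply Subtype.ext
            exact Prod.ext (hi.trans hj.symm) hij
        exact_mod_cast this
      · have : (univ.filter fun i : ι => i.1.1 = x) = ∅ := by
          rw [filter_eq_empty_iff]
          intro i _ hi
          exact hx (hi ▸ i.2.1)
        rw [this]; simp; linarith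
    · intro i; exact hRX _ i.2.1 _ i.2.2.1
    · intro i
      obtain ⟨X, hX, hRX'⟩ := hRX _ i.2.1 _ i.2.2.1
      refine (hXHub X hX _ hRX').trans ?_
      have : κ1 ≤ κ := by nlinarith
      exact mul_le_mul_of_nonneg_right this hk0.le
    · intro i; exact s2 _ i.2.1 _ i.2.2.1
    · intro i; exact s3 _ i.2.1 _ i.2.2.1
    · intro i; exact hφ60 _ i.2.1 _ i.2.2.1 (hs0g.trans i.2.2.2)
    · -- mult
      intro i
      obtain ⟨X, hX, hRX'⟩ := hRX _ i.2.1 _ i.2.2.1
      have hr2 := rare2 hZ hk hM he1 hc0 hρ0 hη hdeg hC.disj hC.size f2 hX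
      have hmain := mult_aux (ι := ι) (k := k) (K := K) (κ := κ1) (hub := fun j : ι => j.1.1)
        (Hub := Hub) (T := tb G (η * k) (R i.1.1 i.1.2)) (R := R i.1.1 i.1.2)
        (T3 := Gd.filter fun x => ∃ D ∈ Z x, ∃ D' ∈ Z x, D ≠ D' ∧
          η * k ≤ ((nb G (UU D) x ∩ X).card : ℝ) ∧ η * k ≤ ((nb G (UU D') x ∩ X).card : ℝ))
        (S := univ.filter fun j : ι => η * k ≤ ((nb G (UU j.1.2) j.1.1 ∩ R i.1.1 i.1.2).card : ℝ))
        (by linarith) ?_ (hXHub X hX _ hRX') hr2 ?_ ?_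
      · have h6 : (K + 2) * κ1 * k ≤ κ * k := mul_le_mul_of_nonneg_right f3 hk0.le
        linarith
      · intro j hj
        rw [mem_filter] at hj
        have h1 : η * k ≤ dn G (R i.1.1 i.1.2) j.1.1 := by
          refine hj.2.trans ?_
          unfold dn
          exact_mod_cast card_le_card fun v hv => by
            rw [mem_inter, mem_nb] at hv
            rw [mem_nb]
            exact ⟨hv.2, hv.1.2⟩
        rw [mem_union, mem_inter, mem_inter]
        by_cases h2 : j.1.1 ∈ R i.1.1 i.1.2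
        · right; exact ⟨h2, j.2.1⟩
        · left; exact ⟨mem_tb.2 ⟨h2, h1⟩, j.2.1⟩
      · intro x
        by_cases hx : x ∈ Hub
        · refine le_trans ?_ (hZc x (hGd' (hHGd x hx)))
          have : ((univ.filter fun j : ι => η * k ≤ ((nb G (UU j.1.2) j.1.1 ∩
              R i.1.1 i.1.2).card : ℝ)).filter fun j => j.1.1 = x).card ≤ (Z x).card := by
            refine card_le_card_of_injOn (fun i => i.1.2) ?_ ?_
            · intro j hj
              simp only [coe_filter, mem_filter, mem_univ, true_and, Set.mem_setOf_eq] at hj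
              have := j.2.2.1
              rw [hj.2] at this
              exact this
            · intro j hj j' hj' hij
              simp only [coe_filter, mem_filter, mem_univ, true_and, Set.mem_setOf_eq] at hj hj'
              apply Subtype.ext
              exact Prod.ext (hj.2.trans hj'.2.symm) hij
          exact_mod_cast this
        · have : ((univ.filter fun j : ι => η * k ≤ ((nb G (UU j.1.2) j.1.1 ∩
              R i.1.1 i.1.2).card : ℝ)).filter fun j => j.1.1 = x) = ∅ := by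
            rw [filter_eq_empty_iff]
            intro j _ hj
            exact hx (hj ▸ j.2.1)
          rw [this]; simp; linarith
      · intro x hx
        have h1 : ((univ.filter fun j : ι => η * k ≤ ((nb G (UU j.1.2) j.1.1 ∩
              R i.1.1 i.1.2).card : ℝ)).filter fun j => j.1.1 = x).card ≤ 1 := by
          rw [card_le_one]
          intro j hj j' hj'
          rw [mem_filter, mem_filter] at hj hj'
          by_contra hne
          apply hx
          rw [mem_filter]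
          have hxH : x ∈ Hub := hj.2 ▸ j.2.1
          refine ⟨hGd' (hHGd x hxH), j.1.2, ?_, j'.1.2, ?_, ?_, ?_, ?_⟩
          · have := j.2.2.1; rw [hj.2] at this; exact this
          · have := j'.2.2.1; rw [hj'.2] at this; exact this
          · intro h
            apply hne
            apply Subtype.ext
            exact Prod.ext (hj.2.trans hj'.2.symm) h
          · refine hj.1.2.trans ?_
            rw [hj.2]
            exact_mod_cast card_le_card (inter_subset_inter (Subset.refl _) hRX')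
          · refine hj'.1.2.trans ?_
            rw [hj'.2]
            exact_mod_cast card_le_card (inter_subset_inter (Subset.refl _) hRX')
        exact_mod_cast h1
    · -- AHub
      intro i
      have hx : ¬ es * k < dn G (Hb ∩ UU 𝒞) i.1.1 := (mem_filter.1 i.2.1).2
      refine le_trans ?_ (not_lt.1 hx)
      unfold dn
      exact_mod_cast card_le_card fun v hv => by
        rw [mem_inter, mem_nb] at hv
        rw [mem_nb, mem_inter]
        exact ⟨⟨hHubHb hv.2, htauC _ (hUUsub _ i.2.1 _ i.2.2.1 hv.1.1)⟩, hv.1.2⟩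
    · exact lam_nonneg hC
    · exact lam_le hC hk hdeg'
    · intro i P U hU hUP hUc hdr
      exact geometry hC hk hM he1 he1' hr hc0 hδ hη hes he9 hdeg' hdeg b1 b2 b3
        (nb_mono G (hUUsub _ i.2.1 _ i.2.2.1) _) (s2 _ i.2.1 _ i.2.2.1) hU hUP hUc hdr
  obtain ⟨l, P, Bad, hl0, hsum, hBad, hPH, hguar⟩ := RG ι Hub _ _ _ _ _ _ hReg
  -- payments as a function of (x, D)
  let L : V → Finset (Finset V) → ℝ := fun x D =>
    if h : x ∈ Hub ∧ D ∈ Z x ∧ g0 ≤ g x D then l ⟨(x, D), h⟩ else 0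
  have hL0 : ∀ x D, 0 ≤ L x D := by
    intro x D
    simp only [L]
    split_ifs with h
    · exact hl0 _
    · exact le_rfl
  have hLsum : ∑ x ∈ Hub, ∑ D ∈ (Z x).filter (fun D => g0 ≤ g x D), L x D ≤ ∑ i, l i := by
    rw [sum_sigma']
    rw [show ∑ i, l i = ∑ i ∈ (univ : Finset ι), L i.1.1 i.1.2 from
      sum_congr rfl fun i _ => by simp only [L]; rw [dif_pos i.2]]
    refine le_of_eq ?_
    refine sum_bij' (fun p hp => (⟨(p.1, p.2), (mem_sigma.1 hp).1,
        (mem_filter.1 (mem_sigma.1 hp).2).1, (mem_filter.1 (mem_sigma.1 hp).2).2⟩ : ι))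
      (fun i _ => ⟨i.1.1, i.1.2⟩) ?_ ?_ ?_ ?_ ?_
    · intro p hp; exact mem_univ _
    · intro i _; exact mem_sigma.2 ⟨i.2.1, mem_filter.2 ⟨i.2.2.1, i.2.2.2⟩⟩
    · intro p hp; rfl
    · intro i hi; rfl
    · intro p hp; rfl
  -- hubs which are not bad
  have hgood : ∀ x ∈ Hub, x ∉ Bad → max 0 (dhat G k e1 δ 𝒞 x - 2 * be * k) ≤
      t2 * k * ∑ D ∈ (Z x).filter (fun D => g0 ≤ g x D), L x D + eB * k := by
    intro x hx hxB
    have hne : (Z x).Nonempty := card_pos.1 (by have := hH2 x hx; omega)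
    have h1 := HI (Z x) (g x) (φ x) (L x) (dhat G k e1 δ 𝒞 x / k) hne
      (hZc x (hGd' (hHGd x hx))) ?_ (s5 x hx) ?_ (hφ60 x hx) ?_
    · have h2 : 0 ≤ ∑ D ∈ (Z x).filter (fun D => g0 ≤ g x D), L x D :=
        sum_nonneg fun D _ => hL0 x D
      apply max_le
      · positivity
      · rw [div_le_iff₀ hk0] at h1
        nlinarith
    · intro D hD
      rw [div_le_iff₀ hk0]
      have := s4 x hx D hD
      linarith
    · intro D hD
      have h3 := s2 x hx D hD
      have h4 : (0 : ℝ) ≤ (tb G (η * k) (R x D)).card := by positivity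
      have h5 : 0 * k ≤ φ x D * k := by linarith
      exact le_of_mul_le_mul_right h5 hk0
    · intro D hD hgD
      refine ⟨hL0 x D, ?_⟩
      have h : x ∈ Hub ∧ D ∈ Z x ∧ g0 ≤ g x D := ⟨hx, hD, hgD⟩
      simp only [L]
      rw [dif_pos h]
      exact hguar ⟨(x, D), h⟩ hxB
  have hbad : ∀ x, max 0 (dhat G k e1 δ 𝒞 x - 2 * be * k) ≤ M * k := by
    intro x
    have h1 := dhat_le_deg G k e1 δ 𝒞 x
    have h2 := hdeg x
    have h3 := be_lo
    apply max_le
    · positivity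
    · nlinarith
  have hHsum : ∑ v ∈ Hub, max 0 (dhat G k e1 δ 𝒞 v - 2 * be * k) ≤
      t2 * k * ∑ i, l i + eB * k * Fintype.card V + M * k * (e * Fintype.card V) := by
    have h1 : ∑ v ∈ Hub, max 0 (dhat G k e1 δ 𝒞 v - 2 * be * k) ≤
        ∑ v ∈ Hub, (t2 * k * ∑ D ∈ (Z v).filter (fun D => g0 ≤ g v D), L v D + eB * k +
          if v ∈ Bad then M * k else 0) := by
      refine sum_le_sum fun v hv => ?_
      have h2 : 0 ≤ ∑ D ∈ (Z v).filter (fun D => g0 ≤ g v D), L v D :=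
        sum_nonneg fun D _ => hL0 v D
      split_ifs with hvB
      · have := hbad v
        have h3 : 0 ≤ t2 * k * ∑ D ∈ (Z v).filter (fun D => g0 ≤ g v D), L v D := by positivity
        have h4 : 0 ≤ eB * k := by positivity
        linarith
      · have := hgood v hv hvB
        linarith
    refine h1.trans ?_
    rw [sum_add_distrib, sum_add_distrib, ← mul_sum]
    have h3 : ∑ v ∈ Hub, (if v ∈ Bad then M * k else 0) ≤ M * k * (e * Fintype.card V) := by
      rw [← sum_filter, sum_const, nsmul_eq_mul]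
      have h4 : ((Hub.filter fun v => v ∈ Bad).card : ℝ) ≤ e * Fintype.card V := by
        refine le_trans ?_ hBad
        exact_mod_cast card_le_card fun v hv => (mem_filter.1 hv).2
      calc ((Hub.filter fun v => v ∈ Bad).card : ℝ) * (M * k) ≤ e * Fintype.card V * (M * k) :=
            mul_le_mul_of_nonneg_right h4 (by positivity)
        _ = M * k * (e * Fintype.card V) := by ring
    have h5 : ∑ v ∈ Hub, eB * k ≤ eB * k * Fintype.card V := by
      rw [sum_const, nsmul_eq_mul, mul_comm]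
      refine mul_le_mul_of_nonneg_left ?_ (by positivity)
      exact_mod_cast card_le_univ _
    have h6 : t2 * k * ∑ v ∈ Hub, ∑ D ∈ (Z v).filter (fun D => g0 ≤ g v D), L v D ≤
        t2 * k * ∑ i, l i := mul_le_mul_of_nonneg_left hLsum (by positivity)
    linarith
  -- supply
  have hlam1 := lam_le hC hk hdeg'
  have hlam0 := lam_nonneg hC
  have hsup : ∑ v ∈ P, (1 + lam G k e1 δ 𝒞 v / t2) ≤
      ∑ v ∈ univ \ Hub, (1 + lam G k e1 δ 𝒞 v / t2) + 8 * (e * Fintype.card V) := by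
    have h1 : ∑ v ∈ P, (1 + lam G k e1 δ 𝒞 v / t2) =
        ∑ v ∈ P \ Hub, (1 + lam G k e1 δ 𝒞 v / t2) +
        ∑ v ∈ P ∩ Hub, (1 + lam G k e1 δ 𝒞 v / t2) := by
      rw [← sum_union (disjoint_sdiff_inter P Hub), sdiff_union_inter]
    have h2 : ∑ v ∈ P \ Hub, (1 + lam G k e1 δ 𝒞 v / t2) ≤
        ∑ v ∈ univ \ Hub, (1 + lam G k e1 δ 𝒞 v / t2) := by
      refine sum_le_sum_of_subset_of_nonneg (sdiff_subset_sdiff (subset_univ _) (Subset.refl _)) ?_
      intro v _ _
      have := hlam0 v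
      positivity
    have h3 : ∑ v ∈ P ∩ Hub, (1 + lam G k e1 δ 𝒞 v / t2) ≤ ∑ v ∈ P ∩ Hub, (8 : ℝ) := by
      refine sum_le_sum fun v _ => ?_
      have h4 : lam G k e1 δ 𝒞 v / t2 ≤ 7 := by
        rw [div_le_iff₀ ht2]
        have := hlam1 v
        linarith [be_lo, t2_lo]
      linarith
    rw [sum_const, nsmul_eq_mul] at h3
    have h5 : ((P ∩ Hub).card : ℝ) * 8 ≤ 8 * (e * Fintype.card V) := by linarith
    linarith
  have hfin : t2 * k * ∑ i, l i ≤ t2 * k * ∑ v ∈ univ \ Hub, (1 + lam G k e1 δ 𝒞 v / t2) +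
      9 * e * k * Fintype.card V := by
    have h1 : t2 * k * ∑ i, l i ≤ t2 * k * (∑ v ∈ univ \ Hub, (1 + lam G k e1 δ 𝒞 v / t2) +
        9 * (e * Fintype.card V)) :=
      mul_le_mul_of_nonneg_left (by linarith) (by positivity)
    have h2 : t2 * k * (9 * (e * Fintype.card V)) ≤ 9 * e * k * Fintype.card V := by
      have h3 : t2 ≤ 1 := by linarith [t2_hi]
      have h4 : 0 ≤ k * (9 * (e * Fintype.card V)) := by positivity
      calc t2 * k * (9 * (e * Fintype.card V)) = t2 * (k * (9 * (e * Fintype.card V))) := by ring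
        _ ≤ 1 * (k * (9 * (e * Fintype.card V))) := mul_le_mul_of_nonneg_right h3 h4
        _ = 9 * e * k * Fintype.card V := by ring
    linarith
  have hkV : 0 ≤ k * (Fintype.card V : ℝ) := by positivity
  have hend : (10 * (M + 1) * εa + eB + (M + 9) * e) * (k * Fintype.card V) ≤
      ε * (k * Fintype.card V) := mul_le_mul_of_nonneg_right final hkV
  nlinarith

end LKU
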