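import Pool.Agent.LKU.Num

set_option autoImplicit false
set_option linter.unusedSectionVars false

/-!
# LKU, Part B (clusters), file 1: the maximal family and the energy increment
-/

open scoped Classical

noncomputable section

namespace LKU

open Finset

variable {V : Type} [Fintype V]

/-- a maximal family of disjoint large subsets of small closed sets -/
theorem B_max (G : SimpleGraph V) (k M eb : ℝ) (h : 0 < eb * k) :
    ∃ 𝓑 : Finset (Finset V), (∀ B ∈ 𝓑, ∀ B' ∈ 𝓑, B ≠ B' → Disjoint B B') ∧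
      (∀ B ∈ 𝓑, eb * k ≤ B.card) ∧ (∀ B ∈ 𝓑, ∃ X, XX G k M X ∧ B ⊆ X) ∧
      ∀ X, XX G k M X → ((X \ UU 𝓑).card : ℝ) < eb * k := by
  let p : Finset (Finset V) → Prop := fun 𝓑 =>
    (∀ B ∈ 𝓑, ∀ B' ∈ 𝓑, B ≠ B' → Disjoint B B') ∧
      (∀ B ∈ 𝓑, eb * k ≤ B.card) ∧ (∀ B ∈ 𝓑, ∃ X, XX G k M X ∧ B ⊆ X)
  have h0 : ((univ : Finset (Finset (Finset V))).filter p).Nonempty := ⟨∅, by simp [p]⟩
  obtain ⟨𝓑, h𝓑, hmax⟩ := exists_max_image _ (fun 𝓑 => 𝓑.card) h0
  have hp : p 𝓑 := (mem_filter.1 h𝓑).2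
  refine ⟨𝓑, hp.1, hp.2.1, hp.2.2, ?_⟩
  intro X hX
  by_contra hcon
  push Not at hcon
  set B := X \ UU 𝓑 with hB
  have hBne : B.Nonempty := by
    rw [← card_pos]
    have : (0 : ℝ) < B.card := lt_of_lt_of_le h hcon
    exact_mod_cast this
  have hBd : ∀ B' ∈ 𝓑, Disjoint B B' := by
    intro B' hB'
    rw [disjoint_left]
    intro v hv hv'
    rw [hB, mem_sdiff] at hv
    exact hv.2 (mem_UU.2 ⟨B', hB', hv'⟩)
  have hBn : B ∉ 𝓑 := by
    intro hmem
    have := hBd B hmem
    rw [disjoint_self_iff_empty] at this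
    exact hBne.ne_empty this
  have hp' : p (insert B 𝓑) := by
    refine ⟨?_, ?_, ?_⟩
    · intro B1 h1 B2 h2 hne
      rcases mem_insert.1 h1 with h1 | h1
      · rcases mem_insert.1 h2 with h2 | h2
        · exact absurd (h1.trans h2.symm) hne
        · rw [h1]; exact hBd _ h2
      · rcases mem_insert.1 h2 with h2 | h2
        · rw [h2]; exact (hBd _ h1).symm
        · exact hp.1 _ h1 _ h2 hne
    · intro B1 h1
      rcases mem_insert.1 h1 with h1 | h1
      · rw [h1]; exact hcon
      · exact hp.2.1 _ h1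
    · intro B1 h1
      rcases mem_insert.1 h1 with h1 | h1
      · rw [h1]; exact ⟨X, hX, sdiff_subset⟩
      · exact hp.2.2 _ h1
  have := hmax (insert B 𝓑) (mem_filter.2 ⟨mem_univ _, hp'⟩)
  rw [card_insert_of_notMem hBn] at this
  omega

/-- number of members of the family touched by the vertices -/
theorem B_touch {G : SimpleGraph V} {k M eb : ℝ} (hk : 1 ≤ k) (hM : 1 ≤ M) (heb : 0 < eb)
    {𝓑 : Finset (Finset V)} (hd : ∀ B ∈ 𝓑, ∀ B' ∈ 𝓑, B ≠ B' → Disjoint B B')
    (hs : ∀ B ∈ 𝓑, eb * k ≤ B.card) (hX : ∀ B ∈ 𝓑, ∃ X, XX G k M X ∧ B ⊆ X) :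
    ∑ x, ((𝓑.filter fun B => (nb G B x).Nonempty).card : ℝ) ≤
      (M + 2) / eb * Fintype.card V := by
  have h1 : ∑ x, ((𝓑.filter fun B => (nb G B x).Nonempty).card : ℝ) =
      ∑ B ∈ 𝓑, ((univ.filter fun x => (nb G B x).Nonempty).card : ℝ) := by
    have : ∀ x, ((𝓑.filter fun B => (nb G B x).Nonempty).card : ℝ) =
        ∑ B ∈ 𝓑, if (nb G B x).Nonempty then (1 : ℝ) else 0 := by
      intro x
      rw [card_filter]; push_cast; rfl
    simp_rw [this]
    rw [sum_comm]
    refine sum_congr rfl fun B _ => ?_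
    rw [card_filter]; push_cast; rfl
  rw [h1]
  have h2 : ∀ B ∈ 𝓑, ((univ.filter fun x => (nb G B x).Nonempty).card : ℝ) ≤ (M + 2) * k := by
    intro B hB
    obtain ⟨X, hXX, hBX⟩ := hX B hB
    refine le_trans ?_ (card_union_bd_le hk hXX)
    have : (univ.filter fun x => (nb G B x).Nonempty) ⊆ X ∪ bd G X := by
      intro x hx
      obtain ⟨v, hv⟩ := (mem_filter.1 hx).2
      rw [mem_nb] at hv
      by_cases hxX : x ∈ X
      · exact mem_union_left _ hxX
      · exact mem_union_right _ (mem_bd.2 ⟨hxX, v, hBX hv.1, hv.2⟩)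
    exact_mod_cast card_le_card this
  have h3 : (𝓑.card : ℝ) * (eb * k) ≤ Fintype.card V := by
    have h4 : ∑ B ∈ 𝓑, (eb * k) ≤ ∑ B ∈ 𝓑, (B.card : ℝ) := sum_le_sum hs
    rw [sum_const, nsmul_eq_mul] at h4
    exact h4.trans (sum_card_univ_le hd)
  calc ∑ B ∈ 𝓑, ((univ.filter fun x => (nb G B x).Nonempty).card : ℝ)
      ≤ ∑ B ∈ 𝓑, ((M + 2) * k) := sum_le_sum h2
    _ = (𝓑.card : ℝ) * ((M + 2) * k) := by rw [sum_const, nsmul_eq_mul]
    _ = (M + 2) / eb * ((𝓑.card : ℝ) * (eb * k)) := by field_simp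
    _ ≤ (M + 2) / eb * Fintype.card V := mul_le_mul_of_nonneg_left h3 (by positivity)

/-- energy of a set -/
def en (G : SimpleGraph V) (P : Finset V) : ℝ := ∑ z, (dn G P z) ^ 2 / P.card

/-- irregularity of `P` with respect to `S` -/
def irr (G : SimpleGraph V) (P S : Finset V) : ℝ :=
  ∑ z, (dn G (P ∩ S) z - dn G P z / P.card * ((P ∩ S).card : ℝ)) ^ 2 / P.card

theorem irr_nonneg (G : SimpleGraph V) (P S : Finset V) : 0 ≤ irr G P S := by
  unfold irr; exact sum_nonneg fun z _ => by positivity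

theorem en_nonneg (G : SimpleGraph V) (P : Finset V) : 0 ≤ en G P := by
  unfold en; exact sum_nonneg fun z _ => by positivity

theorem dn_split (G : SimpleGraph V) (P S : Finset V) (z : V) :
    dn G P z = dn G (P ∩ S) z + dn G (P \ S) z := by
  unfold dn nb
  have h : (P.filter fun v => G.Adj z v).card =
      ((P ∩ S).filter fun v => G.Adj z v).card + ((P \ S).filter fun v => G.Adj z v).card := by
    rw [← card_union_of_disjoint]
    · rw [← filter_union]
      congr 1
      rw [union_comm, sdiff_union_inter]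
    · exact disjoint_filter_filter (disjoint_sdiff_inter P S).symm
  exact_mod_cast h

theorem split_num (a b d1 d2 : ℝ) (ha : 0 ≤ a) (hb : 0 ≤ b) (h1 : a = 0 → d1 = 0)
    (h2 : b = 0 → d2 = 0) :
    (d1 + d2) ^ 2 / (a + b) + (d1 - (d1 + d2) / (a + b) * a) ^ 2 / (a + b) ≤
      d1 ^ 2 / a + d2 ^ 2 / b := by
  rcases ha.eq_or_lt with ha0 | ha0
  · have := h1 ha0.symm
    subst this
    rw [← ha0]; simp
  · rcases hb.eq_or_lt with hb0 | hb0
    · have := h2 hb0.symm
      subst this
      rw [← hb0]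
      simp only [add_zero]
      rw [div_mul_cancel₀ _ ha0.ne']
      simp
    · have hc : 0 < a + b := by linarith
      have e1 : d1 ^ 2 / a + d2 ^ 2 / b - (d1 + d2) ^ 2 / (a + b) =
          (b * d1 - a * d2) ^ 2 / (a * b * (a + b)) := by
        field_simp
        ring
      have e2 : (d1 - (d1 + d2) / (a + b) * a) ^ 2 / (a + b) =
          (b * d1 - a * d2) ^ 2 / ((a + b) ^ 2 * (a + b)) := by
        field_simp
        ring
      have e3 : (b * d1 - a * d2) ^ 2 / ((a + b) ^ 2 * (a + b)) ≤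
          (b * d1 - a * d2) ^ 2 / (a * b * (a + b)) := by
        apply div_le_div_of_nonneg_left (by positivity) (by positivity)
        apply mul_le_mul_of_nonneg_right _ hc.le
        nlinarith [mul_pos ha0 hb0]
      rw [e2]
      linarith

theorem en_split (G : SimpleGraph V) (P S : Finset V) :
    en G P + irr G P S ≤ en G (P ∩ S) + en G (P \ S) := by
  unfold en irr
  rw [← sum_add_distrib, ← sum_add_distrib]
  refine sum_le_sum fun z _ => ?_
  have hd := dn_split G P S z
  have hc : (P.card : ℝ) = ((P ∩ S).card : ℝ) + ((P \ S).card : ℝ) := by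
    have := card_inter_add_card_sdiff P S
    exact_mod_cast this.symm
  have h1 : ((P ∩ S).card : ℝ) = 0 → dn G (P ∩ S) z = 0 := by
    intro h
    have := dn_le_card G (P ∩ S) z
    have := dn_nonneg G (P ∩ S) z
    linarith
  have h2 : ((P \ S).card : ℝ) = 0 → dn G (P \ S) z = 0 := by
    intro h
    have := dn_le_card G (P \ S) z
    have := dn_nonneg G (P \ S) z
    linarith
  have := split_num ((P ∩ S).card : ℝ) ((P \ S).card : ℝ) (dn G (P ∩ S) z) (dn G (P \ S) z)
    (by positivity) (by positivity) h1 h2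
  rw [← hd, ← hc] at this
  exact this

theorem en_le (G : SimpleGraph V) (P : Finset V) : en G P ≤ ∑ v ∈ P, deg G v := by
  have h : ∑ v ∈ P, deg G v = ∑ z, dn G P z := by
    unfold deg
    rw [sum_dn_comm]
  rw [h]
  unfold en
  refine sum_le_sum fun z _ => ?_
  rcases (Nat.cast_nonneg P.card : (0 : ℝ) ≤ P.card).eq_or_lt with h0 | h0
  · rw [← h0]; simp [dn_nonneg]
  · rw [div_le_iff₀ h0, sq]
    exact mul_le_mul_of_nonneg_left (dn_le_card G P z) (dn_nonneg G P z)

/-- `Q` refines `P` and has at most `n` members -/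
def Ref {ι : Type} (P : ι → Finset V) (n : ℕ) {κ : Type} [Fintype κ] (Q : κ → Finset V) : Prop :=
  (∀ i j, i ≠ j → Disjoint (Q i) (Q j)) ∧ Fintype.card κ ≤ n ∧ (∀ j, ∃ i, Q j ⊆ P i) ∧
    ∀ i, ∀ v ∈ P i, ∃ j, v ∈ Q j

theorem sum_deg_le {G : SimpleGraph V} {D : ℝ} (hdeg : ∀ v, deg G v ≤ D) {κ : Type} [Fintype κ]
    (Q : κ → Finset V) (hQ : ∀ i j, i ≠ j → Disjoint (Q i) (Q j)) (hD : 0 ≤ D) :
    ∑ j, ∑ v ∈ Q j, deg G v ≤ D * Fintype.card V := by
  have h1 : ∑ j, ∑ v ∈ Q j, deg G v = ∑ v ∈ univ.biUnion Q, deg G v := by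
    rw [sum_biUnion]
    intro i _ j _ hij
    exact hQ i j hij
  rw [h1]
  calc ∑ v ∈ univ.biUnion Q, deg G v ≤ ∑ v ∈ univ.biUnion Q, D := sum_le_sum fun v _ => hdeg v
    _ = ((univ.biUnion Q).card : ℝ) * D := by rw [sum_const, nsmul_eq_mul]
    _ ≤ (Fintype.card V : ℝ) * D := by
        apply mul_le_mul_of_nonneg_right _ hD
        exact_mod_cast card_le_univ _
    _ = _ := mul_comm _ _

theorem B_iter {G : SimpleGraph V} {D γ : ℝ} (hdeg : ∀ v, deg G v ≤ D) (hD : 0 ≤ D)
    {ι : Type} [Fintype ι] (P : ι → Finset V) (hP : ∀ i j, i ≠ j → Disjoint (P i) (P j))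
    (I : ℕ) (hI : D * Fintype.card V < I * γ) :
    ∃ (κ : Type) (_ : Fintype κ) (Q : κ → Finset V), Ref P (2 ^ I * Fintype.card ι) Q ∧
      ∀ S, ∑ j, irr G (Q j) S ≤ γ := by
  have key : ∀ n : ℕ, (∃ (κ : Type) (_ : Fintype κ) (Q : κ → Finset V),
      Ref P (2 ^ n * Fintype.card ι) Q ∧ ∀ S, ∑ j, irr G (Q j) S ≤ γ) ∨
      (∃ (κ : Type) (_ : Fintype κ) (Q : κ → Finset V),
      Ref P (2 ^ n * Fintype.card ι) Q ∧ n * γ ≤ ∑ j, en G (Q j)) := by
    intro n
    induction n with
    | zero =>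
      right
      refine ⟨ι, inferInstance, P, ⟨hP, by simp, fun j => ⟨j, Subset.refl _⟩,
        fun i v hv => ⟨i, hv⟩⟩, ?_⟩
      simp only [Nat.cast_zero, zero_mul]
      exact sum_nonneg fun j _ => en_nonneg G _
    | succ n ih =>
      rcases ih with ⟨κ, hκ, Q, hQ, hS⟩ | ⟨κ, hκ, Q, hQ, hE⟩
      · left
        refine ⟨κ, hκ, Q, ⟨hQ.1, hQ.2.1.trans ?_, hQ.2.2⟩, hS⟩
        apply Nat.mul_le_mul_right
        exact Nat.pow_le_pow_right (by norm_num) (by omega)
      · by_cases hS : ∀ S, ∑ j, irr G (Q j) S ≤ γ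
        · left
          refine ⟨κ, hκ, Q, ⟨hQ.1, hQ.2.1.trans ?_, hQ.2.2⟩, hS⟩
          apply Nat.mul_le_mul_right
          exact Nat.pow_le_pow_right (by norm_num) (by omega)
        · right
          push Not at hS
          obtain ⟨S, hS⟩ := hS
          refine ⟨κ × Bool, inferInstance, fun p => if p.2 then Q p.1 ∩ S else Q p.1 \ S,
            ⟨?_, ?_, ?_, ?_⟩, ?_⟩
          · rintro ⟨i, a⟩ ⟨j, b⟩ hij
            by_cases hij' : i = j
            · subst hij'
              have hab : a ≠ b := fun h => hij (by rw [h])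
              cases a <;> cases b <;> simp_all
              · exact (disjoint_sdiff_inter _ _)
              · exact (disjoint_sdiff_inter _ _).symm
            · have := hQ.1 i j hij'
              refine this.mono ?_ ?_
              · dsimp only; split_ifs
                · exact inter_subset_left
                · exact sdiff_subset
              · dsimp only; split_ifs
                · exact inter_subset_left
                · exact sdiff_subset
          · rw [Fintype.card_prod, Fintype.card_bool, pow_succ]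
            have := hQ.2.1
            nlinarith
          · rintro ⟨j, a⟩
            obtain ⟨i, hi⟩ := hQ.2.2.1 j
            refine ⟨i, Subset.trans ?_ hi⟩
            dsimp only; split_ifs
            · exact inter_subset_left
            · exact sdiff_subset
          · intro i v hv
            obtain ⟨j, hj⟩ := hQ.2.2.2 i v hv
            by_cases hvS : v ∈ S
            · exact ⟨(j, true), by simp [hj, hvS]⟩
            · exact ⟨(j, false), by simp [hj, hvS]⟩
          · rw [Fintype.sum_prod_type]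
            have h1 : ∑ j, (en G (Q j) + irr G (Q j) S) ≤
                ∑ x, ∑ y : Bool, en G (if y then Q x ∩ S else Q x \ S) := by
              refine sum_le_sum fun j _ => ?_
              rw [Fintype.sum_bool]
              simpa using en_split G (Q j) S
            rw [sum_add_distrib] at h1
            push_cast
            have : ((n : ℝ) + 1) * γ = n * γ + γ := by ring
            rw [this]
            linarith
  rcases key I with h | ⟨κ, hκ, Q, hQ, hE⟩
  · exact h
  · exfalso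
    have h1 : ∑ j, en G (Q j) ≤ ∑ j, ∑ v ∈ Q j, deg G v := sum_le_sum fun j _ => en_le G _
    have h2 := sum_deg_le hdeg Q hQ.1 hD
    linarith

/-- the irregular members are small -/
theorem B_irr {G : SimpleGraph V} {k r γ : ℝ} (hk : 1 ≤ k) (hr : 0 < r) {κ : Type} [Fintype κ]
    (Q : κ → Finset V) (hQ : ∀ i j, i ≠ j → Disjoint (Q i) (Q j))
    (h : ∀ S, ∑ j, irr G (Q j) S ≤ γ) :
    r ^ 3 * k * ∑ j ∈ univ.filter (fun j => ¬ Rg G k r (Q j)), ((Q j).card : ℝ) ≤ γ := by
  have hex : ∀ j, ∃ C' ⊆ Q j, ¬ Rg G k r (Q j) → r * k < ((univ.filter fun z =>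
      r * (Q j).card ≤ |dn G C' z - dn G (Q j) z / (Q j).card * C'.card|).card : ℝ) := by
    intro j
    by_cases hj : Rg G k r (Q j)
    · exact ⟨∅, empty_subset _, fun h => absurd hj h⟩
    · have hj' := hj
      unfold Rg at hj'
      push Not at hj'
      obtain ⟨C', hC', hlt⟩ := hj'
      exact ⟨C', hC', fun _ => hlt⟩
  choose C' hC' hlt using hex
  set S := univ.biUnion C' with hS
  have hint : ∀ j, Q j ∩ S = C' j := by
    intro j
    ext v
    rw [mem_inter, hS, mem_biUnion]
    constructor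
    · rintro ⟨hv, i, _, hi⟩
      by_cases hij : i = j
      · rw [← hij]; exact hi
      · exact absurd hv (disjoint_left.1 (hQ i j hij) (hC' i hi))
    · intro hv
      exact ⟨hC' j hv, j, mem_univ _, hv⟩
  refine le_trans ?_ (h S)
  rw [mul_sum]
  refine le_trans (sum_le_sum (f := fun j => r ^ 3 * k * ((Q j).card : ℝ))
    (g := fun j => irr G (Q j) S) ?_)
    (sum_le_sum_of_subset_of_nonneg (filter_subset _ _) fun j _ _ => irr_nonneg _ _ _)
  intro j hj
  have hj := (mem_filter.1 hj).2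
  have hl := hlt j hj
  rcases (Nat.cast_nonneg (Q j).card : (0 : ℝ) ≤ (Q j).card).eq_or_lt with h0 | h0
  · rw [← h0, mul_zero]; exact irr_nonneg _ _ _
  · unfold irr
    rw [hint]
    set F := univ.filter fun z =>
      r * (Q j).card ≤ |dn G (C' j) z - dn G (Q j) z / (Q j).card * (C' j).card| with hF
    calc r ^ 3 * k * ((Q j).card : ℝ) = (r * k) * (r ^ 2 * (Q j).card) := by ring
      _ ≤ (F.card : ℝ) * (r ^ 2 * (Q j).card) := by
          apply mul_le_mul_of_nonneg_right hl.le (by positivity)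
      _ = ∑ z ∈ F, (r ^ 2 * ((Q j).card : ℝ)) := by rw [sum_const, nsmul_eq_mul]
      _ ≤ ∑ z ∈ F, (dn G (C' j) z - dn G (Q j) z / (Q j).card * ((C' j).card : ℝ)) ^ 2 /
          (Q j).card := by
          refine sum_le_sum fun z hz => ?_
          have hz := (mem_filter.1 hz).2
          rw [le_div_iff₀ h0]
          have h1 : (r * (Q j).card) ^ 2 ≤
              |dn G (C' j) z - dn G (Q j) z / (Q j).card * (C' j).card| ^ 2 :=
            pow_le_pow_left₀ (by positivity) hz 2
          rw [sq_abs] at h1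
          calc r ^ 2 * ((Q j).card : ℝ) * (Q j).card = (r * (Q j).card) ^ 2 := by ring
            _ ≤ _ := h1
      _ ≤ _ := sum_le_sum_of_subset_of_nonneg (filter_subset _ _) fun j _ _ => by positivity

end LKU
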