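import Pool.Agent.LKU.B1

set_option autoImplicit false
set_option linter.unusedSectionVars false

/-!
# LKU, Part B (clusters), file 2: assembly
-/

open scoped Classical

noncomputable section

namespace LKU

open Finset

variable {V : Type} [Fintype V]

/-- the thin neighbours of `x` -/
theorem B_thin {G : SimpleGraph V} {k M e1 : ℝ} (he1 : 0 < e1)
    {𝓑 : Finset (Finset V)} (hBM : ∀ B ∈ 𝓑, (B.card : ℝ) ≤ M * k) {κ : Type} [Fintype κ]
    (Q : κ → Finset V) (hQ : ∀ i j, i ≠ j → Disjoint (Q i) (Q j))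
    (hsub : ∀ j, ∃ B ∈ 𝓑, Q j ⊆ B) (x : V) :
    ∑ j ∈ univ.filter (fun j => dn G (Q j) x < e1 * (Q j).card), dn G (Q j) x ≤
      e1 * (((𝓑.filter fun B => (nb G B x).Nonempty).card : ℝ) * (M * k)) := by
  set J := (univ : Finset κ).filter (fun j => dn G (Q j) x < e1 * (Q j).card) with hJ
  set U := UU (𝓑.filter fun B => (nb G B x).Nonempty) with hU
  have h1 : ∀ j ∈ J, dn G (Q j) x ≤ e1 * ((Q j ∩ U).card : ℝ) := by
    intro j hj
    have hj := (mem_filter.1 hj).2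
    rcases (nb G (Q j) x).eq_empty_or_nonempty with h0 | h0
    · have : dn G (Q j) x = 0 := by unfold dn; rw [h0]; simp
      rw [this]; positivity
    · have hs : Q j ∩ U = Q j := by
        apply inter_eq_left.2
        obtain ⟨B, hB, hjB⟩ := hsub j
        intro v hv
        rw [hU, mem_UU]
        refine ⟨B, mem_filter.2 ⟨hB, ?_⟩, hjB hv⟩
        exact h0.mono (nb_mono G hjB x)
      rw [hs]; exact hj.le
  have h2 : ∑ j ∈ J, ((Q j ∩ U).card : ℝ) ≤ U.card := by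
    have : ∑ j ∈ J, (Q j ∩ U).card ≤ U.card := by
      rw [← card_biUnion]
      · exact card_le_card (biUnion_subset.2 fun C _ => inter_subset_right)
      · intro i _ j _ hij
        exact (hQ i j hij).mono inter_subset_left inter_subset_left
    exact_mod_cast this
  have h3 : (U.card : ℝ) ≤ ((𝓑.filter fun B => (nb G B x).Nonempty).card : ℝ) * (M * k) := by
    have h4 : (U.card : ℝ) ≤ ∑ B ∈ 𝓑.filter (fun B => (nb G B x).Nonempty), (B.card : ℝ) := by
      have : U.card ≤ ∑ B ∈ 𝓑.filter (fun B => (nb G B x).Nonempty), B.card := card_biUnion_le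
      exact_mod_cast this
    refine h4.trans ?_
    calc ∑ B ∈ 𝓑.filter (fun B => (nb G B x).Nonempty), (B.card : ℝ)
        ≤ ∑ B ∈ 𝓑.filter (fun B => (nb G B x).Nonempty), (M * k) :=
          sum_le_sum fun B hB => hBM B (mem_filter.1 hB).1
      _ = _ := by rw [sum_const, nsmul_eq_mul]
  calc ∑ j ∈ J, dn G (Q j) x ≤ ∑ j ∈ J, e1 * ((Q j ∩ U).card : ℝ) := sum_le_sum h1
    _ = e1 * ∑ j ∈ J, ((Q j ∩ U).card : ℝ) := by rw [mul_sum]
    _ ≤ e1 * U.card := mul_le_mul_of_nonneg_left h2 he1.le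
    _ ≤ _ := mul_le_mul_of_nonneg_left h3 he1.le

/-- the members with many thin neighbours are small -/
theorem B_thinbad {G : SimpleGraph V} {k M e1 δ N1 γ1 : ℝ} (hk : 1 ≤ k) (hM : 1 ≤ M)
    (he1 : 0 < e1) (hδ : 0 < δ) (hN1 : 0 ≤ N1) (hdeg : ∀ v, deg G v ≤ M * k)
    {𝓑 : Finset (Finset V)} (hBM : ∀ B ∈ 𝓑, (B.card : ℝ) ≤ M * k) {κ : Type} [Fintype κ]
    (Q : κ → Finset V) (hQ : ∀ i j, i ≠ j → Disjoint (Q i) (Q j))
    (hsub : ∀ j, ∃ B ∈ 𝓑, Q j ⊆ B) (T1 : Finset V)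
    (hT1 : ∀ x ∈ T1, ((𝓑.filter fun B => (nb G B x).Nonempty).card : ℝ) ≤ N1)
    (hT2 : ((univ \ T1).card : ℝ) ≤ γ1 * Fintype.card V) :
    δ * k * ∑ j ∈ univ.filter (fun j => δ * (Q j).card * k <
      ∑ z ∈ univ.filter (fun z => dn G (Q j) z < e1 * (Q j).card), dn G (Q j) z), ((Q j).card : ℝ) ≤
      (e1 * (N1 * M) + M * γ1) * k * Fintype.card V := by
  set J := (univ : Finset κ).filter (fun j => δ * (Q j).card * k <
      ∑ z ∈ univ.filter (fun z => dn G (Q j) z < e1 * (Q j).card), dn G (Q j) z) with hJ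
  have h1 : δ * k * ∑ j ∈ J, ((Q j).card : ℝ) ≤
      ∑ j ∈ J, ∑ z ∈ univ.filter (fun z => dn G (Q j) z < e1 * (Q j).card), dn G (Q j) z := by
    rw [mul_sum]
    refine sum_le_sum fun j hj => ?_
    have := (mem_filter.1 hj).2
    calc δ * k * ((Q j).card : ℝ) = δ * (Q j).card * k := by ring
      _ ≤ _ := this.le
  have h2 : ∑ j ∈ J, ∑ z ∈ univ.filter (fun z => dn G (Q j) z < e1 * (Q j).card), dn G (Q j) z ≤
      ∑ j, ∑ z ∈ univ.filter (fun z => dn G (Q j) z < e1 * (Q j).card), dn G (Q j) z :=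
    sum_le_sum_of_subset_of_nonneg (filter_subset _ _)
      fun j _ _ => sum_nonneg fun z _ => dn_nonneg G _ _
  have h3 : ∑ j, ∑ z ∈ univ.filter (fun z => dn G (Q j) z < e1 * (Q j).card), dn G (Q j) z =
      ∑ z, ∑ j ∈ univ.filter (fun j => dn G (Q j) z < e1 * (Q j).card), dn G (Q j) z := by
    simp_rw [sum_filter]
    rw [sum_comm]
  have h4 : ∀ z ∈ T1, ∑ j ∈ univ.filter (fun j => dn G (Q j) z < e1 * (Q j).card),
      dn G (Q j) z ≤ e1 * (N1 * M) * k := by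
    intro z hz
    refine (B_thin he1 hBM Q hQ hsub z).trans ?_
    have : ((𝓑.filter fun B => (nb G B z).Nonempty).card : ℝ) * (M * k) ≤ N1 * (M * k) :=
      mul_le_mul_of_nonneg_right (hT1 z hz) (by positivity)
    calc e1 * (((𝓑.filter fun B => (nb G B z).Nonempty).card : ℝ) * (M * k)) ≤
        e1 * (N1 * (M * k)) := mul_le_mul_of_nonneg_left this he1.le
      _ = _ := by ring
  have h5 : ∀ z, ∑ j ∈ univ.filter (fun j => dn G (Q j) z < e1 * (Q j).card),
      dn G (Q j) z ≤ M * k := by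
    intro z
    refine le_trans ?_ (hdeg z)
    have h6 : ∑ j ∈ univ.filter (fun j => dn G (Q j) z < e1 * (Q j).card), (nb G (Q j) z).card ≤
        (nb G univ z).card := by
      rw [← card_biUnion]
      · exact card_le_card (biUnion_subset.2 fun C _ => nb_mono G (subset_univ _) z)
      · intro i _ j _ hij
        exact (hQ i j hij).mono (nb_subset _ _ _) (nb_subset _ _ _)
    unfold deg dn
    exact_mod_cast h6
  have h7 : ∑ z, ∑ j ∈ univ.filter (fun j => dn G (Q j) z < e1 * (Q j).card), dn G (Q j) z ≤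
      (Fintype.card V) * (e1 * (N1 * M) * k) + (γ1 * Fintype.card V) * (M * k) := by
    rw [← sum_add_sum_compl T1]
    apply add_le_add
    · calc ∑ z ∈ T1, ∑ j ∈ univ.filter (fun j => dn G (Q j) z < e1 * (Q j).card), dn G (Q j) z
          ≤ ∑ z ∈ T1, (e1 * (N1 * M) * k) := sum_le_sum h4
        _ = (T1.card : ℝ) * (e1 * (N1 * M) * k) := by rw [sum_const, nsmul_eq_mul]
        _ ≤ _ := by
            apply mul_le_mul_of_nonneg_right _ (by positivity)
            exact_mod_cast card_le_univ _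
    · calc ∑ z ∈ T1ᶜ, ∑ j ∈ univ.filter (fun j => dn G (Q j) z < e1 * (Q j).card), dn G (Q j) z
          ≤ ∑ z ∈ T1ᶜ, (M * k) := sum_le_sum fun z _ => h5 z
        _ = (T1ᶜ.card : ℝ) * (M * k) := by rw [sum_const, nsmul_eq_mul]
        _ ≤ _ := by
            apply mul_le_mul_of_nonneg_right _ (by positivity)
            rw [compl_eq_univ_sdiff]
            exact hT2
  have h8 : (Fintype.card V) * (e1 * (N1 * M) * k) + (γ1 * Fintype.card V) * (M * k) =
      (e1 * (N1 * M) + M * γ1) * k * Fintype.card V := by ring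
  linarith [h3 ▸ h2]

/-- the core: all constants given -/
theorem B_core {G : SimpleGraph V} {k M δ eb γ1 N1 e1 r γ c0 : ℝ} {I : ℕ} (hk : 1 ≤ k)
    (hM : 1 ≤ M) (hδ : 0 < δ) (hδ1 : δ ≤ 1) (heb : 0 < eb) (heb' : eb ≤ δ / 8) (hγ1 : 0 < γ1)
    (hγ1' : γ1 ≤ δ ^ 3 / (48 * M ^ 2)) (hN1 : 0 < N1) (hN1' : (M + 2) / eb ≤ γ1 * N1)
    (he1 : 0 < e1) (he1' : e1 * (N1 * M) ≤ δ ^ 3 / (48 * M)) (hr : 0 < r) (hγ : 0 < γ)
    (hγ' : γ ≤ r ^ 3 * (δ ^ 2 / (24 * M))) (hI : M < I * γ) (hc0 : 0 < c0)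
    (hc0' : 2 ^ I * c0 ≤ eb * (δ ^ 2 / (24 * M)))
    (hdeg : ∀ v, deg G v ≤ M * k) (hV : 0 < Fintype.card V) :
    ∃ (𝒞 : Finset (Finset V)) (Typ : Finset V), Clus G k M e1 r c0 δ 𝒞 ∧
      ((univ \ Typ).card : ℝ) ≤ δ * Fintype.card V ∧
      ∀ x ∈ Typ, ∀ X, XX G k M X → x ∈ X → ((A0 G 𝒞 e1 x ∩ X).card : ℝ) ≤ δ * k := by
  have hk0 : 0 < k := by linarith
  have hM0 : 0 < M := by linarith
  have hVr : (0 : ℝ) < Fintype.card V := by exact_mod_cast hV
  obtain ⟨𝓑, hBd, hBs, hBX, hBmax⟩ := B_max G k M eb (by positivity)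
  have hBM : ∀ B ∈ 𝓑, (B.card : ℝ) ≤ M * k := by
    intro B hB
    obtain ⟨X, hX, hBX'⟩ := hBX B hB
    refine le_trans ?_ hX.1
    exact_mod_cast card_le_card hBX'
  -- typical vertices, step 1
  set T1 := (univ : Finset V).filter
    (fun x => ((𝓑.filter fun B => (nb G B x).Nonempty).card : ℝ) ≤ N1) with hT1def
  have hT1 : ∀ x ∈ T1, ((𝓑.filter fun B => (nb G B x).Nonempty).card : ℝ) ≤ N1 :=
    fun x hx => (mem_filter.1 hx).2
  have hT2 : ((univ \ T1).card : ℝ) ≤ γ1 * Fintype.card V := by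
    have h1 := B_touch hk hM heb hBd hBs hBX
    have h2 : ((univ \ T1).card : ℝ) * N1 ≤
        ∑ x, ((𝓑.filter fun B => (nb G B x).Nonempty).card : ℝ) := by
      calc ((univ \ T1).card : ℝ) * N1 = ∑ x ∈ univ \ T1, N1 := by
            rw [sum_const, nsmul_eq_mul]
        _ ≤ ∑ x ∈ univ \ T1, ((𝓑.filter fun B => (nb G B x).Nonempty).card : ℝ) := by
            refine sum_le_sum fun x hx => ?_
            have hx : x ∉ T1 := (mem_sdiff.1 hx).2
            rw [hT1def, mem_filter] at hx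
            push Not at hx
            exact (hx (mem_univ _)).le
        _ ≤ _ := sum_le_sum_of_subset_of_nonneg (subset_univ _) fun _ _ _ => by positivity
    have h3 : ((univ \ T1).card : ℝ) * N1 ≤ (γ1 * Fintype.card V) * N1 := by
      calc ((univ \ T1).card : ℝ) * N1 ≤ (M + 2) / eb * Fintype.card V := h2.trans h1
        _ ≤ (γ1 * N1) * Fintype.card V := mul_le_mul_of_nonneg_right hN1' hVr.le
        _ = _ := by ring
    exact le_of_mul_le_mul_right h3 hN1
  -- the partition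
  obtain ⟨κ, hκ, Q, ⟨hQd, hQc, hQs, hQcov⟩, hQirr⟩ :=
    B_iter (G := G) (D := M * k) (γ := γ * k * Fintype.card V) hdeg (by positivity)
      (fun B : {B // B ∈ 𝓑} => B.1) (by
        rintro ⟨B, hB⟩ ⟨B', hB'⟩ hne
        exact hBd B hB B' hB' (fun h => hne (Subtype.ext h))) I (by
        have : M * k * Fintype.card V < (I * γ) * k * Fintype.card V := by
          apply mul_lt_mul_of_pos_right _ hVr
          exact mul_lt_mul_of_pos_right hI hk0
        linarith)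
  have hsub : ∀ j, ∃ B ∈ 𝓑, Q j ⊆ B := by
    intro j
    obtain ⟨⟨B, hB⟩, hj⟩ := hQs j
    exact ⟨B, hB, hj⟩
  have hcovU : ∀ v ∈ UU 𝓑, ∃ j, v ∈ Q j := by
    intro v hv
    obtain ⟨B, hB, hvB⟩ := mem_UU.1 hv
    exact hQcov ⟨B, hB⟩ v hvB
  have hκc : (Fintype.card κ : ℝ) ≤ 2 ^ I * 𝓑.card := by
    rw [Fintype.card_coe] at hQc
    exact_mod_cast hQc
  have hBcard : (𝓑.card : ℝ) * (eb * k) ≤ Fintype.card V := by
    have h4 : ∑ B ∈ 𝓑, (eb * k) ≤ ∑ B ∈ 𝓑, (B.card : ℝ) := sum_le_sum hBs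
    rw [sum_const, nsmul_eq_mul] at h4
    exact h4.trans (sum_card_univ_le hBd)
  -- the dropped members
  set J1 := (univ : Finset κ).filter (fun j => ¬ Rg G k r (Q j)) with hJ1
  set J2 := (univ : Finset κ).filter (fun j => ((Q j).card : ℝ) < c0 * k) with hJ2
  set J3 := (univ : Finset κ).filter (fun j => δ * (Q j).card * k <
      ∑ z ∈ univ.filter (fun z => dn G (Q j) z < e1 * (Q j).card), dn G (Q j) z) with hJ3
  set w := δ ^ 2 / (24 * M) with hw
  have hw0 : 0 < w := by positivity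
  have hs1 : ∑ j ∈ J1, ((Q j).card : ℝ) ≤ w * Fintype.card V := by
    have h1 := B_irr hk hr Q hQd hQirr
    have h2 : r ^ 3 * k * ∑ j ∈ J1, ((Q j).card : ℝ) ≤ r ^ 3 * k * (w * Fintype.card V) := by
      calc r ^ 3 * k * ∑ j ∈ J1, ((Q j).card : ℝ) ≤ γ * k * Fintype.card V := h1
        _ ≤ (r ^ 3 * w) * k * Fintype.card V := by
            apply mul_le_mul_of_nonneg_right _ hVr.le
            exact mul_le_mul_of_nonneg_right hγ' hk0.le
        _ = _ := by ring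
    exact le_of_mul_le_mul_left h2 (by positivity)
  have hs2 : ∑ j ∈ J2, ((Q j).card : ℝ) ≤ w * Fintype.card V := by
    have h1 : ∑ j ∈ J2, ((Q j).card : ℝ) ≤ ∑ j ∈ J2, (c0 * k) :=
      sum_le_sum fun j hj => (mem_filter.1 hj).2.le
    rw [sum_const, nsmul_eq_mul] at h1
    have h2 : (J2.card : ℝ) ≤ 2 ^ I * 𝓑.card := by
      refine le_trans ?_ hκc
      exact_mod_cast card_le_univ _
    calc ∑ j ∈ J2, ((Q j).card : ℝ) ≤ (J2.card : ℝ) * (c0 * k) := h1
      _ ≤ (2 ^ I * 𝓑.card) * (c0 * k) := mul_le_mul_of_nonneg_right h2 (by positivity)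
      _ = (2 ^ I * c0) * (𝓑.card * k) := by ring
      _ ≤ (eb * w) * (𝓑.card * k) := mul_le_mul_of_nonneg_right hc0' (by positivity)
      _ = w * (𝓑.card * (eb * k)) := by ring
      _ ≤ w * Fintype.card V := mul_le_mul_of_nonneg_left hBcard hw0.le
  have hs3 : ∑ j ∈ J3, ((Q j).card : ℝ) ≤ w * Fintype.card V := by
    have h1 := B_thinbad hk hM he1 hδ hN1.le hdeg hBM Q hQd hsub T1 hT1 hT2
    have h2 : e1 * (N1 * M) + M * γ1 ≤ δ * w := by
      have h3 : M * γ1 ≤ δ ^ 3 / (48 * M) := by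
        calc M * γ1 ≤ M * (δ ^ 3 / (48 * M ^ 2)) := mul_le_mul_of_nonneg_left hγ1' hM0.le
          _ = _ := by field_simp
      have h4 : δ ^ 3 / (48 * M) + δ ^ 3 / (48 * M) = δ * w := by
        rw [hw]; field_simp; ring
      linarith
    have h3 : (δ * k) * ∑ j ∈ J3, ((Q j).card : ℝ) ≤ (δ * k) * (w * Fintype.card V) := by
      calc (δ * k) * ∑ j ∈ J3, ((Q j).card : ℝ)
          ≤ (e1 * (N1 * M) + M * γ1) * k * Fintype.card V := h1
        _ ≤ (δ * w) * k * Fintype.card V := by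
            apply mul_le_mul_of_nonneg_right _ hVr.le
            exact mul_le_mul_of_nonneg_right h2 hk0.le
        _ = _ := by ring
    exact le_of_mul_le_mul_left h3 (by positivity)
  set U1 := (J1 ∪ J2 ∪ J3).biUnion Q with hU1
  have hU1c : (U1.card : ℝ) ≤ 3 * w * Fintype.card V := by
    have h1 : (U1.card : ℝ) ≤ ∑ j ∈ J1 ∪ J2 ∪ J3, ((Q j).card : ℝ) := by
      have : U1.card ≤ ∑ j ∈ J1 ∪ J2 ∪ J3, (Q j).card := card_biUnion_le
      exact_mod_cast this
    have h2 : ∑ j ∈ J1 ∪ J2 ∪ J3, ((Q j).card : ℝ) ≤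
        ∑ j ∈ J1 ∪ J2, ((Q j).card : ℝ) + ∑ j ∈ J3, ((Q j).card : ℝ) := by
      rw [← sum_union_inter]
      have : 0 ≤ ∑ j ∈ (J1 ∪ J2) ∩ J3, ((Q j).card : ℝ) := sum_nonneg fun _ _ => by positivity
      linarith
    have h3 : ∑ j ∈ J1 ∪ J2, ((Q j).card : ℝ) ≤
        ∑ j ∈ J1, ((Q j).card : ℝ) + ∑ j ∈ J2, ((Q j).card : ℝ) := by
      rw [← sum_union_inter]
      have : 0 ≤ ∑ j ∈ J1 ∩ J2, ((Q j).card : ℝ) := sum_nonneg fun _ _ => by positivity
      linarith
    linarith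
  set Typ := T1.filter (fun x => dn G U1 x ≤ δ * k / 4) with hTyp
  set 𝒞 := ((univ : Finset κ) \ (J1 ∪ J2 ∪ J3)).image Q with h𝒞
  have hgood : ∀ C ∈ 𝒞, ∃ j, Q j = C ∧ Rg G k r (Q j) ∧ c0 * k ≤ (Q j).card ∧
      ∑ z ∈ univ.filter (fun z => dn G (Q j) z < e1 * (Q j).card), dn G (Q j) z ≤
        δ * (Q j).card * k := by
    intro C hC
    obtain ⟨j, hj, hjC⟩ := mem_image.1 hC
    have hj' := (mem_sdiff.1 hj).2
    rw [mem_union, mem_union] at hj'
    push Not at hj'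
    obtain ⟨⟨h1, h2⟩, h3⟩ := hj'
    rw [hJ1, mem_filter] at h1
    rw [hJ2, mem_filter] at h2
    rw [hJ3, mem_filter] at h3
    push Not at h1 h2 h3
    exact ⟨j, hjC, h1 (mem_univ _), h2 (mem_univ _), h3 (mem_univ _)⟩
  refine ⟨𝒞, Typ, ⟨?_, ?_, ?_, ?_, ?_, ?_⟩, ?_, ?_⟩
  · intro C hC C' hC' hne
    obtain ⟨j, hj, -⟩ := hgood C hC
    obtain ⟨j', hj', -⟩ := hgood C' hC'
    rw [← hj, ← hj']
    apply hQd
    rintro rfl
    exact hne (hj.symm.trans hj')
  · intro C hC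
    obtain ⟨j, hj, -, h2, -⟩ := hgood C hC
    rw [← hj, ← card_pos]
    have : (0 : ℝ) < (Q j).card := lt_of_lt_of_le (by positivity) h2
    exact_mod_cast this
  · intro C hC
    obtain ⟨j, hj, -, h2, -⟩ := hgood C hC
    rw [← hj]; exact h2
  · intro C hC
    obtain ⟨j, hj, -⟩ := hgood C hC
    obtain ⟨B, hB, hjB⟩ := hsub j
    obtain ⟨X, hX, hBX'⟩ := hBX B hB
    exact ⟨X, hX, by rw [← hj]; exact hjB.trans hBX'⟩
  · intro C hC
    obtain ⟨j, hj, h1, -⟩ := hgood C hC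
    rw [← hj]; exact h1
  · intro C hC
    obtain ⟨j, hj, -, -, h3⟩ := hgood C hC
    rw [← hj]; exact h3
  · -- number of atypical vertices
    have h1 : (univ \ Typ) ⊆ (univ \ T1) ∪ univ.filter (fun x => δ * k / 4 < dn G U1 x) := by
      intro x hx
      have hx := (mem_sdiff.1 hx).2
      by_cases hxT : x ∈ T1
      · apply mem_union_right
        refine mem_filter.2 ⟨mem_univ _, ?_⟩
        by_contra hcon
        push Not at hcon
        exact hx (mem_filter.2 ⟨hxT, hcon⟩)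
      · exact mem_union_left _ (mem_sdiff.2 ⟨mem_univ _, hxT⟩)
    set F := (univ : Finset V).filter (fun x => δ * k / 4 < dn G U1 x) with hF
    have h2 : (F.card : ℝ) * (δ * k / 4) ≤ (3 * w * Fintype.card V) * (M * k) := by
      calc (F.card : ℝ) * (δ * k / 4) = ∑ x ∈ F, (δ * k / 4) := by rw [sum_const, nsmul_eq_mul]
        _ ≤ ∑ x ∈ F, dn G U1 x := sum_le_sum fun x hx => (mem_filter.1 hx).2.le
        _ ≤ ∑ x, dn G U1 x :=
            sum_le_sum_of_subset_of_nonneg (subset_univ _) fun _ _ _ => dn_nonneg _ _ _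
        _ = ∑ v ∈ U1, deg G v := by unfold deg; rw [sum_dn_comm]
        _ ≤ ∑ v ∈ U1, (M * k) := sum_le_sum fun v _ => hdeg v
        _ = (U1.card : ℝ) * (M * k) := by rw [sum_const, nsmul_eq_mul]
        _ ≤ _ := mul_le_mul_of_nonneg_right hU1c (by positivity)
    have h3 : (3 * w * Fintype.card V) * (M * k) = (δ / 2 * Fintype.card V) * (δ * k / 4) := by
      rw [hw]; field_simp; ring
    rw [h3] at h2
    have h4 : (F.card : ℝ) ≤ δ / 2 * Fintype.card V := le_of_mul_le_mul_right h2 (by positivity)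
    have h5 : γ1 ≤ δ / 2 := by
      refine hγ1'.trans ?_
      rw [div_le_div_iff₀ (by positivity) (by norm_num)]
      have h6 : δ ^ 3 ≤ δ := by
        have : δ ^ 2 ≤ 1 := by nlinarith
        calc δ ^ 3 = δ * δ ^ 2 := by ring
          _ ≤ δ * 1 := mul_le_mul_of_nonneg_left this hδ.le
          _ = δ := mul_one δ
      have h7 : 1 ≤ M ^ 2 := by nlinarith
      nlinarith
    have h6 : ((univ \ Typ).card : ℝ) ≤ ((univ \ T1).card : ℝ) + F.card := by
      have : (univ \ Typ).card ≤ (univ \ T1).card + F.card :=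
        (card_le_card h1).trans (card_union_le _ _)
      exact_mod_cast this
    have h7 : γ1 * Fintype.card V ≤ δ / 2 * Fintype.card V :=
      mul_le_mul_of_nonneg_right h5 hVr.le
    linarith
  · -- few uncovered neighbours
    intro x hx X hX hxX
    obtain ⟨hx1, hx2⟩ := mem_filter.1 hx
    have hcov : A0 G 𝒞 e1 x ∩ X ⊆ (X \ UU 𝓑) ∪ (nb G U1 x ∪
        (univ.filter (fun j => dn G (Q j) x < e1 * (Q j).card)).biUnion
          (fun j => nb G (Q j) x)) := by
      intro v hv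
      rw [mem_inter, A0, mem_sdiff, mem_nb] at hv
      obtain ⟨⟨⟨-, hadj⟩, hnt⟩, hvX⟩ := hv
      rw [mem_union, mem_union]
      by_cases hvB : v ∈ UU 𝓑
      · right
        obtain ⟨j, hj⟩ := hcovU v hvB
        by_cases hjD : j ∈ J1 ∪ J2 ∪ J3
        · left
          rw [mem_nb]
          exact ⟨mem_biUnion.2 ⟨j, hjD, hj⟩, hadj⟩
        · right
          rw [mem_biUnion]
          refine ⟨j, mem_filter.2 ⟨mem_univ _, ?_⟩, mem_nb.2 ⟨hj, hadj⟩⟩
          by_contra hcon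
          push Not at hcon
          apply hnt
          rw [mem_UU]
          refine ⟨Q j, ?_, hj⟩
          rw [mem_tau]
          exact ⟨mem_image.2 ⟨j, mem_sdiff.2 ⟨mem_univ _, hjD⟩, rfl⟩, hcon⟩
      · left; exact mem_sdiff.2 ⟨hvX, hvB⟩
    have h1 : ((A0 G 𝒞 e1 x ∩ X).card : ℝ) ≤ ((X \ UU 𝓑).card : ℝ) + (dn G U1 x +
        ∑ j ∈ univ.filter (fun j => dn G (Q j) x < e1 * (Q j).card), dn G (Q j) x) := by
      have h2 : (A0 G 𝒞 e1 x ∩ X).card ≤ (X \ UU 𝓑).card + ((nb G U1 x).card +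
          ∑ j ∈ univ.filter (fun j => dn G (Q j) x < e1 * (Q j).card), (nb G (Q j) x).card) := by
        refine (card_le_card hcov).trans ((card_union_le _ _).trans ?_)
        apply Nat.add_le_add_left
        refine (card_union_le _ _).trans ?_
        apply Nat.add_le_add_left
        exact card_biUnion_le
      unfold dn
      exact_mod_cast h2
    have h2 := hBmax X hX
    have h3 := B_thin (G := G) (k := k) he1 hBM Q hQd hsub x
    have h4 : e1 * (((𝓑.filter fun B => (nb G B x).Nonempty).card : ℝ) * (M * k)) ≤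
        δ / 2 * k := by
      have h5 : ((𝓑.filter fun B => (nb G B x).Nonempty).card : ℝ) * (M * k) ≤ N1 * (M * k) :=
        mul_le_mul_of_nonneg_right (hT1 x hx1) (by positivity)
      have h6 : δ ^ 3 / (48 * M) ≤ δ / 2 := by
        rw [div_le_div_iff₀ (by positivity) (by norm_num)]
        have h6 : δ ^ 3 ≤ δ := by
          have : δ ^ 2 ≤ 1 := by nlinarith
          calc δ ^ 3 = δ * δ ^ 2 := by ring
            _ ≤ δ * 1 := mul_le_mul_of_nonneg_left this hδ.le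
            _ = δ := mul_one δ
        nlinarith
      calc e1 * (((𝓑.filter fun B => (nb G B x).Nonempty).card : ℝ) * (M * k)) ≤
          e1 * (N1 * (M * k)) := mul_le_mul_of_nonneg_left h5 he1.le
        _ = (e1 * (N1 * M)) * k := by ring
        _ ≤ (δ / 2) * k := mul_le_mul_of_nonneg_right (he1'.trans h6) hk0.le
        _ = _ := by ring
    have h5 : eb * k ≤ δ / 8 * k := mul_le_mul_of_nonneg_right heb' hk0.le
    have h6 : 0 < δ * k := by positivity
    linarith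

/-- PART B. Clusters. -/
theorem clusters' (M δ : ℝ) (hM : 1 ≤ M) (hδ : 0 < δ) :
    ∃ e1 : ℝ, 0 < e1 ∧ e1 ≤ 1 ∧ ∀ r : ℝ, 0 < r → ∃ c0 : ℝ, 0 < c0 ∧
      ∀ (V : Type) [Fintype V] (G : SimpleGraph V) (k : ℝ), 1 ≤ k → (∀ v, deg G v ≤ M * k) →
        ∃ (𝒞 : Finset (Finset V)) (Typ : Finset V), Clus G k M e1 r c0 δ 𝒞 ∧
          ((univ \ Typ).card : ℝ) ≤ δ * Fintype.card V ∧
          ∀ x ∈ Typ, ∀ X, XX G k M X → x ∈ X → ((A0 G 𝒞 e1 x ∩ X).card : ℝ) ≤ δ * k := by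
  have hM0 : 0 < M := by linarith
  obtain ⟨δ', hδ'0, hδ'1, hδ'δ⟩ : ∃ δ' : ℝ, 0 < δ' ∧ δ' ≤ 1 ∧ δ' ≤ δ :=
    ⟨min δ 1, lt_min hδ one_pos, min_le_right _ _, min_le_left _ _⟩
  set eb := δ' / 8 with heb
  have heb0 : 0 < eb := by positivity
  set γ1 := δ' ^ 3 / (48 * M ^ 2) with hγ1
  have hγ10 : 0 < γ1 := by positivity
  set N1 := (M + 2) / eb / γ1 with hN1
  have hN10 : 0 < N1 := by positivity
  have hN1' : (M + 2) / eb ≤ γ1 * N1 := by
    rw [hN1, mul_div_cancel₀ _ hγ10.ne']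
  refine ⟨min 1 (δ' ^ 3 / (48 * M) / (N1 * M)), lt_min one_pos (by positivity),
    min_le_left _ _, ?_⟩
  set e1 := min 1 (δ' ^ 3 / (48 * M) / (N1 * M)) with he1
  have he10 : 0 < e1 := lt_min one_pos (by positivity)
  have he1' : e1 * (N1 * M) ≤ δ' ^ 3 / (48 * M) := by
    have h1 : e1 ≤ δ' ^ 3 / (48 * M) / (N1 * M) := min_le_right _ _
    calc e1 * (N1 * M) ≤ δ' ^ 3 / (48 * M) / (N1 * M) * (N1 * M) :=
          mul_le_mul_of_nonneg_right h1 (by positivity)
      _ = _ := div_mul_cancel₀ _ (by positivity)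
  intro r hr
  set γ := r ^ 3 * (δ' ^ 2 / (24 * M)) with hγ
  have hγ0 : 0 < γ := by positivity
  obtain ⟨I, hI⟩ := exists_nat_gt (M / γ)
  have hI' : M < I * γ := by rwa [div_lt_iff₀ hγ0] at hI
  set c0 := eb * (δ' ^ 2 / (24 * M)) / 2 ^ I with hc0
  have hc00 : 0 < c0 := by positivity
  have hc0' : 2 ^ I * c0 ≤ eb * (δ' ^ 2 / (24 * M)) := by
    rw [hc0, mul_div_cancel₀ _ (by positivity)]
  refine ⟨c0, hc00, ?_⟩
  intro V _ G k hk hdeg
  rcases Nat.eq_zero_or_pos (Fintype.card V) with hV | hV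
  · have hem : IsEmpty V := Fintype.card_eq_zero_iff.1 hV
    refine ⟨∅, univ, ⟨by simp, by simp, by simp, by simp, by simp, by simp⟩, ?_, ?_⟩
    · simp [hV]
    · intro x; exact (hem.false x).elim
  · obtain ⟨𝒞, Typ, hC, hT, hA⟩ := B_core hk hM hδ'0 hδ'1 heb0 le_rfl hγ10 le_rfl hN10 hN1'
      he10 he1' hr hγ0 le_rfl hI' hc00 hc0' hdeg hV
    refine ⟨𝒞, Typ, ⟨hC.disj, hC.ne, hC.size, hC.inX, hC.reg, ?_⟩, ?_, ?_⟩
    · intro C hC1
      refine (hC.thin C hC1).trans ?_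
      have h1 : (0 : ℝ) ≤ (C.card : ℝ) * k := by positivity
      calc δ' * C.card * k = δ' * (C.card * k) := by ring
        _ ≤ δ * (C.card * k) := mul_le_mul_of_nonneg_right hδ'δ h1
        _ = _ := by ring
    · refine hT.trans ?_
      exact mul_le_mul_of_nonneg_right hδ'δ (by positivity)
    · intro x hx X hX hxX
      refine (hA x hx X hX hxX).trans ?_
      exact mul_le_mul_of_nonneg_right hδ'δ (by linarith)

end LKU
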