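import Pool.Agent.LKU.CZon

set_option autoImplicit false
set_option linter.unusedSectionVars false

/-!
# LKU module CBall (difficulty 3): the zones containing a given cluster

`card_links_le`: for `C ∈ 𝒞`, `ρ > 0`: `#{C' ∈ 𝒞 : Lk C C'} ρ k ≤ ∑_{C' ∈ 𝒞} |NN C ∩ NN C'| = ∑_{z ∈ NN C} |tau z| ≤ (M k / e1) (M/(e1 c0))` (`C' ∈ tau z` iff
`C' ∈ 𝒞` and `z ∈ NN C'`; `card_NN_le`, `card_tau_le`). So the number of links is at most `dB`.

`exists_ball`: for `C ∈ 𝒞` there is a family `ℬ` of at most `nB` members of `𝒞` containing every zone `D ∋ C` of every vertex. Let `b 0 = {C}`,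
`b (n+1) = b n ∪ ⋃_{C' ∈ b n} {C'' ∈ 𝒞 : Lk C' C''}`; `|b n| ≤ (1 + dB)^n`; `ℬ = b ⌊K⌋`, `K = M/(e1 c0)`. Let `D ∈ ZZ (tau x)`, `C ∈ D`; `|tau x| ≤ ⌊K⌋` (`card_tau_le`).
Let `R n` = the set of members of `tau x` reachable from `C` by at most `n` links inside `tau x`; `R n ⊆ b n`, `R 0 = {C}`, `R n ⊆ R (n+1)`, and if `R n = R (n+1)` then
`R n` is closed under links, so `R n = D` (the whole zone). So `|R n| ≥ min (n+1) |D|`, thus `R ⌊K⌋ = D ⊆ b ⌊K⌋`.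
(The `b n` are nondecreasing as well.)
-/

open scoped Classical

noncomputable section

namespace LKU

open Finset

variable {V : Type} [Fintype V]

theorem card_links_le {G : SimpleGraph V} {k M e1 c0 ρ : ℝ} {𝒞 : Finset (Finset V)}
    (hk : 1 ≤ k) (hM : 1 ≤ M) (he1 : 0 < e1) (hc0 : 0 < c0) (hρ : 0 < ρ)
    (hdeg : ∀ v, deg G v ≤ M * k)
    (hdj : ∀ C ∈ 𝒞, ∀ C' ∈ 𝒞, C ≠ C' → Disjoint C C') (hne : ∀ C ∈ 𝒞, C.Nonempty)
    (hsz : ∀ C ∈ 𝒞, c0 * k ≤ C.card) {C : Finset V} (hC : C ∈ 𝒞) :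
    (𝒞.filter fun C' => Lk G k e1 ρ C C').card ≤ dB M e1 c0 ρ := by
  have hk0 : 0 < k := by linarith
  set L := 𝒞.filter fun C' => Lk G k e1 ρ C C' with hL
  have h1 : (L.card : ℝ) * (ρ * k) ≤ ∑ C' ∈ L, ((NN G e1 C ∩ NN G e1 C').card : ℝ) := by
    rw [← nsmul_eq_mul]
    apply Finset.card_nsmul_le_sum
    intro C' hC'
    exact (Finset.mem_filter.1 hC').2
  have h2 : ∑ C' ∈ L, ((NN G e1 C ∩ NN G e1 C').card : ℝ) ≤
      ∑ C' ∈ 𝒞, ((NN G e1 C ∩ NN G e1 C').card : ℝ) :=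
    Finset.sum_le_sum_of_subset_of_nonneg (Finset.filter_subset _ _)
      (fun _ _ _ => Nat.cast_nonneg _)
  have h3 : ∑ C' ∈ 𝒞, ((NN G e1 C ∩ NN G e1 C').card : ℝ) =
      ∑ z ∈ NN G e1 C, ((tau G 𝒞 e1 z).card : ℝ) := by
    have e1' : ∀ C' ∈ 𝒞, ((NN G e1 C ∩ NN G e1 C').card : ℝ) =
        ∑ z ∈ NN G e1 C, (if z ∈ NN G e1 C' then (1 : ℝ) else 0) := by
      intro C' _
      rw [Finset.sum_ite_mem, Finset.sum_const, nsmul_eq_mul, mul_one]
    have e2' : ∀ z ∈ NN G e1 C, ((tau G 𝒞 e1 z).card : ℝ) =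
        ∑ C' ∈ 𝒞, (if z ∈ NN G e1 C' then (1 : ℝ) else 0) := by
      intro z _
      rw [← Finset.sum_filter, Finset.sum_const, nsmul_eq_mul, mul_one]
      congr 2
      unfold tau NN
      apply Finset.filter_congr
      intro C' _
      simp
    rw [Finset.sum_congr rfl e1', Finset.sum_congr rfl e2', Finset.sum_comm]
  have h4 : ∑ z ∈ NN G e1 C, ((tau G 𝒞 e1 z).card : ℝ) ≤
      ((NN G e1 C).card : ℝ) * (M / (e1 * c0)) := by
    rw [← nsmul_eq_mul]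
    apply Finset.sum_le_card_nsmul
    intro z _
    exact card_tau_le hk he1 hc0 hdeg hdj hsz z
  have h5 := card_NN_le (G := G) (k := k) (M := M) he1 hdeg (hne C hC)
  have hK : 0 ≤ M / (e1 * c0) := by positivity
  have h6 : ((NN G e1 C).card : ℝ) * (M / (e1 * c0)) ≤ M * k / e1 * (M / (e1 * c0)) :=
    mul_le_mul_of_nonneg_right h5 hK
  have h7 : (L.card : ℝ) * (ρ * k) ≤ M * k / e1 * (M / (e1 * c0)) := by
    calc (L.card : ℝ) * (ρ * k) ≤ _ := h1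
      _ ≤ _ := h2
      _ = _ := h3
      _ ≤ _ := h4
      _ ≤ _ := h6
  unfold dB
  apply Nat.le_floor
  rw [le_div_iff₀ hρ]
  have h8 : M * k / e1 * (M / (e1 * c0)) = (M / e1 * (M / (e1 * c0))) * k := by ring
  rw [h8, ← mul_assoc] at h7
  exact le_of_mul_le_mul_right h7 hk0

/-- balls in the link graph -/
def CBall_b (G : SimpleGraph V) (k e1 ρ : ℝ) (𝒞 : Finset (Finset V)) (C : Finset V) :
    ℕ → Finset (Finset V)
  | 0 => {C}
  | n + 1 => CBall_b G k e1 ρ 𝒞 C n ∪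
      (CBall_b G k e1 ρ 𝒞 C n).biUnion (fun C' => 𝒞.filter fun C'' => Lk G k e1 ρ C' C'')

theorem CBall_b_sub {G : SimpleGraph V} {k e1 ρ : ℝ} {𝒞 : Finset (Finset V)} {C : Finset V}
    (hC : C ∈ 𝒞) (n : ℕ) : CBall_b G k e1 ρ 𝒞 C n ⊆ 𝒞 := by
  induction n with
  | zero => intro x hx; rw [CBall_b, Finset.mem_singleton] at hx; rw [hx]; exact hC
  | succ n ih =>
    rw [CBall_b]
    apply Finset.union_subset ih
    intro x hx
    rw [Finset.mem_biUnion] at hx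
    obtain ⟨C', _, h2⟩ := hx
    exact (Finset.mem_filter.1 h2).1

theorem CBall_b_mem {G : SimpleGraph V} {k e1 ρ : ℝ} {𝒞 : Finset (Finset V)} {C : Finset V}
    (n : ℕ) : C ∈ CBall_b G k e1 ρ 𝒞 C n := by
  induction n with
  | zero => rw [CBall_b]; exact Finset.mem_singleton_self _
  | succ n ih => rw [CBall_b]; exact Finset.mem_union_left _ ih

theorem CBall_b_card {G : SimpleGraph V} {k M e1 c0 ρ : ℝ} {𝒞 : Finset (Finset V)}
    (hk : 1 ≤ k) (hM : 1 ≤ M) (he1 : 0 < e1) (hc0 : 0 < c0) (hρ : 0 < ρ)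
    (hdeg : ∀ v, deg G v ≤ M * k)
    (hdj : ∀ C ∈ 𝒞, ∀ C' ∈ 𝒞, C ≠ C' → Disjoint C C') (hne : ∀ C ∈ 𝒞, C.Nonempty)
    (hsz : ∀ C ∈ 𝒞, c0 * k ≤ C.card) {C : Finset V} (hC : C ∈ 𝒞) (n : ℕ) :
    (CBall_b G k e1 ρ 𝒞 C n).card ≤ (1 + dB M e1 c0 ρ) ^ n := by
  induction n with
  | zero => rw [CBall_b]; simp
  | succ n ih =>
    rw [CBall_b]
    refine le_trans (Finset.card_union_le _ _) ?_
    have h1 : ((CBall_b G k e1 ρ 𝒞 C n).biUnion
        (fun C' => 𝒞.filter fun C'' => Lk G k e1 ρ C' C'')).card ≤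
        (CBall_b G k e1 ρ 𝒞 C n).card * dB M e1 c0 ρ := by
      apply Finset.card_biUnion_le_card_mul
      intro C' hC'
      exact card_links_le hk hM he1 hc0 hρ hdeg hdj hne hsz (CBall_b_sub hC n hC')
    calc (CBall_b G k e1 ρ 𝒞 C n).card + ((CBall_b G k e1 ρ 𝒞 C n).biUnion
        (fun C' => 𝒞.filter fun C'' => Lk G k e1 ρ C' C'')).card
        ≤ (CBall_b G k e1 ρ 𝒞 C n).card + (CBall_b G k e1 ρ 𝒞 C n).card * dB M e1 c0 ρ :=
          Nat.add_le_add_left h1 _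
      _ = (CBall_b G k e1 ρ 𝒞 C n).card * (1 + dB M e1 c0 ρ) := by ring
      _ ≤ (1 + dB M e1 c0 ρ) ^ n * (1 + dB M e1 c0 ρ) := Nat.mul_le_mul_right _ ih
      _ = (1 + dB M e1 c0 ρ) ^ (n + 1) := by rw [pow_succ]

theorem CBall_LR_symm {G : SimpleGraph V} {k e1 ρ : ℝ} {τ : Finset (Finset V)}
    {C C' : Finset V} (h : LR G k e1 ρ τ C C') : LR G k e1 ρ τ C' C := by
  refine ⟨h.2.1, h.1, ?_⟩
  have h3 := h.2.2
  unfold Lk at *
  rw [Finset.inter_comm]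
  exact h3

theorem CBall_RTG_symm {G : SimpleGraph V} {k e1 ρ : ℝ} {τ : Finset (Finset V)}
    {C C' : Finset V} (h : Relation.ReflTransGen (LR G k e1 ρ τ) C C') :
    Relation.ReflTransGen (LR G k e1 ρ τ) C' C := by
  induction h with
  | refl => exact Relation.ReflTransGen.refl
  | tail _ h2 ih => exact Relation.ReflTransGen.head (CBall_LR_symm h2) ih

theorem exists_ball {G : SimpleGraph V} {k M e1 c0 ρ : ℝ} {𝒞 : Finset (Finset V)}
    (hk : 1 ≤ k) (hM : 1 ≤ M) (he1 : 0 < e1) (hc0 : 0 < c0) (hρ : 0 < ρ)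
    (hdeg : ∀ v, deg G v ≤ M * k)
    (hdj : ∀ C ∈ 𝒞, ∀ C' ∈ 𝒞, C ≠ C' → Disjoint C C') (hne : ∀ C ∈ 𝒞, C.Nonempty)
    (hsz : ∀ C ∈ 𝒞, c0 * k ≤ C.card) {C : Finset V} (hC : C ∈ 𝒞) :
    ∃ ℬ : Finset (Finset V), ℬ.card ≤ nB M e1 c0 ρ ∧
      ∀ x, ∀ D ∈ ZZ G k e1 ρ (tau G 𝒞 e1 x), C ∈ D → D ⊆ ℬ := by
  refine ⟨CBall_b G k e1 ρ 𝒞 C ⌊M / (e1 * c0)⌋₊,
    CBall_b_card hk hM he1 hc0 hρ hdeg hdj hne hsz hC _, ?_⟩
  intro x D hD hCD
  obtain ⟨C0, hC0, hDC0⟩ := Finset.mem_image.1 hD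
  have hmemD : ∀ C', C' ∈ D ↔ C' ∈ tau G 𝒞 e1 x ∧
      Relation.ReflTransGen (LR G k e1 ρ (tau G 𝒞 e1 x)) C0 C' := by
    intro C'
    rw [← hDC0, zn, Finset.mem_filter]
  have hreach : ∀ C' ∈ D, Relation.ReflTransGen (LR G k e1 ρ (tau G 𝒞 e1 x)) C C' := by
    intro C' hC'
    exact (CBall_RTG_symm ((hmemD C).1 hCD).2).trans ((hmemD C').1 hC').2
  have hclosed : ∀ n, D.filter (fun E => E ∈ CBall_b G k e1 ρ 𝒞 C n) =
      D.filter (fun E => E ∈ CBall_b G k e1 ρ 𝒞 C (n + 1)) →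
      D ⊆ CBall_b G k e1 ρ 𝒞 C n := by
    intro n hn
    have h1 : ∀ C', Relation.ReflTransGen (LR G k e1 ρ (tau G 𝒞 e1 x)) C C' →
        C' ∈ D ∧ C' ∈ CBall_b G k e1 ρ 𝒞 C n := by
      intro C' h
      induction h with
      | refl => exact ⟨hCD, CBall_b_mem n⟩
      | @tail E E' _ h2 ih =>
        obtain ⟨hE1, hE2⟩ := ih
        have hE'D : E' ∈ D := (hmemD E').2 ⟨h2.2.1, ((hmemD E).1 hE1).2.tail h2⟩
        have hE'C : E' ∈ 𝒞 := by
          have := h2.2.1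
          unfold tau at this
          exact (Finset.mem_filter.1 this).1
        have hE'b : E' ∈ CBall_b G k e1 ρ 𝒞 C (n + 1) := by
          rw [CBall_b]
          apply Finset.mem_union_right
          rw [Finset.mem_biUnion]
          exact ⟨E, hE2, Finset.mem_filter.2 ⟨hE'C, h2.2.2⟩⟩
        have h3 : E' ∈ D.filter (fun E => E ∈ CBall_b G k e1 ρ 𝒞 C (n + 1)) :=
          Finset.mem_filter.2 ⟨hE'D, hE'b⟩
        rw [← hn] at h3
        exact Finset.mem_filter.1 h3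
    intro C' hC'
    exact (h1 C' (hreach C' hC')).2
  have hmono : ∀ n, CBall_b G k e1 ρ 𝒞 C n ⊆ CBall_b G k e1 ρ 𝒞 C (n + 1) := by
    intro n
    conv_rhs => rw [CBall_b]
    exact Finset.subset_union_left
  have key : ∀ n, n + 1 ≤ (D.filter (fun E => E ∈ CBall_b G k e1 ρ 𝒞 C n)).card ∨
      D ⊆ CBall_b G k e1 ρ 𝒞 C n := by
    intro n
    induction n with
    | zero =>
      left
      rw [zero_add]
      apply Finset.card_pos.2
      exact ⟨C, Finset.mem_filter.2 ⟨hCD, CBall_b_mem 0⟩⟩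
    | succ n ih =>
      rcases ih with ih | ih
      · by_cases heq : D.filter (fun E => E ∈ CBall_b G k e1 ρ 𝒞 C n) =
            D.filter (fun E => E ∈ CBall_b G k e1 ρ 𝒞 C (n + 1))
        · right
          exact (hclosed n heq).trans (hmono n)
        · left
          have hsub : D.filter (fun E => E ∈ CBall_b G k e1 ρ 𝒞 C n) ⊆
              D.filter (fun E => E ∈ CBall_b G k e1 ρ 𝒞 C (n + 1)) := by
            intro E hE
            rw [Finset.mem_filter] at hE ⊢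
            exact ⟨hE.1, hmono n hE.2⟩
          have hss := Finset.card_lt_card (hsub.ssubset_of_ne heq)
          omega
      · right
        exact ih.trans (hmono n)
  rcases key ⌊M / (e1 * c0)⌋₊ with h | h
  · exfalso
    have h1 : (D.filter (fun E => E ∈ CBall_b G k e1 ρ 𝒞 C ⌊M / (e1 * c0)⌋₊)).card ≤
        (tau G 𝒞 e1 x).card :=
      Finset.card_le_card ((Finset.filter_subset _ _).trans (fun E hE => ((hmemD E).1 hE).1))
    have h2 := card_tau_le hk he1 hc0 hdeg hdj hsz x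
    have h3 := Nat.le_floor h2
    omega
  · exact h

end LKU
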