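import Pool.Agent.LKU.CardTau

set_option autoImplicit false
set_option linter.unusedSectionVars false

/-!
# LKU: definitions for part C (links, zones, keys, classes), by helper32 (not a module)
-/

open scoped Classical

noncomputable section

namespace LKU

open Finset

variable {V : Type} [Fintype V]

/-- `C`, `C'` are linked at level `ρ`: at least `ρ k` vertices touch both -/
def Lk (G : SimpleGraph V) (k e1 ρ : ℝ) (C C' : Finset V) : Prop :=
  ρ * k ≤ ((NN G e1 C ∩ NN G e1 C').card : ℝ)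

/-- linked inside `τ` -/
def LR (G : SimpleGraph V) (k e1 ρ : ℝ) (τ : Finset (Finset V)) (C C' : Finset V) : Prop :=
  C ∈ τ ∧ C' ∈ τ ∧ Lk G k e1 ρ C C'

/-- the zone of `C` in `τ` (at level `ρ`) -/
def zn (G : SimpleGraph V) (k e1 ρ : ℝ) (τ : Finset (Finset V)) (C : Finset V) :
    Finset (Finset V) := τ.filter fun C' => Relation.ReflTransGen (LR G k e1 ρ τ) C C'

/-- the zones in `τ` (at level `ρ`) -/
def ZZ (G : SimpleGraph V) (k e1 ρ : ℝ) (τ : Finset (Finset V)) : Finset (Finset (Finset V)) :=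
  τ.image (zn G k e1 ρ τ)

/-- bounds: degree of the link graph, size of balls, number of keys per cluster -/
def dB (M e1 c0 ρ : ℝ) : ℕ := ⌊M / e1 * (M / (e1 * c0)) / ρ⌋₊
def nB (M e1 c0 ρ : ℝ) : ℕ := (1 + dB M e1 c0 ρ) ^ ⌊M / (e1 * c0)⌋₊
def lB (M e1 c0 ε2 ρ : ℝ) : ℕ :=
  2 ^ nB M e1 c0 ρ * (⌊1 / ε2⌋₊ + 1) ^ ⌊M / (e1 * c0)⌋₊

/-- the key of the zone `D` at `y`: `D` together with the rounded densities -/
def key (G : SimpleGraph V) (ε2 : ℝ) (y : V) (D : Finset (Finset V)) :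
    Finset (Finset V) × (Finset V → ℕ) :=
  (D, fun C => if C ∈ D then ⌊dn G C y / (ε2 * C.card)⌋₊ else 0)

/-- the keys of the vertices in `S` at level `ρ` -/
def keys (G : SimpleGraph V) (k e1 ρ ε2 : ℝ) (𝒞 : Finset (Finset V)) (S : Finset V) :
    Finset (Finset (Finset V) × (Finset V → ℕ)) :=
  S.biUnion fun y => (ZZ G k e1 ρ (tau G 𝒞 e1 y)).image (key G ε2 y)

/-- the class of a key -/
def cls (G : SimpleGraph V) (k e1 ρ ε2 : ℝ) (𝒞 : Finset (Finset V)) (S : Finset V)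
    (κ : Finset (Finset V) × (Finset V → ℕ)) : Finset V :=
  S.filter fun y => κ.1 ∈ ZZ G k e1 ρ (tau G 𝒞 e1 y) ∧ key G ε2 y κ.1 = κ

end LKU
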