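import Pool.Agent.LKU.CBall

set_option autoImplicit false
set_option linter.unusedSectionVars false

/-!
# LKU module CKey (difficulty 3): the number of keys

`card_keys_le`: a key of `keys` has the form `(D, f)` with `D ∈ ZZ (tau y)`; `D` is not empty, let `C ∈ D`, `C ∈ 𝒞`; `D ⊆ ℬ_C` (`exists_ball`), so for given `C` there are
at most `2^nB` sets `D`; `f = 0` outside `D`, `|D| ≤ |tau y| ≤ ⌊M/(e1 c0)⌋`, and `f C' = ⌊dn C' y/(ε2 |C'|)⌋ ≤ ⌊1/ε2⌋` (`dn ≤ |C'|`), so for given `D` at most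
`(⌊1/ε2⌋ + 1)^⌊M/(e1 c0)⌋` functions (e.g. `Fintype.piFinset fun C' => if C' ∈ D then range (⌊1/ε2⌋+1) else {0}`, `Fintype.card_piFinset`).

`sum_cls_le`: for each `y ∈ S` the keys `κ` with `y ∈ cls κ` are `key y D`, `D ∈ ZZ (tau y)`: at most `|tau y| ≤ M/(e1 c0)`.
`mem_cls`: `y ∈ cls (key y D)` for `y ∈ S`, `D ∈ ZZ (tau y)`.
`cls_den`: two members `y, y'` of the class of `(D, f)`: for `C ∈ D`, `C` nonempty, the numbers `dn C y/(ε2|C|)`, `dn C y'/(ε2|C|)` have the same floor, so they differ by `≤ 1`.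
`partner`: in a set `Q` of vertices of a good graph at most one `y` has no `y' ∈ Q`, `X` with `Cut y y' X` (`Good.cut`; two such vertices contradict it).
-/

open scoped Classical

noncomputable section

namespace LKU

open Finset

variable {V : Type} [Fintype V]

theorem CKey_fun_card (D : Finset (Finset V)) (m : ℕ) :
    (Fintype.piFinset (fun C' : Finset V => if C' ∈ D then range (m + 1) else {0})).card =
      (m + 1) ^ D.card := by
  rw [Fintype.card_piFinset]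
  have h : ∀ C' : Finset V, (if C' ∈ D then range (m + 1) else ({0} : Finset ℕ)).card =
      if C' ∈ D then m + 1 else 1 := by
    intro C'
    split_ifs <;> simp
  rw [prod_congr rfl fun C' _ => h C', prod_ite_mem, univ_inter, prod_const]

theorem card_keys_le {G : SimpleGraph V} {k M e1 c0 ρ ε2 : ℝ} {𝒞 : Finset (Finset V)}
    (hk : 1 ≤ k) (hM : 1 ≤ M) (he1 : 0 < e1) (hc0 : 0 < c0) (hρ : 0 < ρ) (hε2 : 0 < ε2)
    (hdeg : ∀ v, deg G v ≤ M * k)
    (hdj : ∀ C ∈ 𝒞, ∀ C' ∈ 𝒞, C ≠ C' → Disjoint C C') (hne : ∀ C ∈ 𝒞, C.Nonempty)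
    (hsz : ∀ C ∈ 𝒞, c0 * k ≤ C.card) (S : Finset V) :
    (keys G k e1 ρ ε2 𝒞 S).card ≤ 𝒞.card * lB M e1 c0 ε2 ρ := by
  have hb : ∀ C : Finset V, ∃ ℬ : Finset (Finset V), C ∈ 𝒞 → (ℬ.card ≤ nB M e1 c0 ρ ∧
      ∀ x, ∀ D ∈ ZZ G k e1 ρ (tau G 𝒞 e1 x), C ∈ D → D ⊆ ℬ) := by
    intro C
    by_cases hC : C ∈ 𝒞
    · obtain ⟨ℬ, h1, h2⟩ := exists_ball hk hM he1 hc0 hρ hdeg hdj hne hsz hC
      exact ⟨ℬ, fun _ => ⟨h1, h2⟩⟩
    · exact ⟨∅, fun h => absurd h hC⟩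
  choose ℬ hℬ using hb
  set N : ℕ := ⌊M / (e1 * c0)⌋₊ with hN
  set m : ℕ := ⌊1 / ε2⌋₊ with hm
  set F : Finset (Finset V) → Finset (Finset V → ℕ) := fun D =>
    Fintype.piFinset (fun C' : Finset V => if C' ∈ D then range (m + 1) else {0}) with hF
  have hsub : keys G k e1 ρ ε2 𝒞 S ⊆ 𝒞.biUnion fun C =>
      ((ℬ C).powerset.filter fun D => D.card ≤ N).biUnion fun D => (F D).image fun f => (D, f) := by
    intro κ hκ
    unfold keys at hκ
    rw [mem_biUnion] at hκ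
    obtain ⟨y, hy, hκ⟩ := hκ
    rw [mem_image] at hκ
    obtain ⟨D, hD, rfl⟩ := hκ
    obtain ⟨C, hC⟩ := ZZ_ne hD
    have hDt : D ⊆ tau G 𝒞 e1 y := ZZ_sub hD
    have hC𝒞 : C ∈ 𝒞 := (mem_tau.1 (hDt hC)).1
    rw [mem_biUnion]
    refine ⟨C, hC𝒞, ?_⟩
    rw [mem_biUnion]
    refine ⟨D, ?_, ?_⟩
    · rw [mem_filter, mem_powerset]
      refine ⟨(hℬ C hC𝒞).2 y D hD hC, ?_⟩
      have h1 : ((tau G 𝒞 e1 y).card : ℝ) ≤ M / (e1 * c0) :=
        card_tau_le hk he1 hc0 hdeg hdj hsz y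
      exact le_trans (card_le_card hDt) (Nat.le_floor h1)
    · rw [mem_image]
      refine ⟨(key G ε2 y D).2, ?_, rfl⟩
      rw [hF]
      change _ ∈ Fintype.piFinset _
      rw [Fintype.mem_piFinset]
      intro C'
      unfold key
      change (if C' ∈ D then ⌊dn G C' y / (ε2 * C'.card)⌋₊ else 0) ∈ _
      split_ifs with hC'
      · rw [mem_range, Nat.lt_succ_iff]
        apply Nat.floor_le_floor
        have hC'𝒞 : C' ∈ 𝒞 := (mem_tau.1 (hDt hC')).1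
        have hpos : (0 : ℝ) < C'.card := by exact_mod_cast card_pos.2 (hne C' hC'𝒞)
        rw [div_le_div_iff₀ (by positivity) hε2]
        have := dn_le_card G C' y
        nlinarith
      · simp
  refine le_trans (card_le_card hsub) ?_
  refine le_trans card_biUnion_le ?_
  have hC : ∀ C ∈ 𝒞, (((ℬ C).powerset.filter fun D => D.card ≤ N).biUnion fun D =>
      (F D).image fun f => (D, f)).card ≤ lB M e1 c0 ε2 ρ := by
    intro C hC
    refine le_trans card_biUnion_le ?_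
    have h1 : ∀ D ∈ (ℬ C).powerset.filter fun D => D.card ≤ N,
        ((F D).image fun f => (D, f)).card ≤ (m + 1) ^ N := by
      intro D hD
      rw [mem_filter] at hD
      refine le_trans card_image_le ?_
      rw [hF]
      change (Fintype.piFinset _).card ≤ _
      rw [CKey_fun_card]
      exact Nat.pow_le_pow_right (Nat.succ_pos m) hD.2
    refine le_trans (sum_le_card_nsmul _ _ _ h1) ?_
    rw [smul_eq_mul]
    unfold lB
    rw [← hN, ← hm]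
    apply Nat.mul_le_mul_right
    refine le_trans (card_filter_le _ _) ?_
    rw [card_powerset]
    exact Nat.pow_le_pow_right (by norm_num) (hℬ C hC).1
  refine le_trans (sum_le_card_nsmul _ _ _ hC) ?_
  rw [smul_eq_mul]

theorem mem_cls {G : SimpleGraph V} {k e1 ρ ε2 : ℝ} {𝒞 : Finset (Finset V)} {S : Finset V} {y : V}
    (hy : y ∈ S) {D : Finset (Finset V)} (hD : D ∈ ZZ G k e1 ρ (tau G 𝒞 e1 y)) :
    y ∈ cls G k e1 ρ ε2 𝒞 S (key G ε2 y D) := by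
  unfold cls
  rw [mem_filter]
  exact ⟨hy, hD, rfl⟩

theorem sum_cls_le {G : SimpleGraph V} {k M e1 c0 ρ ε2 : ℝ} {𝒞 : Finset (Finset V)}
    (hk : 1 ≤ k) (he1 : 0 < e1) (hc0 : 0 < c0) (hdeg : ∀ v, deg G v ≤ M * k)
    (hdj : ∀ C ∈ 𝒞, ∀ C' ∈ 𝒞, C ≠ C' → Disjoint C C') (hsz : ∀ C ∈ 𝒞, c0 * k ≤ C.card)
    (S : Finset V) :
    ∑ κ ∈ keys G k e1 ρ ε2 𝒞 S, ((cls G k e1 ρ ε2 𝒞 S κ).card : ℝ) ≤
      M / (e1 * c0) * Fintype.card V := by
  have hsum : ∑ κ ∈ keys G k e1 ρ ε2 𝒞 S, ((cls G k e1 ρ ε2 𝒞 S κ).card : ℝ) =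
      ∑ y : V, (((keys G k e1 ρ ε2 𝒞 S).filter fun κ => y ∈ cls G k e1 ρ ε2 𝒞 S κ).card : ℝ) := by
    have h := sum_card_bipartiteAbove_eq_sum_card_bipartiteBelow (s := keys G k e1 ρ ε2 𝒞 S)
      (t := (univ : Finset V)) (fun κ y => y ∈ cls G k e1 ρ ε2 𝒞 S κ)
    unfold bipartiteAbove bipartiteBelow at h
    have h2 : ∀ κ, (univ.filter fun y => y ∈ cls G k e1 ρ ε2 𝒞 S κ) = cls G k e1 ρ ε2 𝒞 S κ := by
      intro κ
      ext y
      simp
    simp only [h2] at h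
    exact_mod_cast h
  rw [hsum]
  have hy : ∀ y : V, (((keys G k e1 ρ ε2 𝒞 S).filter fun κ =>
      y ∈ cls G k e1 ρ ε2 𝒞 S κ).card : ℝ) ≤ M / (e1 * c0) := by
    intro y
    have hsub : ((keys G k e1 ρ ε2 𝒞 S).filter fun κ => y ∈ cls G k e1 ρ ε2 𝒞 S κ) ⊆
        (ZZ G k e1 ρ (tau G 𝒞 e1 y)).image (key G ε2 y) := by
      intro κ hκ
      rw [mem_filter] at hκ
      have h := hκ.2
      unfold cls at h
      rw [mem_filter] at h
      rw [mem_image]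
      exact ⟨κ.1, h.2.1, h.2.2⟩
    have h1 : ((keys G k e1 ρ ε2 𝒞 S).filter fun κ => y ∈ cls G k e1 ρ ε2 𝒞 S κ).card ≤
        (tau G 𝒞 e1 y).card :=
      le_trans (card_le_card hsub) (le_trans card_image_le ZZ_card_le)
    exact le_trans (by exact_mod_cast h1) (card_tau_le hk he1 hc0 hdeg hdj hsz y)
  refine le_trans (sum_le_sum fun y _ => hy y) ?_
  rw [sum_const, card_univ, nsmul_eq_mul, mul_comm]

theorem cls_den {G : SimpleGraph V} {k e1 ρ ε2 : ℝ} {𝒞 : Finset (Finset V)} {S : Finset V}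
    (hε2 : 0 < ε2) {κ : Finset (Finset V) × (Finset V → ℕ)} {y y' : V}
    (hy : y ∈ cls G k e1 ρ ε2 𝒞 S κ) (hy' : y' ∈ cls G k e1 ρ ε2 𝒞 S κ) {C : Finset V}
    (hC : C ∈ κ.1) (hne : C.Nonempty) : |dn G C y - dn G C y'| ≤ ε2 * C.card := by
  have hval : ∀ z, z ∈ cls G k e1 ρ ε2 𝒞 S κ → κ.2 C = ⌊dn G C z / (ε2 * C.card)⌋₊ := by
    intro z hz
    unfold cls at hz
    rw [mem_filter] at hz
    have h1 : (key G ε2 z κ.1).2 C = κ.2 C := by rw [hz.2.2]
    unfold key at h1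
    change (if C ∈ κ.1 then ⌊dn G C z / (ε2 * C.card)⌋₊ else 0) = κ.2 C at h1
    rw [if_pos hC] at h1
    exact h1.symm
  have h1 := hval y hy
  have h2 := hval y' hy'
  rw [h1] at h2
  have hpos : (0 : ℝ) < C.card := by exact_mod_cast card_pos.2 hne
  have hp : 0 < ε2 * (C.card : ℝ) := by positivity
  have ha : 0 ≤ dn G C y / (ε2 * C.card) := div_nonneg (dn_nonneg G C y) hp.le
  have hb : 0 ≤ dn G C y' / (ε2 * C.card) := div_nonneg (dn_nonneg G C y') hp.le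
  have h3 := Nat.floor_le ha
  have h4 := Nat.lt_floor_add_one (dn G C y / (ε2 * C.card))
  have h5 := Nat.floor_le hb
  have h6 := Nat.lt_floor_add_one (dn G C y' / (ε2 * C.card))
  rw [← h2] at h5 h6
  have h7 : |dn G C y / (ε2 * C.card) - dn G C y' / (ε2 * C.card)| ≤ 1 := by
    rw [abs_le]
    constructor <;> linarith
  rw [← sub_div, abs_div, abs_of_pos hp, div_le_one hp] at h7
  exact h7

theorem partner {G : SimpleGraph V} {k M ε0 : ℝ} (hG : Good G k M ε0) (Q : Finset V) :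
    (Q.filter fun y => ¬ ∃ y' ∈ Q, ∃ X, Cut G k M y y' X).card ≤ 1 := by
  rw [card_le_one]
  intro a ha b hb
  rw [mem_filter] at ha hb
  by_contra hne
  rcases hG.cut a b hne with h | h
  · exact ha.2 ⟨b, hb.1, h⟩
  · exact hb.2 ⟨a, ha.1, h⟩

end LKU
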