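import Pool.Agent.LKU.CDefs

set_option autoImplicit false
set_option linter.unusedSectionVars false

/-!
# LKU module CZon (difficulty 2): zones
-/

open scoped Classical

noncomputable section

namespace LKU

open Finset

variable {V : Type} [Fintype V] {G : SimpleGraph V} {k e1 ρ : ℝ} {τ : Finset (Finset V)}

theorem CZon_symm {C C' : Finset V} (h : Relation.ReflTransGen (LR G k e1 ρ τ) C C') :
    Relation.ReflTransGen (LR G k e1 ρ τ) C' C := by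
  induction h with
  | refl => exact Relation.ReflTransGen.refl
  | tail _ h2 ih =>
    refine Relation.ReflTransGen.head ?_ ih
    obtain ⟨h3, h4, h5⟩ := h2
    refine ⟨h4, h3, ?_⟩
    rw [Lk, Finset.inter_comm]
    exact h5

theorem CZon_mem {C C' : Finset V} :
    C' ∈ zn G k e1 ρ τ C ↔ C' ∈ τ ∧ Relation.ReflTransGen (LR G k e1 ρ τ) C C' := by
  rw [zn, Finset.mem_filter]

theorem CZon_eq {C C' : Finset V} (h : Relation.ReflTransGen (LR G k e1 ρ τ) C C') :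
    zn G k e1 ρ τ C = zn G k e1 ρ τ C' := by
  ext E
  rw [CZon_mem, CZon_mem]
  exact ⟨fun h1 => ⟨h1.1, (CZon_symm h).trans h1.2⟩, fun h1 => ⟨h1.1, h.trans h1.2⟩⟩

theorem CZon_self {C : Finset V} (hC : C ∈ τ) : C ∈ zn G k e1 ρ τ C :=
  CZon_mem.2 ⟨hC, Relation.ReflTransGen.refl⟩

theorem CZon_ZZ {D : Finset (Finset V)} : D ∈ ZZ G k e1 ρ τ ↔ ∃ C ∈ τ, zn G k e1 ρ τ C = D := by
  rw [ZZ, Finset.mem_image]

theorem CZon_of_mem {D : Finset (Finset V)} (hD : D ∈ ZZ G k e1 ρ τ) {C : Finset V} (hC : C ∈ D) :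
    D = zn G k e1 ρ τ C := by
  obtain ⟨C₀, -, rfl⟩ := CZon_ZZ.1 hD
  exact CZon_eq (CZon_mem.1 hC).2

theorem ZZ_ne {D : Finset (Finset V)} (hD : D ∈ ZZ G k e1 ρ τ) : D.Nonempty := by
  obtain ⟨C, hC, rfl⟩ := CZon_ZZ.1 hD
  exact ⟨C, CZon_self hC⟩

theorem ZZ_sub {D : Finset (Finset V)} (hD : D ∈ ZZ G k e1 ρ τ) : D ⊆ τ := by
  obtain ⟨C, hC, rfl⟩ := CZon_ZZ.1 hD
  exact Finset.filter_subset _ _

theorem ZZ_dj {D D' : Finset (Finset V)} (hD : D ∈ ZZ G k e1 ρ τ) (hD' : D' ∈ ZZ G k e1 ρ τ)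
    (hne : D ≠ D') : Disjoint D D' := by
  rw [Finset.disjoint_left]
  intro C hC hC'
  exact hne ((CZon_of_mem hD hC).trans (CZon_of_mem hD' hC').symm)

theorem ZZ_cov {C : Finset V} (hC : C ∈ τ) : ∃ D ∈ ZZ G k e1 ρ τ, C ∈ D :=
  ⟨zn G k e1 ρ τ C, CZon_ZZ.2 ⟨C, hC, rfl⟩, CZon_self hC⟩

theorem ZZ_sep {D : Finset (Finset V)} (hD : D ∈ ZZ G k e1 ρ τ) {C C' : Finset V} (hC : C ∈ D)
    (hC' : C' ∈ τ) (hC'D : C' ∉ D) : ¬ Lk G k e1 ρ C C' := by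
  intro h
  apply hC'D
  rw [CZon_of_mem hD hC, CZon_mem]
  exact ⟨hC', Relation.ReflTransGen.single ⟨ZZ_sub hD hC, hC', h⟩⟩

theorem ZZ_card_le : (ZZ G k e1 ρ τ).card ≤ τ.card := by
  rw [ZZ]
  exact Finset.card_image_le

theorem CZon_mono {ρ' : ℝ} (hk : 0 ≤ k) (h : ρ' ≤ ρ) {C C' : Finset V}
    (hC : Relation.ReflTransGen (LR G k e1 ρ τ) C C') :
    Relation.ReflTransGen (LR G k e1 ρ' τ) C C' := by
  refine Relation.ReflTransGen.mono ?_ _ _ hC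
  rintro A B ⟨h1, h2, h3⟩
  refine ⟨h1, h2, ?_⟩
  rw [Lk] at h3 ⊢
  exact (mul_le_mul_of_nonneg_right h hk).trans h3

/-- the map from the zones of level `ρ` to the zones of level `ρ'` -/
def CZon_f (G : SimpleGraph V) (k e1 ρ' : ℝ) (τ : Finset (Finset V)) (D : Finset (Finset V)) :
    Finset (Finset V) :=
  if h : D.Nonempty then zn G k e1 ρ' τ h.choose else ∅

theorem CZon_f_zn {ρ' : ℝ} (hk : 0 ≤ k) (h : ρ' ≤ ρ) {C : Finset V} (hC : C ∈ τ) :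
    CZon_f G k e1 ρ' τ (zn G k e1 ρ τ C) = zn G k e1 ρ' τ C := by
  have hne : (zn G k e1 ρ τ C).Nonempty := ⟨C, CZon_self hC⟩
  rw [CZon_f, dif_pos hne]
  have h1 := CZon_mem.1 hne.choose_spec
  exact (CZon_eq (CZon_mono hk h h1.2)).symm

theorem CZon_surj {ρ' : ℝ} (hk : 0 ≤ k) (h : ρ' ≤ ρ) :
    Set.SurjOn (CZon_f G k e1 ρ' τ) (ZZ G k e1 ρ τ) (ZZ G k e1 ρ' τ) := by
  intro D' hD'
  obtain ⟨C, hC, rfl⟩ := CZon_ZZ.1 (Finset.mem_coe.1 hD')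
  exact ⟨zn G k e1 ρ τ C, Finset.mem_coe.2 (CZon_ZZ.2 ⟨C, hC, rfl⟩), CZon_f_zn hk h hC⟩

theorem CZon_maps {ρ' : ℝ} (hk : 0 ≤ k) (h : ρ' ≤ ρ) :
    Set.MapsTo (CZon_f G k e1 ρ' τ) (ZZ G k e1 ρ τ) (ZZ G k e1 ρ' τ) := by
  intro D hD
  obtain ⟨C, hC, rfl⟩ := CZon_ZZ.1 (Finset.mem_coe.1 hD)
  rw [CZon_f_zn hk h hC]
  exact Finset.mem_coe.2 (CZon_ZZ.2 ⟨C, hC, rfl⟩)

theorem ZZ_mono_card {ρ' : ℝ} (hk : 0 ≤ k) (h : ρ' ≤ ρ) :
    (ZZ G k e1 ρ' τ).card ≤ (ZZ G k e1 ρ τ).card :=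
  Finset.card_le_card_of_surjOn _ (CZon_surj hk h)

theorem ZZ_eq_of_card {ρ' : ℝ} (hk : 0 ≤ k) (h : ρ' ≤ ρ)
    (hc : (ZZ G k e1 ρ' τ).card = (ZZ G k e1 ρ τ).card) : ZZ G k e1 ρ' τ = ZZ G k e1 ρ τ := by
  have hinj : Set.InjOn (CZon_f G k e1 ρ' τ) (ZZ G k e1 ρ τ : Set (Finset (Finset V))) :=
    Finset.injOn_of_surjOn_of_card_le _ (CZon_maps hk h) (CZon_surj hk h) hc.ge
  have hzn : ∀ C ∈ τ, zn G k e1 ρ' τ C = zn G k e1 ρ τ C := by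
    intro C hC
    ext C'
    rw [CZon_mem, CZon_mem]
    constructor
    · rintro ⟨h1, h2⟩
      refine ⟨h1, ?_⟩
      have h3 : CZon_f G k e1 ρ' τ (zn G k e1 ρ τ C) = CZon_f G k e1 ρ' τ (zn G k e1 ρ τ C') := by
        rw [CZon_f_zn hk h hC, CZon_f_zn hk h h1]
        exact CZon_eq h2
      have h4 := hinj (Finset.mem_coe.2 (CZon_ZZ.2 ⟨C, hC, rfl⟩))
        (Finset.mem_coe.2 (CZon_ZZ.2 ⟨C', h1, rfl⟩)) h3
      have h5 : C' ∈ zn G k e1 ρ τ C := by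
        rw [h4]
        exact CZon_self h1
      exact (CZon_mem.1 h5).2
    · rintro ⟨h1, h2⟩
      exact ⟨h1, CZon_mono hk h h2⟩
  rw [ZZ, ZZ]
  exact Finset.image_congr (fun C hC => hzn C (Finset.mem_coe.1 hC))

end LKU
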