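import Pool.Agent.LKU.CardTau

set_option autoImplicit false
set_option linter.unusedSectionVars false

/-!
# LKU part D: the hull lemma
-/

open scoped Classical

noncomputable section

namespace LKU

open Finset

/-- scale pigeonhole -/
theorem DHull_scale {V : Type} [Fintype V] (g : V → ℝ) (hg : ∀ v, 0 ≤ g v) (th : ℕ → ℝ)
    (hth : ∀ i, th (i + 1) ≤ th i) {A b : ℝ} (m : ℕ) (hm : 0 < m) (hsum : ∑ v, g v ≤ A)
    (hb : A ≤ m * b) :
    ∃ i, i < m ∧ ∑ v ∈ univ.filter (fun v => th (i + 1) ≤ g v ∧ g v < th i), g v ≤ b := by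
  by_contra hcon
  push Not at hcon
  have hanti : Antitone th := antitone_nat_of_succ_le hth
  have hdis : Set.PairwiseDisjoint ((range m : Finset ℕ) : Set ℕ)
      (fun i => univ.filter (fun v => th (i + 1) ≤ g v ∧ g v < th i)) := by
    intro i _ j _ hij
    rw [Function.onFun, disjoint_left]
    intro v hv hv'
    have h1 := (mem_filter.1 hv).2
    have h2 := (mem_filter.1 hv').2
    rcases lt_or_gt_of_ne hij with h | h
    · have := hanti (Nat.succ_le_of_lt h)
      have h3 : th j ≤ th (i + 1) := this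
      linarith
    · have := hanti (Nat.succ_le_of_lt h)
      have h3 : th i ≤ th (j + 1) := this
      linarith
  have h1 : ∑ i ∈ range m, ∑ v ∈ univ.filter (fun v => th (i + 1) ≤ g v ∧ g v < th i), g v ≤
      ∑ v, g v := by
    rw [← sum_biUnion hdis]
    exact sum_le_sum_of_subset_of_nonneg (subset_univ _) (fun v _ _ => hg v)
  have h2 : ∑ i ∈ range m, b <
      ∑ i ∈ range m, ∑ v ∈ univ.filter (fun v => th (i + 1) ≤ g v ∧ g v < th i), g v := by
    apply sum_lt_sum_of_nonempty ⟨0, mem_range.2 hm⟩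
    intro i hi
    exact hcon i (mem_range.1 hi)
  rw [sum_const, card_range, nsmul_eq_mul] at h2
  linarith

/-- Markov -/
theorem DHull_markov {ι : Type} (Q : Finset ι) (f : ι → ℝ) (hf : ∀ x ∈ Q, 0 ≤ f x) {a b : ℝ}
    (ha : 0 < a) (h : ∑ x ∈ Q, f x ≤ b * a) : ((Q.filter fun x => a < f x).card : ℝ) ≤ b := by
  have h1 : ((Q.filter fun x => a < f x).card : ℝ) * a ≤ ∑ x ∈ Q, f x := by
    calc ((Q.filter fun x => a < f x).card : ℝ) * a = ∑ x ∈ Q.filter (fun x => a < f x), a := by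
          rw [sum_const, nsmul_eq_mul]
      _ ≤ ∑ x ∈ Q.filter (fun x => a < f x), f x :=
          sum_le_sum fun x hx => (mem_filter.1 hx).2.le
      _ ≤ ∑ x ∈ Q, f x :=
          sum_le_sum_of_subset_of_nonneg (filter_subset _ _) (fun x hx _ => hf x hx)
  exact le_of_mul_le_mul_right (h1.trans h) ha

/-- weights -/
def DHull_g {V ι : Type} (Q : Finset ι) (S : ι → Finset V) (w : V) : ℝ :=
  ((Q.filter fun x => w ∈ S x).card : ℝ) / Q.card

theorem DHull_g_nonneg {V ι : Type} (Q : Finset ι) (S : ι → Finset V) (w : V) :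
    0 ≤ DHull_g Q S w := by
  unfold DHull_g; positivity

theorem DHull_sum {V ι : Type} (Q : Finset ι) (S : ι → Finset V) (hQ : Q.Nonempty) (T : Finset V)
    (f : V → ℝ) : (Q.card : ℝ) * ∑ w ∈ T, DHull_g Q S w * f w =
      ∑ x ∈ Q, ∑ w ∈ T ∩ S x, f w := by
  have hq : (Q.card : ℝ) ≠ 0 := by
    have := hQ.card_pos
    positivity
  rw [mul_sum]
  have h1 : ∀ w ∈ T, (Q.card : ℝ) * (DHull_g Q S w * f w) =
      ∑ x ∈ Q, if w ∈ S x then f w else 0 := by
    intro w _
    rw [← sum_filter, sum_const, nsmul_eq_mul]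
    unfold DHull_g
    field_simp
  rw [sum_congr rfl h1, sum_comm]
  apply sum_congr rfl
  intro x _
  rw [← sum_filter]
  apply sum_congr _ (fun _ _ => rfl)
  ext w; simp

/-- the hull lemma at one scale -/
theorem DHull_one {V ι : Type} [Fintype V] (G : SimpleGraph V) {k M M' w1 η σ σ' s t t' : ℝ}
    (hk : 1 ≤ k) (hM : 1 ≤ M) (hM' : 0 ≤ M') (hη : 0 < η) (hσ : 0 < σ) (hσ' : 0 < σ')
    (hs : 0 < s) (ht : 0 < t) (ht' : 0 < t') (htt : t' ≤ t)
    (hdeg : ∀ v, deg G v ≤ M * k) (Q : Finset ι) (hQ : Q.Nonempty) (S : ι → Finset V)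
    (hS : ∀ x ∈ Q, ((S x).card : ℝ) ≤ M' * k) (W1 : Finset V) (hW1 : (W1.card : ℝ) ≤ w1 * k)
    (hband : ∑ v ∈ univ.filter (fun v => t' ≤ DHull_g Q S v ∧ DHull_g Q S v < t),
      DHull_g Q S v ≤ s * k)
    (hsmall : t' * (M' / t + M * M' / (η * t) + w1) ≤ s)
    (hs1 : 4 * s ≤ σ' * σ) (hs2 : 4 * (s * M) ≤ σ' * (η * σ)) :
    ∃ H W : Finset V, H ⊆ W ∧ tb G (η * k) H ⊆ W ∧ W1 ⊆ W ∧
      (W.card : ℝ) ≤ (M' / t + M * M' / (η * t) + w1) * k ∧
      ((Q.filter fun x => σ * k < (((S x ∩ W) \ H).card : ℝ) ∨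
        σ * k < ((W.filter fun z => η * k ≤ dn G (S x \ H) z).card : ℝ)).card : ℝ) ≤
        σ' * Q.card := by
  have hk0 : 0 < k := by linarith
  have hM0 : 0 < M := by linarith
  have hq : (0 : ℝ) < Q.card := by exact_mod_cast hQ.card_pos
  set g := DHull_g Q S with hg
  have hg0 : ∀ w, 0 ≤ g w := DHull_g_nonneg Q S
  set H := univ.filter fun v => t ≤ g v with hH
  set W := (H ∪ tb G (η * k) H) ∪ W1 with hW
  have hsumg : ∑ w, g w ≤ M' * k := by
    have h1 := DHull_sum Q S hQ univ (fun _ => 1)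
    simp only [mul_one, sum_const, nsmul_eq_mul, univ_inter] at h1
    have h2 : ∑ x ∈ Q, ((S x).card : ℝ) ≤ ∑ x ∈ Q, M' * k := sum_le_sum hS
    rw [sum_const, nsmul_eq_mul] at h2
    have h3 : (Q.card : ℝ) * ∑ w, g w ≤ Q.card * (M' * k) := by
      rw [h1]; exact h2
    exact le_of_mul_le_mul_left h3 hq
  -- size of H
  have hHcard : (H.card : ℝ) ≤ M' / t * k := by
    have h1 : (H.card : ℝ) * t ≤ M' * k := by
      calc (H.card : ℝ) * t = ∑ w ∈ H, t := by rw [sum_const, nsmul_eq_mul]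
        _ ≤ ∑ w ∈ H, g w := sum_le_sum fun w hw => (mem_filter.1 hw).2
        _ ≤ ∑ w, g w := sum_le_sum_of_subset_of_nonneg (subset_univ _) (fun w _ _ => hg0 w)
        _ ≤ M' * k := hsumg
    have h2 : M' / t * k = (M' * k) / t := by ring
    rw [h2, le_div_iff₀ ht]
    exact h1
  -- size of the thick boundary
  have hdnle : ∀ w, dn G univ w ≤ M * k := hdeg
  have htb : ((tb G (η * k) H).card : ℝ) ≤ M * M' / (η * t) * k := by
    have h1 : ∀ z ∈ tb G (η * k) H, η * k * t ≤ ∑ w ∈ nb G univ z, g w := by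
      intro z hz
      have h2 := (mem_tb.1 hz).2
      calc η * k * t ≤ dn G H z * t := mul_le_mul_of_nonneg_right h2 ht.le
        _ = ∑ w ∈ nb G H z, t := by rw [sum_const, nsmul_eq_mul]; rfl
        _ ≤ ∑ w ∈ nb G H z, g w :=
            sum_le_sum fun w hw => (mem_filter.1 (mem_nb.1 hw).1).2
        _ ≤ ∑ w ∈ nb G univ z, g w :=
            sum_le_sum_of_subset_of_nonneg (nb_mono G (subset_univ H) z) (fun w _ _ => hg0 w)
    have h2 : ∑ z, ∑ w ∈ nb G univ z, g w = ∑ w, g w * dn G univ w := by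
      have h3 : ∀ z, ∑ w ∈ nb G univ z, g w = ∑ w, if G.Adj z w then g w else 0 := by
        intro z
        rw [← sum_filter]
        rfl
      simp_rw [h3]
      rw [sum_comm]
      apply sum_congr rfl
      intro w _
      rw [← sum_filter, sum_const, nsmul_eq_mul, mul_comm]
      unfold dn nb
      congr 3
      ext z
      simp [G.adj_comm]
    have h4 : ((tb G (η * k) H).card : ℝ) * (η * k * t) ≤ M * k * (M' * k) := by
      calc ((tb G (η * k) H).card : ℝ) * (η * k * t) = ∑ z ∈ tb G (η * k) H, η * k * t := by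
            rw [sum_const, nsmul_eq_mul]
        _ ≤ ∑ z ∈ tb G (η * k) H, ∑ w ∈ nb G univ z, g w := sum_le_sum h1
        _ ≤ ∑ z, ∑ w ∈ nb G univ z, g w :=
            sum_le_sum_of_subset_of_nonneg (subset_univ _)
              (fun z _ _ => sum_nonneg fun w _ => hg0 w)
        _ = ∑ w, g w * dn G univ w := h2
        _ ≤ ∑ w, g w * (M * k) :=
            sum_le_sum fun w _ => mul_le_mul_of_nonneg_left (hdnle w) (hg0 w)
        _ = (∑ w, g w) * (M * k) := by rw [sum_mul]
        _ ≤ (M' * k) * (M * k) := mul_le_mul_of_nonneg_right hsumg (by positivity)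
        _ = M * k * (M' * k) := by ring
    have h5 : M * M' / (η * t) * k = (M * k * (M' * k)) / (η * k * t) := by
      field_simp
    rw [h5, le_div_iff₀ (by positivity)]
    exact h4
  have hWcard : (W.card : ℝ) ≤ (M' / t + M * M' / (η * t) + w1) * k := by
    have h1 : W.card ≤ (H.card + (tb G (η * k) H).card) + W1.card :=
      (card_union_le _ _).trans (Nat.add_le_add_right (card_union_le _ _) _)
    have h2 : (W.card : ℝ) ≤ (H.card + (tb G (η * k) H).card) + W1.card := by exact_mod_cast h1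
    linarith
  -- weighted sums outside H
  have hout : ∀ f : V → ℝ, (∀ v, 0 ≤ f v) → ∀ B, (∀ v, f v ≤ B) → 0 ≤ B →
      ∑ w ∈ Hᶜ, g w * f w ≤ s * k * B + t' * ∑ w, f w := by
    intro f hf B hfB hB
    have h1 : ∀ w ∈ Hᶜ, g w * f w ≤ (if t' ≤ g w ∧ g w < t then g w else 0) * B + t' * f w := by
      intro w hw
      have hwt : g w < t := by
        by_contra hcon
        exact (mem_compl.1 hw) (mem_filter.2 ⟨mem_univ _, not_lt.1 hcon⟩)
      by_cases h2 : t' ≤ g w
      · rw [if_pos ⟨h2, hwt⟩]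
        have := mul_le_mul_of_nonneg_left (hfB w) (hg0 w)
        have h3 : 0 ≤ t' * f w := mul_nonneg ht'.le (hf w)
        linarith
      · rw [if_neg (fun h => h2 h.1), zero_mul, zero_add]
        exact mul_le_mul_of_nonneg_right (not_le.1 h2).le (hf w)
    refine (sum_le_sum h1).trans ?_
    rw [sum_add_distrib, ← sum_mul, ← mul_sum]
    have h2 : ∑ w ∈ Hᶜ, (if t' ≤ g w ∧ g w < t then g w else 0) ≤ s * k := by
      refine le_trans ?_ hband
      rw [sum_filter]
      exact sum_le_sum_of_subset_of_nonneg (subset_univ _) (fun w _ _ => by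
        split_ifs
        · exact hg0 w
        · exact le_rfl)
    have h3 : ∑ w ∈ Hᶜ, f w ≤ ∑ w, f w :=
      sum_le_sum_of_subset_of_nonneg (subset_univ _) (fun w _ _ => hf w)
    exact add_le_add (mul_le_mul_of_nonneg_right h2 hB) (mul_le_mul_of_nonneg_left h3 ht'.le)
  have htW : t' * W.card ≤ s * k := by
    have h1 := mul_le_mul_of_nonneg_left hWcard ht'.le
    have h2 := mul_le_mul_of_nonneg_right hsmall hk0.le
    linarith
  -- first average
  have hav1 : ∑ x ∈ Q, (((S x ∩ W) \ H).card : ℝ) ≤ (σ' / 2 * Q.card) * (σ * k) := by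
    have h1 := DHull_sum Q S hQ Hᶜ (fun w => if w ∈ W then 1 else 0)
    have h2 := hout (fun w => if w ∈ W then 1 else 0) (fun v => by split_ifs <;> norm_num) 1
      (fun v => by split_ifs <;> norm_num) zero_le_one
    have h3 : ∀ x ∈ Q, ∑ w ∈ Hᶜ ∩ S x, (if w ∈ W then (1 : ℝ) else 0) =
        (((S x ∩ W) \ H).card : ℝ) := by
      intro x _
      rw [← sum_filter, sum_const, nsmul_eq_mul, mul_one]
      congr 2
      ext w
      simp only [mem_filter, mem_inter, mem_compl, mem_sdiff]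
      tauto
    rw [sum_congr rfl h3] at h1
    rw [← h1]
    have h4 : ∑ w : V, (if w ∈ W then (1 : ℝ) else 0) = W.card := by
      rw [← sum_filter, sum_const, nsmul_eq_mul, mul_one]
      congr 2
      ext w; simp
    rw [h4] at h2
    have h5 : ∑ w ∈ Hᶜ, g w * (if w ∈ W then (1 : ℝ) else 0) ≤ σ' / 2 * (σ * k) := by
      have h6 : 4 * s * k ≤ σ' * σ * k := mul_le_mul_of_nonneg_right hs1 hk0.le
      linarith
    calc (Q.card : ℝ) * ∑ w ∈ Hᶜ, g w * (if w ∈ W then (1 : ℝ) else 0)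
        ≤ Q.card * (σ' / 2 * (σ * k)) := mul_le_mul_of_nonneg_left h5 hq.le
      _ = (σ' / 2 * Q.card) * (σ * k) := by ring
  -- second average
  have hav2 : ∑ x ∈ Q, ((W.filter fun z => η * k ≤ dn G (S x \ H) z).card : ℝ) ≤
      (σ' / 2 * Q.card) * (σ * k) := by
    have h1 := DHull_sum Q S hQ Hᶜ (fun w => dn G W w)
    have h2 := hout (fun w => dn G W w) (fun v => dn_nonneg G W v) (M * k)
      (fun v => (dn_le_deg G W v).trans (hdeg v)) (by positivity)
    have h3 : ∑ w, dn G W w ≤ W.card * (M * k) := by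
      rw [sum_dn_comm]
      calc ∑ v ∈ W, dn G univ v ≤ ∑ v ∈ W, M * k := sum_le_sum fun v _ => hdeg v
        _ = W.card * (M * k) := by rw [sum_const, nsmul_eq_mul]
    have h4 : ∀ x ∈ Q, ((W.filter fun z => η * k ≤ dn G (S x \ H) z).card : ℝ) * (η * k) ≤
        ∑ w ∈ Hᶜ ∩ S x, dn G W w := by
      intro x _
      have h5 : Hᶜ ∩ S x = S x \ H := by
        ext w; simp only [mem_inter, mem_compl, mem_sdiff]; tauto
      rw [h5, ← sum_dn_comm]
      calc ((W.filter fun z => η * k ≤ dn G (S x \ H) z).card : ℝ) * (η * k)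
          = ∑ z ∈ W.filter (fun z => η * k ≤ dn G (S x \ H) z), η * k := by
            rw [sum_const, nsmul_eq_mul]
        _ ≤ ∑ z ∈ W.filter (fun z => η * k ≤ dn G (S x \ H) z), dn G (S x \ H) z :=
            sum_le_sum fun z hz => (mem_filter.1 hz).2
        _ ≤ ∑ z ∈ W, dn G (S x \ H) z :=
            sum_le_sum_of_subset_of_nonneg (filter_subset _ _) (fun z _ _ => dn_nonneg G _ z)
    have h5 := sum_le_sum h4
    rw [← sum_mul, ← h1] at h5
    have h6 : t' * ∑ w, dn G W w ≤ s * k * (M * k) := by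
      calc t' * ∑ w, dn G W w ≤ t' * (W.card * (M * k)) := mul_le_mul_of_nonneg_left h3 ht'.le
        _ = (t' * W.card) * (M * k) := by ring
        _ ≤ s * k * (M * k) := mul_le_mul_of_nonneg_right htW (by positivity)
    have h7 : ∑ w ∈ Hᶜ, g w * dn G W w ≤ σ' / 2 * (σ * k) * (η * k) := by
      have h8 : 4 * (s * M) * (k * k) ≤ σ' * (η * σ) * (k * k) :=
        mul_le_mul_of_nonneg_right hs2 (by positivity)
      linarith
    have h8 : (∑ x ∈ Q, ((W.filter fun z => η * k ≤ dn G (S x \ H) z).card : ℝ)) * (η * k) ≤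
        ((σ' / 2 * Q.card) * (σ * k)) * (η * k) := by
      refine h5.trans ((mul_le_mul_of_nonneg_left h7 hq.le).trans (le_of_eq ?_))
      ring
    exact le_of_mul_le_mul_right h8 (by positivity)
  refine ⟨H, W, ?_, ?_, subset_union_right, hWcard, ?_⟩
  · exact subset_union_left.trans subset_union_left
  · exact subset_union_right.trans subset_union_left
  · have hm1 := DHull_markov Q (fun x => (((S x ∩ W) \ H).card : ℝ)) (fun x _ => by positivity)
      (by positivity : 0 < σ * k) hav1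
    have hm2 := DHull_markov Q
      (fun x => ((W.filter fun z => η * k ≤ dn G (S x \ H) z).card : ℝ))
      (fun x _ => by positivity) (by positivity : 0 < σ * k) hav2
    rw [filter_or]
    have h1 := card_union_le (Q.filter fun x => σ * k < (((S x ∩ W) \ H).card : ℝ))
      (Q.filter fun x => σ * k < ((W.filter fun z => η * k ≤ dn G (S x \ H) z).card : ℝ))
    have h2 : (((Q.filter fun x => σ * k < (((S x ∩ W) \ H).card : ℝ)) ∪
      (Q.filter fun x => σ * k <
        ((W.filter fun z => η * k ≤ dn G (S x \ H) z).card : ℝ))).card : ℝ) ≤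
      ((Q.filter fun x => σ * k < (((S x ∩ W) \ H).card : ℝ)).card : ℝ) +
      ((Q.filter fun x => σ * k <
        ((W.filter fun z => η * k ≤ dn G (S x \ H) z).card : ℝ)).card : ℝ) := by
      exact_mod_cast h1
    linarith

/-- thresholds -/
def DHull_th (M M' w1 η s : ℝ) : ℕ → ℝ
  | 0 => 1
  | i + 1 => min (DHull_th M M' w1 η s i) (s / (M' / DHull_th M M' w1 η s i +
      M * M' / (η * DHull_th M M' w1 η s i) + w1 + 1))

theorem DHull_th_pos {M M' w1 η s : ℝ} (hM : 1 ≤ M) (hM' : 0 ≤ M') (hw1 : 0 ≤ w1) (hη : 0 < η)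
    (hs : 0 < s) (i : ℕ) : 0 < DHull_th M M' w1 η s i := by
  induction i with
  | zero => unfold DHull_th; norm_num
  | succ i ih =>
    unfold DHull_th
    have hM0 : 0 < M := by linarith
    apply lt_min ih
    positivity

/-- The hull lemma. -/
theorem DHull_main (M M' w1 η σ σ' : ℝ) (hM : 1 ≤ M) (hM' : 0 ≤ M') (hw1 : 0 ≤ w1) (hη : 0 < η)
    (hσ : 0 < σ) (hσ' : 0 < σ') : ∃ w0 : ℝ, 0 ≤ w0 ∧ ∀ (V ι : Type) [Fintype V]
      (G : SimpleGraph V) (k : ℝ), 1 ≤ k → (∀ v, deg G v ≤ M * k) → ∀ (Q : Finset ι),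
      Q.Nonempty → ∀ (S : ι → Finset V), (∀ x ∈ Q, ((S x).card : ℝ) ≤ M' * k) →
      ∀ W1 : Finset V, (W1.card : ℝ) ≤ w1 * k →
      ∃ H W : Finset V, H ⊆ W ∧ tb G (η * k) H ⊆ W ∧ W1 ⊆ W ∧ (W.card : ℝ) ≤ w0 * k ∧
      ((Q.filter fun x => σ * k < (((S x ∩ W) \ H).card : ℝ) ∨
        σ * k < ((W.filter fun z => η * k ≤ dn G (S x \ H) z).card : ℝ)).card : ℝ) ≤
        σ' * Q.card := by
  have hM0 : 0 < M := by linarith
  set s := min (σ' * σ / 4) (σ' * (η * σ) / (4 * M)) with hs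
  have hs0 : 0 < s := lt_min (by positivity) (by positivity)
  have hs1 : 4 * s ≤ σ' * σ := by
    have : s ≤ σ' * σ / 4 := min_le_left _ _
    linarith
  have hs2 : 4 * (s * M) ≤ σ' * (η * σ) := by
    have : s ≤ σ' * (η * σ) / (4 * M) := min_le_right _ _
    rw [le_div_iff₀ (by positivity)] at this
    linarith
  obtain ⟨m, hm⟩ := exists_nat_gt (M' / s)
  have hm0 : 0 < m := by
    have h1 : 0 ≤ M' / s := by positivity
    have h2 : (0 : ℝ) < m := lt_of_le_of_lt h1 hm
    exact_mod_cast h2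
  set th := DHull_th M M' w1 η s with hth
  have hthpos : ∀ i, 0 < th i := DHull_th_pos hM hM' hw1 hη hs0
  have hthle : ∀ i, th (i + 1) ≤ th i := fun i => min_le_left _ _
  have hth2 : ∀ i, th (i + 1) * (M' / th i + M * M' / (η * th i) + w1) ≤ s := by
    intro i
    have hp := hthpos i
    have h1 : th (i + 1) ≤ s / (M' / th i + M * M' / (η * th i) + w1 + 1) := min_le_right _ _
    have h2 : 0 < M' / th i + M * M' / (η * th i) + w1 + 1 := by positivity
    rw [le_div_iff₀ h2] at h1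
    have h3 := hthpos (i + 1)
    nlinarith
  have hanti : Antitone th := antitone_nat_of_succ_le hthle
  refine ⟨M' / th m + M * M' / (η * th m) + w1, ?_, ?_⟩
  · have := hthpos m
    positivity
  intro V ι _ G k hk hdeg Q hQ S hS W1 hW1
  have hk0 : 0 < k := by linarith
  have hq : (0 : ℝ) < Q.card := by exact_mod_cast hQ.card_pos
  have hsumg : ∑ w, DHull_g Q S w ≤ M' * k := by
    have h1 := DHull_sum Q S hQ univ (fun _ => 1)
    simp only [mul_one, sum_const, nsmul_eq_mul, univ_inter] at h1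
    have h2 : ∑ x ∈ Q, ((S x).card : ℝ) ≤ ∑ x ∈ Q, M' * k := sum_le_sum hS
    rw [sum_const, nsmul_eq_mul] at h2
    have h3 : (Q.card : ℝ) * ∑ w, DHull_g Q S w ≤ Q.card * (M' * k) := by
      rw [h1]; exact h2
    exact le_of_mul_le_mul_left h3 hq
  have hmb : M' * k ≤ m * (s * k) := by
    rw [div_lt_iff₀ hs0] at hm
    nlinarith
  obtain ⟨i, hi, hband⟩ := DHull_scale (DHull_g Q S) (DHull_g_nonneg Q S) th hthle m hm0 hsumg hmb
  obtain ⟨H, W, h1, h2, h3, h4, h5⟩ := DHull_one G hk hM hM' hη hσ hσ' hs0 (hthpos i)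
    (hthpos (i + 1)) (hthle i) hdeg Q hQ S hS W1 hW1 hband (hth2 i) hs1 hs2
  refine ⟨H, W, h1, h2, h3, h4.trans ?_, h5⟩
  have h6 : th m ≤ th i := hanti hi.le
  have h7 := hthpos m
  have h8 := hthpos i
  apply mul_le_mul_of_nonneg_right _ hk0.le
  have h9 : M' / th i ≤ M' / th m := div_le_div_of_nonneg_left hM' h7 h6
  have h10 : M * M' / (η * th i) ≤ M * M' / (η * th m) :=
    div_le_div_of_nonneg_left (by positivity) (by positivity)
      (mul_le_mul_of_nonneg_left h6 hη.le)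
  linarith

end LKU
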