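import Mathlib

set_option autoImplicit false

/-!
# LKU: definitions

Sharp upper bound for the number of edges of graphs with bounded local connectivity.
`k` is a real parameter (the unit of size).
-/

open scoped Classical

noncomputable section

namespace LKU

open Finset

/-- `β = 4 - 2√3 = 0.5358...` -/
def be : ℝ := 4 - 2 * √3

/-- `τ² = (2 - √3)² = 7 - 4√3 = 0.0717...`; `2 β = 1 + τ²`. -/
def t2 : ℝ := 7 - 4 * √3

variable {V : Type} [Fintype V]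

/-- the neighbours of `z` in `S` -/
def nb (G : SimpleGraph V) (S : Finset V) (z : V) : Finset V := S.filter fun v => G.Adj z v

/-- the number of neighbours of `z` in `S` -/
def dn (G : SimpleGraph V) (S : Finset V) (z : V) : ℝ := ((nb G S z).card : ℝ)

/-- the degree -/
def deg (G : SimpleGraph V) (z : V) : ℝ := dn G univ z

/-- the boundary `N(S)` of `S` (vertices outside `S` with a neighbour in `S`) -/
def bd (G : SimpleGraph V) (S : Finset V) : Finset V :=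
  univ.filter fun z => z ∉ S ∧ ∃ v ∈ S, G.Adj z v

/-- the thick boundary of `S` (vertices outside `S` with at least `h` neighbours in `S`) -/
def tb (G : SimpleGraph V) (h : ℝ) (S : Finset V) : Finset V :=
  univ.filter fun z => z ∉ S ∧ h ≤ dn G S z

/-- small sets with small boundary -/
def XX (G : SimpleGraph V) (k M : ℝ) (X : Finset V) : Prop :=
  (X.card : ℝ) ≤ M * k ∧ ((bd G X).card : ℝ) ≤ k + 1

/-- `X` is a small set separating `x` from `y`: `N(X) \ {y}` has at most `k` elements and `y` has no neighbour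
in `X` except possibly `x`. -/
def Cut (G : SimpleGraph V) (k M : ℝ) (x y : V) (X : Finset V) : Prop :=
  x ∈ X ∧ y ∉ X ∧ (X.card : ℝ) ≤ M * k ∧ (((bd G X).erase y).card : ℝ) ≤ k ∧
    ∀ v ∈ X, G.Adj y v → v = x

/-- Good graphs: the local structure of a minimal counterexample. -/
structure Good (G : SimpleGraph V) (k M ε0 : ℝ) : Prop where
  one_le : 1 ≤ k
  deg_ge : ∀ v, be * k ≤ deg G v
  deg_le : ∀ v, deg G v ≤ M * k
  cut : ∀ x y, x ≠ y → (∃ X, Cut G k M x y X) ∨ ∃ X, Cut G k M y x X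
  exp : ∀ S : Finset V, (S.card : ℝ) ≤ M * k →
    (be - 1 / 2) * k * S.card - ε0 * k ^ 2 ≤ ∑ v ∈ S, dn G Sᶜ v

/-- the union of a family -/
def UU (𝒟 : Finset (Finset V)) : Finset V := 𝒟.biUnion id

/-- the clusters touched by `x` -/
def tau (G : SimpleGraph V) (𝒞 : Finset (Finset V)) (e1 : ℝ) (x : V) : Finset (Finset V) :=
  𝒞.filter fun C => e1 * C.card ≤ dn G C x

/-- the neighbours of `x` outside the clusters touched by `x` -/
def A0 (G : SimpleGraph V) (𝒞 : Finset (Finset V)) (e1 : ℝ) (x : V) : Finset V :=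
  nb G univ x \ UU (tau G 𝒞 e1 x)

/-- `N'(C)`: the vertices which touch `C` -/
def NN (G : SimpleGraph V) (e1 : ℝ) (C : Finset V) : Finset V :=
  univ.filter fun z => e1 * C.card ≤ dn G C z

/-- `C` is `r`-regular. -/
def Rg (G : SimpleGraph V) (k r : ℝ) (C : Finset V) : Prop :=
  ∀ C' ⊆ C, ((univ.filter fun z =>
    r * C.card ≤ |dn G C' z - dn G C z / C.card * C'.card|).card : ℝ) ≤ r * k

/-- a system of clusters -/
structure Clus (G : SimpleGraph V) (k M e1 r c0 δ : ℝ) (𝒞 : Finset (Finset V)) : Prop where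
  disj : ∀ C ∈ 𝒞, ∀ C' ∈ 𝒞, C ≠ C' → Disjoint C C'
  ne : ∀ C ∈ 𝒞, C.Nonempty
  size : ∀ C ∈ 𝒞, c0 * k ≤ C.card
  inX : ∀ C ∈ 𝒞, ∃ X, XX G k M X ∧ C ⊆ X
  reg : ∀ C ∈ 𝒞, Rg G k r C
  thin : ∀ C ∈ 𝒞, ∑ z ∈ univ.filter (fun z => dn G C z < e1 * C.card), dn G C z ≤
    δ * C.card * k

/-- the clusters touched by at most `(1 + δ) k` vertices -/
def JJ (G : SimpleGraph V) (k e1 δ : ℝ) (𝒞 : Finset (Finset V)) : Finset (Finset V) :=
  𝒞.filter fun C => ((NN G e1 C).card : ℝ) ≤ (1 + δ) * k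

/-- the effective degree -/
def dhat (G : SimpleGraph V) (k e1 δ : ℝ) (𝒞 : Finset (Finset V)) (x : V) : ℝ :=
  deg G x - ∑ C ∈ (tau G 𝒞 e1 x) ∩ (JJ G k e1 δ 𝒞), ((C.card : ℝ) - dn G C x)

/-- The local structure at a vertex `x`: zones `Z`, cuts `XC D` with partners `yp D`, hulls `HG D ⊆ HW D`. -/
structure Loc (G : SimpleGraph V) (k M e1 η σ e4 ε2 : ℝ) (𝒞 : Finset (Finset V)) (x : V)
    (Z : Finset (Finset (Finset V))) (XC HG HW : Finset (Finset V) → Finset V)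
    (yp : Finset (Finset V) → V) : Prop where
  ne : ∀ D ∈ Z, D.Nonempty
  sub : ∀ D ∈ Z, D ⊆ tau G 𝒞 e1 x
  dj : ∀ D ∈ Z, ∀ D' ∈ Z, D ≠ D' → Disjoint D D'
  cov : ∀ C ∈ tau G 𝒞 e1 x, ∃ D ∈ Z, C ∈ D
  cut : ∀ D ∈ Z, Cut G k M x (yp D) (XC D)
  twin : ∀ D ∈ Z, ∀ C ∈ D, e1 * C.card ≤ dn G C (yp D) ∧
    |dn G C x - dn G C (yp D)| ≤ ε2 * C.card
  hG : ∀ D ∈ Z, HG D ⊆ HW D
  hT : ∀ D ∈ Z, tb G (η * k) (HG D) ⊆ HW D
  hU : ∀ D ∈ Z, UU D ⊆ HW D
  ha : ∀ D ∈ Z, (((Z.biUnion XC ∩ HW D) \ HG D).card : ℝ) ≤ σ * k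
  hb : ∀ D ∈ Z, (((HW D).filter fun z => η * k ≤ dn G (Z.biUnion XC \ HG D) z).card : ℝ) ≤
    σ * k
  hc : ∀ D ∈ Z, ∀ C ∈ tau G 𝒞 e1 x, C ∉ D → ((C ∩ HW D).card : ℝ) ≤ e4 * C.card

/-- The guarantee for a zone which is paid `l`. -/
def Guar (e g φ l : ℝ) : Prop :=
  1 / φ - 1 - e ≤ l ∨
    ((t2 ≤ g → g + (g - t2) * (1 / φ - 1) - e ≤ (φ - t2) * l) ∧
      (be / φ - 1 - e ≤ l ∨ be * g - e ≤ φ ^ 2 * l))

end LKU
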