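import Pool.Agent.LKU.Defs

set_option autoImplicit false

/-!
# LKU: definitions, part 2 (zone systems, supply, region data)
-/

open scoped Classical

noncomputable section

namespace LKU

open Finset

variable {V : Type} [Fintype V]

/-- Zone systems: zones `Z x` of the vertices `x ∈ Gd` and classes `(D, Q) ∈ 𝒬`. -/
structure Zon (G : SimpleGraph V) (k M e1 c0 δ ρ0 ρ1 ε2 : ℝ) (𝒞 : Finset (Finset V))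
    (Gd : Finset V) (Z : V → Finset (Finset (Finset V)))
    (𝒬 : Finset (Finset (Finset V) × Finset V)) : Prop where
  few : ((univ \ Gd).card : ℝ) ≤ δ * Fintype.card V
  ne : ∀ x ∈ Gd, ∀ D ∈ Z x, D.Nonempty
  sub : ∀ x ∈ Gd, ∀ D ∈ Z x, D ⊆ tau G 𝒞 e1 x
  dj : ∀ x ∈ Gd, ∀ D ∈ Z x, ∀ D' ∈ Z x, D ≠ D' → Disjoint D D'
  cov : ∀ x ∈ Gd, ∀ C ∈ tau G 𝒞 e1 x, ∃ D ∈ Z x, C ∈ D
  sep : ∀ C ∈ 𝒞, ∀ C' ∈ 𝒞, ((Gd.filter fun x =>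
    ∃ D ∈ Z x, C ∈ D ∧ C' ∈ tau G 𝒞 e1 x ∧ C' ∉ D).card : ℝ) ≤ ρ0 * k
  qsub : ∀ p ∈ 𝒬, ∀ y ∈ p.2, p.1 ⊆ tau G 𝒞 e1 y
  qden : ∀ p ∈ 𝒬, ∀ y ∈ p.2, ∀ y' ∈ p.2, ∀ C ∈ p.1,
    |dn G C y - dn G C y'| ≤ ε2 * C.card
  qrare : ∀ p ∈ 𝒬, ∀ C ∈ 𝒞, C ∉ p.1 →
    ((p.2.filter fun y => C ∈ tau G 𝒞 e1 y).card : ℝ) ≤ ρ1 * p.2.card
  qsum : ∑ p ∈ 𝒬, (p.2.card : ℝ) ≤ M / (e1 * c0) * Fintype.card V
  qx : ∀ x ∈ Gd, ∀ D ∈ Z x, ∃ Q, (D, Q) ∈ 𝒬 ∧ x ∈ Q ∧ ∃ y ∈ Q, ∃ X, Cut G k M x y X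
  qe : ∀ x ∈ Gd, Z x = ∅ → ∃ y X, Cut G k M x y X

/-- total charge received by the cluster `C` -/
def jc (G : SimpleGraph V) (e1 : ℝ) (C : Finset V) : ℝ := ∑ z ∈ NN G e1 C, ((C.card : ℝ) - dn G C z)

/-- average degree of `C`, in units -/
def av (G : SimpleGraph V) (k : ℝ) (C : Finset V) : ℝ := (∑ v ∈ C, deg G v) / (C.card * k)

/-- average charged degree of `C`, in units -/
def ch (G : SimpleGraph V) (k e1 δ : ℝ) (𝒞 : Finset (Finset V)) (C : Finset V) : ℝ :=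
  (∑ v ∈ C, dhat G k e1 δ 𝒞 v + if C ∈ JJ G k e1 δ 𝒞 then jc G e1 C else 0) / (C.card * k)

/-- the value `c_C ∈ [β, 1]` -/
def cv (G : SimpleGraph V) (k e1 δ : ℝ) (𝒞 : Finset (Finset V)) (C : Finset V) : ℝ :=
  min 1 (max (ch G k e1 δ 𝒞 C) (min 1 (av G k C)))

/-- `λ(v) = 1 - c_C` for `v ∈ C ∈ 𝒞`, and `0` otherwise (the clusters are disjoint) -/
def lam (G : SimpleGraph V) (k e1 δ : ℝ) (𝒞 : Finset (Finset V)) (v : V) : ℝ :=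
  ∑ C ∈ 𝒞.filter (fun C => v ∈ C), (1 - cv G k e1 δ 𝒞 C)

/-- Input of the region lemma: zones `i` with hub `hub i`, neighbours `A i`, region `R i`, cost `φ i`, gain `g i`. -/
structure Reg {ι : Type} [Fintype ι] (G : SimpleGraph V) (k M K g0 es e9 η κ : ℝ)
    (Hub : Finset V) (hub : ι → V) (A R : ι → Finset V) (φ g : ι → ℝ) (lam : V → ℝ) : Prop where
  one_le : 1 ≤ k
  deg_le : ∀ v, deg G v ≤ M * k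
  hubM : ∀ i, hub i ∈ Hub
  Asub : ∀ i, A i ⊆ nb G univ (hub i)
  perHub : ∀ x, ((univ.filter fun i => hub i = x).card : ℝ) ≤ K
  Rin : ∀ i, ∃ X, XX G k M X ∧ R i ⊆ X
  RHub : ∀ i, ((R i ∩ Hub).card : ℝ) ≤ κ * k
  tbR : ∀ i, ((tb G (η * k) (R i)).card : ℝ) ≤ φ i * k
  AR : ∀ i, g i * k ≤ ((A i ∩ R i).card : ℝ)
  gge : ∀ i, g0 ≤ g i
  φge : ∀ i, 1 / 60 ≤ φ i
  mult : ∀ i, ((univ.filter fun j => η * k ≤ ((A j ∩ R i).card : ℝ)).card : ℝ) ≤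
    ((tb G (η * k) (R i) ∩ Hub).card : ℝ) + κ * k
  AHub : ∀ i, ((A i ∩ Hub).card : ℝ) ≤ es * k
  lam0 : ∀ v, 0 ≤ lam v
  lam1 : ∀ v, lam v ≤ 1 - be
  geo : ∀ i, ∀ P U : Finset V, U ⊆ A i ∩ R i → Disjoint U P → es * k ≤ U.card →
    (∀ v ∈ U, dn G P v ≤ e9 * k) → ∃ l : ℝ, 0 ≤ l ∧ l ≤ 1 - be ∧
      (1 - l - φ i - es) * k ≤ ((R i \ P).card : ℝ) ∧ l * (U.card - es * k) ≤ ∑ v ∈ U, lam v

end LKU
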