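import Pool.Agent.LKU.FDefs

set_option autoImplicit false
set_option linter.unusedSectionVars false

/-!
# LKU module FCut (difficulty 3)

Cluster cut lemma. `X = ` a cut, `T = (bd G X).erase y`, `C` a cluster, `c_x = dn C x`, `c_y = dn C y`, `|c_x - c_y| ≤ ε2 |C|`.
`X' = C ∩ X`, `Y' = C \ (X ∪ bd G X)`. Since `x ∈ X`: `nb C x ⊆ X' ∪ (T ∩ C) ∪ {y}` (`nb_subset_union`). A neighbour of `y` in `X` equals `x`
(`Cut`), so `nb C y ⊆ {x} ∪ (T ∩ C) ∪ Y'` (note `y ∉ nb C y`).
Case 1: `|X'| < e5 |C|`: `c_x ≤ e5 |C| + |T ∩ C| + 1`.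
Case 2: `|Y'| < e5 |C|`: `c_x ≤ c_y + ε2 |C| ≤ 1 + |T ∩ C| + e5 |C| + ε2 |C|`.
Case 3: both are `≥ e5 |C|`: `c_x + c_y ≤ |X'| + |Y'| + 2 |T ∩ C| + 2` and `|X'| + |Y'| + |T ∩ C| ≤ |C|` (disjoint subsets of `C`), so
`2 c_x - |C| ≤ |T ∩ C| + ε2 |C| + 2`. Moreover in this case `C ∈ JJ`: by regularity of `C` (applied to `X'` and `Y'`) all `z ∈ NN C` but
`2 r k` satisfy `dn X' z ≥ e1 |X'| - r |C| ≥ (e1 e5 - r) |C| > 0` and `dn Y' z > 0`; such a `z` has a neighbour in `X` and a neighbour
outside `X ∪ bd G X`, so `z ∉ X`, and `z ∈ bd G X`. So `|NN C| ≤ 2 r k + |bd G X| ≤ 2 r k + k + 1 ≤ (1 + δ) k` by `c4` (`2 r + 2/k ≤ δ`, so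
`2 r k + 1 ≤ δ k`).
So if `C ∉ JJ` then case 1 or 2, `aC = c_x`; if `C ∈ JJ` then `aC = 2 c_x - |C| ≤ c_x` (`dn_le_card`), and all cases give the bound.
-/

open scoped Classical

noncomputable section

namespace LKU

open Finset

variable {V : Type} [Fintype V]

theorem cut_cluster {G : SimpleGraph V} {k M e1 r δ ε2 e5 : ℝ} {𝒞 : Finset (Finset V)} {x y : V}
    {X C : Finset V} (hX : Cut G k M x y X) (hC : C ∈ 𝒞) (hne : C.Nonempty) (hreg : Rg G k r C)
    (htw : |dn G C x - dn G C y| ≤ ε2 * C.card) (hk : 1 ≤ k) (he1 : 0 < e1) (hr : 0 < r)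
    (hε2 : 0 < ε2) (he5 : 0 < e5) (h5 : r < e1 * e5) (c4 : 2 * r + 2 / k ≤ δ) :
    aC G k e1 δ 𝒞 x C ≤ ((((bd G X).erase y) ∩ C).card : ℝ) + (ε2 + e5) * C.card + 2 := by
  have hk0 : 0 < k := by linarith
  obtain ⟨hxX, hyX, hXc, hT, hyN⟩ := hX
  have hCpos : (0 : ℝ) < C.card := by exact_mod_cast hne.card_pos
  set T := ((bd G X).erase y) ∩ C with hTdef
  set X' := C ∩ X with hX'
  set Y' := C \ (X ∪ bd G X) with hY'
  -- neighbours of x
  have hcx : dn G C x ≤ X'.card + T.card + 1 := by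
    have hsub : nb G C x ⊆ (X' ∪ T) ∪ {y} := by
      intro v hv
      rw [mem_nb] at hv
      have h1 : v ∈ X ∪ bd G X := nb_subset_union hxX (mem_nb.2 ⟨mem_univ _, hv.2⟩)
      rw [mem_union, mem_union, mem_singleton]
      by_cases hvy : v = y
      · exact Or.inr hvy
      · left
        rcases mem_union.1 h1 with h1 | h1
        · exact Or.inl (mem_inter.2 ⟨hv.1, h1⟩)
        · exact Or.inr (mem_inter.2 ⟨mem_erase.2 ⟨hvy, h1⟩, hv.1⟩)
    have h1 := card_le_card hsub
    have h2 := card_union_le (X' ∪ T) {y}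
    have h3 := card_union_le X' T
    rw [card_singleton] at h2
    have h4 : (nb G C x).card ≤ X'.card + T.card + 1 := by omega
    unfold dn
    exact_mod_cast h4
  have hcy : dn G C y ≤ Y'.card + T.card + 1 := by
    have hsub : nb G C y ⊆ (Y' ∪ T) ∪ {x} := by
      intro v hv
      rw [mem_nb] at hv
      rw [mem_union, mem_union, mem_singleton]
      by_cases hvX : v ∈ X
      · exact Or.inr (hyN v hvX hv.2)
      · left
        by_cases hvb : v ∈ bd G X
        · exact Or.inr (mem_inter.2 ⟨mem_erase.2 ⟨hv.2.ne.symm, hvb⟩, hv.1⟩)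
        · exact Or.inl (mem_sdiff.2 ⟨hv.1, fun h => (mem_union.1 h).elim hvX hvb⟩)
    have h1 := card_le_card hsub
    have h2 := card_union_le (Y' ∪ T) {x}
    have h3 := card_union_le Y' T
    rw [card_singleton] at h2
    have h4 : (nb G C y).card ≤ Y'.card + T.card + 1 := by omega
    unfold dn
    exact_mod_cast h4
  have htw' := (abs_le.1 htw).2
  have hε : 0 < ε2 * C.card := mul_pos hε2 hCpos
  have he5C : 0 < e5 * C.card := mul_pos he5 hCpos
  have haC : aC G k e1 δ 𝒞 x C ≤ dn G C x := by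
    unfold aC
    split_ifs
    · have := dn_le_card G C x
      linarith
    · exact le_rfl
  by_cases h1 : (X'.card : ℝ) < e5 * C.card
  · nlinarith
  by_cases h2 : (Y'.card : ℝ) < e5 * C.card
  · nlinarith
  push Not at h1 h2
  -- case 3
  have hJ : C ∈ JJ G k e1 δ 𝒞 := by
    unfold JJ
    rw [mem_filter]
    refine ⟨hC, ?_⟩
    have hr1 := hreg X' inter_subset_left
    have hr2 := hreg Y' sdiff_subset
    set B1 := univ.filter fun z =>
      r * C.card ≤ |dn G X' z - dn G C z / C.card * X'.card| with hB1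
    set B2 := univ.filter fun z =>
      r * C.card ≤ |dn G Y' z - dn G C z / C.card * Y'.card| with hB2
    have hpos : ∀ S : Finset V, e5 * C.card ≤ S.card → ∀ z ∈ NN G e1 C,
        ¬ (r * C.card ≤ |dn G S z - dn G C z / C.card * S.card|) → 0 < dn G S z := by
      intro S hS z hz hzB
      rw [mem_NN] at hz
      have h3 := (abs_lt.1 (not_le.1 hzB)).1
      have h4 : e1 ≤ dn G C z / C.card := by rwa [le_div_iff₀ hCpos]
      have h5q := mul_le_mul h4 hS he5C.le (div_nonneg (dn_nonneg G C z) hCpos.le)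
      have h6 : r * C.card < e1 * e5 * C.card := mul_lt_mul_of_pos_right h5 hCpos
      linarith
    have hsub : NN G e1 C ⊆ bd G X ∪ (B1 ∪ B2) := by
      intro z hz
      by_cases hz1 : z ∈ B1
      · exact mem_union_right _ (mem_union_left _ hz1)
      by_cases hz2 : z ∈ B2
      · exact mem_union_right _ (mem_union_right _ hz2)
      apply mem_union_left
      have hd1 := hpos X' h1 z hz (fun h => hz1 (mem_filter.2 ⟨mem_univ _, h⟩))
      have hd2 := hpos Y' h2 z hz (fun h => hz2 (mem_filter.2 ⟨mem_univ _, h⟩))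
      unfold dn at hd1 hd2
      obtain ⟨u, hu⟩ := card_pos.1 (by exact_mod_cast hd1 : 0 < (nb G X' z).card)
      obtain ⟨w, hw⟩ := card_pos.1 (by exact_mod_cast hd2 : 0 < (nb G Y' z).card)
      rw [mem_nb] at hu hw
      have huX := (mem_inter.1 hu.1).2
      have hwY := (mem_sdiff.1 hw.1).2
      rw [mem_bd]
      refine ⟨fun hzX => hwY ?_, u, huX, hu.2⟩
      exact nb_subset_union hzX (mem_nb.2 ⟨mem_univ _, hw.2⟩)
    have hbd : ((bd G X).card : ℝ) ≤ k + 1 := by
      have h3 : (bd G X).card ≤ ((bd G X).erase y).card + 1 := by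
        have := pred_card_le_card_erase (s := bd G X) (a := y)
        omega
      have h4 : ((bd G X).card : ℝ) ≤ ((bd G X).erase y).card + 1 := by exact_mod_cast h3
      linarith
    have hcard : ((NN G e1 C).card : ℝ) ≤ (bd G X).card + (B1.card + B2.card) := by
      have h3 := card_le_card hsub
      have h4 := card_union_le (bd G X) (B1 ∪ B2)
      have h5 := card_union_le B1 B2
      have h6 : (NN G e1 C).card ≤ (bd G X).card + (B1.card + B2.card) := by omega
      exact_mod_cast h6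
    have hc4 : (2 * r + 2 / k) * k ≤ δ * k := mul_le_mul_of_nonneg_right c4 hk0.le
    have hc4' : (2 * r + 2 / k) * k = 2 * r * k + 2 := by field_simp
    have hr1' : (B1.card : ℝ) ≤ r * k := hr1
    have hr2' : (B2.card : ℝ) ≤ r * k := hr2
    linarith
  have hsum : (X'.card : ℝ) + Y'.card + T.card ≤ C.card := by
    have hd1 : Disjoint X' Y' := by
      rw [disjoint_left]
      intro v hv hv'
      exact (mem_sdiff.1 hv').2 (mem_union_left _ (mem_inter.1 hv).2)
    have hd2 : Disjoint (X' ∪ Y') T := by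
      rw [disjoint_left]
      intro v hv hv'
      have hvb : v ∈ bd G X := (mem_erase.1 (mem_inter.1 hv').1).2
      rcases mem_union.1 hv with hv | hv
      · exact (mem_bd.1 hvb).1 (mem_inter.1 hv).2
      · exact (mem_sdiff.1 hv).2 (mem_union_right _ hvb)
    have hsub : (X' ∪ Y') ∪ T ⊆ C := by
      intro v hv
      rcases mem_union.1 hv with hv | hv
      · rcases mem_union.1 hv with hv | hv
        · exact (mem_inter.1 hv).1
        · exact (mem_sdiff.1 hv).1
      · exact (mem_inter.1 hv).2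
    have h3 := card_le_card hsub
    rw [card_union_of_disjoint hd2, card_union_of_disjoint hd1] at h3
    exact_mod_cast h3
  have haC2 : aC G k e1 δ 𝒞 x C = 2 * dn G C x - C.card := by
    unfold aC; rw [if_pos hJ]
  rw [haC2]
  nlinarith

end LKU
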