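import Pool.Agent.LKU.CardTau

set_option autoImplicit false
set_option linter.unusedSectionVars false

/-!
# LKU: definitions for part F (structure inequalities), by helper32 (not a module)
-/

open scoped Classical

noncomputable section

namespace LKU

open Finset

variable {V : Type} [Fintype V]

/-- the effective number of neighbours of `x` in the cluster `C` -/
def aC (G : SimpleGraph V) (k e1 δ : ℝ) (𝒞 : Finset (Finset V)) (x : V) (C : Finset V) : ℝ :=
  if C ∈ JJ G k e1 δ 𝒞 then 2 * dn G C x - C.card else dn G C x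

/-- the region `R_j^i = (X_i ∩ G_j) \ ⋃_{l < j} G_l`; the zones are ordered by `o` -/
def RR (XC HG : Finset (Finset V) → Finset V) (Z : Finset (Finset (Finset V)))
    (o : Finset (Finset V) → ℕ) (i j : Finset (Finset V)) : Finset V :=
  (XC i ∩ HG j) \ (Z.filter fun l => o l < o j).biUnion HG

/-- `D_j^i = N^h(R_j^i) ∪ (A_j \ R_j^i)`, `A_j = N(x) ∩ ⋃ j` -/
def DD (G : SimpleGraph V) (h : ℝ) (x : V) (XC HG : Finset (Finset V) → Finset V)
    (Z : Finset (Finset (Finset V))) (o : Finset (Finset V) → ℕ) (i j : Finset (Finset V)) :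
    Finset V :=
  tb G h (RR XC HG Z o i j) ∪ (nb G (UU j) x \ RR XC HG Z o i j)

end LKU
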