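import Pool.Agent.LKU.FDefs

set_option autoImplicit false
set_option linter.unusedSectionVars false

/-!
# LKU module FDisA (difficulty 2)

Disjointness facts, part A. Let `A_j = nb G (UU j) x`, `W_j = HW j`, `G_j = HG j`, `R = RR XC HG Z o i j`, `X^u = Z.biUnion XC`,
`s = σ + e4 M / e1`. `|Z| ≤ K` is `hZK`.

`DD_subset`: `tb G h R ⊆ bd G R ⊆ X_i ∪ bd G X_i` (`R ⊆ X_i`, `h > 0`, `tb_subset_bd`), and `A_j ⊆ nb G univ x ⊆ X_i ∪ bd G X_i` (`x ∈ X_i`, `Loc.cut`).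

`W_small` : if `D ∈ Z`, `E ∈ Z`, `E ≠ D` then `|UU E ∩ HW D| ≤ ∑_{C ∈ E} |C ∩ HW D| ≤ ∑_{C ∈ E} e4 |C| ≤ e4 M k / e1`
(`Loc.hc`: `C ∈ E ⊆ tau x`, `C ∉ D` as zones are disjoint; `sum_card_tau_le`).

`DD_XC`: `|DD i j ∩ X_i| ≤ (2 K + 4) s k`. Proof. (1) `v ∈ A_j ∩ X_i \ R`: `v ∈ UU j ⊆ W_j` (`hU`). If `v ∉ G_j` then `v ∈ (X^u ∩ W_j) \ G_j`:
at most `σ k` (`ha`). If `v ∈ G_j` (and `v ∉ R`) then `v ∈ G_l ⊆ W_l` for an `l ∈ Z`, `o l < o j`, so `l ≠ j`, `v ∈ UU j ∩ W_l`: at most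
`|Z| e4 M k/e1 ≤ K e4 M k / e1` in total. (2) `z ∈ tb (η k) R ∩ X_i`: `R ⊆ G_j`, so `z ∈ G_j` or `z ∈ tb (η k) G_j`, anyway `z ∈ W_j`
(`hG`, `hT`). If `z ∉ G_j`: `z ∈ (X^u ∩ W_j) \ G_j`: at most `σ k`. If `z ∈ G_j`: as `z ∉ R` and `z ∈ X_i ∩ G_j` there is `l ∈ Z`, `o l < o j`,
`z ∈ G_l ⊆ W_l`; `R` is disjoint from `G_l`, so `R ⊆ X^u \ G_l`, and `dn (X^u \ G_l) z ≥ dn R z ≥ η k`: at most `σ k` such `z` for each `l`
(`hb`), total `≤ K σ k`.
-/

open scoped Classical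

noncomputable section

namespace LKU

open Finset

variable {V : Type} [Fintype V]

theorem fdis_mem_RR {XC HG : Finset (Finset V) → Finset V} {Z : Finset (Finset (Finset V))}
    {o : Finset (Finset V) → ℕ} {i j : Finset (Finset V)} {v : V} :
    v ∈ RR XC HG Z o i j ↔ (v ∈ XC i ∧ v ∈ HG j) ∧ ∀ l ∈ Z, o l < o j → v ∉ HG l := by
  unfold RR
  simp only [mem_sdiff, mem_inter, mem_biUnion, mem_filter, not_exists, not_and, and_imp]

theorem fdis_tb_HW {G : SimpleGraph V} {k M e1 η σ e4 ε2 : ℝ} {𝒞 : Finset (Finset V)} {x : V}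
    {Z : Finset (Finset (Finset V))} {XC HG HW : Finset (Finset V) → Finset V}
    {yp : Finset (Finset V) → V} (hL : Loc G k M e1 η σ e4 ε2 𝒞 x Z XC HG HW yp)
    (o : Finset (Finset V) → ℕ) {i j : Finset (Finset V)} (hj : j ∈ Z) :
    tb G (η * k) (RR XC HG Z o i j) ⊆ HW j := by
  intro z hz
  rw [mem_tb] at hz
  by_cases hzG : z ∈ HG j
  · exact hL.hG j hj hzG
  · apply hL.hT j hj
    rw [mem_tb]
    refine ⟨hzG, hz.2.trans (dn_mono G ?_ z)⟩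
    intro v hv
    exact (fdis_mem_RR.1 hv).1.2

theorem fdis_A_HW {G : SimpleGraph V} {k M e1 η σ e4 ε2 : ℝ} {𝒞 : Finset (Finset V)} {x : V}
    {Z : Finset (Finset (Finset V))} {XC HG HW : Finset (Finset V) → Finset V}
    {yp : Finset (Finset V) → V} (hL : Loc G k M e1 η σ e4 ε2 𝒞 x Z XC HG HW yp)
    {j : Finset (Finset V)} (hj : j ∈ Z) : nb G (UU j) x ⊆ HW j :=
  (nb_subset _ _ _).trans (hL.hU j hj)

theorem DD_subset {G : SimpleGraph V} {k M e1 η σ e4 ε2 : ℝ} {𝒞 : Finset (Finset V)} {x : V}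
    {Z : Finset (Finset (Finset V))} {XC HG HW : Finset (Finset V) → Finset V}
    {yp : Finset (Finset V) → V} (hL : Loc G k M e1 η σ e4 ε2 𝒞 x Z XC HG HW yp) (hk : 1 ≤ k)
    (hη : 0 < η) (o : Finset (Finset V) → ℕ) {i j : Finset (Finset V)} (hi : i ∈ Z) :
    DD G (η * k) x XC HG Z o i j ⊆ XC i ∪ bd G (XC i) := by
  intro v hv
  unfold DD at hv
  rw [mem_union] at hv
  rcases hv with hv | hv
  · have h1 := tb_subset_bd (mul_pos hη (by linarith)) _ hv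
    rw [mem_bd] at h1
    obtain ⟨-, w, hw, ha⟩ := h1
    by_cases hx : v ∈ XC i
    · exact mem_union_left _ hx
    · exact mem_union_right _ (mem_bd.2 ⟨hx, w, (fdis_mem_RR.1 hw).1.1, ha⟩)
  · have h1 : v ∈ nb G univ x := nb_mono G (subset_univ _) x (mem_sdiff.1 hv).1
    exact nb_subset_union (hL.cut i hi).1 h1

theorem W_small {G : SimpleGraph V} {k M e1 η σ e4 ε2 : ℝ} {𝒞 : Finset (Finset V)} {x : V}
    {Z : Finset (Finset (Finset V))} {XC HG HW : Finset (Finset V) → Finset V}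
    {yp : Finset (Finset V) → V} (hL : Loc G k M e1 η σ e4 ε2 𝒞 x Z XC HG HW yp)
    (hdj : ∀ C ∈ 𝒞, ∀ C' ∈ 𝒞, C ≠ C' → Disjoint C C') (hdeg : ∀ v, deg G v ≤ M * k)
    (he1 : 0 < e1) (he4 : 0 < e4) {D E : Finset (Finset V)} (hD : D ∈ Z) (hE : E ∈ Z)
    (hne : E ≠ D) : ((UU E ∩ HW D).card : ℝ) ≤ e4 * (M * k / e1) := by
  have h1 : ((UU E ∩ HW D).card : ℝ) ≤ ∑ C ∈ E, ((C ∩ HW D).card : ℝ) := by
    have h2 : UU E ∩ HW D ⊆ E.biUnion fun C => C ∩ HW D := by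
      intro v hv
      rw [mem_inter, mem_UU] at hv
      obtain ⟨⟨C, hC, hvC⟩, hvW⟩ := hv
      exact mem_biUnion.2 ⟨C, hC, mem_inter.2 ⟨hvC, hvW⟩⟩
    have h3 : (UU E ∩ HW D).card ≤ ∑ C ∈ E, (C ∩ HW D).card :=
      (card_le_card h2).trans card_biUnion_le
    exact_mod_cast h3
  have h2 : ∑ C ∈ E, ((C ∩ HW D).card : ℝ) ≤ ∑ C ∈ E, e4 * (C.card : ℝ) := by
    refine sum_le_sum fun C hC => ?_
    apply hL.hc D hD C (hL.sub E hE hC)
    intro hCD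
    exact (disjoint_left.1 (hL.dj E hE D hD hne) hC) hCD
  have h3 : ∑ C ∈ E, e4 * (C.card : ℝ) ≤ e4 * (M * k / e1) := by
    rw [← mul_sum]
    apply mul_le_mul_of_nonneg_left _ he4.le
    refine le_trans ?_ (sum_card_tau_le he1 hdeg hdj x)
    exact sum_le_sum_of_subset_of_nonneg (hL.sub E hE) fun _ _ _ => by positivity
  linarith

theorem DD_XC {G : SimpleGraph V} {k M e1 η σ e4 ε2 K : ℝ} {𝒞 : Finset (Finset V)} {x : V}
    {Z : Finset (Finset (Finset V))} {XC HG HW : Finset (Finset V) → Finset V}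
    {yp : Finset (Finset V) → V} (hL : Loc G k M e1 η σ e4 ε2 𝒞 x Z XC HG HW yp)
    (hdj : ∀ C ∈ 𝒞, ∀ C' ∈ 𝒞, C ≠ C' → Disjoint C C') (hdeg : ∀ v, deg G v ≤ M * k)
    (hk : 1 ≤ k) (hM : 1 ≤ M) (he1 : 0 < e1) (hη : 0 < η) (hσ : 0 < σ) (he4 : 0 < e4)
    (hZK : (Z.card : ℝ) ≤ K) (o : Finset (Finset V) → ℕ) (ho : Set.InjOn o Z)
    {i j : Finset (Finset V)} (hi : i ∈ Z) (hj : j ∈ Z) :
    ((DD G (η * k) x XC HG Z o i j ∩ XC i).card : ℝ) ≤ (2 * K + 4) * ((σ + e4 * M / e1) * k) := by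
  -- the exceptional sets
  let E0 : Finset V := (Z.biUnion XC ∩ HW j) \ HG j
  let E1 : Finset V := (Z.erase j).biUnion fun l => UU j ∩ HW l
  let E2 : Finset V := (Z.erase j).biUnion fun l =>
    (HW l).filter fun z => η * k ≤ dn G (Z.biUnion XC \ HG l) z
  have hXu : ∀ v ∈ XC i, v ∈ Z.biUnion XC := fun v hv => mem_biUnion.2 ⟨i, hi, hv⟩
  have hsub : DD G (η * k) x XC HG Z o i j ∩ XC i ⊆ E0 ∪ (E1 ∪ E2) := by
    intro v hv
    rw [mem_inter] at hv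
    obtain ⟨hvD, hvX⟩ := hv
    unfold DD at hvD
    rw [mem_union] at hvD
    have hvW : v ∈ HW j := by
      rcases hvD with h | h
      · exact fdis_tb_HW hL o hj h
      · exact fdis_A_HW hL hj (mem_sdiff.1 h).1
    have hvR : v ∉ RR XC HG Z o i j := by
      rcases hvD with h | h
      · exact (mem_tb.1 h).1
      · exact (mem_sdiff.1 h).2
    by_cases hvG : v ∈ HG j
    · have h1 : ∃ l ∈ Z, o l < o j ∧ v ∈ HG l := by
        by_contra hcon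
        push Not at hcon
        exact hvR (fdis_mem_RR.2 ⟨⟨hvX, hvG⟩, hcon⟩)
      obtain ⟨l, hl, hlo, hvl⟩ := h1
      have hlj : l ≠ j := by rintro rfl; exact lt_irrefl _ hlo
      have hle : l ∈ Z.erase j := mem_erase.2 ⟨hlj, hl⟩
      rcases hvD with h | h
      · refine mem_union_right _ (mem_union_right _ (mem_biUnion.2 ⟨l, hle, ?_⟩))
        rw [mem_filter]
        refine ⟨hL.hG l hl hvl, (mem_tb.1 h).2.trans (dn_mono G ?_ v)⟩
        intro w hw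
        have hw' := fdis_mem_RR.1 hw
        exact mem_sdiff.2 ⟨hXu w hw'.1.1, hw'.2 l hl hlo⟩
      · refine mem_union_right _ (mem_union_left _ (mem_biUnion.2 ⟨l, hle, ?_⟩))
        exact mem_inter.2 ⟨nb_subset _ _ _ (mem_sdiff.1 h).1, hL.hG l hl hvl⟩
    · exact mem_union_left _ (mem_sdiff.2 ⟨mem_inter.2 ⟨hXu v hvX, hvW⟩, hvG⟩)
  have hc0 : (E0.card : ℝ) ≤ σ * k := hL.ha j hj
  have hcK : ((Z.erase j).card : ℝ) ≤ K := by
    refine le_trans ?_ hZK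
    exact_mod_cast card_le_card (erase_subset _ _)
  have hK0 : 0 ≤ K := le_trans (by positivity) hZK
  have hk0 : 0 < k := by linarith
  have hc1 : (E1.card : ℝ) ≤ K * (e4 * (M * k / e1)) := by
    have h1 : (E1.card : ℝ) ≤ ∑ l ∈ Z.erase j, ((UU j ∩ HW l).card : ℝ) := by
      exact_mod_cast card_biUnion_le
    have h2 : ∑ l ∈ Z.erase j, ((UU j ∩ HW l).card : ℝ) ≤ ∑ l ∈ Z.erase j, e4 * (M * k / e1) :=
      sum_le_sum fun l hl => W_small hL hdj hdeg he1 he4 (mem_erase.1 hl).2 hj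
        (Ne.symm (mem_erase.1 hl).1)
    rw [sum_const, nsmul_eq_mul] at h2
    have h3 : 0 ≤ e4 * (M * k / e1) := by positivity
    exact h1.trans (h2.trans (mul_le_mul_of_nonneg_right hcK h3))
  have hc2 : (E2.card : ℝ) ≤ K * (σ * k) := by
    have h1 : (E2.card : ℝ) ≤ ∑ l ∈ Z.erase j,
        (((HW l).filter fun z => η * k ≤ dn G (Z.biUnion XC \ HG l) z).card : ℝ) := by
      exact_mod_cast card_biUnion_le
    have h2 : ∑ l ∈ Z.erase j,
        (((HW l).filter fun z => η * k ≤ dn G (Z.biUnion XC \ HG l) z).card : ℝ) ≤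
        ∑ l ∈ Z.erase j, σ * k :=
      sum_le_sum fun l hl => hL.hb l (mem_erase.1 hl).2
    rw [sum_const, nsmul_eq_mul] at h2
    have h3 : 0 ≤ σ * k := by positivity
    exact h1.trans (h2.trans (mul_le_mul_of_nonneg_right hcK h3))
  have hcard : ((DD G (η * k) x XC HG Z o i j ∩ XC i).card : ℝ) ≤
      E0.card + (E1.card + E2.card) := by
    have h1 := (card_le_card hsub).trans (card_union_le _ _)
    have h2 := card_union_le E1 E2
    have h3 : (DD G (η * k) x XC HG Z o i j ∩ XC i).card ≤ E0.card + (E1.card + E2.card) := by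
      omega
    exact_mod_cast h3
  have e : e4 * (M * k / e1) = e4 * M / e1 * k := by ring
  have hp1 : 0 ≤ σ * k := by positivity
  have hp2 : 0 ≤ e4 * M / e1 * k := by positivity
  rw [e] at hc1
  have hexp : (2 * K + 4) * ((σ + e4 * M / e1) * k) =
      2 * (K * (σ * k)) + 2 * (K * (e4 * M / e1 * k)) + 4 * (σ * k) + 4 * (e4 * M / e1 * k) := by
    ring
  have hp3 : 0 ≤ K * (σ * k) := by positivity
  have hp4 : 0 ≤ K * (e4 * M / e1 * k) := by positivity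
  rw [hexp]
  linarith

end LKU
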