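import Pool.Agent.LKU.FDisA

set_option autoImplicit false
set_option linter.unusedSectionVars false

/-!
# LKU module FDisB (difficulty 2)

Disjointness facts, part B (see FDisA for the notation; `W_small` there).

`DD_DD`: for `j ≠ l` in `Z` and arbitrary `i, i' ∈ Z`: `|DD i j ∩ DD i' l| ≤ 3 s k`, `s = σ + e4 M / e1`. Proof. `A_j ∩ A_l = ∅` (the clusters are
disjoint and the zones are disjoint sets of clusters). `tb R_j ∩ A_l`: `tb R_j ⊆ W_j` (`R_j ⊆ G_j`, `hG`, `hT`: a vertex of `tb (η k) R_j` is in `G_j`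
or in `tb (η k) G_j`), so `⊆ UU l ∩ W_j`, at most `e4 M k / e1` (`W_small`); symmetrically `A_j ∩ tb R_l`. `tb R_j ∩ tb R_l`: by symmetry
(`o` is injective on `Z`) let `o j < o l`; `z ∈ W_j`, and `R_l` is disjoint from `G_j` and contained in `X_{i'} ⊆ X^u`, so
`dn (X^u \ G_j) z ≥ dn R_l z ≥ η k`: at most `σ k` (`hb`). Total `≤ 2 e4 M k / e1 + σ k`.

`DD_UU`: for `i ≠ j` in `Z`: `|DD i j ∩ UU i| ≤ e4 M k / e1`: `A_j ∩ UU i = ∅`, and `tb R_j ∩ UU i ⊆ W_j ∩ UU i`.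
-/

open scoped Classical

noncomputable section

namespace LKU

open Finset

variable {V : Type} [Fintype V]

theorem fdisb_UU {G : SimpleGraph V} {k M e1 η σ e4 ε2 : ℝ} {𝒞 : Finset (Finset V)} {x : V}
    {Z : Finset (Finset (Finset V))} {XC HG HW : Finset (Finset V) → Finset V}
    {yp : Finset (Finset V) → V} (hL : Loc G k M e1 η σ e4 ε2 𝒞 x Z XC HG HW yp)
    (hdj : ∀ C ∈ 𝒞, ∀ C' ∈ 𝒞, C ≠ C' → Disjoint C C') {j l : Finset (Finset V)} (hj : j ∈ Z)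
    (hl : l ∈ Z) (hjl : j ≠ l) : Disjoint (UU j) (UU l) := by
  rw [disjoint_left]
  intro v hv hv'
  rw [mem_UU] at hv hv'
  obtain ⟨C, hC, hvC⟩ := hv
  obtain ⟨C', hC', hvC'⟩ := hv'
  have hne : C ≠ C' := by
    rintro rfl
    exact (disjoint_left.1 (hL.dj j hj l hl hjl) hC) hC'
  exact (disjoint_left.1 (hdj C (mem_tau.1 (hL.sub j hj hC)).1 C' (mem_tau.1 (hL.sub l hl hC')).1 hne)
    hvC) hvC'

theorem fdisb_tb {G : SimpleGraph V} {k M e1 η σ e4 ε2 : ℝ} {𝒞 : Finset (Finset V)} {x : V}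
    {Z : Finset (Finset (Finset V))} {XC HG HW : Finset (Finset V) → Finset V}
    {yp : Finset (Finset V) → V} (hL : Loc G k M e1 η σ e4 ε2 𝒞 x Z XC HG HW yp)
    (o : Finset (Finset V) → ℕ) {i i' j l : Finset (Finset V)} (hi' : i' ∈ Z) (hj : j ∈ Z)
    (hjl : o j < o l) :
    ((tb G (η * k) (RR XC HG Z o i j) ∩ tb G (η * k) (RR XC HG Z o i' l)).card : ℝ) ≤ σ * k := by
  refine le_trans ?_ (hL.hb j hj)
  have h1 : tb G (η * k) (RR XC HG Z o i j) ∩ tb G (η * k) (RR XC HG Z o i' l) ⊆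
      (HW j).filter fun z => η * k ≤ dn G (Z.biUnion XC \ HG j) z := by
    intro z hz
    rw [mem_inter] at hz
    rw [mem_filter]
    refine ⟨fdis_tb_HW hL o hj hz.1, (mem_tb.1 hz.2).2.trans (dn_mono G ?_ z)⟩
    intro w hw
    have hw' := fdis_mem_RR.1 hw
    exact mem_sdiff.2 ⟨mem_biUnion.2 ⟨i', hi', hw'.1.1⟩, hw'.2 j hj hjl⟩
  exact_mod_cast card_le_card h1

theorem DD_DD {G : SimpleGraph V} {k M e1 η σ e4 ε2 : ℝ} {𝒞 : Finset (Finset V)} {x : V}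
    {Z : Finset (Finset (Finset V))} {XC HG HW : Finset (Finset V) → Finset V}
    {yp : Finset (Finset V) → V} (hL : Loc G k M e1 η σ e4 ε2 𝒞 x Z XC HG HW yp)
    (hdj : ∀ C ∈ 𝒞, ∀ C' ∈ 𝒞, C ≠ C' → Disjoint C C') (hdeg : ∀ v, deg G v ≤ M * k)
    (hk : 1 ≤ k) (hM : 1 ≤ M) (he1 : 0 < e1) (hη : 0 < η) (hσ : 0 < σ) (he4 : 0 < e4)
    (o : Finset (Finset V) → ℕ) (ho : Set.InjOn o Z)
    {i i' j l : Finset (Finset V)} (hi : i ∈ Z) (hi' : i' ∈ Z) (hj : j ∈ Z) (hl : l ∈ Z)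
    (hjl : j ≠ l) :
    ((DD G (η * k) x XC HG Z o i j ∩ DD G (η * k) x XC HG Z o i' l).card : ℝ) ≤
      3 * ((σ + e4 * M / e1) * k) := by
  have hk0 : 0 < k := by linarith
  have hne : o j ≠ o l := fun h => hjl (ho hj hl h)
  have htb : ((tb G (η * k) (RR XC HG Z o i j) ∩ tb G (η * k) (RR XC HG Z o i' l)).card : ℝ) ≤
      σ * k := by
    rcases lt_or_gt_of_ne hne with h | h
    · exact fdisb_tb hL o hi' hj h
    · rw [inter_comm]
      exact fdisb_tb hL o hi hl h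
  have h1 : ((UU l ∩ HW j).card : ℝ) ≤ e4 * (M * k / e1) :=
    W_small hL hdj hdeg he1 he4 hj hl hjl.symm
  have h2 : ((UU j ∩ HW l).card : ℝ) ≤ e4 * (M * k / e1) :=
    W_small hL hdj hdeg he1 he4 hl hj hjl
  have hsub : DD G (η * k) x XC HG Z o i j ∩ DD G (η * k) x XC HG Z o i' l ⊆
      (tb G (η * k) (RR XC HG Z o i j) ∩ tb G (η * k) (RR XC HG Z o i' l)) ∪
        ((UU l ∩ HW j) ∪ (UU j ∩ HW l)) := by
    intro v hv
    unfold DD at hv
    rw [mem_inter, mem_union, mem_union] at hv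
    obtain ⟨hv1, hv2⟩ := hv
    rcases hv2 with hv2 | hv2
    · rcases hv1 with hv1 | hv1
      · exact mem_union_left _ (mem_inter.2 ⟨hv1, hv2⟩)
      · refine mem_union_right _ (mem_union_right _ (mem_inter.2 ⟨?_, fdis_tb_HW hL o hl hv2⟩))
        exact nb_subset _ _ _ (mem_sdiff.1 hv1).1
    · refine mem_union_right _ (mem_union_left _ (mem_inter.2 ⟨?_, ?_⟩))
      · exact nb_subset _ _ _ (mem_sdiff.1 hv2).1
      · rcases hv1 with hv1 | hv1
        · exact fdis_tb_HW hL o hj hv1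
        · exact fdis_A_HW hL hj (mem_sdiff.1 hv1).1
  have hcard : ((DD G (η * k) x XC HG Z o i j ∩ DD G (η * k) x XC HG Z o i' l).card : ℝ) ≤
      (tb G (η * k) (RR XC HG Z o i j) ∩ tb G (η * k) (RR XC HG Z o i' l)).card +
        ((UU l ∩ HW j).card + (UU j ∩ HW l).card) := by
    have h3 := (card_le_card hsub).trans (card_union_le _ _)
    have h4 := card_union_le (UU l ∩ HW j) (UU j ∩ HW l)
    have h5 : (DD G (η * k) x XC HG Z o i j ∩ DD G (η * k) x XC HG Z o i' l).card ≤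
      (tb G (η * k) (RR XC HG Z o i j) ∩ tb G (η * k) (RR XC HG Z o i' l)).card +
        ((UU l ∩ HW j).card + (UU j ∩ HW l).card) := by omega
    exact_mod_cast h5
  have e : e4 * (M * k / e1) = e4 * M / e1 * k := by ring
  rw [e] at h1 h2
  have hp1 : 0 ≤ σ * k := by positivity
  have hp2 : 0 ≤ e4 * M / e1 * k := by positivity
  have hexp : 3 * ((σ + e4 * M / e1) * k) = 3 * (σ * k) + 3 * (e4 * M / e1 * k) := by ring
  rw [hexp]
  linarith

theorem DD_UU {G : SimpleGraph V} {k M e1 η σ e4 ε2 : ℝ} {𝒞 : Finset (Finset V)} {x : V}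
    {Z : Finset (Finset (Finset V))} {XC HG HW : Finset (Finset V) → Finset V}
    {yp : Finset (Finset V) → V} (hL : Loc G k M e1 η σ e4 ε2 𝒞 x Z XC HG HW yp)
    (hdj : ∀ C ∈ 𝒞, ∀ C' ∈ 𝒞, C ≠ C' → Disjoint C C') (hdeg : ∀ v, deg G v ≤ M * k)
    (hk : 1 ≤ k) (hM : 1 ≤ M) (he1 : 0 < e1) (hη : 0 < η) (hσ : 0 < σ) (he4 : 0 < e4)
    (o : Finset (Finset V) → ℕ)
    {i j : Finset (Finset V)} (hi : i ∈ Z) (hj : j ∈ Z) (hij : i ≠ j) :
    ((DD G (η * k) x XC HG Z o i j ∩ UU i).card : ℝ) ≤ (σ + e4 * M / e1) * k := by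
  have hk0 : 0 < k := by linarith
  have h1 : ((UU i ∩ HW j).card : ℝ) ≤ e4 * (M * k / e1) :=
    W_small hL hdj hdeg he1 he4 hj hi hij
  have hsub : DD G (η * k) x XC HG Z o i j ∩ UU i ⊆ UU i ∩ HW j := by
    intro v hv
    rw [mem_inter] at hv
    obtain ⟨hv1, hv2⟩ := hv
    unfold DD at hv1
    rw [mem_union] at hv1
    refine mem_inter.2 ⟨hv2, ?_⟩
    rcases hv1 with hv1 | hv1
    · exact fdis_tb_HW hL o hj hv1
    · exact fdis_A_HW hL hj (mem_sdiff.1 hv1).1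
  have h2 : ((DD G (η * k) x XC HG Z o i j ∩ UU i).card : ℝ) ≤ (UU i ∩ HW j).card := by
    exact_mod_cast card_le_card hsub
  have e : e4 * (M * k / e1) = e4 * M / e1 * k := by ring
  rw [e] at h1
  have hp1 : 0 ≤ σ * k := by positivity
  have hexp : (σ + e4 * M / e1) * k = σ * k + e4 * M / e1 * k := by ring
  rw [hexp]
  linarith

end LKU
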