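import Pool.Agent.LKU.Num

set_option autoImplicit false
set_option linter.unusedSectionVars false

/-!
# LKU module FUni (difficulty 1): a union bound

`card_union_ge`: `∑_{j ∈ J} |S j| ≤ |⋃_{j ∈ J} S j| + ∑_{j ∈ J} ∑_{l ∈ J \ {j}} |S j ∩ S l|`. Proof: induction on `J`: adding `a`:
`|⋃_J S ∪ S a| = |⋃_J S| + |S a| - |S a ∩ ⋃_J S|` and `|S a ∩ ⋃_J S| ≤ ∑_{l ∈ J} |S a ∩ S l|`. (Stated with a bound `b` for all pairs.)
-/

open scoped Classical

noncomputable section

namespace LKU

open Finset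

theorem card_union_ge {V ι : Type} (J : Finset ι) (S : ι → Finset V) (b : ℝ) (hb : 0 ≤ b)
    (h : ∀ j ∈ J, ∀ l ∈ J, j ≠ l → ((S j ∩ S l).card : ℝ) ≤ b) :
    ∑ j ∈ J, ((S j).card : ℝ) ≤ ((J.biUnion S).card : ℝ) + (J.card : ℝ) ^ 2 * b := by
  induction J using Finset.induction_on with
  | empty => simp
  | insert a J ha ih =>
    have ih' := ih (fun j hj l hl => h j (mem_insert_of_mem hj) l (mem_insert_of_mem hl))
    rw [sum_insert ha, biUnion_insert, card_insert_of_notMem ha]
    have h1 : ((S a ∩ J.biUnion S).card : ℝ) ≤ J.card * b := by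
      have h2 : S a ∩ J.biUnion S ⊆ J.biUnion fun l => S a ∩ S l := by
        intro v hv
        obtain ⟨hv1, hv2⟩ := mem_inter.1 hv
        obtain ⟨l, hl, hvl⟩ := mem_biUnion.1 hv2
        exact mem_biUnion.2 ⟨l, hl, mem_inter.2 ⟨hv1, hvl⟩⟩
      calc ((S a ∩ J.biUnion S).card : ℝ) ≤ ((J.biUnion fun l => S a ∩ S l).card : ℝ) := by
            exact_mod_cast card_le_card h2
        _ ≤ ∑ l ∈ J, ((S a ∩ S l).card : ℝ) := by exact_mod_cast card_biUnion_le
        _ ≤ ∑ l ∈ J, b := by
            apply sum_le_sum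
            intro l hl
            exact h a (mem_insert_self _ _) l (mem_insert_of_mem hl)
              (fun e => ha (e ▸ hl))
        _ = J.card * b := by rw [sum_const, nsmul_eq_mul]
    have h2 : ((S a ∪ J.biUnion S).card : ℝ) + (S a ∩ J.biUnion S).card =
        (S a).card + (J.biUnion S).card := by
      exact_mod_cast card_union_add_card_inter (S a) (J.biUnion S)
    have h3 : 0 ≤ (J.card : ℝ) * b := by positivity
    push_cast
    nlinarith

end LKU
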