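import Pool.Agent.LKU.FCut
import Pool.Agent.LKU.FDisB
import Pool.Agent.LKU.FUni

set_option autoImplicit false
set_option linter.unusedSectionVars false

/-!
# LKU module FKey (difficulty 3)

The key inequality. Notation of FDefs / FDisA; `s = σ + e4 M / e1`, `T_i = (bd G X_i).erase y_i` (`X_i = XC i`, `y_i = yp i`), `|T_i| ≤ k`
(`Loc.cut`), `A0 = A0 G 𝒞 e1 x`.
`T_i` contains the following sets: (a) `T_i ∩ C` for `C ∈ i` (disjoint for different `C`, contained in `UU i`); (b) `(A0 \ X_i) \ {y_i}`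
(`A0 ⊆ nb G univ x ⊆ X_i ∪ bd G X_i`), disjoint from `UU i ⊆ UU (tau x)`; (c) `((DD i j \ A0) \ X_i) \ {y_i}` for `j ∈ Z.erase i` (`DD_subset`),
whose overlap with `UU i` is at most `s k` (`DD_UU`), with `X_i` at most `(2K+4) s k` (`DD_XC`), and with each other at most `3 s k` (`DD_DD`), and which are
disjoint from (b). Hence (use `card_union_ge` for (c); put `S_j = (DD i j \ A0) \ X_i \ {y_i} \ UU i`)
`k ≥ |T_i| ≥ ∑_{C ∈ i} |T_i ∩ C| + (|A0| - δ k - 1) + ∑_{j ∈ Z.erase i} (|DD i j \ A0| - (2K+4) s k - s k - 1) - K^2 3 s k`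
(`hA0`: `|A0 ∩ X_i| ≤ δ k`, as `X_i ∈ XX` (`Cut.xx`) and `x ∈ X_i`).
By `cut_cluster` with `e5 = ε' e1 / (12 M)` (`r < e1 e5` by `c3`: `16 M r ≤ ε' e1^2`): `|T_i ∩ C| ≥ aC C - (ε2 + e5) |C| - 2`, and
`∑_{C ∈ i} (ε2 + e5) |C| ≤ (ε2 + e5) M k / e1 ≤ (ε'/8 + ε'/12) k` (`c2`, `sum_card_tau_le`), `∑_{C ∈ i} 2 ≤ 2 K`.
Total error: `(ε'/8 + ε'/12) k + 2K + δ k + 1 + K ((2K+5) s k + 1) + 3 K^2 s k`
`≤ (ε'/8 + ε'/12) k + ε' k/8 + 10 K^2 s k + 4 K^2 ≤ (1/8 + 1/12 + 1/8 + 1/10 + 1/25) ε' k ≤ ε' k/2`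
(`c1`; `c5`: `100 K^2 s ≤ ε'`; `c6`: `100 K^2 ≤ ε' k`; `K ≥ 1`).
-/

open scoped Classical

noncomputable section

namespace LKU

open Finset

variable {V : Type} [Fintype V]

theorem FKey_split (B E : Finset V) :
    (B.card : ℝ) = ((B \ E).card : ℝ) + ((B ∩ E).card : ℝ) := by
  have := card_sdiff_add_card_inter B E
  exact_mod_cast this.symm

theorem FKey_one (B : Finset V) (y : V) : (B.card : ℝ) ≤ ((B \ {y}).card : ℝ) + 1 := by
  have h := FKey_split B {y}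
  have h2 : (B ∩ {y}).card ≤ 1 := by
    have := card_le_card (inter_subset_right : B ∩ {y} ⊆ {y})
    simpa using this
  have h3 : ((B ∩ {y}).card : ℝ) ≤ 1 := by exact_mod_cast h2
  linarith

theorem key_ineq {G : SimpleGraph V} {k M e1 r c0 δ η σ e4 ε2 ε' K : ℝ}
    {𝒞 : Finset (Finset V)} {x : V} {Z : Finset (Finset (Finset V))}
    {XC HG HW : Finset (Finset V) → Finset V} {yp : Finset (Finset V) → V}
    (hC : Clus G k M e1 r c0 δ 𝒞) (hL : Loc G k M e1 η σ e4 ε2 𝒞 x Z XC HG HW yp)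
    (hdeg : ∀ v, deg G v ≤ M * k) (hA0 : ∀ X, XX G k M X → x ∈ X → ((A0 G 𝒞 e1 x ∩ X).card : ℝ) ≤ δ * k)
    (hk : 1 ≤ k) (hM : 1 ≤ M) (he1 : 0 < e1) (he1' : e1 ≤ 1) (hr : 0 < r) (hη : 0 < η)
    (hσ : 0 < σ) (he4 : 0 < e4) (hε2 : 0 < ε2) (hδ : 0 < δ) (hε' : 0 < ε') (hε1 : ε' ≤ 1)
    (hK : ((tau G 𝒞 e1 x).card : ℝ) ≤ K) (hK1 : 1 ≤ K) (hZK : (Z.card : ℝ) ≤ K)
    (c1 : δ ≤ ε' / 8) (c2 : ε2 * (8 * M) ≤ ε' * e1) (c3 : r * (16 * M) ≤ ε' * e1 ^ 2)
    (c4 : 2 * r + 2 / k ≤ δ) (c5 : 100 * K ^ 2 * (σ + e4 * M / e1) ≤ ε') (c6 : 100 * K ^ 2 ≤ ε' * k)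
    (o : Finset (Finset V) → ℕ) (ho : Set.InjOn o Z) {i : Finset (Finset V)} (hi : i ∈ Z) :
    ∑ C ∈ i, aC G k e1 δ 𝒞 x C + (A0 G 𝒞 e1 x).card +
      ∑ j ∈ Z.erase i, ((DD G (η * k) x XC HG Z o i j \ A0 G 𝒞 e1 x).card : ℝ) ≤
      (1 + ε' / 2) * k := by
  have hcut := hL.cut i hi
  have hdj := hC.disj
  have hTk : ((((bd G (XC i)).erase (yp i)).card : ℕ) : ℝ) ≤ k := hcut.2.2.2.1
  have hxX : x ∈ XC i := hcut.1
  have hXX : XX G k M (XC i) := hcut.xx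
  have hAX := hA0 (XC i) hXX hxX
  have hisub : i ⊆ tau G 𝒞 e1 x := hL.sub i hi
  have hk0 : 0 < k := by linarith
  have hM0 : 0 < M := by linarith
  obtain ⟨s, hs⟩ : ∃ s : ℝ, s = σ + e4 * M / e1 := ⟨_, rfl⟩
  have hs0 : 0 < s := by rw [hs]; positivity
  obtain ⟨T, hT⟩ : ∃ T : Finset V, T = (bd G (XC i)).erase (yp i) := ⟨_, rfl⟩
  obtain ⟨A, hA⟩ : ∃ A : Finset V, A = A0 G 𝒞 e1 x := ⟨_, rfl⟩
  obtain ⟨D, hD⟩ : ∃ D : Finset (Finset V) → Finset V,
    D = fun j => DD G (η * k) x XC HG Z o i j := ⟨_, rfl⟩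
  rw [← hT] at hTk
  rw [← hA] at hAX
  have hAeq : A = nb G univ x \ UU (tau G 𝒞 e1 x) := by rw [hA]; rfl
  have hTmem : ∀ v, v ∈ XC i ∪ bd G (XC i) → v ∉ XC i → v ≠ yp i → v ∈ T := by
    intro v hv hvX hvy
    rw [hT]
    rcases mem_union.1 hv with h | h
    · exact absurd h hvX
    · exact mem_erase.2 ⟨hvy, h⟩
  have hAsub : A ⊆ XC i ∪ bd G (XC i) := by
    intro v hv
    rw [hAeq] at hv
    exact nb_subset_union hxX (mem_sdiff.1 hv).1
  have hUU : UU i ⊆ UU (tau G 𝒞 e1 x) := by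
    intro v hv
    rw [mem_UU] at hv ⊢
    obtain ⟨C, hC1, hC2⟩ := hv
    exact ⟨C, hisub hC1, hC2⟩
  have hAU : ∀ v ∈ A, v ∉ UU i := by
    intro v hv hv2
    rw [hAeq] at hv
    exact (mem_sdiff.1 hv).2 (hUU hv2)
  have hDsub : ∀ j, D j ⊆ XC i ∪ bd G (XC i) := by
    intro j
    rw [hD]
    exact DD_subset hL hk hη o hi
  obtain ⟨S, hS⟩ : ∃ S : Finset (Finset V) → Finset V,
    S = fun j => (((D j \ A) \ XC i) \ {yp i}) \ UU i := ⟨_, rfl⟩
  have hSmem : ∀ j v, v ∈ S j ↔ (((v ∈ D j ∧ v ∉ A) ∧ v ∉ XC i) ∧ v ≠ yp i) ∧ v ∉ UU i := by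
    intro j v
    rw [hS]
    simp only [mem_sdiff, mem_singleton]
  -- the three parts
  have hd12 : Disjoint (T ∩ UU i) ((A \ XC i) \ {yp i}) := by
    rw [Finset.disjoint_left]
    intro v h1 h2
    simp only [mem_inter, mem_sdiff] at h1 h2
    exact hAU v h2.1.1 h1.2
  have hd3 : Disjoint ((T ∩ UU i) ∪ ((A \ XC i) \ {yp i})) ((Z.erase i).biUnion S) := by
    rw [Finset.disjoint_left]
    intro v h1 h2
    rw [mem_biUnion] at h2
    obtain ⟨j, _, hj⟩ := h2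
    rw [hSmem] at hj
    rcases mem_union.1 h1 with h | h
    · exact hj.2 (mem_inter.1 h).2
    · exact hj.1.1.1.2 (mem_sdiff.1 (mem_sdiff.1 h).1).1
  have hsub : (T ∩ UU i) ∪ ((A \ XC i) \ {yp i}) ∪ ((Z.erase i).biUnion S) ⊆ T := by
    intro v hv
    rcases mem_union.1 hv with h | h
    · rcases mem_union.1 h with h | h
      · exact (mem_inter.1 h).1
      · simp only [mem_sdiff, mem_singleton] at h
        exact hTmem v (hAsub h.1.1) h.1.2 h.2
    · rw [mem_biUnion] at h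
      obtain ⟨j, _, hj⟩ := h
      rw [hSmem] at hj
      exact hTmem v (hDsub j hj.1.1.1.1) hj.1.1.2 hj.1.2
  have hcard : ((T ∩ UU i).card : ℝ) + (((A \ XC i) \ {yp i}).card : ℝ) +
      (((Z.erase i).biUnion S).card : ℝ) ≤ T.card := by
    have h1 := card_le_card hsub
    rw [card_union_of_disjoint hd3, card_union_of_disjoint hd12] at h1
    exact_mod_cast h1
  -- part 2
  have hp2 : (A.card : ℝ) ≤ (((A \ XC i) \ {yp i}).card : ℝ) + 1 + δ * k := by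
    have h1 := FKey_split A (XC i)
    have h2 := FKey_one (A \ XC i) (yp i)
    linarith
  -- part 3
  have hp3 : ∀ j ∈ Z.erase i, ((D j \ A).card : ℝ) ≤
      ((S j).card : ℝ) + ((2 * K + 5) * (s * k) + 1) := by
    intro j hj
    have hjZ : j ∈ Z := (mem_erase.1 hj).2
    have hji : i ≠ j := fun h => (mem_erase.1 hj).1 h.symm
    have h1 := FKey_split (D j \ A) (XC i)
    have h2 := FKey_one ((D j \ A) \ XC i) (yp i)
    have h3 := FKey_split (((D j \ A) \ XC i) \ {yp i}) (UU i)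
    have h4 : (((D j \ A) ∩ XC i).card : ℝ) ≤ (2 * K + 4) * (s * k) := by
      refine le_trans ?_ (le_trans (DD_XC hL hdj hdeg hk hM he1 hη hσ he4 hZK o ho hi hjZ) ?_)
      · have : (D j \ A) ∩ XC i ⊆ DD G (η * k) x XC HG Z o i j ∩ XC i := by
          rw [hD]
          exact inter_subset_inter_right sdiff_subset
        exact_mod_cast card_le_card this
      · rw [hs]
    have h5 : (((((D j \ A) \ XC i) \ {yp i}) ∩ UU i).card : ℝ) ≤ s * k := by
      refine le_trans ?_ (le_trans (DD_UU hL hdj hdeg hk hM he1 hη hσ he4 o hi hjZ hji) ?_)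
      · have : (((D j \ A) \ XC i) \ {yp i}) ∩ UU i ⊆ DD G (η * k) x XC HG Z o i j ∩ UU i := by
          rw [hD]
          exact inter_subset_inter_right (sdiff_subset.trans (sdiff_subset.trans sdiff_subset))
        exact_mod_cast card_le_card this
      · rw [hs]
    have h6 : (S j).card = ((((D j \ A) \ XC i) \ {yp i}) \ UU i).card := by rw [hS]
    have h7 : ((S j).card : ℝ) = (((((D j \ A) \ XC i) \ {yp i}) \ UU i).card : ℝ) := by
      exact_mod_cast h6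
    linarith
  have hJ : ((Z.erase i).card : ℝ) ≤ K := by
    have h1 : (Z.erase i).card ≤ Z.card := card_le_card (erase_subset _ _)
    have h2 : ((Z.erase i).card : ℝ) ≤ Z.card := by exact_mod_cast h1
    linarith
  have hJ0 : (0 : ℝ) ≤ ((Z.erase i).card : ℝ) := by positivity
  have hsk : 0 < s * k := by positivity
  have hun := card_union_ge (Z.erase i) S (3 * (s * k)) (by positivity) (by
    intro j hj l hl hjl
    refine le_trans ?_ (le_trans (DD_DD hL hdj hdeg hk hM he1 hη hσ he4 o ho hi hi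
      (mem_erase.1 hj).2 (mem_erase.1 hl).2 hjl) ?_)
    · have : S j ∩ S l ⊆ DD G (η * k) x XC HG Z o i j ∩ DD G (η * k) x XC HG Z o i l := by
        intro v hv
        rw [mem_inter, hSmem, hSmem] at hv
        have h1 := hv.1.1.1.1.1
        have h2 := hv.2.1.1.1.1
        rw [hD] at h1 h2
        exact mem_inter.2 ⟨h1, h2⟩
      exact_mod_cast card_le_card this
    · rw [hs])
  have hsum3 : ∑ j ∈ Z.erase i, ((D j \ A).card : ℝ) ≤
      ∑ j ∈ Z.erase i, ((S j).card : ℝ) +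
        ((Z.erase i).card : ℝ) * ((2 * K + 5) * (s * k) + 1) := by
    refine le_trans (sum_le_sum hp3) ?_
    rw [sum_add_distrib, sum_const, nsmul_eq_mul]
  -- part 1
  obtain ⟨e5, he5⟩ : ∃ e5 : ℝ, e5 = ε' * e1 / (12 * M) := ⟨_, rfl⟩
  have he50 : 0 < e5 := by rw [he5]; positivity
  have h5 : r < e1 * e5 := by
    rw [he5, show e1 * (ε' * e1 / (12 * M)) = ε' * e1 ^ 2 / (12 * M) by ring,
      lt_div_iff₀ (by positivity)]
    have : 0 < r * M := by positivity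
    nlinarith
  have hC1 : ∀ C ∈ i, aC G k e1 δ 𝒞 x C ≤ ((T ∩ C).card : ℝ) + (ε2 + e5) * C.card + 2 := by
    intro C hCi
    have hC𝒞 : C ∈ 𝒞 := (mem_tau.1 (hisub hCi)).1
    have := cut_cluster hcut hC𝒞 (hC.ne C hC𝒞) (hC.reg C hC𝒞) (hL.twin i hi C hCi).2 hk he1 hr
      hε2 he50 h5 c4
    rw [hT]
    exact this
  have hS1 : ∑ C ∈ i, ((T ∩ C).card : ℝ) ≤ ((T ∩ UU i).card : ℝ) := by
    have h1 := sum_card_le (𝒟 := i) (fun C h C' h' hne =>
      hdj C (mem_tau.1 (hisub h)).1 C' (mem_tau.1 (hisub h')).1 hne) (T ∩ UU i)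
    refine le_trans (sum_le_sum fun C hCi => ?_) h1
    have : T ∩ C ⊆ C ∩ (T ∩ UU i) := by
      intro v hv
      rw [mem_inter] at hv
      rw [mem_inter, mem_inter]
      exact ⟨hv.2, hv.1, mem_UU.2 ⟨C, hCi, hv.2⟩⟩
    exact_mod_cast card_le_card this
  have hS2 : ∑ C ∈ i, (C.card : ℝ) ≤ M * k / e1 :=
    le_trans (sum_le_sum_of_subset_of_nonneg hisub (fun _ _ _ => by positivity))
      (sum_card_tau_le he1 hdeg hdj x)
  have hi2 : (i.card : ℝ) ≤ K := by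
    have h1 : (i.card : ℝ) ≤ (tau G 𝒞 e1 x).card := by exact_mod_cast card_le_card hisub
    linarith
  have hS3 : ∑ C ∈ i, aC G k e1 δ 𝒞 x C ≤
      ((T ∩ UU i).card : ℝ) + (ε2 + e5) * (M * k / e1) + 2 * K := by
    refine le_trans (sum_le_sum hC1) ?_
    rw [sum_add_distrib, sum_add_distrib, ← mul_sum, sum_const, nsmul_eq_mul]
    have := mul_le_mul_of_nonneg_left hS2 (show 0 ≤ ε2 + e5 by positivity)
    linarith
  have hS4 : (ε2 + e5) * (M * k / e1) ≤ (ε' / 8 + ε' / 12) * k := by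
    have h1 : ε2 * (M * k / e1) ≤ ε' / 8 * k := by
      rw [show ε2 * (M * k / e1) = (ε2 * (8 * M)) * k / (8 * e1) by field_simp,
        div_le_iff₀ (by positivity)]
      have := mul_le_mul_of_nonneg_right c2 hk0.le
      linarith
    have h2 : e5 * (M * k / e1) = ε' / 12 * k := by
      rw [he5]; field_simp
    linarith
  -- numbers
  rw [← hs] at c5
  have hK2 : K ≤ K ^ 2 := by nlinarith
  have n1 : ((Z.erase i).card : ℝ) ^ 2 * (3 * (s * k)) ≤ K ^ 2 * (3 * (s * k)) := by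
    apply mul_le_mul_of_nonneg_right _ (by positivity)
    exact pow_le_pow_left₀ hJ0 hJ 2
  have n2 : ((Z.erase i).card : ℝ) * ((2 * K + 5) * (s * k) + 1) ≤
      K * ((2 * K + 5) * (s * k) + 1) := by
    apply mul_le_mul_of_nonneg_right hJ
    have : 0 ≤ (2 * K + 5) * (s * k) := by positivity
    linarith
  have n3 : K * ((2 * K + 5) * (s * k)) ≤ 7 * (K ^ 2 * (s * k)) := by
    have : K * (s * k) ≤ K ^ 2 * (s * k) := mul_le_mul_of_nonneg_right hK2 hsk.le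
    nlinarith
  have n4 : K ^ 2 * (s * k) ≤ ε' * k / 100 := by
    have := mul_le_mul_of_nonneg_right c5 hk0.le
    linarith
  have n5 : δ * k ≤ ε' * k / 8 := by
    have := mul_le_mul_of_nonneg_right c1 hk0.le
    linarith
  have n6 : 2 * K + 1 + K ≤ ε' * k / 25 := by nlinarith
  have hfin : ∑ j ∈ Z.erase i, ((DD G (η * k) x XC HG Z o i j \ A0 G 𝒞 e1 x).card : ℝ) =
      ∑ j ∈ Z.erase i, ((D j \ A).card : ℝ) := by
    rw [hD, hA]
  have hAc : ((A0 G 𝒞 e1 x).card : ℝ) = (A.card : ℝ) := by rw [hA]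
  rw [hfin, hAc]
  have hεk : 0 < ε' * k := by positivity
  nlinarith

end LKU
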