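import Pool.Agent.LKU.HDefs

set_option autoImplicit false
set_option linter.unusedSectionVars false

/-!
# LKU module HBase (difficulty 2): elementary facts on the process

All by unfolding the definitions / induction on the list.
* `rho_le_cons`: for `v ∉ R p.1`: `rho (p :: L) v ≤ rho L v + [v ∈ tb (R p.1) \ Hub] p.2` (`p.2 ≥ 0`, `rho L v ≥ 0`); for `v ∈ R p.1`: `rho (p :: L) v = 0`.
* `rho_ge`: if `p ∈ L`, `v ∈ tb (R p.1)`, `v ∉ PP L`, `v ∉ Hub` then `p.2 ≤ rho L v` (induction; if `v ∉ PP (q :: L)` then `v ∉ PP L`).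
* `lv_eq`: if every `p ∈ L` touching `j` has `p.2 ≤ c` and one of them has `p.2 = c`, `c ≥ 0`, then `lv L j = c` (induction: `lv L j ≤ c` and `c ≤ lv L j`).
* monotonicity with respect to suffixes (`L <:+ L'`: `List.IsSuffix`, members of `L` are members of `L'`).
-/

open scoped Classical

noncomputable section

namespace LKU

open Finset

variable {V ι : Type} [Fintype V] (D : HD V ι)

theorem mem_PP {D : HD V ι} {L : List (ι × ℝ)} {v : V} : v ∈ D.PP L ↔ ∃ p ∈ L, v ∈ D.R p.1 := by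
  simp [HD.PP]

theorem PP_cons (p : ι × ℝ) (L : List (ι × ℝ)) : D.PP (p :: L) = D.R p.1 ∪ D.PP L := by
  ext v
  rw [mem_union, mem_PP, mem_PP]
  constructor
  · rintro ⟨q, hq, hv⟩
    rcases List.mem_cons.1 hq with rfl | hq
    · exact Or.inl hv
    · exact Or.inr ⟨q, hq, hv⟩
  · rintro (hv | ⟨q, hq, hv⟩)
    · exact ⟨p, List.mem_cons_self, hv⟩
    · exact ⟨q, List.mem_cons_of_mem _ hq, hv⟩

theorem PP_mono {L L' : List (ι × ℝ)} (h : L <:+ L') : D.PP L ⊆ D.PP L' := by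
  intro v hv
  rw [mem_PP] at hv ⊢
  obtain ⟨p, hp, hv⟩ := hv
  exact ⟨p, h.subset hp, hv⟩

theorem Tch_mono {L L' : List (ι × ℝ)} (h : L <:+ L') {j : ι} (hj : D.Tch L j) : D.Tch L' j := by
  obtain ⟨p, hp, hj⟩ := hj
  exact ⟨p, h.subset hp, hj⟩

theorem mem_Fr {D : HD V ι} {L : List (ι × ℝ)} {v : V} :
    v ∈ D.Fr L ↔ v ∉ D.PP L ∧ v ∉ D.Hub ∧ ∃ p ∈ L, v ∈ tb D.G (D.η * D.k) (D.R p.1) := by
  simp [HD.Fr]

theorem Fr_mono {L L' : List (ι × ℝ)} (h : L <:+ L') : D.Fr L \ D.PP L' ⊆ D.Fr L' := by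
  intro v hv
  rw [mem_sdiff, mem_Fr] at hv
  obtain ⟨⟨_, h2, p, hp, h3⟩, h4⟩ := hv
  rw [mem_Fr]
  exact ⟨h4, h2, p, h.subset hp, h3⟩

theorem Valid_of_suffix {L L' : List (ι × ℝ)} (h : L <:+ L') (hv : D.Valid L') : D.Valid L := by
  induction L' with
  | nil =>
    rw [List.suffix_nil] at h
    subst h
    exact hv
  | cons p L' ih =>
    rw [List.suffix_cons_iff] at h
    rcases h with rfl | h
    · exact hv
    · exact ih h hv.1

theorem Valid_level {L : List (ι × ℝ)} (hv : D.Valid L) {p : ι × ℝ} (hp : p ∈ L) :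
    0 ≤ p.2 ∧ p.2 ≤ 60 := by
  induction L with
  | nil => simp at hp
  | cons q L ih =>
    rcases List.mem_cons.1 hp with rfl | hp
    · exact ⟨hv.2.1, hv.2.2.1⟩
    · exact ih hv.1 hp

theorem rho_nonneg {L : List (ι × ℝ)} (hL : ∀ p ∈ L, 0 ≤ p.2) (v : V) : 0 ≤ D.rho L v := by
  induction L with
  | nil => unfold HD.rho; exact le_rfl
  | cons q L ih =>
    have ih' := ih (fun p hp => hL p (List.mem_cons_of_mem _ hp))
    unfold HD.rho
    split_ifs
    · exact le_rfl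
    · exact le_max_of_le_right ih'
    · exact ih'

theorem rho_zero {L : List (ι × ℝ)} {v : V} (hv : v ∈ D.PP L ∨ v ∈ D.Hub) : D.rho L v = 0 := by
  cases L with
  | nil => unfold HD.rho; rfl
  | cons q L => unfold HD.rho; rw [if_pos hv]

theorem rho_le_cons {L : List (ι × ℝ)} (hL : ∀ p ∈ L, 0 ≤ p.2) {p : ι × ℝ} (hp : 0 ≤ p.2) {v : V}
    (hv : v ∉ D.R p.1) :
    D.rho (p :: L) v ≤ D.rho L v + if v ∈ tb D.G (D.η * D.k) (D.R p.1) \ D.Hub then p.2 else 0 := by
  have h0 := rho_nonneg D hL v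
  have h1 : 0 ≤ (if v ∈ tb D.G (D.η * D.k) (D.R p.1) \ D.Hub then p.2 else 0) := by
    split_ifs
    · exact hp
    · exact le_rfl
  conv_lhs => unfold HD.rho
  by_cases ha : v ∈ D.PP (p :: L) ∨ v ∈ D.Hub
  · rw [if_pos ha]
    exact add_nonneg h0 h1
  · rw [if_neg ha]
    by_cases hb : v ∈ tb D.G (D.η * D.k) (D.R p.1)
    · rw [if_pos hb, if_pos (mem_sdiff.2 ⟨hb, fun h => ha (Or.inr h)⟩)]
      exact max_le (by linarith) (by linarith)
    · rw [if_neg hb]
      linarith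

theorem rho_ge {L : List (ι × ℝ)} {p : ι × ℝ} (hp : p ∈ L) {v : V}
    (hv : v ∈ tb D.G (D.η * D.k) (D.R p.1)) (h1 : v ∉ D.PP L) (h2 : v ∉ D.Hub) :
    p.2 ≤ D.rho L v := by
  induction L with
  | nil => simp at hp
  | cons q L ih =>
    unfold HD.rho
    rw [if_neg (not_or.2 ⟨h1, h2⟩)]
    rcases List.mem_cons.1 hp with rfl | hp'
    · rw [if_pos hv]
      exact le_max_left _ _
    · have h3 : v ∉ D.PP L := by
        intro h
        apply h1
        rw [PP_cons]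
        exact mem_union_right _ h
      have ih' := ih hp' h3
      split_ifs
      · exact le_max_of_le_right ih'
      · exact ih'

theorem lv_nonneg {L : List (ι × ℝ)} (hL : ∀ p ∈ L, 0 ≤ p.2) (j : ι) : 0 ≤ D.lv L j := by
  induction L with
  | nil => unfold HD.lv; exact le_rfl
  | cons q L ih =>
    have ih' := ih (fun p hp => hL p (List.mem_cons_of_mem _ hp))
    unfold HD.lv
    split_ifs
    · exact le_max_of_le_right ih'
    · exact ih'

theorem lv_le_cons {L : List (ι × ℝ)} (hL : ∀ p ∈ L, 0 ≤ p.2) {p : ι × ℝ} (hp : 0 ≤ p.2) (j : ι) :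
    D.lv (p :: L) j ≤ D.lv L j +
      if D.η * D.k ≤ ((D.A j ∩ D.R p.1).card : ℝ) then p.2 else 0 := by
  have h0 := lv_nonneg D hL j
  conv_lhs => unfold HD.lv
  by_cases ha : D.η * D.k ≤ ((D.A j ∩ D.R p.1).card : ℝ)
  · rw [if_pos ha, if_pos ha]
    exact max_le (by linarith) (by linarith)
  · rw [if_neg ha, if_neg ha]
    linarith

theorem lv_eq {L : List (ι × ℝ)} {j : ι} {c : ℝ} (hc : 0 ≤ c)
    (h1 : ∀ p ∈ L, D.η * D.k ≤ ((D.A j ∩ D.R p.1).card : ℝ) → p.2 ≤ c)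
    (h2 : ∃ p ∈ L, D.η * D.k ≤ ((D.A j ∩ D.R p.1).card : ℝ) ∧ p.2 = c) : D.lv L j = c := by
  have hle : ∀ L : List (ι × ℝ), (∀ p ∈ L, D.η * D.k ≤ ((D.A j ∩ D.R p.1).card : ℝ) → p.2 ≤ c) →
      D.lv L j ≤ c := by
    intro L
    induction L with
    | nil => intro _; unfold HD.lv; exact hc
    | cons q L ih =>
      intro h
      have ih' := ih (fun p hp => h p (List.mem_cons_of_mem _ hp))
      unfold HD.lv
      split_ifs with ha
      · exact max_le (h q List.mem_cons_self ha) ih'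
      · exact ih'
  have hge : ∀ L : List (ι × ℝ), (∃ p ∈ L, D.η * D.k ≤ ((D.A j ∩ D.R p.1).card : ℝ) ∧ p.2 = c) →
      c ≤ D.lv L j := by
    intro L
    induction L with
    | nil => rintro ⟨p, hp, -⟩; simp at hp
    | cons q L ih =>
      rintro ⟨p, hp, h3, h4⟩
      unfold HD.lv
      rcases List.mem_cons.1 hp with rfl | hp'
      · rw [if_pos h3, ← h4]
        exact le_max_left _ _
      · have ih' := ih ⟨p, hp', h3, h4⟩
        split_ifs
        · exact le_max_of_le_right ih'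
        · exact ih'
  exact le_antisymm (hle L h1) (hge L h2)

theorem lv_untouched {L : List (ι × ℝ)} {j : ι} (h : ¬ D.Tch L j) : D.lv L j = 0 := by
  induction L with
  | nil => unfold HD.lv; rfl
  | cons q L ih =>
    have h1 : ¬ D.Tch L j := fun ⟨p, hp, hj⟩ => h ⟨p, List.mem_cons_of_mem _ hp, hj⟩
    have h2 : ¬ D.η * D.k ≤ ((D.A j ∩ D.R q.1).card : ℝ) :=
      fun h3 => h ⟨q, List.mem_cons_self, h3⟩
    unfold HD.lv
    rw [if_neg h2]
    exact ih h1

end LKU
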