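import Pool.Agent.LKU.Num

set_option autoImplicit false
set_option linter.unusedSectionVars false

/-!
# LKU: definitions for part H (region lemma), by helper32 (not a module)

A state of the process is the list `L` of the steps done so far, the newest first; a step is a pair `(i, ℓ)`: zone `i` is processed at level `ℓ`.
-/

open scoped Classical

noncomputable section

namespace LKU

open Finset

/-- the data of the process -/
structure HD (V ι : Type) where
  G : SimpleGraph V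
  k : ℝ
  η : ℝ
  e9 : ℝ
  Hub : Finset V
  A : ι → Finset V
  R : ι → Finset V
  φ : ι → ℝ
  lam : V → ℝ

variable {V ι : Type} [Fintype V]

/-- supply of a set -/
def HD.sup (D : HD V ι) (S : Finset V) : ℝ := ∑ v ∈ S, (1 + D.lam v / t2)

/-- the union of the processed regions -/
def HD.PP (D : HD V ι) (L : List (ι × ℝ)) : Finset V := univ.filter fun v => ∃ p ∈ L, v ∈ D.R p.1

/-- zone `j` is touched -/
def HD.Tch (D : HD V ι) (L : List (ι × ℝ)) (j : ι) : Prop :=
  ∃ p ∈ L, D.η * D.k ≤ ((D.A j ∩ D.R p.1).card : ℝ)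

/-- the frontier -/
def HD.Fr (D : HD V ι) (L : List (ι × ℝ)) : Finset V :=
  univ.filter fun v => v ∉ D.PP L ∧ v ∉ D.Hub ∧ ∃ p ∈ L, v ∈ tb D.G (D.η * D.k) (D.R p.1)

/-- the reserve of a vertex -/
def HD.rho (D : HD V ι) : List (ι × ℝ) → V → ℝ
  | [], _ => 0
  | p :: L, v =>
    if v ∈ D.PP (p :: L) ∨ v ∈ D.Hub then 0
    else if v ∈ tb D.G (D.η * D.k) (D.R p.1) then max p.2 (D.rho L v) else D.rho L v

/-- the payment of a zone -/
def HD.lv (D : HD V ι) : List (ι × ℝ) → ι → ℝ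
  | [], _ => 0
  | p :: L, j =>
    if D.η * D.k ≤ ((D.A j ∩ D.R p.1).card : ℝ) then max p.2 (D.lv L j) else D.lv L j

/-- zone `i` can be processed at level `ℓ` in the state `L` -/
def HD.Afd (D : HD V ι) (L : List (ι × ℝ)) (i : ι) (ℓ : ℝ) : Prop :=
  ¬ D.Tch L i ∧ ((D.A i ∩ D.PP L).card : ℝ) ≤ D.e9 * D.k ∧
    D.φ i * ℓ * D.k ≤ D.sup (D.R i \ D.PP L) + ∑ v ∈ D.R i, D.rho L v

/-- all steps were possible -/
def HD.Valid (D : HD V ι) : List (ι × ℝ) → Prop
  | [] => True
  | p :: L => D.Valid L ∧ 0 ≤ p.2 ∧ p.2 ≤ 60 ∧ D.Afd L p.1 p.2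

/-- no step of level `ℓ` is possible -/
def HD.Closed (D : HD V ι) (L : List (ι × ℝ)) (ℓ : ℝ) : Prop := ∀ i, ¬ D.Afd L i ℓ

/-- thin degree of a vertex to the processed regions -/
def HD.Th (D : HD V ι) (L : List (ι × ℝ)) (v : V) : ℝ :=
  (L.map fun p => if dn D.G (D.R p.1) v < D.η * D.k then dn D.G (D.R p.1) v else 0).sum

/-- thin intersections of a zone with the processed regions -/
def HD.Ps (D : HD V ι) (L : List (ι × ℝ)) (i : ι) : ℝ :=
  (L.map fun p => if ((D.A i ∩ D.R p.1).card : ℝ) < D.η * D.k then ((D.A i ∩ D.R p.1).card : ℝ)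
    else 0).sum

/-- the drift vertices -/
def HD.Dr (D : HD V ι) (L : List (ι × ℝ)) : Finset V := univ.filter fun v => D.e9 * D.k < D.Th L v

/-- the part of `A i ∩ R i` not yet reached; `S` is the set of drift vertices -/
def HD.Un (D : HD V ι) (S : Finset V) (L : List (ι × ℝ)) (i : ι) : Finset V :=
  (D.A i ∩ D.R i) \ (D.PP L ∪ D.Fr L ∪ D.Hub ∪ S)

/-- the data of `Reg` -/
abbrev mkHD (G : SimpleGraph V) (k η e9 : ℝ) (Hub : Finset V) (A R : ι → Finset V) (φ : ι → ℝ)
    (lam : V → ℝ) : HD V ι := ⟨G, k, η, e9, Hub, A, R, φ, lam⟩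

end LKU
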