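import Pool.Agent.LKU.HBase

set_option autoImplicit false
set_option linter.unusedSectionVars false

/-!
# LKU module HDrift (difficulty 3): drift bounds

`nbr_count`: if `R ⊆ X`, `X ∈ XX`, the vertices with a neighbour in `R` lie in `X ∪ bd G X`: at most `(M+2) k` of them (`card_union_bd_le`).

`card_Dr_le`: `∑_v Th L v = ∑_{p ∈ L} ∑_v [..] ≤ |L| (M+2) k η k` (each `p ∈ L`: at most `(M+2) k` vertices `v` with `dn (R p.1) v > 0`, each contributes `< η k`);
every `v ∈ Dr L` has `Th L v > e9 k`. So `|Dr L| e9 k ≤ |L| (M+2) η k^2`.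

`card_BadZ_le`: `∑_i Ps L i ≤ |L| K (M+2) k η k`: for `p ∈ L`, `A i ∩ R p.1 ≠ ∅` implies that `hub i` has a neighbour in `R p.1` (`Asub`), so there are at most
`(M+2) k` such hubs, each with at most `K` zones (`perHub`). The number of `i` with `Ps L i > e9 k` is `≤ |L| K (M+2) η k / e9`, and so is the number of their hubs.

`card_BadD_le`: `∑_x dn G (Dr L) x = ∑_{v ∈ Dr L} deg v ≤ M k |Dr L|`, so at most `(M/es) |Dr L|` vertices have `dn G (Dr L) x > es k`.

`Th_mono`, `Ps_mono`: the summands are nonnegative (`L <:+ L'` means `L' = N ++ L`).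

`dn_PP_le`: if `v ∉ tb (R p.1)` and `v ∉ R p.1` for all `p ∈ L` then all `dn (R p.1) v < η k`, and `dn (PP L) v ≤ ∑_{p ∈ L} dn (R p.1) v = Th L v`.
`A_PP_le`: if `i` is not touched in `L` then `|A i ∩ PP L| ≤ ∑_{p ∈ L} |A i ∩ R p.1| = Ps L i`.
-/

open scoped Classical

noncomputable section

namespace LKU

open Finset

variable {V ι : Type} [Fintype V]

theorem nbr_count {G : SimpleGraph V} {k M : ℝ} (hk : 1 ≤ k) {X R : Finset V} (hX : XX G k M X)
    (hR : R ⊆ X) : ((univ.filter fun v => 0 < dn G R v).card : ℝ) ≤ (M + 2) * k := by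
  refine le_trans ?_ (card_union_bd_le hk hX)
  have : (univ.filter fun v => 0 < dn G R v) ⊆ X ∪ bd G X := by
    intro v hv
    have h1 : 0 < dn G R v := (mem_filter.1 hv).2
    unfold dn at h1
    have h2 : 0 < (nb G R v).card := by exact_mod_cast h1
    obtain ⟨u, hu⟩ := card_pos.1 h2
    rw [mem_nb] at hu
    by_cases hvX : v ∈ X
    · exact mem_union_left _ hvX
    · exact mem_union_right _ (mem_bd.2 ⟨hvX, u, hR hu.1, hu.2⟩)
  exact_mod_cast card_le_card this

theorem HDrift_Th_cons (D : HD V ι) (p : ι × ℝ) (L : List (ι × ℝ)) (v : V) :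
    D.Th (p :: L) v =
      (if dn D.G (D.R p.1) v < D.η * D.k then dn D.G (D.R p.1) v else 0) + D.Th L v := by
  unfold HD.Th
  rw [List.map_cons, List.sum_cons]

theorem HDrift_Ps_cons (D : HD V ι) (p : ι × ℝ) (L : List (ι × ℝ)) (i : ι) :
    D.Ps (p :: L) i =
      (if ((D.A i ∩ D.R p.1).card : ℝ) < D.η * D.k then ((D.A i ∩ D.R p.1).card : ℝ) else 0) +
        D.Ps L i := by
  unfold HD.Ps
  rw [List.map_cons, List.sum_cons]

theorem HDrift_term_nonneg (D : HD V ι) (p : ι × ℝ) (v : V) :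
    0 ≤ (if dn D.G (D.R p.1) v < D.η * D.k then dn D.G (D.R p.1) v else 0) := by
  split_ifs
  · exact dn_nonneg _ _ _
  · exact le_rfl

theorem HDrift_term_nonneg' (D : HD V ι) (p : ι × ℝ) (i : ι) :
    (0 : ℝ) ≤ (if ((D.A i ∩ D.R p.1).card : ℝ) < D.η * D.k then ((D.A i ∩ D.R p.1).card : ℝ)
      else 0) := by
  split_ifs
  · positivity
  · exact le_rfl

theorem Th_mono (D : HD V ι) {L L' : List (ι × ℝ)} (h : L <:+ L') (v : V) :
    D.Th L v ≤ D.Th L' v := by
  obtain ⟨N, rfl⟩ := h
  induction N with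
  | nil => exact le_rfl
  | cons p N ih =>
    rw [List.cons_append, HDrift_Th_cons]
    linarith [HDrift_term_nonneg D p v]

theorem Ps_mono (D : HD V ι) {L L' : List (ι × ℝ)} (h : L <:+ L') (i : ι) :
    D.Ps L i ≤ D.Ps L' i := by
  obtain ⟨N, rfl⟩ := h
  induction N with
  | nil => exact le_rfl
  | cons p N ih =>
    rw [List.cons_append, HDrift_Ps_cons]
    linarith [HDrift_term_nonneg' D p i]

theorem HDrift_dn_union (G : SimpleGraph V) (S T : Finset V) (v : V) :
    dn G (S ∪ T) v ≤ dn G S v + dn G T v := by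
  unfold dn nb
  rw [filter_union]
  exact_mod_cast card_union_le _ _

theorem dn_PP_le (D : HD V ι) {L : List (ι × ℝ)} {v : V} (h1 : v ∉ D.PP L)
    (h2 : ∀ p ∈ L, v ∉ tb D.G (D.η * D.k) (D.R p.1)) : dn D.G (D.PP L) v ≤ D.Th L v := by
  have h3 : ∀ p ∈ L, dn D.G (D.R p.1) v < D.η * D.k := by
    intro p hp
    by_contra hcon
    push Not at hcon
    apply h2 p hp
    rw [mem_tb]
    refine ⟨fun hv => h1 ?_, hcon⟩
    rw [mem_PP]
    exact ⟨p, hp, hv⟩
  clear h1 h2
  induction L with
  | nil =>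
    have h1 : D.PP [] = ∅ := by
      ext v
      rw [mem_PP]
      simp
    rw [h1]
    simp [HD.Th, dn, nb]
  | cons p L ih =>
    rw [PP_cons, HDrift_Th_cons, if_pos (h3 p List.mem_cons_self)]
    have := ih fun q hq => h3 q (List.mem_cons_of_mem _ hq)
    linarith [HDrift_dn_union D.G (D.R p.1) (D.PP L) v]

theorem A_PP_le (D : HD V ι) {L : List (ι × ℝ)} {i : ι} (h : ¬ D.Tch L i) :
    ((D.A i ∩ D.PP L).card : ℝ) ≤ D.Ps L i := by
  have h3 : ∀ p ∈ L, ((D.A i ∩ D.R p.1).card : ℝ) < D.η * D.k := by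
    intro p hp
    by_contra hcon
    push Not at hcon
    exact h ⟨p, hp, hcon⟩
  clear h
  induction L with
  | nil =>
    have h1 : D.PP [] = ∅ := by
      ext v
      rw [mem_PP]
      simp
    rw [h1]
    simp [HD.Ps]
  | cons p L ih =>
    rw [PP_cons, HDrift_Ps_cons, if_pos (h3 p List.mem_cons_self)]
    have e1 := ih fun q hq => h3 q (List.mem_cons_of_mem _ hq)
    have e2 : ((D.A i ∩ (D.R p.1 ∪ D.PP L)).card : ℝ) ≤ ((D.A i ∩ D.R p.1).card : ℝ) +
        ((D.A i ∩ D.PP L).card : ℝ) := by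
      rw [inter_union_distrib_left]
      exact_mod_cast card_union_le _ _
    linarith

theorem HDrift_sum_dn {G : SimpleGraph V} {k M η : ℝ} (hk : 1 ≤ k) (hη : 0 < η) {X R : Finset V}
    (hX : XX G k M X) (hR : R ⊆ X) :
    ∑ v, (if dn G R v < η * k then dn G R v else 0) ≤ (M + 2) * k * (η * k) := by
  have hηk : 0 < η * k := by positivity
  have e1 : ∑ v, (if dn G R v < η * k then dn G R v else 0) ≤
      ∑ v ∈ univ.filter (fun v => 0 < dn G R v), η * k := by
    rw [sum_filter]
    refine sum_le_sum fun v _ => ?_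
    have h0 := dn_nonneg G R v
    split_ifs with h1 h2 h2
    · exact h1.le
    · linarith
    · exact hηk.le
    · exact le_rfl
  refine e1.trans ?_
  rw [sum_const, nsmul_eq_mul]
  exact mul_le_mul_of_nonneg_right (nbr_count hk hX hR) hηk.le

theorem card_Dr_le [Fintype ι] {G : SimpleGraph V} {k M K g0 es e9 η κ : ℝ} {Hub : Finset V}
    {hub : ι → V} {A R : ι → Finset V} {φ g : ι → ℝ} {lam : V → ℝ}
    (h : Reg G k M K g0 es e9 η κ Hub hub A R φ g lam) (hη : 0 < η) (h9 : 0 < e9) (hM : 1 ≤ M)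
    (L : List (ι × ℝ)) :
    (((mkHD G k η e9 Hub A R φ lam).Dr L).card : ℝ) ≤ L.length * ((M + 2) * η * k / e9) := by
  set D := mkHD G k η e9 Hub A R φ lam with hD
  have hk : 0 < k := lt_of_lt_of_le one_pos h.one_le
  have e1 : ∑ v, D.Th L v ≤ L.length * ((M + 2) * k * (η * k)) := by
    induction L with
    | nil => simp [HD.Th]
    | cons p L ih =>
      simp only [HDrift_Th_cons, sum_add_distrib]
      obtain ⟨X, hX, hR⟩ := h.Rin p.1
      have := HDrift_sum_dn h.one_le hη hX hR
      have h2 : ∑ v, (if dn D.G (D.R p.1) v < D.η * D.k then dn D.G (D.R p.1) v else 0) ≤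
          (M + 2) * k * (η * k) := this
      rw [List.length_cons]
      push_cast
      linarith
  have e2 : ((D.Dr L).card : ℝ) * (e9 * k) ≤ ∑ v, D.Th L v := by
    rw [← nsmul_eq_mul, ← sum_const]
    refine le_trans (sum_le_sum (g := fun v => D.Th L v) fun v hv => ?_) ?_
    · exact (mem_filter.1 hv).2.le
    · refine sum_le_sum_of_subset_of_nonneg (subset_univ _) fun v _ _ => ?_
      have : D.Th [] v ≤ D.Th L v := Th_mono D (List.nil_suffix) v
      simpa [HD.Th] using this
  have e3 : L.length * ((M + 2) * η * k / e9) = (L.length * ((M + 2) * k * (η * k))) / (e9 * k) := by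
    field_simp
  rw [e3, le_div_iff₀ (by positivity)]
  exact e2.trans e1

theorem HDrift_sum_A [Fintype ι] {G : SimpleGraph V} {k M K g0 es e9 η κ : ℝ} {Hub : Finset V}
    {hub : ι → V} {A R : ι → Finset V} {φ g : ι → ℝ} {lam : V → ℝ}
    (h : Reg G k M K g0 es e9 η κ Hub hub A R φ g lam) (hη : 0 < η) (hM : 1 ≤ M)
    (hK : 1 ≤ K) (j : ι) :
    ∑ i, (if ((A i ∩ R j).card : ℝ) < η * k then ((A i ∩ R j).card : ℝ) else 0) ≤
      K * ((M + 2) * k) * (η * k) := by
  have hk : 0 < k := lt_of_lt_of_le one_pos h.one_le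
  have hηk : 0 < η * k := by positivity
  obtain ⟨X, hX, hR⟩ := h.Rin j
  set N : Finset V := univ.filter fun v => 0 < dn G (R j) v with hN
  have hNc : (N.card : ℝ) ≤ (M + 2) * k := nbr_count h.one_le hX hR
  have e1 : ∑ i, (if ((A i ∩ R j).card : ℝ) < η * k then ((A i ∩ R j).card : ℝ) else 0) ≤
      ∑ i ∈ univ.filter (fun i => hub i ∈ N), η * k := by
    rw [sum_filter]
    refine sum_le_sum fun i _ => ?_
    by_cases hi : hub i ∈ N
    · rw [if_pos hi]
      split_ifs with h1
      · exact h1.le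
      · exact hηk.le
    · rw [if_neg hi]
      have h0 : (A i ∩ R j) = ∅ := by
        rw [eq_empty_iff_forall_notMem]
        intro v hv
        apply hi
        rw [hN, mem_filter]
        refine ⟨mem_univ _, ?_⟩
        rw [mem_inter] at hv
        have h1 := h.Asub i hv.1
        rw [mem_nb] at h1
        unfold dn
        have : 0 < (nb G (R j) (hub i)).card := card_pos.2 ⟨v, mem_nb.2 ⟨hv.2, h1.2⟩⟩
        exact_mod_cast this
      rw [h0]
      simp
  refine e1.trans ?_
  rw [sum_const, nsmul_eq_mul]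
  refine mul_le_mul_of_nonneg_right ?_ hηk.le
  have e2 : (univ.filter (fun i => hub i ∈ N)) = N.biUnion fun x => univ.filter fun i => hub i = x := by
    ext i
    simp
  have e3 : ((univ.filter (fun i => hub i ∈ N)).card : ℝ) ≤ ∑ x ∈ N, K := by
    rw [e2]
    refine le_trans ?_ (sum_le_sum fun x _ => h.perHub x)
    exact_mod_cast card_biUnion_le
  rw [sum_const, nsmul_eq_mul] at e3
  nlinarith

theorem card_BadZ_le [Fintype ι] {G : SimpleGraph V} {k M K g0 es e9 η κ : ℝ} {Hub : Finset V}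
    {hub : ι → V} {A R : ι → Finset V} {φ g : ι → ℝ} {lam : V → ℝ}
    (h : Reg G k M K g0 es e9 η κ Hub hub A R φ g lam) (hη : 0 < η) (h9 : 0 < e9) (hM : 1 ≤ M)
    (hK : 1 ≤ K) (L : List (ι × ℝ)) :
    (((univ.filter fun i => e9 * k < (mkHD G k η e9 Hub A R φ lam).Ps L i).image hub).card : ℝ) ≤
      L.length * (K * (M + 2) * η * k / e9) := by
  set D := mkHD G k η e9 Hub A R φ lam with hD
  have hk : 0 < k := lt_of_lt_of_le one_pos h.one_le
  have e0 : (((univ.filter fun i => e9 * k < D.Ps L i).image hub).card : ℝ) ≤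
      ((univ.filter fun i => e9 * k < D.Ps L i).card : ℝ) := by exact_mod_cast card_image_le
  refine e0.trans ?_
  have e1 : ∑ i, D.Ps L i ≤ L.length * (K * ((M + 2) * k) * (η * k)) := by
    clear e0
    induction L with
    | nil => simp [HD.Ps]
    | cons p L ih =>
      simp only [HDrift_Ps_cons, sum_add_distrib]
      have h2 : ∑ i, (if ((D.A i ∩ D.R p.1).card : ℝ) < D.η * D.k then
          ((D.A i ∩ D.R p.1).card : ℝ) else 0) ≤ K * ((M + 2) * k) * (η * k) :=
        HDrift_sum_A h hη hM hK p.1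
      rw [List.length_cons]
      push_cast
      linarith
  have e2 : ((univ.filter fun i => e9 * k < D.Ps L i).card : ℝ) * (e9 * k) ≤ ∑ i, D.Ps L i := by
    rw [← nsmul_eq_mul, ← sum_const]
    refine le_trans (sum_le_sum (g := fun i => D.Ps L i) fun v hv => ?_) ?_
    · exact (mem_filter.1 hv).2.le
    · refine sum_le_sum_of_subset_of_nonneg (subset_univ _) fun v _ _ => ?_
      have : D.Ps [] v ≤ D.Ps L v := Ps_mono D (List.nil_suffix) v
      simpa [HD.Ps] using this
  have e3 : L.length * (K * (M + 2) * η * k / e9) =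
      (L.length * (K * ((M + 2) * k) * (η * k))) / (e9 * k) := by
    field_simp
  rw [e3, le_div_iff₀ (by positivity)]
  exact e2.trans e1

theorem card_BadD_le {G : SimpleGraph V} {k M es : ℝ} (hk : 1 ≤ k) (hdeg : ∀ v, deg G v ≤ M * k)
    (hes : 0 < es) (S : Finset V) :
    ((univ.filter fun x => es * k < dn G S x).card : ℝ) ≤ M / es * S.card := by
  have hk0 : 0 < k := by linarith
  have e1 : ((univ.filter fun x => es * k < dn G S x).card : ℝ) * (es * k) ≤ ∑ x, dn G S x := by
    rw [← nsmul_eq_mul, ← sum_const]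
    refine le_trans (sum_le_sum (g := fun i => dn G S i) fun v hv => ?_) ?_
    · exact (mem_filter.1 hv).2.le
    · exact sum_le_sum_of_subset_of_nonneg (subset_univ _) fun v _ _ => dn_nonneg _ _ _
  have e2 : ∑ x, dn G S x ≤ S.card * (M * k) := by
    rw [sum_dn_comm, ← nsmul_eq_mul, ← sum_const]
    exact sum_le_sum fun v _ => hdeg v
  have e3 : M / es * S.card = (S.card * (M * k)) / (es * k) := by
    field_simp
  rw [e3, le_div_iff₀ (by positivity)]
  exact e1.trans e2

end LKU
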