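import Pool.Agent.LKU.HDrift

set_option autoImplicit false
set_option linter.unusedSectionVars false

/-!
# LKU module HFacts (difficulty 3): facts about an untouched zone in a closed state

Let `D = mkHD ..`, `S = D.Dr Lf`, `L <:+ Lf`, zone `i` not touched in `L`, `Ps Lf i ≤ e9 k`, `dn G S (hub i) ≤ es k`, `L` closed at level `ℓ`, `e9 ≤ es`.
`|A i ∩ PP L| ≤ Ps L i ≤ Ps Lf i ≤ e9 k` (`A_PP_le`, `Ps_mono`).
(1) closedness: `¬ Afd L i ℓ`, the first two conditions of `Afd` hold, so the third fails.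
(2) `sup (R i \ PP L) = ∑ (1 + lam v / t2) ≥ |R i \ PP L| + ∑_{Un} lam v / t2`, because `Un ⊆ R i \ PP L`, `lam ≥ 0`.
(3) `|R i \ PP L| ≥ |A i ∩ R i| - |A i ∩ PP L| ≥ g k - e9 k`.
(4) `A i ∩ R i ⊆ (A i ∩ PP L) ∪ (A i ∩ R i ∩ Fr L) ∪ (A i ∩ Hub) ∪ (A i ∩ S) ∪ Un`; `|A i ∩ Hub| ≤ es k` (`AHub`), `|A i ∩ S| ≤ dn G S (hub i) ≤ es k` (`Asub`).
(5) `Reg.geo` with `P = PP L`, `U = Un`: for `v ∈ Un`: `v ∉ PP L`, `v ∉ Fr L`, `v ∉ Hub`, so `v` is in no `tb (R p.1)`, `p ∈ L`, so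
`dn G (PP L) v ≤ Th L v ≤ Th Lf v ≤ e9 k` since `v ∉ S` (`dn_PP_le`, `Th_mono`).

`Un_mono`: for `L1 <:+ L`: `Un S L i ⊆ Un S L1 i` (`PP L1 ⊆ PP L`, `Fr L1 ⊆ PP L ∪ Fr L` by `Fr_mono`).

`res_bound`: `v ∈ Fr L` has `rho L v ≥ ℓ`, and `v ∈ Fr L1 \ PP L` has `rho L v ≥ ℓ1` (`rho_ge` with the step of `L1`); `Fr L1 \ PP L ⊆ Fr L` (`Fr_mono`);
`rho ≥ 0`. `fr_count`: `(A i ∩ R i ∩ Fr L1) \ PP L` has at least `|A i ∩ R i ∩ Fr L1| - |A i ∩ PP L|` elements.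
-/

open scoped Classical

noncomputable section

namespace LKU

open Finset

variable {V ι : Type} [Fintype V]

theorem A_PP_small [Fintype ι] {G : SimpleGraph V} {k η e9 : ℝ} {Hub : Finset V}
    {A R : ι → Finset V} {φ : ι → ℝ} {lam : V → ℝ} {Lf L : List (ι × ℝ)}
    (hs : L <:+ Lf) {i : ι} (hT : ¬ (mkHD G k η e9 Hub A R φ lam).Tch L i)
    (hB1 : (mkHD G k η e9 Hub A R φ lam).Ps Lf i ≤ e9 * k) :
    ((A i ∩ (mkHD G k η e9 Hub A R φ lam).PP L).card : ℝ) ≤ e9 * k :=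
  (A_PP_le (mkHD G k η e9 Hub A R φ lam) hT).trans ((Ps_mono _ hs i).trans hB1)

theorem hf_mem_Un (D : HD V ι) {S : Finset V} {L : List (ι × ℝ)} {i : ι} {v : V} :
    v ∈ D.Un S L i ↔ (v ∈ D.A i ∧ v ∈ D.R i) ∧ v ∉ D.PP L ∧ v ∉ D.Fr L ∧ v ∉ D.Hub ∧ v ∉ S := by
  unfold HD.Un
  simp only [mem_sdiff, mem_inter, mem_union, not_or]
  tauto

theorem hf_dn (D : HD V ι) {Lf L : List (ι × ℝ)} (hs : L <:+ Lf) {i : ι} {v : V}
    (hv : v ∈ D.Un (D.Dr Lf) L i) : dn D.G (D.PP L) v ≤ D.e9 * D.k := by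
  rw [hf_mem_Un] at hv
  obtain ⟨_, h1, h2, h3, h4⟩ := hv
  refine (dn_PP_le D h1 ?_).trans ((Th_mono D hs v).trans ?_)
  · intro p hp h
    exact h2 (mem_Fr.2 ⟨h1, h3, p, hp, h⟩)
  · unfold HD.Dr at h4
    rw [mem_filter] at h4
    exact not_lt.1 fun h => h4 ⟨mem_univ _, h⟩

theorem state_facts [Fintype ι] {G : SimpleGraph V} {k M K g0 es e9 η κ : ℝ} {Hub : Finset V}
    {hub : ι → V} {A R : ι → Finset V} {φ g : ι → ℝ} {lam : V → ℝ}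
    (h : Reg G k M K g0 es e9 η κ Hub hub A R φ g lam) (h9 : 0 < e9) (h9' : e9 ≤ es)
    {Lf L : List (ι × ℝ)} (hs : L <:+ Lf) {i : ι}
    (hT : ¬ (mkHD G k η e9 Hub A R φ lam).Tch L i)
    (hB1 : (mkHD G k η e9 Hub A R φ lam).Ps Lf i ≤ e9 * k)
    (hB2 : dn G ((mkHD G k η e9 Hub A R φ lam).Dr Lf) (hub i) ≤ es * k) {ℓ : ℝ}
    (hcl : (mkHD G k η e9 Hub A R φ lam).Closed L ℓ) :
    ((mkHD G k η e9 Hub A R φ lam).sup (R i \ (mkHD G k η e9 Hub A R φ lam).PP L) +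
      ∑ v ∈ R i, (mkHD G k η e9 Hub A R φ lam).rho L v < φ i * ℓ * k) ∧
    (((R i \ (mkHD G k η e9 Hub A R φ lam).PP L).card : ℝ) +
      (∑ v ∈ (mkHD G k η e9 Hub A R φ lam).Un ((mkHD G k η e9 Hub A R φ lam).Dr Lf) L i, lam v) /
        t2 ≤ (mkHD G k η e9 Hub A R φ lam).sup (R i \ (mkHD G k η e9 Hub A R φ lam).PP L)) ∧
    ((g i - es) * k ≤ ((R i \ (mkHD G k η e9 Hub A R φ lam).PP L).card : ℝ)) ∧
    ((g i - 3 * es) * k ≤ ((A i ∩ R i ∩ (mkHD G k η e9 Hub A R φ lam).Fr L).card : ℝ) +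
      (((mkHD G k η e9 Hub A R φ lam).Un ((mkHD G k η e9 Hub A R φ lam).Dr Lf) L i).card : ℝ)) ∧
    (es * k ≤
      (((mkHD G k η e9 Hub A R φ lam).Un ((mkHD G k η e9 Hub A R φ lam).Dr Lf) L i).card : ℝ) →
      ∃ l : ℝ, 0 ≤ l ∧ l ≤ 1 - be ∧
        (1 - l - φ i - es) * k ≤ ((R i \ (mkHD G k η e9 Hub A R φ lam).PP L).card : ℝ) ∧
        l * ((((mkHD G k η e9 Hub A R φ lam).Un
          ((mkHD G k η e9 Hub A R φ lam).Dr Lf) L i).card : ℝ) - es * k) ≤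
          ∑ v ∈ (mkHD G k η e9 Hub A R φ lam).Un ((mkHD G k η e9 Hub A R φ lam).Dr Lf) L i,
            lam v) := by
  have hk0 : 0 < k := lt_of_lt_of_le one_pos h.one_le
  have hP := A_PP_small hs hT hB1
  have hek : e9 * k ≤ es * k := mul_le_mul_of_nonneg_right h9' hk0.le
  have hUn := fun v => hf_mem_Un (mkHD G k η e9 Hub A R φ lam)
    (S := (mkHD G k η e9 Hub A R φ lam).Dr Lf) (L := L) (i := i) (v := v)
  have hdn := fun v => hf_dn (mkHD G k η e9 Hub A R φ lam) hs (i := i) (v := v)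
  have hcli := hcl i
  have hsup : ∀ T : Finset V, (mkHD G k η e9 Hub A R φ lam).sup T = ∑ v ∈ T, (1 + lam v / t2) :=
    fun T => rfl
  have hAfd : (mkHD G k η e9 Hub A R φ lam).Afd L i ℓ ↔
    (¬ (mkHD G k η e9 Hub A R φ lam).Tch L i ∧
      ((A i ∩ (mkHD G k η e9 Hub A R φ lam).PP L).card : ℝ) ≤ e9 * k ∧
      φ i * ℓ * k ≤ (mkHD G k η e9 Hub A R φ lam).sup (R i \ (mkHD G k η e9 Hub A R φ lam).PP L) +
        ∑ v ∈ R i, (mkHD G k η e9 Hub A R φ lam).rho L v) := Iff.rfl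
  change ∀ v, v ∈ (mkHD G k η e9 Hub A R φ lam).Un ((mkHD G k η e9 Hub A R φ lam).Dr Lf) L i ↔
    (v ∈ A i ∧ v ∈ R i) ∧ v ∉ (mkHD G k η e9 Hub A R φ lam).PP L ∧
      v ∉ (mkHD G k η e9 Hub A R φ lam).Fr L ∧ v ∉ Hub ∧
        v ∉ (mkHD G k η e9 Hub A R φ lam).Dr Lf at hUn
  change ∀ v, v ∈ (mkHD G k η e9 Hub A R φ lam).Un ((mkHD G k η e9 Hub A R φ lam).Dr Lf) L i →
    dn G ((mkHD G k η e9 Hub A R φ lam).PP L) v ≤ e9 * k at hdn
  generalize (mkHD G k η e9 Hub A R φ lam).Un ((mkHD G k η e9 Hub A R φ lam).Dr Lf) L i = U at *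
  generalize (mkHD G k η e9 Hub A R φ lam).Dr Lf = S at *
  generalize (mkHD G k η e9 Hub A R φ lam).PP L = P at *
  generalize (mkHD G k η e9 Hub A R φ lam).Fr L = F at *
  have hUR : U ⊆ R i \ P := by
    intro v hv
    have := (hUn v).1 hv
    exact mem_sdiff.2 ⟨this.1.2, this.2.1⟩
  have hAR := h.AR i
  have h3 : (g i - es) * k ≤ ((R i \ P).card : ℝ) := by
    have h31 : (A i ∩ R i).card ≤ (R i \ P).card + (A i ∩ P).card := by
      refine (card_le_card ?_).trans (card_union_le _ _)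
      intro v hv
      rw [mem_inter] at hv
      by_cases hvP : v ∈ P
      · exact mem_union_right _ (mem_inter.2 ⟨hv.1, hvP⟩)
      · exact mem_union_left _ (mem_sdiff.2 ⟨hv.2, hvP⟩)
    have h32 : ((A i ∩ R i).card : ℝ) ≤ (R i \ P).card + (A i ∩ P).card := by exact_mod_cast h31
    linarith
  refine ⟨?_, ?_, h3, ?_, ?_⟩
  · by_contra hcon
    exact hcli (hAfd.2 ⟨hT, hP, not_lt.1 hcon⟩)
  · rw [hsup, sum_add_distrib, sum_const, nsmul_eq_mul, mul_one, sum_div]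
    have : ∑ v ∈ U, lam v / t2 ≤ ∑ v ∈ R i \ P, lam v / t2 :=
      sum_le_sum_of_subset_of_nonneg hUR fun v _ _ => div_nonneg (h.lam0 v) t2_pos.le
    linarith
  · have hS : ((A i ∩ S).card : ℝ) ≤ es * k := by
      refine le_trans ?_ hB2
      unfold dn
      have : A i ∩ S ⊆ nb G S (hub i) := by
        intro v hv
        rw [mem_inter] at hv
        exact mem_nb.2 ⟨hv.2, (mem_nb.1 (h.Asub i hv.1)).2⟩
      exact_mod_cast card_le_card this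
    have hH := h.AHub i
    have h41 : (A i ∩ R i).card ≤ (A i ∩ P).card + (A i ∩ R i ∩ F).card + (A i ∩ Hub).card +
        (A i ∩ S).card + U.card := by
      have hsub : A i ∩ R i ⊆ (A i ∩ P) ∪ (A i ∩ R i ∩ F) ∪ (A i ∩ Hub) ∪ (A i ∩ S) ∪ U := by
        intro v hv
        have hv' := mem_inter.1 hv
        have := hUn v
        simp only [mem_union, mem_inter]
        tauto
      refine (card_le_card hsub).trans ?_
      refine (card_union_le _ _).trans (Nat.add_le_add_right ?_ _)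
      refine (card_union_le _ _).trans (Nat.add_le_add_right ?_ _)
      refine (card_union_le _ _).trans (Nat.add_le_add_right ?_ _)
      exact card_union_le _ _
    have h42 : ((A i ∩ R i).card : ℝ) ≤ (A i ∩ P).card + (A i ∩ R i ∩ F).card + (A i ∩ Hub).card +
        (A i ∩ S).card + U.card := by exact_mod_cast h41
    linarith
  · intro hU
    refine h.geo i P U ?_ ?_ hU fun v hv => hdn v hv
    · intro v hv
      exact mem_inter.2 ((hUn v).1 hv).1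
    · rw [disjoint_left]
      intro v hv
      exact ((hUn v).1 hv).2.1

theorem Un_mono (D : HD V ι) (S : Finset V) {L1 L : List (ι × ℝ)} (hs : L1 <:+ L) (i : ι) :
    D.Un S L i ⊆ D.Un S L1 i := by
  intro v hv
  rw [hf_mem_Un] at hv ⊢
  refine ⟨hv.1, fun h => hv.2.1 (PP_mono D hs h), fun h => ?_, hv.2.2.2⟩
  exact hv.2.2.1 (Fr_mono D hs (mem_sdiff.2 ⟨h, hv.2.1⟩))

theorem fr_sub (D : HD V ι) {L1 L : List (ι × ℝ)} (hs : L1 <:+ L) (i : ι) :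
    (D.A i ∩ D.R i ∩ D.Fr L1) \ D.PP L ⊆ D.A i ∩ D.R i ∩ D.Fr L := by
  intro v hv
  rw [mem_sdiff, mem_inter] at hv
  exact mem_inter.2 ⟨hv.1.1, Fr_mono D hs (mem_sdiff.2 ⟨hv.1.2, hv.2⟩)⟩

theorem fr_count (D : HD V ι) (L1 L : List (ι × ℝ)) (i : ι) :
    ((D.A i ∩ D.R i ∩ D.Fr L1).card : ℝ) - ((D.A i ∩ D.PP L).card : ℝ) ≤
      (((D.A i ∩ D.R i ∩ D.Fr L1) \ D.PP L).card : ℝ) := by
  have h : (D.A i ∩ D.R i ∩ D.Fr L1).card ≤
      ((D.A i ∩ D.R i ∩ D.Fr L1) \ D.PP L).card + (D.A i ∩ D.PP L).card := by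
    refine (card_le_card ?_).trans (card_union_le _ _)
    intro v hv
    by_cases hvP : v ∈ D.PP L
    · refine mem_union_right _ (mem_inter.2 ⟨?_, hvP⟩)
      exact (mem_inter.1 (mem_inter.1 hv).1).1
    · exact mem_union_left _ (mem_sdiff.2 ⟨hv, hvP⟩)
  have h2 : ((D.A i ∩ D.R i ∩ D.Fr L1).card : ℝ) ≤
      ((D.A i ∩ D.R i ∩ D.Fr L1) \ D.PP L).card + (D.A i ∩ D.PP L).card := by exact_mod_cast h
  linarith

theorem res_bound (D : HD V ι) {L1 L : List (ι × ℝ)} (hs : L1 <:+ L) {ℓ ℓ1 : ℝ} (h0 : 0 ≤ ℓ)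
    (h01 : ℓ ≤ ℓ1) (hL : ∀ p ∈ L, ℓ ≤ p.2) (hL1 : ∀ p ∈ L1, ℓ1 ≤ p.2) (i : ι) :
    ℓ * ((D.A i ∩ D.R i ∩ D.Fr L).card : ℝ) +
      (ℓ1 - ℓ) * (((D.A i ∩ D.R i ∩ D.Fr L1) \ D.PP L).card : ℝ) ≤ ∑ v ∈ D.R i, D.rho L v := by
  have hfs := fr_sub D hs i
  have hX : D.A i ∩ D.R i ∩ D.Fr L ⊆ D.R i := fun v hv =>
    (mem_inter.1 (mem_inter.1 hv).1).2
  have key : ∀ (X : Finset V) (c : ℝ), X ⊆ D.R i → c * (X.card : ℝ) =
      ∑ v ∈ D.R i, if v ∈ X then c else 0 := by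
    intro X c hXs
    rw [sum_ite_mem, inter_eq_right.2 hXs, sum_const, nsmul_eq_mul, mul_comm]
  rw [key _ _ hX, key _ _ (hfs.trans hX), ← sum_add_distrib]
  refine sum_le_sum fun v _ => ?_
  have hpos : 0 ≤ D.rho L v := rho_nonneg D (fun p hp => h0.trans (hL p hp)) v
  by_cases h1 : v ∈ (D.A i ∩ D.R i ∩ D.Fr L1) \ D.PP L
  · rw [if_pos (hfs h1), if_pos h1]
    rw [mem_sdiff, mem_inter, mem_Fr] at h1
    obtain ⟨⟨_, _, hH, p, hp, hpv⟩, hP⟩ := h1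
    have := rho_ge D (hs.subset hp) hpv hP hH
    linarith [hL1 p hp]
  · rw [if_neg h1, add_zero]
    by_cases h2 : v ∈ D.A i ∩ D.R i ∩ D.Fr L
    · rw [if_pos h2]
      rw [mem_inter, mem_Fr] at h2
      obtain ⟨_, hP, hH, p, hp, hpv⟩ := h2
      have := rho_ge D hp hpv hP hH
      linarith [hL p hp]
    · rw [if_neg h2]
      exact hpos

end LKU
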