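import Pool.Agent.LKU.HBase

set_option autoImplicit false
set_option linter.unusedSectionVars false

/-!
# LKU module HStep (difficulty 3): accounting of the process

`valid_account`: for a valid list `L`: `∑_j lv L j + ∑_v rho L v ≤ sup (PP L) + 60 κ k |L|`. Induction on `L`. Step `p = (i, ℓ)`, `0 ≤ ℓ ≤ 60`.
By `lv_le_cons`, `∑_j lv (p :: L) j ≤ ∑_j lv L j + ℓ #{j : η k ≤ |A j ∩ R i|} ≤ ∑ lv L + ℓ (|tb (R i) ∩ Hub| + κ k)` (`mult`).
By `rho_le_cons` and `rho_zero` (on `R i`): `∑_v rho (p :: L) v ≤ ∑_{v ∉ R i} rho L v + ℓ |tb (R i) \ Hub| = ∑_v rho L v - ∑_{R i} rho L + ℓ |tb (R i) \ Hub|`.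
Together the left side increases by at most `ℓ (|tb (R i)| + κ k) - ∑_{R i} rho L ≤ ℓ φ_i k + 60 κ k - ∑_{R i} rho L ≤ sup (R i \ PP L) + 60 κ k`
(`tbR` and `Afd`), and `sup (PP (p :: L)) = sup (PP L) + sup (R i \ PP L)` (`PP_cons`).

`valid_length`: `|L| (g0 / 2) k ≤ |PP L|` for valid `L`: in a step, `|A i ∩ R i| ≥ g_i k ≥ g0 k` and `|A i ∩ PP L| ≤ e9 k ≤ g0 k / 2`, so
`|R i \ PP L| ≥ g0 k / 2`.

`PP_Hub`: `|PP L ∩ Hub| ≤ ∑_{p ∈ L} |R p.1 ∩ Hub| ≤ κ k |L|`.
-/

open scoped Classical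

noncomputable section

namespace LKU

open Finset

variable {V ι : Type} [Fintype V] [Fintype ι]

theorem HStep_sup_cons (D : HD V ι) (p : ι × ℝ) (L : List (ι × ℝ)) :
    D.sup (D.PP (p :: L)) = D.sup (D.PP L) + D.sup (D.R p.1 \ D.PP L) := by
  rw [PP_cons]
  unfold HD.sup
  rw [← sum_union (disjoint_sdiff)]
  refine sum_congr ?_ fun _ _ => rfl
  ext v
  simp only [mem_union, mem_sdiff]
  tauto

theorem valid_account {G : SimpleGraph V} {k M K g0 es e9 η κ : ℝ} {Hub : Finset V} {hub : ι → V}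
    {A R : ι → Finset V} {φ g : ι → ℝ} {lam : V → ℝ}
    (h : Reg G k M K g0 es e9 η κ Hub hub A R φ g lam) (hκ : 0 < κ) (hη : 0 < η)
    {L : List (ι × ℝ)} (hL : (mkHD G k η e9 Hub A R φ lam).Valid L) :
    ∑ j, (mkHD G k η e9 Hub A R φ lam).lv L j + ∑ v, (mkHD G k η e9 Hub A R φ lam).rho L v ≤
      (mkHD G k η e9 Hub A R φ lam).sup ((mkHD G k η e9 Hub A R φ lam).PP L) +
        60 * κ * k * L.length := by
  set D := mkHD G k η e9 Hub A R φ lam with hD
  have hk : 0 < k := lt_of_lt_of_le one_pos h.one_le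
  induction L with
  | nil =>
    have h1 : D.PP [] = ∅ := by
      ext v
      rw [mem_PP]
      simp
    rw [h1]
    simp [HD.lv, HD.rho, HD.sup]
  | cons p L ih =>
    obtain ⟨hV, hp0, hp60, hA1, hA2, hA3⟩ := hL
    have hnn : ∀ q ∈ L, 0 ≤ q.2 := fun q hq => (Valid_level D hV hq).1
    have ih' := ih hV
    -- payments
    have e1 : ∑ j, D.lv (p :: L) j ≤ ∑ j, D.lv L j +
        p.2 * (((tb G (η * k) (R p.1) ∩ Hub).card : ℝ) + κ * k) := by
      have a1 : ∑ j, D.lv (p :: L) j ≤ ∑ j, (D.lv L j +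
          if D.η * D.k ≤ ((D.A j ∩ D.R p.1).card : ℝ) then p.2 else 0) :=
        sum_le_sum fun j _ => lv_le_cons D hnn hp0 j
      rw [sum_add_distrib, ← sum_filter, sum_const, nsmul_eq_mul] at a1
      have a2 := mul_le_mul_of_nonneg_right (h.mult p.1) hp0
      have a3 : (univ.filter fun j => D.η * D.k ≤ ((D.A j ∩ D.R p.1).card : ℝ)) =
          univ.filter fun j => η * k ≤ ((A j ∩ R p.1).card : ℝ) := rfl
      rw [a3] at a1
      linarith
    -- reserves
    have e2 : ∑ v, D.rho (p :: L) v ≤ ∑ v, D.rho L v - ∑ v ∈ R p.1, D.rho L v +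
        p.2 * ((tb G (η * k) (R p.1) \ Hub).card : ℝ) := by
      have a1 : ∑ v ∈ R p.1, D.rho (p :: L) v = 0 := by
        refine sum_eq_zero fun v hv => rho_zero D (Or.inl ?_)
        rw [mem_PP]
        exact ⟨p, List.mem_cons_self, hv⟩
      have a2 : ∑ v, D.rho (p :: L) v = ∑ v ∈ (R p.1)ᶜ, D.rho (p :: L) v := by
        rw [← sum_add_sum_compl (R p.1), a1, zero_add]
      have a3 : ∑ v ∈ (R p.1)ᶜ, D.rho (p :: L) v ≤ ∑ v ∈ (R p.1)ᶜ, (D.rho L v +
          if v ∈ tb D.G (D.η * D.k) (D.R p.1) \ D.Hub then p.2 else 0) :=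
        sum_le_sum fun v hv => rho_le_cons D hnn hp0 (mem_compl.1 hv)
      have a4 : ∑ v ∈ (R p.1)ᶜ, D.rho L v = ∑ v, D.rho L v - ∑ v ∈ R p.1, D.rho L v := by
        rw [← sum_add_sum_compl (R p.1) (fun v => D.rho L v)]
        ring
      have a5 : ∑ v ∈ (R p.1)ᶜ, (if v ∈ tb D.G (D.η * D.k) (D.R p.1) \ D.Hub then p.2 else 0) ≤
          p.2 * ((tb G (η * k) (R p.1) \ Hub).card : ℝ) := by
        rw [← sum_filter, sum_const, nsmul_eq_mul, mul_comm]
        refine mul_le_mul_of_nonneg_left ?_ hp0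
        have : ((R p.1)ᶜ.filter fun v => v ∈ tb D.G (D.η * D.k) (D.R p.1) \ D.Hub) ⊆
            tb G (η * k) (R p.1) \ Hub := by
          intro v hv
          exact (mem_filter.1 hv).2
        exact_mod_cast card_le_card this
      rw [sum_add_distrib] at a3
      linarith
    have e3 : ((tb G (η * k) (R p.1) ∩ Hub).card : ℝ) + ((tb G (η * k) (R p.1) \ Hub).card : ℝ) ≤
        φ p.1 * k := by
      refine le_trans (le_of_eq ?_) (h.tbR p.1)
      exact_mod_cast card_inter_add_card_sdiff (tb G (η * k) (R p.1)) Hub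
    have e4 := mul_le_mul_of_nonneg_left e3 hp0
    have e5 : φ p.1 * p.2 * k ≤ D.sup (R p.1 \ D.PP L) + ∑ v ∈ R p.1, D.rho L v := hA3
    have e6 : p.2 * (κ * k) ≤ 60 * (κ * k) :=
      mul_le_mul_of_nonneg_right hp60 (by positivity)
    have e7 : D.sup (D.PP (p :: L)) = D.sup (D.PP L) + D.sup (R p.1 \ D.PP L) :=
      HStep_sup_cons D p L
    rw [e7, List.length_cons]
    push_cast
    nlinarith

theorem valid_length {G : SimpleGraph V} {k M K g0 es e9 η κ : ℝ} {Hub : Finset V} {hub : ι → V}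
    {A R : ι → Finset V} {φ g : ι → ℝ} {lam : V → ℝ}
    (h : Reg G k M K g0 es e9 η κ Hub hub A R φ g lam) (h9 : e9 ≤ g0 / 2)
    {L : List (ι × ℝ)} (hL : (mkHD G k η e9 Hub A R φ lam).Valid L) :
    L.length * (g0 / 2 * k) ≤ (((mkHD G k η e9 Hub A R φ lam).PP L).card : ℝ) := by
  set D := mkHD G k η e9 Hub A R φ lam with hD
  have hk : 0 < k := lt_of_lt_of_le one_pos h.one_le
  induction L with
  | nil => simp
  | cons p L ih =>
    obtain ⟨hV, hp0, hp60, hA1, hA2, hA3⟩ := hL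
    have ih' := ih hV
    have hA2' : ((A p.1 ∩ D.PP L).card : ℝ) ≤ e9 * k := hA2
    have e1 : ((A p.1 ∩ R p.1).card : ℝ) ≤ ((R p.1 \ D.PP L).card : ℝ) +
        ((A p.1 ∩ D.PP L).card : ℝ) := by
      have : A p.1 ∩ R p.1 ⊆ (R p.1 \ D.PP L) ∪ (A p.1 ∩ D.PP L) := by
        intro v hv
        rw [mem_inter] at hv
        rw [mem_union, mem_sdiff, mem_inter]
        tauto
      exact_mod_cast (card_le_card this).trans (card_union_le _ _)
    have e2 : ((D.PP (p :: L)).card : ℝ) = ((D.PP L).card : ℝ) + ((R p.1 \ D.PP L).card : ℝ) := by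
      have : D.PP (p :: L) = D.PP L ∪ (R p.1 \ D.PP L) := by
        rw [PP_cons]
        show R p.1 ∪ D.PP L = _
        ext v
        simp only [mem_union, mem_sdiff]
        tauto
      rw [this, card_union_of_disjoint disjoint_sdiff]
      push_cast
      rfl
    have e3 := h.AR p.1
    have e4 := mul_le_mul_of_nonneg_right (h.gge p.1) hk.le
    have e5 := mul_le_mul_of_nonneg_right h9 hk.le
    rw [e2, List.length_cons]
    push_cast
    nlinarith

omit [Fintype ι] in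
theorem HStep_hub (D : HD V ι) (c : ℝ) (hc : ∀ i, ((D.R i ∩ D.Hub).card : ℝ) ≤ c)
    (L : List (ι × ℝ)) : ((D.PP L ∩ D.Hub).card : ℝ) ≤ c * L.length := by
  induction L with
  | nil =>
    have h1 : D.PP [] = ∅ := by
      ext v
      rw [mem_PP]
      simp
    rw [h1]
    simp
  | cons p L ih =>
    have e1 : ((D.PP (p :: L) ∩ D.Hub).card : ℝ) ≤ ((D.R p.1 ∩ D.Hub).card : ℝ) +
        ((D.PP L ∩ D.Hub).card : ℝ) := by
      have : D.PP (p :: L) ∩ D.Hub ⊆ (D.R p.1 ∩ D.Hub) ∪ (D.PP L ∩ D.Hub) := by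
        rw [PP_cons]
        intro v hv
        simp only [mem_inter, mem_union] at hv ⊢
        tauto
      exact_mod_cast (card_le_card this).trans (card_union_le _ _)
    rw [List.length_cons]
    push_cast
    linarith [hc p.1]

theorem PP_Hub {G : SimpleGraph V} {k M K g0 es e9 η κ : ℝ} {Hub : Finset V} {hub : ι → V}
    {A R : ι → Finset V} {φ g : ι → ℝ} {lam : V → ℝ}
    (h : Reg G k M K g0 es e9 η κ Hub hub A R φ g lam) (L : List (ι × ℝ)) :
    (((mkHD G k η e9 Hub A R φ lam).PP L ∩ Hub).card : ℝ) ≤ κ * k * L.length :=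
  HStep_hub (mkHD G k η e9 Hub A R φ lam) (κ * k) h.RHub L

end LKU
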