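import Pool.Agent.LocalConn.Block

set_option autoImplicit false
set_option linter.unusedSectionVars false

/-!
The lower bound (from MP_f17e6f_co.LinearGain).
-/

namespace LKU

open SimpleGraph Filter Topology Pool.Agent.LocalConn

/-- `f(n; κ̄ ≤ k)`: the largest number of edges of a graph on `n` vertices in which any two
distinct vertices are joined by at most `k` pairwise internally disjoint paths. -/
noncomputable def maxEdges (n k : ℕ) : ℕ :=
  sSup {e | ∃ G : SimpleGraph (Fin n), LocalConnLe G k ∧ e = G.edgeSet.ncard}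

theorem le_maxEdges {n k : ℕ} (G : SimpleGraph (Fin n)) (h : LocalConnLe G k) :
    G.edgeSet.ncard ≤ maxEdges n k := by
  apply le_csSup
  · apply Set.Finite.bddAbove
    apply (Set.finite_range (fun G : SimpleGraph (Fin n) => G.edgeSet.ncard)).subset
    rintro e ⟨G, -, rfl⟩
    exact ⟨G, rfl⟩
  · exact ⟨G, h, rfl⟩

theorem block_bound (k a n : ℕ) (ha : 1 ≤ a) (hak : a ≤ k) (h2 : 2 * a ≤ k + 2) :
    (a + 1) * (k + 1 - a) * (k + a) * ((n - 1) / ((a + 1) * (k + 1 - a) + (a + 1).choose 2 - 1))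
      ≤ 2 * maxEdges n k := by
  classical
  rcases Nat.eq_zero_or_pos n with rfl | hn
  · simp
  set N := a + 1 with hN
  set c := k + 1 - a with hc
  set b := N * c + N.choose 2 with hb
  set t := (n - 1) / (b - 1) with ht
  set q := n - 1 - t * (b - 1) with hq
  have h0N : 0 < N := by omega
  have h1N : 1 < N := by omega
  let r : Blk N c := Sum.inr ⟨s(⟨0, h0N⟩, ⟨1, h1N⟩), by
    rw [Sym2.mk_isDiag_iff]; simp [Fin.ext_iff]⟩
  have hsep : LocalConnLe (glue (blk N c) r t q) k := by
    apply glue_sep (by omega)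
    intro x y hxy
    rcases x with ⟨u, i⟩ | e
    · left
      exact ⟨by simp [r], blk_lowDeg (by omega) u i⟩
    · rcases y with ⟨u, i⟩ | e'
      · right; left
        exact ⟨by simp [r], blk_lowDeg (by omega) u i⟩
      · right; right
        exact blk_sep (by omega) (by omega) e e' (fun h => hxy (by rw [h]))
  have hcard : Fintype.card (GV (Blk N c) r t q) = n := by
    rw [card_GV, card_Blk, ← hb]
    have : t * (b - 1) ≤ n - 1 := Nat.div_mul_le_self _ _
    omega
  have hdart : t * (N * (c * c - c) + 2 * (c * (N * N - N)))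
      ≤ Fintype.card (glue (blk N c) r t q).Dart :=
    (Nat.mul_le_mul_left t (blk_card_dart N c)).trans (glue_card_dart _ r t q)
  rw [SimpleGraph.dart_card_eq_twice_card_edges] at hdart
  set G := glue (blk N c) r t q with hG
  let φ := G.overFinIso hcard
  have h3 := le_maxEdges (G.overFin hcard) (hsep.map φ)
  have h4 : (G.overFin hcard).edgeSet.ncard = G.edgeFinset.card := by
    rw [← SimpleGraph.coe_edgeFinset, Set.ncard_coe_finset]
    exact (Iso.card_edgeFinset_eq φ).symm
  rw [h4] at h3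
  have h5 : N * (c * c - c) + 2 * (c * (N * N - N)) = N * c * (k + a) := by
    obtain ⟨c', hc'⟩ : ∃ c', c = c' + 1 := ⟨c - 1, by omega⟩
    have e1 : c * c - c = c * c' := by
      rw [hc']; rw [show (c' + 1) * (c' + 1) = (c' + 1) * c' + (c' + 1) by ring]; simp
    have e2 : N * N - N = N * a := by
      rw [hN]; rw [show (a + 1) * (a + 1) = (a + 1) * a + (a + 1) by ring]; simp
    rw [e1, e2]
    have e3 : k + a = c' + 2 * a := by omega
    rw [e3]; ring
  rw [h5] at hdart
  calc N * c * (k + a) * t = t * (N * c * (k + a)) := by ring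
    _ ≤ 2 * G.edgeFinset.card := hdart
    _ ≤ 2 * maxEdges n k := Nat.mul_le_mul_left 2 h3

theorem linear_bound (k : ℕ) (hk : 1 ≤ k) :
    ∃ C : ℝ, ∀ n : ℕ, (4 - 2 * √3) * k * n - C ≤ maxEdges n k := by
  set α : ℝ := 2 - √3 with hα
  have hs1 : √3 * √3 = 3 := Real.mul_self_sqrt (by norm_num)
  have hs2 : 1.73 < √3 := by
    rw [show (1.73 : ℝ) = √(1.73 ^ 2) by rw [Real.sqrt_sq (by norm_num)]]
    exact Real.sqrt_lt_sqrt (by norm_num) (by norm_num)
  have hs3 : √3 < 1.7321 := by
    rw [show (1.7321 : ℝ) = √(1.7321 ^ 2) by rw [Real.sqrt_sq (by norm_num)]]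
    exact Real.sqrt_lt_sqrt (by norm_num) (by norm_num)
  have hα1 : α * α = 4 * α - 1 := by rw [hα]; nlinarith
  have hα0 : 0.2679 ≤ α := by rw [hα]; linarith
  have hα2 : α < 0.27 := by rw [hα]; linarith
  have hk' : (1 : ℝ) ≤ k := by exact_mod_cast hk
  have hk0 : (0 : ℝ) ≤ k := by linarith
  set a : ℕ := ⌈α * k⌉₊ with ha
  have ha1 : α * k ≤ a := Nat.le_ceil _
  have ha2 : (a : ℝ) < α * k + 1 := Nat.ceil_lt_add_one (by positivity)
  have ha3 : 1 ≤ a := by
    rw [ha, Nat.one_le_ceil_iff]; positivity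
  have ha4 : 2 * a ≤ k + 2 := by
    have : (2 * a : ℝ) < k + 2 := by nlinarith
    have : (2 * a : ℝ) < ((k + 2 : ℕ) : ℝ) := by push_cast; exact this
    exact_mod_cast this.le
  have ha5 : a ≤ k := by
    have h1 : (a : ℝ) < k + 1 := by nlinarith
    have h2 : (a : ℝ) < ((k + 1 : ℕ) : ℝ) := by push_cast; exact h1
    have h3 : a < k + 1 := by exact_mod_cast h2
    omega
  set M : ℕ := (a + 1) * (k + 1 - a) + (a + 1).choose 2 - 1 with hM
  have hbound := fun n => block_bound k a n ha3 ha5 ha4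
  have hch : 2 * (a + 1).choose 2 = (a + 1) * a := by
    have := Nat.triangle_succ a
    rw [Nat.choose_two_right]
    have h6 : 2 ∣ (a + 1) * a := (Nat.even_mul_succ_self a).two_dvd.trans (by rw [mul_comm])
    simp only [Nat.add_sub_cancel]
    omega
  have hMpos : 1 ≤ M := by
    have h6 : 1 ≤ (a + 1).choose 2 := Nat.choose_pos (by omega)
    have h7 : 1 ≤ (a + 1) * (k + 1 - a) := Nat.mul_pos (by omega) (by omega)
    omega
  have hM' : 2 * ((M : ℝ) + 1) = (a + 1) * (2 * k + 2 - a) := by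
    have h6 : 1 ≤ (a + 1).choose 2 := Nat.choose_pos (by omega)
    have h7 : M + 1 = (a + 1) * (k + 1 - a) + (a + 1).choose 2 := by omega
    have h8 : ((M : ℝ) + 1) = (a + 1) * (k + 1 - a) + ((a + 1).choose 2 : ℕ) := by
      have := congrArg (Nat.cast (R := ℝ)) h7
      push_cast [Nat.cast_sub (show a ≤ k + 1 by omega)] at this
      exact this
    have h9 : (2 : ℝ) * ((a + 1).choose 2 : ℕ) = (a + 1) * a := by exact_mod_cast hch
    rw [h8]; linarith
  -- the key inequality
  have hkey : 2 * α * k * (2 * k + 2 - a) ≤ (k + 1 - a) * (k + a) := by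
    set θ : ℝ := a - α * k with hθ
    have hθ0 : 0 ≤ θ := by linarith
    have hθ1 : θ < 1 := by linarith
    have haθ : (a : ℝ) = α * k + θ := by rw [hθ]; ring
    rw [haθ]
    have e : (k + 1 - (α * k + θ)) * (k + (α * k + θ)) - 2 * α * k * (2 * k + 2 - (α * k + θ))
        = k * (1 - 3 * α) + θ * (1 - θ) + (1 + α * α - 4 * α) * (k * k) := by
      ring
    rw [hα1] at e
    have : 0 ≤ k * (1 - 3 * α) := mul_nonneg hk0 (by linarith)
    have : 0 ≤ θ * (1 - θ) := mul_nonneg hθ0 (by linarith)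
    nlinarith
  set D : ℝ := (a + 1) * (k + 1 - a) * (k + a) with hD
  have hD1 : 4 * α * k * M ≤ D := by
    have h6 : 4 * α * k * M ≤ 4 * α * k * (M + 1) := by
      have : 0 ≤ 4 * α * k := by positivity
      nlinarith
    have h7 : 4 * α * k * (M + 1) = (a + 1) * (2 * α * k * (2 * k + 2 - a)) := by
      calc 4 * α * k * ((M : ℝ) + 1) = 2 * α * k * (2 * (M + 1)) := by ring
        _ = _ := by rw [hM']; ring
    have h8 : (a + 1 : ℝ) * (2 * α * k * (2 * k + 2 - a)) ≤ (a + 1) * ((k + 1 - a) * (k + a)) :=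
      mul_le_mul_of_nonneg_left hkey (by positivity)
    calc 4 * α * k * M ≤ 4 * α * k * (M + 1) := h6
      _ = (a + 1) * (2 * α * k * (2 * k + 2 - a)) := h7
      _ ≤ (a + 1) * ((k + 1 - a) * (k + a)) := h8
      _ = D := by rw [hD]; ring
  refine ⟨2 * α * k * (1 + M), fun n => ?_⟩
  have h6 := hbound n
  have h7 : D * ((n - 1) / M : ℕ) ≤ 2 * maxEdges n k := by
    have := (Nat.cast_le (α := ℝ)).2 h6
    push_cast [Nat.cast_sub (show a ≤ k + 1 by omega)] at this
    rw [hD]
    exact this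
  have h8 : (n : ℝ) - 1 ≤ M * (((n - 1) / M : ℕ) + 1) := by
    have h9 : n - 1 < M * ((n - 1) / M + 1) := Nat.lt_mul_div_succ _ (by omega)
    have h10 : n ≤ M * ((n - 1) / M + 1) + 1 := by omega
    have : (n : ℝ) ≤ ((M * ((n - 1) / M + 1) + 1 : ℕ) : ℝ) := by exact_mod_cast h10
    push_cast at this
    linarith
  set t : ℝ := (((n - 1) / M : ℕ) : ℝ) with ht
  have ht0 : 0 ≤ t := by positivity
  have h11 : 4 * α * k * M * t ≤ D * t := mul_le_mul_of_nonneg_right hD1 ht0
  have h12 : 2 * α * k * ((n : ℝ) - 1) ≤ 2 * α * k * (M * (t + 1)) :=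
    mul_le_mul_of_nonneg_left h8 (by positivity)
  have h13 : (4 - 2 * √3) = 2 * α := by rw [hα]; ring
  rw [h13]
  nlinarith

end LKU
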