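import Pool.Agent.LKU.SumConn
import Pool.Agent.LKU.Lower

set_option autoImplicit false
set_option linter.unusedSectionVars false

/-!
# LKU module LimEx (difficulty 2): existence of the limit `L_k`

`maxEdges_add`: the disjoint union of extremal graphs on `Fin m` and `Fin n` (`Nat.sSup_mem`: the supremum is attained, the set is nonempty (edgeless graph, no path) and bounded) has
`maxEdges m k + maxEdges n k` edges and satisfies `LocalConnLe` (`localConn_sum`); transport it to `Fin (m + n)` with `finSumFinEquiv` (`SimpleGraph.map`/`Iso.map`, `LocalConnLe.map`)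
and use `le_maxEdges`. The edge set of `G.sum H` contains the two disjoint images of the edge sets (or count adjacent pairs / darts / degrees).

`exists_limit`: `u n = -maxEdges n k` is subadditive (`Subadditive`), `u n / n ≥ -B` is bounded below, so `u n / n` converges (`Subadditive.tendsto_lim`).
-/

namespace LKU

open SimpleGraph Filter Topology Pool.Agent.LocalConn

theorem LimEx_bot {V : Type} (k : ℕ) : LocalConnLe (⊥ : SimpleGraph V) k := by
  intro x y hxy m hm
  rcases Nat.eq_zero_or_pos m with h0 | h0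
  · omega
  · obtain ⟨p, -, -⟩ := hm
    exfalso
    have : ∀ {a b : V}, (⊥ : SimpleGraph V).Walk a b → a = b := by
      intro a b q
      cases q with
      | nil => rfl
      | cons hadj _ => exact absurd hadj (by simp)
    exact hxy (this (p ⟨0, h0⟩).1)

theorem LimEx_attained (n k : ℕ) :
    ∃ G : SimpleGraph (Fin n), LocalConnLe G k ∧ maxEdges n k = G.edgeSet.ncard := by
  have h := Nat.sSup_mem (s := {e | ∃ G : SimpleGraph (Fin n), LocalConnLe G k ∧ e = G.edgeSet.ncard})
    ⟨_, ⊥, LimEx_bot k, rfl⟩ (by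
      apply Set.Finite.bddAbove
      apply (Set.finite_range (fun G : SimpleGraph (Fin n) => G.edgeSet.ncard)).subset
      rintro e ⟨G, -, rfl⟩
      exact ⟨G, rfl⟩)
  obtain ⟨G, hG, he⟩ := h
  exact ⟨G, hG, he⟩

theorem maxEdges_add (m n k : ℕ) : maxEdges m k + maxEdges n k ≤ maxEdges (m + n) k := by
  obtain ⟨G, hG, heG⟩ := LimEx_attained m k
  obtain ⟨H, hH, heH⟩ := LimEx_attained n k
  let φ := Iso.map finSumFinEquiv (G.sum H)
  have h1 := (localConn_sum hG hH).map φ
  have h2 := le_maxEdges _ h1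
  refine le_trans (le_of_eq ?_) h2
  rw [heG, heH]
  have h3 : ((G.sum H).map ⇑(finSumFinEquiv : Fin m ⊕ Fin n ≃ Fin (m + n))).edgeSet.ncard
      = (G.sum H).edgeSet.ncard := by
    rw [← Nat.card_coe_set_eq, ← Nat.card_coe_set_eq]
    exact Nat.card_congr (Iso.mapEdgeSet φ).symm
  rw [h3, ← Nat.card_coe_set_eq, ← Nat.card_coe_set_eq, ← Nat.card_coe_set_eq, ← Nat.card_sum]
  exact Nat.card_congr (edgeSetSumEquiv (G := G) (H := H)).symm

theorem exists_limit (k : ℕ) (B : ℝ) (hB : ∀ n, (maxEdges n k : ℝ) ≤ B * n) :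
    ∃ L : ℝ, Tendsto (fun n : ℕ => (maxEdges n k : ℝ) / n) atTop (𝓝 L) := by
  have hs : Subadditive (fun n : ℕ => -(maxEdges n k : ℝ)) := by
    intro m n
    have := maxEdges_add m n k
    have h2 : (maxEdges m k : ℝ) + maxEdges n k ≤ maxEdges (m + n) k := by exact_mod_cast this
    show -(maxEdges (m + n) k : ℝ) ≤ -(maxEdges m k : ℝ) + -(maxEdges n k : ℝ)
    linarith
  have hb : BddBelow (Set.range fun n : ℕ => (-(maxEdges n k : ℝ)) / n) := by
    refine ⟨-|B|, ?_⟩
    rintro _ ⟨n, rfl⟩
    rcases Nat.eq_zero_or_pos n with rfl | hn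
    · simp
    · have hn' : (0 : ℝ) < n := by exact_mod_cast hn
      show -|B| ≤ -(maxEdges n k : ℝ) / n
      rw [le_div_iff₀ hn']
      have := hB n
      have := le_abs_self B
      nlinarith
  refine ⟨-hs.lim, ?_⟩
  have h := (hs.tendsto_lim hb).neg
  refine h.congr fun n => ?_
  ring

end LKU
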