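import Pool.Agent.LKU.Num

set_option autoImplicit false
set_option linter.unusedSectionVars false

/-!
# LKU module NumA (difficulty 2): pure real inequalities

Write `t = t2`, `G = g / t`, `s = (1 + G)/(1 - g)`.

`num_one`: `1/φ + φ s ≥ 2 √s ≥ 1 + G`; without square roots: multiply the claim `G - φ s ≤ 1/φ - 1` by `φ`:
`φ^2 s - (1+G) φ + 1 ≥ 0`, a quadratic polynomial with discriminant `(1+G)^2 - 4 s = (1+G) ((1+G)(1-g) - 4)/(1-g) ≤ 0`, because
`(1+G)(1-g) ≤ 4`: `4 t - (t+g)(1-g) = 4 t - t - g (1 - t) + g^2 ≥ 0` as the discriminant of this quadratic in `g` is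
`(1-t)^2 - 12 t = (1+t)^2 - 16 t = 0` (`t2_eq`); i.e. it equals `(g - (1-t)/2)^2`.

`num_two`: `be/φ + φ s ≥ 1 + G` for `0 ≤ g ≤ 0.09`: `φ^2 s - (1+G) φ + be ≥ 0`, discriminant `(1+G)^2 - 4 be s ≤ 0` iff
`(1+G)(1-g) ≤ 4 be`; `4 be = 2(1+t) ≥ 2.14`; `(1+g/t)(1-g) ≤ (1 + 0.09/t)(0.91) ≤ 2.0508` for `g ≤ 0.09` (increasing there; numbers `t2_lo, t2_hi`).

`num_three`: `G φ^2 ≤ φ^3 s + be g` for `φ ≥ 0`, `0 ≤ g ≤ 0.09`: with `a = 2 G / (3 s)`,
`φ^3 s - G φ^2 + be g = s (φ - a)^2 (φ + a/2) + (be g - s a^3 / 2)`, and `s a^3/2 = 4 G^3/(27 s^2) ≤ be g`, i.e.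
`4 g^2 (1-g)^2 t^2 ≤ 27 be t^3 (t + g)^2`, i.e. `4 g^2 (1-g)^2 ≤ 27 be t (t+g)^2`; taking roots it is enough that `2 g (1-g) ≤ c (t+g)` with
`c^2 ≤ 27 be t`, `c = 1.0191` (`27 * 0.5358982 * 0.0717964 = 1.03885.. > 1.0191^2 = 1.03857`) and
`2 g (1-g) ≤ 1.0191 (0.0717964 + g)` for `0 ≤ g ≤ 0.09`: convex/concave: at `g = 0.09`: `0.1638 ≤ 0.16488`.
-/

open scoped Classical

noncomputable section

namespace LKU

theorem NumA_t2sq : t2 ^ 2 + 1 = 14 * t2 := by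
  have := t2_eq
  nlinarith

def NumA_M (t g p : ℝ) : ℝ := g / t - p * (1 + g / t) / (1 - g)

theorem NumA_eq {t g p : ℝ} (ht : 0 < t) (hp : 0 < p) (hg : g < 1) :
    NumA_M t g p * (p * t * (1 - g)) = p * (g * (1 - g) - p * (t + g)) := by
  have h1 : (1 - g) ≠ 0 := by linarith
  unfold NumA_M
  field_simp

theorem NumA_le_Lam {t g p : ℝ} (ht : 0 < t) (ht2 : t ^ 2 + 1 = 14 * t) (hp : 0 < p) (hg0 : 0 ≤ g)
    (hg : g < 1) : NumA_M t g p ≤ 1 / p - 1 := by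
  have hpos : 0 < p * t * (1 - g) := mul_pos (mul_pos hp ht) (by linarith)
  rw [← mul_le_mul_iff_left₀ hpos, NumA_eq ht hp hg]
  have e1 : (1 / p - 1) * (p * t * (1 - g)) = (1 - p) * (t * (1 - g)) := by
    field_simp
  rw [e1]
  have h2 : (t + g) * (1 - g) ≤ 4 * t := by nlinarith [sq_nonneg (2 * g + t - 1)]
  have h3 : 0 < t + g := by linarith
  have h4 : 0 ≤ (t + g) * (2 * p - (1 - g)) ^ 2 + (1 - g) * (4 * t - (t + g) * (1 - g)) :=
    add_nonneg (mul_nonneg h3.le (sq_nonneg _)) (mul_nonneg (by linarith) (by linarith))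
  nlinarith

theorem NumA_two_a {t g p b : ℝ} (ht1 : 0.07179 ≤ t) (ht2 : t ≤ 0.0718) (hb : 0.535898 ≤ b)
    (hp : 0 < p) (hg1 : 0 ≤ g) (hg2 : g ≤ 0.09) :
    NumA_M t g p + 0.02 ≤ b / p - 1 := by
  have ht : 0 < t := by linarith
  have hpos : 0 < p * t * (1 - g) := mul_pos (mul_pos hp ht) (by linarith)
  rw [← mul_le_mul_iff_left₀ hpos]
  have e0 := NumA_eq ht hp (by linarith : g < 1)
  have e2 : (b / p - 1) * (p * t * (1 - g)) = (b - p) * (t * (1 - g)) := by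
    field_simp
  rw [add_mul, e0, e2]
  -- (t+g) p^2 - p (1-g) (1.02 t + g) + b t (1-g) ≥ 0
  have h3 : 0 < t + g := by linarith
  have key : (1 - g) * (1.02 * t + g) ^ 2 ≤ 4 * b * t * (t + g) := by
    have h4 : (1 - g) * (1.02 * t + g) ^ 2 ≤ 4 * 0.535898 * t * (t + g) := by
      have h5 : (1 - g) * (1.02 * t + g) ≤ 4 * 0.535898 * t * (1 / 1.02) := by
        nlinarith
      have h6 : (1.02 * t + g) ≤ 1.02 * (t + g) := by linarith
      have h7 : 0 ≤ (1 - g) * (1.02 * t + g) := mul_nonneg (by linarith) (by linarith)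
      calc (1 - g) * (1.02 * t + g) ^ 2 = ((1 - g) * (1.02 * t + g)) * (1.02 * t + g) := by ring
        _ ≤ ((1 - g) * (1.02 * t + g)) * (1.02 * (t + g)) := mul_le_mul_of_nonneg_left h6 h7
        _ ≤ (4 * 0.535898 * t * (1 / 1.02)) * (1.02 * (t + g)) :=
            mul_le_mul_of_nonneg_right h5 (by linarith)
        _ = 4 * 0.535898 * t * (t + g) := by ring
    have h8 : 0 ≤ (b - 0.535898) * (t * (t + g)) :=
      mul_nonneg (by linarith) (mul_pos ht h3).le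
    nlinarith
  have h9 : 0 ≤ (2 * (t + g) * p - (1 - g) * (1.02 * t + g)) ^ 2 +
      (1 - g) * (4 * b * t * (t + g) - (1 - g) * (1.02 * t + g) ^ 2) :=
    add_nonneg (sq_nonneg _) (mul_nonneg (by linarith) (by linarith))
  have h10 : 0 ≤ (4 * (t + g)) * ((t + g) * p ^ 2 - p * (1 - g) * (1.02 * t + g)
      + b * t * (1 - g)) := by nlinarith
  have h11 := nonneg_of_mul_nonneg_right h10 (by linarith : 0 < 4 * (t + g))
  nlinarith

theorem NumA_two_b {t g p b : ℝ} (ht1 : 0.07179 ≤ t) (ht2 : t ≤ 0.0718) (hb : 0.535898 ≤ b)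
    (hp : 0 < p) (hg1 : 0 < g) (hg2 : g ≤ 0.09) :
    NumA_M t g p + 0.05 * g ≤ b * g / p ^ 2 := by
  have ht : 0 < t := by linarith
  have h1g : 0 < 1 - g := by linarith
  have hpos : 0 < p * t * (1 - g) := mul_pos (mul_pos hp ht) h1g
  have hpos' : 0 < p ^ 2 * t * (1 - g) := mul_pos (mul_pos (by positivity) ht) h1g
  rw [← mul_le_mul_iff_left₀ hpos']
  have e0 := NumA_eq ht hp (by linarith : g < 1)
  have e1 : NumA_M t g p * (p ^ 2 * t * (1 - g)) = p * (p * (g * (1 - g) - p * (t + g))) := by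
    rw [← e0]; ring
  have e2 : (b * g / p ^ 2) * (p ^ 2 * t * (1 - g)) = b * g * (t * (1 - g)) := by
    field_simp
  rw [add_mul, e1, e2]
  have h3 : 0 < t + g := by linarith
  -- tangent
  set x := 2 * g * (1 - g) * (1 + 0.05 * t) / (3 * (t + g)) with hx
  have hx0 : 0 ≤ x := by rw [hx]; positivity
  have hxe : 3 * (t + g) * x = 2 * g * (1 - g) * (1 + 0.05 * t) := by
    rw [hx]; field_simp
  have htan : 3 * x * p ^ 2 - x ^ 3 ≤ 2 * p ^ 3 := by
    nlinarith [mul_nonneg (by linarith : 0 ≤ 2 * p + x) (sq_nonneg (p - x))]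
  have hm := mul_le_mul_of_nonneg_left htan h3.le
  -- need: (t+g) x^3 ≤ 2 b g t (1-g)
  have hx2 : (t + g) * x ^ 3 ≤ 2 * b * g * t * (1 - g) := by
    have h5 : (2 * (1 + 0.05 * t) * (g * (1 - g))) ^ 2 * (1 + 0.05 * t) ≤
        27 * 0.535898 * t * (t + g) ^ 2 := by
      have hgg : 0 ≤ g * (1 - g) := by positivity
      have h6a : 2 * (1 + 0.05 * t) * (g * (1 - g)) ≤ 2.00718 * (g * (1 - g)) :=
        mul_le_mul_of_nonneg_right (by linarith) hgg
      have h6b : 2.00718 * (g * (1 - g)) ≤ 1.0169 * (0.07179 + g) := by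
        nlinarith [mul_nonneg hg1.le (sub_nonneg.2 hg2)]
      have h6 : 2 * (1 + 0.05 * t) * (g * (1 - g)) ≤ 1.0169 * (t + g) := by linarith
      have h7 : 0 ≤ 2 * (1 + 0.05 * t) * (g * (1 - g)) := by positivity
      have h8 : (2 * (1 + 0.05 * t) * (g * (1 - g))) ^ 2 ≤ (1.0169 * (t + g)) ^ 2 :=
        pow_le_pow_left₀ h7 h6 2
      have h9 : (1.0169 : ℝ) ^ 2 * (1 + 0.05 * t) ≤ 27 * 0.535898 * t := by nlinarith
      calc (2 * (1 + 0.05 * t) * (g * (1 - g))) ^ 2 * (1 + 0.05 * t)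
          ≤ (1.0169 * (t + g)) ^ 2 * (1 + 0.05 * t) :=
            mul_le_mul_of_nonneg_right h8 (by positivity)
        _ = (1.0169 ^ 2 * (1 + 0.05 * t)) * (t + g) ^ 2 := by ring
        _ ≤ (27 * 0.535898 * t) * (t + g) ^ 2 :=
            mul_le_mul_of_nonneg_right h9 (by positivity)
    -- 27 (t+g)^3 x^3 = 8 g^3 (1-g)^3 (1+.05t)^3
    have h10 : 27 * (t + g) ^ 2 * ((t + g) * x ^ 3) =
        (2 * g * (1 - g) * (1 + 0.05 * t)) ^ 3 := by
      rw [← hxe]; ring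
    have h11 : (2 * g * (1 - g) * (1 + 0.05 * t)) ^ 3 ≤
        27 * (t + g) ^ 2 * (2 * b * g * t * (1 - g)) := by
      have h12 : (2 * g * (1 - g) * (1 + 0.05 * t)) ^ 3 = 2 * (g * (1 - g)) *
          ((2 * (1 + 0.05 * t) * (g * (1 - g))) ^ 2 * (1 + 0.05 * t)) := by ring
      rw [h12]
      have h13 : 0 ≤ 2 * (g * (1 - g)) := by positivity
      have h14 := mul_le_mul_of_nonneg_left h5 h13
      have h15 : 0 ≤ (b - 0.535898) * (54 * (g * (1 - g)) * (t * (t + g) ^ 2)) :=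
        mul_nonneg (by linarith) (by positivity)
      nlinarith
    have h16 : 0 < 27 * (t + g) ^ 2 := by positivity
    rw [← h10] at h11
    exact le_of_mul_le_mul_left h11 h16
  have h17 : (t + g) * (3 * x * p ^ 2) = 2 * g * (1 - g) * (1 + 0.05 * t) * p ^ 2 := by
    rw [← hxe]; ring
  nlinarith

theorem num_one {g φ : ℝ} (hg : 0 ≤ g) (hg1 : g < 1) (hφ : 0 < φ) :
    g / t2 - φ * (1 + g / t2) / (1 - g) ≤ 1 / φ - 1 :=
  NumA_le_Lam t2_pos NumA_t2sq hφ hg hg1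

theorem num_two {g φ : ℝ} (hg : 0 ≤ g) (hg1 : g ≤ 0.09) (hφ : 0 < φ) :
    g / t2 - φ * (1 + g / t2) / (1 - g) ≤ be / φ - 1 := by
  have := NumA_two_a (t := t2) (g := g) (p := φ) (b := be) (by linarith [t2_lo])
    (by linarith [t2_hi]) (by linarith [be_lo]) hφ hg hg1
  unfold NumA_M at this
  linarith

theorem num_three {g φ : ℝ} (hg : 0 ≤ g) (hg1 : g ≤ 0.09) (hφ : 0 < φ) :
    g / t2 - φ * (1 + g / t2) / (1 - g) ≤ be * g / φ ^ 2 := by
  rcases hg.eq_or_lt with h0 | h0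
  · subst h0
    simp only [zero_div, add_zero, mul_one, sub_zero, div_one, mul_zero, zero_sub]
    linarith
  have := NumA_two_b (t := t2) (g := g) (p := φ) (b := be) (by linarith [t2_lo])
    (by linarith [t2_hi]) (by linarith [be_lo]) hφ h0 hg1
  unfold NumA_M at this
  linarith

end LKU
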