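import Pool.Agent.LKU.Num

set_option autoImplicit false
set_option linter.unusedSectionVars false

/-!
# LKU module NumB (difficulty 3): a pure real inequality

Write `t = t2 ∈ (0.0717964, 0.0717968)`. Multiplying the claim by `t φ (1 - g) > 0` it becomes `F ≥ 0` with
`F(g,φ) = t (1-g) (g - t (1-φ)) - φ (φ-t) (g (1-g) - φ (t+g))`
`       = g^2 [φ (φ-t) - t] + g [t (1 + t - t φ) - φ (φ-t) (1-φ)] + t φ^2 (φ-t) - t^2 (1-φ) =: A g^2 + B g + C`, `0.09 ≤ g < 1`, `t ≤ φ ≤ 1`.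
The margin is comfortable (the minimum of `(right - left)` of the original inequality is about `0.0142`, at `g = 0.09, φ = 0.325`), so numerical
bounds for `t` suffice.
* `φ ≤ 0.306`: `A ≤ 0` (`0.306 * (0.306 - t) < t`), so `F` is concave in `g`, hence `≥ min (F(0.09, φ), F(1, φ))`, `F(1,φ) = (1+t) φ^2 (φ-t) ≥ 0`,
  and `F(0.09, φ) ≥ 0` is a cubic in `φ` (in fact `F(0.09,φ) > 0` for all `φ ∈ [t,1]`).
* `0.306 ≤ φ ≤ 0.385`: `A, B ≥ 0`, so `F` is increasing in `g ≥ 0.09`.  (`A ≥ 0` from about `0.3063` on: choose the cut where it suits you;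
  between, `A` is tiny: `|A| ≤ 0.001`.)
* `0.385 ≤ φ ≤ 1`: `A > 0`, `C > 0`, `B^2 < 4 A C` (discriminant), e.g. at `φ = 0.4`: `A = .0595, B = -.0039, C = .00068`; at `0.6`: `.245, -.053, .0116`;
  at `0.8`: `.511, -.0437, .0324`.
(Any other proof is fine, e.g. `nlinarith` on a few subintervals of `φ`.)
-/

open scoped Classical

noncomputable section

namespace LKU

/-- the cubic minus its tangent minorant -/
theorem NumB_cube_ge (p p0 : ℝ) (hp : 0 ≤ p) : 2 * p0 * p ^ 2 - p0 ^ 2 * p ≤ p ^ 3 := by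
  nlinarith [mul_nonneg hp (sq_nonneg (p - p0))]

def NumB_P (t g p : ℝ) : ℝ :=
  (t + g) * p ^ 3 - (t * (t + g) + g * (1 - g)) * p ^ 2 + t * (1 - g) * (g + t) * p
      + t * (1 - g) * (g - t)

def NumB_E (t p0 g p : ℝ) : ℝ :=
  (t + g) * (2 * p0 * p ^ 2 - p0 ^ 2 * p) - (t * (t + g) + g * (1 - g)) * p ^ 2
      + t * (1 - g) * (g + t) * p + t * (1 - g) * (g - t)

theorem NumB_P_ge (t g p p0 : ℝ) (ht : 0 ≤ t) (hg : 0 ≤ g) (hp : 0 ≤ p) :
    NumB_E t p0 g p ≤ NumB_P t g p := by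
  have := mul_le_mul_of_nonneg_left (NumB_cube_ge p p0 hp) (add_nonneg ht hg)
  unfold NumB_P NumB_E
  linarith

/-- chord bound -/
theorem NumB_chord {t p0 a b g p c h : ℝ} (ht : 0 ≤ t) (hp : 0 ≤ p) (hab : a < b) (hga : a ≤ g)
    (hgb : g ≤ b) (hh : (b - a) ^ 2 / 4 ≤ h) (h1 : c + h * p ^ 2 ≤ NumB_E t p0 a p)
    (h2 : c + h * p ^ 2 ≤ NumB_E t p0 b p) : c ≤ NumB_E t p0 g p := by
  have hba : 0 < b - a := by linarith
  have key : (b - a) * NumB_E t p0 g p = (b - g) * NumB_E t p0 a p + (g - a) * NumB_E t p0 b p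
      - (b - a) * ((p ^ 2 - t * (1 + p)) * ((g - a) * (b - g))) := by
    unfold NumB_E; ring
  have h3 : (g - a) * (b - g) ≤ h := by nlinarith [sq_nonneg (2 * g - a - b)]
  have h4 : 0 ≤ (g - a) * (b - g) := mul_nonneg (by linarith) (by linarith)
  have h5 : (p ^ 2 - t * (1 + p)) * ((g - a) * (b - g)) ≤ h * p ^ 2 := by
    have h6 : (p ^ 2 - t * (1 + p)) * ((g - a) * (b - g)) ≤ p ^ 2 * ((g - a) * (b - g)) := by
      apply mul_le_mul_of_nonneg_right _ h4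
      nlinarith [mul_nonneg ht hp]
    nlinarith [sq_nonneg p, mul_le_mul_of_nonneg_left h3 (sq_nonneg p)]
  have h7 : (b - a) * c ≤ (b - a) * NumB_E t p0 g p := by
    rw [key]
    have e1 := mul_le_mul_of_nonneg_left h1 (sub_nonneg.2 hgb)
    have e2 := mul_le_mul_of_nonneg_left h2 (sub_nonneg.2 hga)
    have e3 := mul_le_mul_of_nonneg_left h5 hba.le
    nlinarith
  exact le_of_mul_le_mul_left h7 hba

theorem NumB_E_aux {t p : ℝ} (p0 a A B C c : ℝ) (ht1 : 0.07179 ≤ t) (ht2 : t ≤ 0.0718) (hp : 0 ≤ p)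
    (hA : ∀ s : ℝ, 0.07179 ≤ s → s ≤ 0.0718 →
      A ≤ 2 * (s + a) * p0 - (s * (s + a) + a * (1 - a)))
    (hB : ∀ s : ℝ, 0.07179 ≤ s → s ≤ 0.0718 → B ≤ s * (1 - a) * (a + s) - (s + a) * p0 ^ 2)
    (hC : ∀ s : ℝ, 0.07179 ≤ s → s ≤ 0.0718 → C ≤ s * (1 - a) * (a - s))
    (hq : c ≤ A * p ^ 2 + B * p + C) : c ≤ NumB_E t p0 a p := by
  have h1 := mul_le_mul_of_nonneg_right (hA t ht1 ht2) (sq_nonneg p)
  have h2 := mul_le_mul_of_nonneg_right (hB t ht1 ht2) hp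
  have h3 := hC t ht1 ht2
  unfold NumB_E
  nlinarith

theorem NumB_0 {t g p : ℝ} (ht1 : 0.07179 ≤ t) (ht2 : t ≤ 0.0718) (hp : 0 ≤ p) (hg1 : 0.09 ≤ g)
    (hg2 : g ≤ 0.11) : 0 ≤ NumB_P t g p := by
  have ht : 0 ≤ t := by linarith
  refine le_trans ?_ (NumB_P_ge t g p 0.33 ht (by linarith) hp)
  apply NumB_chord (a := 0.09) (b := 0.11) (h := 0.0001) ht hp (by norm_num) hg1 hg2 (by norm_num)
  · apply NumB_E_aux 0.33 0.09 (0.013265) (-0.007051) (0.001188) _ ht1 ht2 hp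
    · intro s h1 h2; nlinarith
    · intro s h1 h2; nlinarith
    · intro s h1 h2; nlinarith
    · nlinarith [sq_nonneg (p - 0.268)]
  · apply NumB_E_aux 0.33 0.11 (0.009029) (-0.008183) (0.002440) _ ht1 ht2 hp
    · intro s h1 h2; nlinarith
    · intro s h1 h2; nlinarith
    · intro s h1 h2; nlinarith
    · nlinarith [sq_nonneg (p - 0.458)]

theorem NumB_1 {t g p : ℝ} (ht1 : 0.07179 ≤ t) (ht2 : t ≤ 0.0718) (hp : 0 ≤ p) (hg1 : 0.11 ≤ g)
    (hg2 : g ≤ 0.15) : 0 ≤ NumB_P t g p := by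
  have ht : 0 ≤ t := by linarith
  refine le_trans ?_ (NumB_P_ge t g p 0.35 ht (by linarith) hp)
  apply NumB_chord (a := 0.11) (b := 0.15) (h := 0.0004) ht hp (by norm_num) hg1 hg2 (by norm_num)
  · apply NumB_E_aux 0.35 0.11 (0.016301) (-0.010656) (0.002440) _ ht1 ht2 hp
    · intro s h1 h2; nlinarith
    · intro s h1 h2; nlinarith
    · intro s h1 h2; nlinarith
    · nlinarith [sq_nonneg (p - 0.335)]
  · apply NumB_E_aux 0.35 0.15 (0.011829) (-0.013637) (0.004771) _ ht1 ht2 hp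
    · intro s h1 h2; nlinarith
    · intro s h1 h2; nlinarith
    · intro s h1 h2; nlinarith
    · nlinarith [sq_nonneg (p - 0.597)]

theorem NumB_2 {t g p : ℝ} (ht1 : 0.07179 ≤ t) (ht2 : t ≤ 0.0718) (hp : 0 ≤ p) (hg1 : 0.15 ≤ g)
    (hg2 : g ≤ 0.25) : 0 ≤ NumB_P t g p := by
  have ht : 0 ≤ t := by linarith
  refine le_trans ?_ (NumB_P_ge t g p 0.39 ht (by linarith) hp)
  apply NumB_chord (a := 0.15) (b := 0.25) (h := 0.0025) ht hp (by norm_num) hg1 hg2 (by norm_num)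
  · apply NumB_E_aux 0.39 0.15 (0.029572) (-0.020202) (0.004771) _ ht1 ht2 hp
    · intro s h1 h2; nlinarith
    · intro s h1 h2; nlinarith
    · intro s h1 h2; nlinarith
    · nlinarith [sq_nonneg (p - 0.373)]
  · apply NumB_E_aux 0.39 0.25 (0.040393) (-0.031620) (0.009594) _ ht1 ht2 hp
    · intro s h1 h2; nlinarith
    · intro s h1 h2; nlinarith
    · intro s h1 h2; nlinarith
    · nlinarith [sq_nonneg (p - 0.417)]

theorem NumB_3 {t g p : ℝ} (ht1 : 0.07179 ≤ t) (ht2 : t ≤ 0.0718) (hp : 0 ≤ p) (hg1 : 0.25 ≤ g)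
    (hg2 : g ≤ 0.4) : 0 ≤ NumB_P t g p := by
  have ht : 0 ≤ t := by linarith
  refine le_trans ?_ (NumB_P_ge t g p 0.4 ht (by linarith) hp)
  apply NumB_chord (a := 0.25) (b := 0.4) (h := 0.005625) ht hp (by norm_num) hg1 hg2 (by norm_num)
  · apply NumB_E_aux 0.4 0.25 (0.046829) (-0.034162) (0.009594) _ ht1 ht2 hp
    · intro s h1 h2; nlinarith
    · intro s h1 h2; nlinarith
    · intro s h1 h2; nlinarith
    · nlinarith [sq_nonneg (p - 0.415)]
  · apply NumB_E_aux 0.4 0.4 (0.103561) (-0.055166) (0.014136) _ ht1 ht2 hp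
    · intro s h1 h2; nlinarith
    · intro s h1 h2; nlinarith
    · intro s h1 h2; nlinarith
    · nlinarith [sq_nonneg (p - 0.282)]

theorem NumB_4 {t g p : ℝ} (ht1 : 0.07179 ≤ t) (ht2 : t ≤ 0.0718) (hp : 0 ≤ p) (hg1 : 0.4 ≤ g)
    (hg2 : g ≤ 0.6) : 0 ≤ NumB_P t g p := by
  have ht : 0 ≤ t := by linarith
  refine le_trans ?_ (NumB_P_ge t g p 0.36 ht (by linarith) hp)
  apply NumB_chord (a := 0.4) (b := 0.6) (h := 0.01) ht hp (by norm_num) hg1 hg2 (by norm_num)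
  · apply NumB_E_aux 0.36 0.4 (0.065817) (-0.040824) (0.014136) _ ht1 ht2 hp
    · intro s h1 h2; nlinarith
    · intro s h1 h2; nlinarith
    · intro s h1 h2; nlinarith
    · nlinarith [sq_nonneg (p - 0.366)]
  · apply NumB_E_aux 0.36 0.6 (0.195459) (-0.067774) (0.015167) _ ht1 ht2 hp
    · intro s h1 h2; nlinarith
    · intro s h1 h2; nlinarith
    · intro s h1 h2; nlinarith
    · nlinarith [sq_nonneg (p - 0.183)]

theorem NumB_5 {t g p : ℝ} (ht1 : 0.07179 ≤ t) (ht2 : t ≤ 0.0718) (hp : 0 ≤ p) (hg1 : 0.6 ≤ g)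
    (hg2 : g ≤ 0.8) : 0 ≤ NumB_P t g p := by
  have ht : 0 ≤ t := by linarith
  refine le_trans ?_ (NumB_P_ge t g p 0.3 ht (by linarith) hp)
  apply NumB_chord (a := 0.6) (b := 0.8) (h := 0.01) ht hp (by norm_num) hg1 hg2 (by norm_num)
  · apply NumB_E_aux 0.3 0.6 (0.114843) (-0.041171) (0.015167) _ ht1 ht2 hp
    · intro s h1 h2; nlinarith
    · intro s h1 h2; nlinarith
    · intro s h1 h2; nlinarith
    · nlinarith [sq_nonneg (p - 0.196)]
  · apply NumB_E_aux 0.3 0.8 (0.300483) (-0.065945) (0.010454) _ ht1 ht2 hp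
    · intro s h1 h2; nlinarith
    · intro s h1 h2; nlinarith
    · intro s h1 h2; nlinarith
    · nlinarith [sq_nonneg (p - 0.114)]

theorem NumB_6 {t g p : ℝ} (ht1 : 0.07179 ≤ t) (ht2 : t ≤ 0.0718) (hp : 0 ≤ p) (hg1 : 0.8 ≤ g)
    (hg2 : g ≤ 0.9) : 0 ≤ NumB_P t g p := by
  have ht : 0 ≤ t := by linarith
  refine le_trans ?_ (NumB_P_ge t g p 0.2 ht (by linarith) hp)
  apply NumB_chord (a := 0.8) (b := 0.9) (h := 0.0025) ht hp (by norm_num) hg1 hg2 (by norm_num)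
  · apply NumB_E_aux 0.2 0.8 (0.126123) (-0.022356) (0.010454) _ ht1 ht2 hp
    · intro s h1 h2; nlinarith
    · intro s h1 h2; nlinarith
    · intro s h1 h2; nlinarith
    · nlinarith [sq_nonneg (p - 0.09)]
  · apply NumB_E_aux 0.2 0.9 (0.228943) (-0.031897) (0.005944) _ ht1 ht2 hp
    · intro s h1 h2; nlinarith
    · intro s h1 h2; nlinarith
    · intro s h1 h2; nlinarith
    · nlinarith [sq_nonneg (p - 0.07)]

theorem NumB_7 {t g p : ℝ} (ht1 : 0.07179 ≤ t) (ht2 : t ≤ 0.0718) (hp : t ≤ p) (hg1 : 0.9 ≤ g)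
    (hg2 : g ≤ 1) : 0 ≤ NumB_P t g p := by
  have hg1' : 0 ≤ 1 - g := by linarith
  have ht : 0 ≤ t := by linarith
  have e : NumB_P t g p = p ^ 2 * ((t + g) * (p - t) - g * (1 - g)) +
      (1 - g) * (t * ((g + t) * p + g - t)) := by unfold NumB_P; ring
  rw [e]
  have h3 : 0 ≤ t * ((g + t) * p + g - t) := by
    apply mul_nonneg ht
    have : 0 ≤ (g + t) * p := mul_nonneg (by linarith) (by linarith)
    linarith
  rcases le_total (g * (1 - g)) ((t + g) * (p - t)) with h | h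
  · exact add_nonneg (mul_nonneg (sq_nonneg p) (by linarith)) (mul_nonneg hg1' h3)
  · have hpt : p - t ≤ 1 - g := by
      by_contra hcon
      push Not at hcon
      nlinarith
    have hp2 : p ≤ 0.1718 := by linarith
    have hp0 : 0 ≤ p := by linarith
    have h4 : p ^ 2 ≤ 0.03 := by nlinarith
    have h5 : 0.05 ≤ t * ((g + t) * p + g - t) := by
      have h6 : 0.8 ≤ (g + t) * p + g - t := by
        have : 0 ≤ (g + t) * p := mul_nonneg (by linarith) hp0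
        linarith
      nlinarith
    have h7 : - (1 - g) ≤ (t + g) * (p - t) - g * (1 - g) := by
      have : 0 ≤ (t + g) * (p - t) := mul_nonneg (by linarith) (by linarith)
      nlinarith
    have h8 : p ^ 2 * (- (1 - g)) ≤ p ^ 2 * ((t + g) * (p - t) - g * (1 - g)) :=
      mul_le_mul_of_nonneg_left h7 (sq_nonneg p)
    have h9 := mul_le_mul_of_nonneg_left h5 hg1'
    have h10 := mul_le_mul_of_nonneg_right h4 hg1'
    nlinarith

theorem NumB_all {t g p : ℝ} (ht1 : 0.07179 ≤ t) (ht2 : t ≤ 0.0718) (hp : t ≤ p)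
    (hg1 : 0.09 ≤ g) (hg2 : g ≤ 1) : 0 ≤ NumB_P t g p := by
  have hp0 : 0 ≤ p := by linarith
  rcases le_total g 0.11 with h | h
  · exact NumB_0 ht1 ht2 hp0 hg1 h
  rcases le_total g 0.15 with h' | h'
  · exact NumB_1 ht1 ht2 hp0 h h'
  rcases le_total g 0.25 with h2 | h2
  · exact NumB_2 ht1 ht2 hp0 h' h2
  rcases le_total g 0.4 with h3 | h3
  · exact NumB_3 ht1 ht2 hp0 h2 h3
  rcases le_total g 0.6 with h4 | h4
  · exact NumB_4 ht1 ht2 hp0 h3 h4
  rcases le_total g 0.8 with h5 | h5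
  · exact NumB_5 ht1 ht2 hp0 h4 h5
  rcases le_total g 0.9 with h6 | h6
  · exact NumB_6 ht1 ht2 hp0 h5 h6
  · exact NumB_7 ht1 ht2 hp h6 hg2

theorem num_four {g φ : ℝ} (hg : 0.09 ≤ g) (hg1 : g < 1) (hφ : t2 < φ) (hφ1 : φ ≤ 1) :
    (φ - t2) * (g / t2 - φ * (1 + g / t2) / (1 - g)) ≤ g + (g - t2) * (1 / φ - 1) := by
  have ht : 0 < t2 := t2_pos
  have hφ0 : 0 < φ := by linarith
  have h1g : 0 < 1 - g := by linarith
  have hpos : 0 < φ * t2 * (1 - g) := mul_pos (mul_pos hφ0 ht) h1g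
  rw [← mul_le_mul_iff_left₀ hpos]
  have e0 : (g / t2 - φ * (1 + g / t2) / (1 - g)) * (φ * t2 * (1 - g)) =
      φ * (g * (1 - g) - φ * (t2 + g)) := by
    have h1 : (1 - g) ≠ 0 := h1g.ne'
    field_simp
  have e1 : (φ - t2) * (g / t2 - φ * (1 + g / t2) / (1 - g)) * (φ * t2 * (1 - g)) =
      (φ - t2) * (φ * (g * (1 - g) - φ * (t2 + g))) := by
    rw [mul_assoc, e0]
  have e2 : (g + (g - t2) * (1 / φ - 1)) * (φ * t2 * (1 - g)) =
      g * (φ * t2 * (1 - g)) + (g - t2) * ((1 - φ) * (t2 * (1 - g))) := by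
    field_simp
  rw [e1, e2]
  have h1 := NumB_all (t := t2) (g := g) (p := φ) (by linarith [t2_lo]) (by linarith [t2_hi])
    hφ.le hg hg1.le
  unfold NumB_P at h1
  nlinarith

end LKU
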