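import Pool.Agent.LKU.NumA
import Pool.Agent.LKU.NumB

set_option autoImplicit false
set_option linter.unusedSectionVars false

/-!
# LKU module NumC (difficulty 2)

`num_guar`. Write `M = g/t2 - φ (1+g/t2)/(1-g)`. First alternative of `Guar`: `M ≤ 1/φ - 1` (`num_one`).
Second alternative. If `g ≤ 0.09`: either `be/φ - 1 - e ≤ l`, use `num_two`; or `be g - e ≤ φ^2 l`, so
`l ≥ be g/φ^2 - e/φ^2 ≥ M - 3600 e` (`num_three`, `φ ≥ 1/60`).
If `g > 0.09 > t2`: `g + (g - t2)(1/φ - 1) - e ≤ (φ - t2) l`. If `φ > 1`: `M ≤ g/t2 - (1 + g/t2)/(1-g) ≤ 0` (as `1/(1-g) ≥ 1`), fine since `l ≥ 0`.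
If `φ ≤ 1` the left side is `≥ 0.09 - e ≥ 0.08`, so `φ > t2`; if `φ - t2 ≤ 0.005` then
`l ≥ 0.08/0.005 = 16 ≥ 1/t2 ≥ g / t2 ≥ M`. Otherwise `(φ - t2) M ≤ g + (g-t2)(1/φ-1) ≤ (φ-t2) l + e` (`num_four`), so `M ≤ l + 200 e`.

`sfun_mono`: `(1+g/t2)/(1-g)` is increasing for `g < 1`, `g ≥ 0`.
-/

open scoped Classical

noncomputable section

namespace LKU

theorem num_guar {g φ l e : ℝ} (hg : 0 ≤ g) (hg1 : g < 1) (hφ : 1 / 60 ≤ φ) (hl : 0 ≤ l) (he : 0 < e)
    (he1 : e ≤ 0.01) (h : Guar e g φ l) :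
    g / t2 - φ * ((1 + g / t2) / (1 - g)) ≤ l + 4000 * e := by
  have ht : 0 < t2 := t2_pos
  have hφ0 : 0 < φ := by linarith
  have h1g : 0 < 1 - g := by linarith
  rw [← mul_div_assoc]
  set m := g / t2 - φ * (1 + g / t2) / (1 - g) with hm
  rcases h with h | ⟨h1, h2⟩
  · have := num_one hg hg1 hφ0
    linarith
  rcases le_or_gt g 0.09 with h9 | h9
  · rcases h2 with h2 | h2
    · have := num_two hg h9 hφ0
      linarith
    · have h3 := num_three hg h9 hφ0
      have hp2 : 0 < φ ^ 2 := by positivity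
      have h4 : m * φ ^ 2 ≤ be * g := by
        rwa [le_div_iff₀ hp2] at h3
      have h5 : e ≤ 3600 * e * φ ^ 2 := by
        have : (1 / 60 : ℝ) ^ 2 ≤ φ ^ 2 := pow_le_pow_left₀ (by norm_num) hφ 2
        nlinarith
      have h6 : φ ^ 2 * m ≤ φ ^ 2 * (l + 3600 * e) := by nlinarith
      have := le_of_mul_le_mul_left h6 hp2
      linarith
  · have hgt : t2 ≤ g := by linarith [t2_hi]
    have h3 := h1 hgt
    rcases le_or_gt φ 1 with hφ1 | hφ1
    · have h7 : 0 ≤ (g - t2) * (1 / φ - 1) := by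
        apply mul_nonneg (by linarith)
        rw [sub_nonneg, le_div_iff₀ hφ0]
        linarith
      have h8 : 0.08 ≤ (φ - t2) * l := by linarith
      have hpt : 0 < φ - t2 := by
        by_contra hcon
        push Not at hcon
        have h6 : (φ - t2) * l ≤ 0 := mul_nonpos_of_nonpos_of_nonneg hcon hl
        linarith
      rcases le_or_gt (φ - t2) 0.005 with h5 | h5
      · have hl16 : 16 ≤ l := by
          by_contra hcon
          push Not at hcon
          nlinarith
        have hm1 : m ≤ g / t2 := by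
          rw [hm]
          have : 0 ≤ φ * (1 + g / t2) / (1 - g) := by positivity
          linarith
        have hm2 : g / t2 ≤ 16 := by
          rw [div_le_iff₀ ht]
          linarith [t2_lo]
        linarith
      · have h6 := num_four h9.le hg1 (by linarith : t2 < φ) hφ1
        have h10 : (φ - t2) * m ≤ (φ - t2) * (l + 200 * e) := by
          have : (φ - t2) * m ≤ (φ - t2) * l + e := by linarith
          nlinarith
        have := le_of_mul_le_mul_left h10 hpt
        linarith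
    · have hm0 : m ≤ 0 := by
        have h4 : 1 + g / t2 ≤ φ * (1 + g / t2) / (1 - g) := by
          rw [le_div_iff₀ h1g]
          have : 0 ≤ g / t2 := div_nonneg hg ht.le
          nlinarith [mul_nonneg hg this]
        rw [hm]
        have : 0 ≤ g / t2 := div_nonneg hg ht.le
        linarith
      linarith

theorem sfun_mono {g g' : ℝ} (hg : 0 ≤ g) (hgg : g ≤ g') (hg1 : g' < 1) :
    (1 + g / t2) / (1 - g) ≤ (1 + g' / t2) / (1 - g') := by
  have ht : 0 < t2 := t2_pos
  have h3 : g / t2 ≤ g' / t2 := div_le_div_of_nonneg_right hgg ht.le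
  have h4 : 0 ≤ g / t2 := div_nonneg hg ht.le
  apply div_le_div₀ _ _ (by linarith) (by linarith)
  · linarith
  · linarith

end LKU
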