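import Pool.Agent.LocalConn.Basic

set_option autoImplicit false
set_option linter.unusedSectionVars false

/-!
# LKU module SumConn (difficulty 2): local connectivity of disjoint unions

`walk_inl`: a walk of `G.sum H` starting at `inl x` ends at some `inl y` and is the image of a walk of `G` (induction on the walk):
`∃ y, z = inl y ∧ ∃ q : G.Walk x y, p.support = q.support.map Sum.inl`. Similarly for `inr` (or use the symmetry isomorphism `Iso.sumComm` and `LocalConnLe.map`).

`localConn_sum`: let `x ≠ y` and `HasPaths (G.sum H) x y m`. If `x, y` are on different sides then there is no walk, so `m = 0`. If `x = inl a`, `y = inl b`: replace each path by the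
path `q i` of `G` (`q.support` has no duplicates because its image `p.support` has none, and `Sum.inl` is injective), distinct (`Walk.ext_support` or: equal supports would
make the images equal) and internally disjoint. So `m ≤ k`.
-/

namespace LKU

open SimpleGraph Pool.Agent.LocalConn

theorem SumConn_walk_inl {V W : Type} {G : SimpleGraph V} {H : SimpleGraph W}
    {z z' : V ⊕ W} (p : (G.sum H).Walk z z') : ∀ {x : V}, z = Sum.inl x →
      ∃ y, z' = Sum.inl y ∧ ∃ q : G.Walk x y, p.support = q.support.map Sum.inl := by
  induction p with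
  | nil =>
    intro x hx
    exact ⟨x, hx, Walk.nil, by simp [hx]⟩
  | @cons u v w hadj p ih =>
    intro x hx
    subst hx
    rcases v with v | v
    · have h1 : G.Adj x v := hadj
      obtain ⟨y, hy, q, hq⟩ := ih rfl
      exact ⟨y, hy, Walk.cons h1 q, by simp [hq]⟩
    · exact absurd hadj (by simp)

theorem SumConn_aux {V W : Type} {G : SimpleGraph V} {H : SimpleGraph W} {a b : V} {m : ℕ}
    (hp : HasPaths (G.sum H) (Sum.inl a) (Sum.inl b) m) : HasPaths G a b m := by
  obtain ⟨p, hpi, hd⟩ := hp
  have h1 : ∀ i, ∃ q : G.Walk a b, (p i).1.support = q.support.map Sum.inl := by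
    intro i
    obtain ⟨y, hy, q, hq⟩ := SumConn_walk_inl (p i).1 rfl
    have : b = y := Sum.inl_injective hy
    subst this
    exact ⟨q, hq⟩
  choose q hq using h1
  have h2 : ∀ i, (q i).IsPath := by
    intro i
    rw [Walk.isPath_def]
    have := (p i).2.support_nodup
    rw [hq i] at this
    exact List.Nodup.of_map _ this
  refine ⟨fun i => ⟨q i, h2 i⟩, ?_, ?_⟩
  · intro i j hij
    apply hpi
    apply Subtype.ext
    apply Walk.ext_support
    rw [hq i, hq j]
    have : q i = q j := congrArg Subtype.val hij
    rw [this]
  · intro i j hij v hv hv'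
    have h3 : Sum.inl v ∈ (p i).1.support := by
      rw [hq i]; exact List.mem_map_of_mem hv
    have h4 : Sum.inl v ∈ (p j).1.support := by
      rw [hq j]; exact List.mem_map_of_mem hv'
    rcases hd i j hij _ h3 h4 with h | h
    · exact Or.inl (Sum.inl_injective h)
    · exact Or.inr (Sum.inl_injective h)

theorem localConn_sum {V W : Type} {G : SimpleGraph V} {H : SimpleGraph W} {k : ℕ}
    (hG : LocalConnLe G k) (hH : LocalConnLe H k) : LocalConnLe (G.sum H) k := by
  intro x y hxy m hm
  have hno : ∀ (a : V) (b : W) (G' : SimpleGraph V) (H' : SimpleGraph W),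
      (G'.sum H').Walk (Sum.inl a) (Sum.inr b) → False := by
    intro a b G' H' p
    obtain ⟨y, hy, -⟩ := SumConn_walk_inl p rfl
    cases hy
  rcases x with a | a <;> rcases y with b | b
  · exact hG a b (fun h => hxy (by rw [h])) m (SumConn_aux hm)
  · rcases Nat.eq_zero_or_pos m with h0 | h0
    · omega
    · obtain ⟨p, -, -⟩ := hm
      exact (hno a b G H (p ⟨0, h0⟩).1).elim
  · rcases Nat.eq_zero_or_pos m with h0 | h0
    · omega
    · obtain ⟨p, -, -⟩ := hm
      exact (hno b a G H (p ⟨0, h0⟩).1.reverse).elim
  · have h1 := hm.map (Iso.sumComm (G := G) (H := H))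
    have h2 : HasPaths (H.sum G) (Sum.inl a) (Sum.inl b) m := h1
    exact hH a b (fun h => hxy (by rw [h])) m (SumConn_aux h2)

end LKU
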